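import Pool.Agent.RN2.Defs

/-!
# RN2.Bs: basic facts

`b = toU D.a` has `A = 1`, `UNL.de b d = UNI.xx D.a d` (`de_toU`), `UNL.tau b = UNI.om D.a` (`tau_toU`).
-/

open RNK

namespace RN2

noncomputable section

variable {D : OD}

/-! ### coordinates -/

private theorem bs_om_im (a : UNI.Par) : 0 < (UNI.om a).im := by
  have h1 := UNL.tau_im_pos (toU a)
  rwa [tau_toU] at h1

private theorem bs_xx_im (a : UNI.Par) (m : ℤ × ℤ) : (UNI.xx a m).im = m.2 * (UNI.om a).im := by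
  simp [UNI.xx]

private theorem bs_xx_re (a : UNI.Par) (m : ℤ × ℤ) :
    (UNI.xx a m).re = m.1 + m.2 * (UNI.om a).re := by
  simp [UNI.xx]

private theorem bs_xx0 (a : UNI.Par) {m : ℤ × ℤ} (h : UNI.xx a m = 0) : m = 0 := by
  have h1 := bs_om_im a
  have h2 := bs_xx_im a m
  have h3 := bs_xx_re a m
  rw [h, Complex.zero_im] at h2
  rw [h, Complex.zero_re] at h3
  have h4 : (m.2 : ℝ) = 0 := (mul_eq_zero.1 h2.symm).resolve_right h1.ne'
  rw [h4, zero_mul, add_zero] at h3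
  have h5 : m.2 = 0 := by exact_mod_cast h4
  have h6 : m.1 = 0 := by exact_mod_cast h3.symm
  exact Prod.ext h6 h5

private theorem bs_xx_inj (a : UNI.Par) {m n : ℤ × ℤ} (h : UNI.xx a m = UNI.xx a n) : m = n := by
  have h1 : UNI.xx a (m + -n) = 0 := by
    rw [xx_add, xx_neg, h, add_neg_cancel]
  have h2 := bs_xx0 a h1
  rwa [← sub_eq_add_neg, sub_eq_zero] at h2

private theorem cod_unique {x : D.O} {m : ℤ × ℤ} (h : (x : ℂ) = UNI.xx D.a m) : cod D x = m := by
  apply bs_xx_inj D.a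
  rw [xx_cod, h]

theorem cod_el (m : ℤ × ℤ) : cod D (el D m) = m := cod_unique rfl

/-- coordinates as an equivalence -/
def elE (D : OD) : ℤ × ℤ ≃ D.O where
  toFun := el D
  invFun := cod D
  left_inv := cod_el
  right_inv := el_cod D

theorem el_add (m n : ℤ × ℤ) : el D (m + n) = el D m + el D n :=
  Subtype.ext (xx_add D.a m n)

theorem el_zero : el D 0 = 0 :=
  Subtype.ext (by simp [el, UNI.xx])

private theorem cod_mul (x y : D.O) : cod D (x * y) = mulc D.a (cod D x) (cod D y) :=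
  cod_unique (by rw [xx_mul, xx_cod, xx_cod]; rfl)

private theorem cod_add (x y : D.O) : cod D (x + y) = cod D x + cod D y :=
  cod_unique (by rw [xx_add, xx_cod, xx_cod]; rfl)

private theorem cod_one : cod D (1 : D.O) = (1, 0) :=
  cod_unique (by simp [UNI.xx])

private theorem cod_zero : cod D (0 : D.O) = 0 :=
  cod_unique (by simp [UNI.xx])

private theorem cod_neg (x : D.O) : cod D (-x) = -cod D x :=
  cod_unique (by rw [xx_neg, xx_cod]; rfl)

private theorem cod_nat (n : ℕ) : cod D (n : D.O) = ((n : ℤ), 0) :=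
  cod_unique (by simp [UNI.xx])

theorem nn_mul (x y : D.O) : nn D (x * y) = nn D x * nn D y := by
  have h1 := nn_mul_cj D x
  have h2 := nn_mul_cj D y
  have h3 := nn_mul_cj D (x * y)
  have h4 : ((nn D (x * y) : ℕ) : ℂ) = ((nn D x * nn D y : ℕ) : ℂ) := by
    rw [← h3, Nat.cast_mul, ← h1, ← h2, Subring.coe_mul, map_mul]
    ring
  exact_mod_cast h4

theorem nn_eq_zero {x : D.O} : nn D x = 0 ↔ x = 0 := by
  have h := nn_real D x
  constructor
  · intro h0
    rw [h0, Nat.cast_zero] at h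
    have h1 : ‖(x : ℂ)‖ = 0 := by
      have := pow_eq_zero_iff (n := 2) two_ne_zero |>.1 h.symm
      exact this
    exact Subtype.ext (norm_eq_zero.1 h1)
  · rintro rfl
    have h1 : ((nn D (0 : D.O) : ℕ) : ℝ) = 0 := by
      rw [h]
      simp
    exact_mod_cast h1

theorem nn_eq_one {x : D.O} : nn D x = 1 ↔ IsUnit x := by
  constructor
  · intro h
    have h1 := nn_mul_cj D x
    rw [h, Nat.cast_one] at h1
    exact IsUnit.of_mul_eq_one (⟨(starRingEnd ℂ) (x : ℂ), cj_Ord x.2⟩ : D.O) (Subtype.ext h1)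
  · intro h
    obtain ⟨y, hy⟩ := h.exists_right_inv
    have h1 : nn D x * nn D y = 1 := by
      rw [← nn_mul, hy]
      have h2 : ((nn D (1 : D.O) : ℕ) : ℝ) = 1 := by
        rw [nn_real]
        simp
      exact_mod_cast h2
    exact Nat.eq_one_of_mul_eq_one_right h1

theorem nn_fin (M : ℕ) : {x : D.O | nn D x ≤ M}.Finite := by
  have him := bs_om_im D.a
  obtain ⟨B, hB⟩ := exists_nat_gt (Real.sqrt M / (UNI.om D.a).im)
  obtain ⟨B', hB'⟩ := exists_nat_gt (Real.sqrt M + B * |(UNI.om D.a).re|)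
  have hfin : (Set.Icc (-(B' : ℤ)) B' ×ˢ Set.Icc (-(B : ℤ)) B).Finite :=
    (Set.finite_Icc _ _).prod (Set.finite_Icc _ _)
  refine (hfin.image (el D)).subset ?_
  intro x hx
  have hx' : nn D x ≤ M := hx
  have h1 : ‖(x : ℂ)‖ ≤ Real.sqrt M := by
    apply Real.le_sqrt_of_sq_le
    rw [← nn_real]
    exact_mod_cast hx'
  refine ⟨cod D x, ?_, el_cod D x⟩
  have h2 : |((cod D x).2 : ℝ)| * (UNI.om D.a).im ≤ Real.sqrt M := by
    have h3 := Complex.abs_im_le_norm (x : ℂ)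
    rw [← xx_cod, bs_xx_im, abs_mul, abs_of_pos him, xx_cod] at h3
    exact h3.trans h1
  have h4 : |((cod D x).2 : ℝ)| ≤ B := by
    have h5 : |((cod D x).2 : ℝ)| ≤ Real.sqrt M / (UNI.om D.a).im := by
      rw [le_div_iff₀ him]
      exact h2
    exact h5.trans hB.le
  have h6 : |((cod D x).1 : ℝ)| ≤ B' := by
    have h7 := Complex.abs_re_le_norm (x : ℂ)
    rw [← xx_cod, bs_xx_re, xx_cod] at h7
    have h8 : |((cod D x).1 : ℝ)| ≤
        |((cod D x).1 : ℝ) + (cod D x).2 * (UNI.om D.a).re| +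
          |((cod D x).2 : ℝ)| * |(UNI.om D.a).re| := by
      have h9 : ((cod D x).1 : ℝ) = (((cod D x).1 : ℝ) + (cod D x).2 * (UNI.om D.a).re) -
        (cod D x).2 * (UNI.om D.a).re := by ring
      have h10 := abs_sub (((cod D x).1 : ℝ) + (cod D x).2 * (UNI.om D.a).re)
        ((cod D x).2 * (UNI.om D.a).re)
      rw [← h9, abs_mul] at h10
      exact h10
    have h11 : |((cod D x).2 : ℝ)| * |(UNI.om D.a).re| ≤ B * |(UNI.om D.a).re| :=
      mul_le_mul_of_nonneg_right h4 (abs_nonneg _)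
    linarith
  rw [Set.mem_prod, Set.mem_Icc, Set.mem_Icc]
  have h12 : |(cod D x).1| ≤ (B' : ℤ) := by exact_mod_cast h6
  have h13 : |(cod D x).2| ≤ (B : ℤ) := by exact_mod_cast h4
  exact ⟨abs_le.1 h12, abs_le.1 h13⟩

instance pir (D : OD) : IsPrincipalIdealRing D.O := by
  refine ⟨fun I => ?_⟩
  by_cases hI : ∃ x ∈ I, x ≠ 0
  · have hex : ∃ n : ℕ, ∃ x ∈ I, x ≠ 0 ∧ nn D x = n := by
      obtain ⟨x, hx, h0⟩ := hI
      exact ⟨nn D x, x, hx, h0, rfl⟩
    classical
    obtain ⟨x, hx, hx0, hxn⟩ := Nat.find_spec hex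
    have hmin : ∀ y ∈ I, y ≠ 0 → nn D x ≤ nn D y := by
      intro y hy hy0
      rw [hxn]
      exact Nat.find_min' hex ⟨y, hy, hy0, rfl⟩
    refine ⟨x, le_antisymm ?_ ?_⟩
    · intro y hy
      obtain ⟨u, hu, v, hv, ⟨x', hx', e1⟩, ⟨y', hy', e2⟩⟩ := D.bez x x.2 y y.2
      set g : D.O := ⟨u, hu⟩ * x + ⟨v, hv⟩ * y with hg
      have hgI : g ∈ I := I.add_mem (I.mul_mem_left _ hx) (I.mul_mem_left _ hy)
      have e1' : x = g * ⟨x', hx'⟩ := Subtype.ext e1
      have e2' : y = g * ⟨y', hy'⟩ := Subtype.ext e2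
      have hg0 : g ≠ 0 := by
        intro h
        rw [h, zero_mul] at e1'
        exact hx0 e1'
      have h1 := hmin g hgI hg0
      have h2 : nn D x = nn D g * nn D ⟨x', hx'⟩ := by
        rw [← nn_mul, ← e1']
      have h3 : nn D x ≠ 0 := fun h => hx0 (nn_eq_zero.1 h)
      have h4 : nn D (⟨x', hx'⟩ : D.O) = 1 := by
        have h5 : 0 < nn D g := Nat.pos_of_ne_zero fun h => hg0 (nn_eq_zero.1 h)
        have h6 : nn D (⟨x', hx'⟩ : D.O) ≠ 0 := by
          intro h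
          rw [h, mul_zero] at h2
          exact h3 h2
        have h7 : nn D g * nn D (⟨x', hx'⟩ : D.O) ≤ nn D g * 1 := by
          rw [← h2, mul_one]
          exact h1
        have h8 := Nat.le_of_mul_le_mul_left h7 h5
        omega
      obtain ⟨w, hw⟩ := (nn_eq_one.1 h4).exists_right_inv
      have h9 : g = w * x := by
        calc g = g * (⟨x', hx'⟩ * w) := by rw [hw, mul_one]
          _ = w * (g * ⟨x', hx'⟩) := by ring
          _ = w * x := by rw [← e1']
      rw [Submodule.mem_span_singleton]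
      refine ⟨⟨y', hy'⟩ * w, ?_⟩
      rw [smul_eq_mul]
      calc (⟨y', hy'⟩ : D.O) * w * x = (w * x) * ⟨y', hy'⟩ := by ring
        _ = y := by rw [← h9, ← e2']
    · rw [Submodule.span_singleton_le_iff_mem]
      exact hx
  · refine ⟨0, le_antisymm ?_ ?_⟩
    · intro y hy
      have h0 : y = 0 := by
        by_contra h
        exact hI ⟨y, hy, h⟩
      rw [h0]
      exact Submodule.zero_mem _
    · rw [Submodule.span_singleton_le_iff_mem]
      exact I.zero_mem

instance finU (D : OD) : Finite D.Oˣ := by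
  have h := (nn_fin (D := D) 1).to_subtype
  refine Finite.of_injective (fun u : D.Oˣ => (⟨(u : D.O), ?_⟩ : {x : D.O | nn D x ≤ 1})) ?_
  · exact (nn_eq_one.2 u.isUnit).le
  · intro u v huv
    have := congrArg Subtype.val huv
    exact Units.ext this

/-! ### the action -/

variable {N : ℕ} [NeZero N]

theorem ac_el (m : ℤ × ℤ) (k : UNL.G N) : ac (el D m) k = UNL.sm (toU D.a) m k := by
  rw [ac, cod_el]

theorem ac_one (k : UNL.G N) : ac (1 : D.O) k = k := by
  rw [ac, cod_one]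
  refine Prod.ext ?_ ?_
  · simp [UNL.sm]
  · simp [UNL.sm]

theorem ac_mul (x y : D.O) (k : UNL.G N) : ac (x * y) k = ac x (ac y k) := by
  rw [ac, ac, ac, cod_mul]
  refine Prod.ext ?_ ?_
  · simp only [UNL.sm, mulc, toU]
    push_cast
    ring
  · simp only [UNL.sm, mulc, toU]
    push_cast
    ring

theorem ac_add (x y : D.O) (k : UNL.G N) : ac (x + y) k = ac x k + ac y k := by
  rw [ac, ac, ac, cod_add]
  refine Prod.ext ?_ ?_
  · simp only [UNL.sm, Prod.fst_add, Prod.snd_add]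
    push_cast
    ring
  · simp only [UNL.sm, Prod.fst_add, Prod.snd_add]
    push_cast
    ring

theorem ac_addk (x : D.O) (k l : UNL.G N) : ac x (k + l) = ac x k + ac x l := by
  rw [ac, ac, ac]
  refine Prod.ext ?_ ?_
  · simp only [UNL.sm, Prod.fst_add, Prod.snd_add]
    ring
  · simp only [UNL.sm, Prod.fst_add, Prod.snd_add]
    ring

theorem ac_zero (x : D.O) : ac x (0 : UNL.G N) = 0 := by
  rw [ac]
  refine Prod.ext ?_ ?_ <;> simp [UNL.sm]

theorem ac_neg (x : D.O) (k : UNL.G N) : ac (-x) k = -ac x k := by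
  have h := ac_add x (-x) k
  have h0 : ac (0 : D.O) k = 0 := by
    rw [ac, cod_zero]
    refine Prod.ext ?_ ?_ <;> simp [UNL.sm]
  rw [add_neg_cancel, h0] at h
  exact (neg_eq_of_add_eq_zero_right h.symm).symm

theorem ac_negk (x : D.O) (k : UNL.G N) : ac x (-k) = -ac x k := by
  have h := ac_addk x k (-k)
  rw [add_neg_cancel, ac_zero] at h
  exact (neg_eq_of_add_eq_zero_right h.symm).symm

theorem ac_nat (k : UNL.G N) : ac ((N : D.O)) k = 0 := by
  rw [ac, cod_nat]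
  refine Prod.ext ?_ ?_ <;> simp [UNL.sm]

theorem ac_per (x y : D.O) (k : UNL.G N) : ac (x + (N : D.O) * y) k = ac x k := by
  rw [ac_add, ac_mul, ac_nat, add_zero]

/-- congruent coordinates -/
private theorem bs_congr {x y : D.O} (h1 : (((cod D x).1 : ℤ) : ZMod N) = ((cod D y).1 : ℤ))
    (h2 : (((cod D x).2 : ℤ) : ZMod N) = ((cod D y).2 : ℤ)) :
    ∃ z : D.O, x = y + (N : D.O) * z := by
  have h1' : ((((cod D x).1 - (cod D y).1 : ℤ)) : ZMod N) = 0 := by
    rw [Int.cast_sub, h1, sub_self]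
  have h2' : ((((cod D x).2 - (cod D y).2 : ℤ)) : ZMod N) = 0 := by
    rw [Int.cast_sub, h2, sub_self]
  rw [ZMod.intCast_zmod_eq_zero_iff_dvd] at h1' h2'
  obtain ⟨p, hp⟩ := h1'
  obtain ⟨q, hq⟩ := h2'
  refine ⟨el D (p, q), Subtype.ext ?_⟩
  have hx := xx_cod D x
  have hy := xx_cod D y
  show (x : ℂ) = (y : ℂ) + ((N : D.O) : ℂ) * UNI.xx D.a (p, q)
  rw [← hx, ← hy]
  have e1 : ((cod D x).1 : ℂ) = (cod D y).1 + N * p := by
    have : (cod D x).1 = (cod D y).1 + N * p := by linarith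
    rw [this]
    push_cast
    rfl
  have e2 : ((cod D x).2 : ℂ) = (cod D y).2 + N * q := by
    have : (cod D x).2 = (cod D y).2 + N * q := by linarith
    rw [this]
    push_cast
    rfl
  simp only [UNI.xx]
  rw [e1, e2]
  push_cast
  ring

theorem ac_eq {x y : D.O} : (∀ k : UNL.G N, ac x k = ac y k) ↔ ∃ z : D.O, x = y + (N : D.O) * z := by
  constructor
  · intro h
    have h1 := h (1, 0)
    rw [ac, ac] at h1
    have h2 := congrArg Prod.fst h1
    have h3 := congrArg Prod.snd h1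
    simp only [UNL.sm, toU, mul_one, mul_zero, sub_zero, zero_add, add_zero, Int.cast_one] at h2 h3
    exact bs_congr h2 h3
  · rintro ⟨z, rfl⟩ k
    exact ac_per y z k

theorem Cp_iff {x : D.O} : Cp N x ↔ ∃ e z : ℤ × ℤ,
    UNL.de (toU D.a) (cod D x) * UNL.de (toU D.a) e + N * UNL.de (toU D.a) z = 1 := by
  constructor
  · rintro ⟨a, b, h⟩
    refine ⟨cod D a, cod D b, ?_⟩
    rw [de_toU, de_toU, de_toU, xx_cod, xx_cod, xx_cod]
    have h1 := congrArg (fun y : D.O => (y : ℂ)) h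
    simp only [Subring.coe_add, Subring.coe_mul, Subring.coe_one] at h1
    rw [← h1]
    push_cast
    ring
  · rintro ⟨e, z, h⟩
    refine ⟨el D e, el D z, Subtype.ext ?_⟩
    rw [de_toU, de_toU, de_toU, xx_cod] at h
    show UNI.xx D.a e * (x : ℂ) + UNI.xx D.a z * ((N : D.O) : ℂ) = 1
    rw [← h]
    push_cast
    ring

theorem Cp_mul {x y : D.O} : Cp N (x * y) ↔ Cp N x ∧ Cp N y :=
  IsCoprime.mul_left_iff

theorem Cp_per {x : D.O} (y : D.O) : Cp N (x + (N : D.O) * y) ↔ Cp N x :=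
  IsCoprime.add_mul_left_left_iff

theorem Cp_inv {x : D.O} (h : Cp N x) : ∃ y : D.O, Cp N y ∧
    ∀ k : UNL.G N, ac y (ac x k) = k ∧ ac x (ac y k) = k := by
  obtain ⟨a, b, h⟩ := h
  have h1 : a * x = 1 + (N : D.O) * (-b) := by
    rw [← h]
    ring
  refine ⟨a, ⟨x, b, by rw [← h]; ring⟩, fun k => ⟨?_, ?_⟩⟩
  · rw [← ac_mul, h1, ac_per, ac_one]
  · rw [← ac_mul, mul_comm x a, h1, ac_per, ac_one]

/-! ### classes mod `N` -/

/-- the class of an element of `O` mod `N` -/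
def cls (N : ℕ) (x : D.O) : UNL.G N := ((cod D x).1, (cod D x).2)

theorem cls_rp (k : UNL.G N) : cls N (rp D k) = k := by
  rw [cls, rp, cod_el]
  refine Prod.ext ?_ ?_
  · show (((k.1.val : ℤ)) : ZMod N) = k.1
    rw [Int.cast_natCast, ZMod.natCast_zmod_val]
  · show (((k.2.val : ℤ)) : ZMod N) = k.2
    rw [Int.cast_natCast, ZMod.natCast_zmod_val]

theorem cls_eq {x y : D.O} : cls N x = cls N y ↔ ∃ z : D.O, x = y + (N : D.O) * z := by
  constructor
  · intro h
    exact bs_congr (congrArg Prod.fst h) (congrArg Prod.snd h)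
  · rintro ⟨z, rfl⟩
    rw [cls, cls, cod_add, cod_mul, cod_nat]
    refine Prod.ext ?_ ?_
    · simp [mulc]
    · simp [mulc]

theorem rp_cls (x : D.O) : ∃ y : D.O, x = rp D (cls N x) + (N : D.O) * y :=
  cls_eq.1 (cls_rp (cls N x)).symm

theorem tp_rp (k : UNL.G N) : UNL.tp (toU D.a) k = ((rp D k : D.O) : ℂ) / N := by
  show _ = UNI.xx D.a ((k.1.val : ℤ), (k.2.val : ℤ)) / N
  simp only [UNL.tp, UNI.xx, tau_toU]
  push_cast
  rfl

/-! ### the pairing -/

theorem pss_add (z w : ℂ) : pss D (z + w) = pss D z * pss D w := ps_add _ z w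

theorem pss_zero : pss D 0 = 1 := ps_O D.O.zero_mem

theorem pss_norm (z : ℂ) : ‖pss D z‖ = 1 := by
  show ‖Complex.exp (UNL.kap (toU D.a) * (z - (starRingEnd ℂ) z))‖ = 1
  rw [Complex.norm_exp, Complex.re_ofReal_mul]
  simp

theorem pss_O {z : ℂ} (hz : z ∈ D.O) : pss D z = 1 := ps_O hz

private theorem pss_sub {x y : ℂ} (h : x - y ∈ D.O) : pss D x = pss D y := by
  have e : x = y + (x - y) := by ring
  rw [e, pss_add, pss_O h, mul_one]

/-- `ψ(y tp(x k)) = ψ(y x tp k)` -/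
theorem pss_ac (x y : D.O) (k : UNL.G N) :
    pss D ((y : ℂ) * UNL.tp (toU D.a) (ac x k)) = pss D ((y : ℂ) * x * UNL.tp (toU D.a) k) := by
  symm
  apply pss_sub
  have h := tp_sm (D := D) (cod D x) k
  rw [de_toU, xx_cod] at h
  have e : (y : ℂ) * x * UNL.tp (toU D.a) k - (y : ℂ) * UNL.tp (toU D.a) (ac x k) =
      (y : ℂ) * ((x : ℂ) * UNL.tp (toU D.a) k - UNL.tp (toU D.a) (UNL.sm (toU D.a) (cod D x) k)) := by
    rw [ac]
    ring
  rw [e]
  exact D.O.mul_mem y.2 h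

theorem pss_addk (y : D.O) (k l : UNL.G N) : pss D ((y : ℂ) * UNL.tp (toU D.a) (k + l)) =
    pss D ((y : ℂ) * UNL.tp (toU D.a) k) * pss D ((y : ℂ) * UNL.tp (toU D.a) l) := by
  rw [← pss_add]
  symm
  apply pss_sub
  have h := RNK.tp_add (D := D) k l
  have e : (y : ℂ) * UNL.tp (toU D.a) k + (y : ℂ) * UNL.tp (toU D.a) l -
      (y : ℂ) * UNL.tp (toU D.a) (k + l) = (y : ℂ) * (UNL.tp (toU D.a) k +
        UNL.tp (toU D.a) l - UNL.tp (toU D.a) (k + l)) := by ring
  rw [e]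
  exact D.O.mul_mem y.2 h

open Classical in
theorem orth (x : D.O) : ∑ k : UNL.G N, pss D ((x : ℂ) * UNL.tp (toU D.a) k) =
    if ∃ y : D.O, x = (N : D.O) * y then (N : ℂ) ^ 2 else 0 := by
  by_cases h : ∃ y : D.O, x = (N : D.O) * y
  · rw [if_pos h]
    obtain ⟨y, rfl⟩ := h
    have h1 : ∀ k : UNL.G N, pss D ((((N : D.O) * y : D.O) : ℂ) * UNL.tp (toU D.a) k) = 1 := by
      intro k
      apply pss_O
      have e : (((N : D.O) * y : D.O) : ℂ) * UNL.tp (toU D.a) k =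
          (y : ℂ) * ((N : ℂ) * UNL.tp (toU D.a) k) := by
        push_cast
        ring
      rw [e]
      exact D.O.mul_mem y.2 (tp_N k)
    rw [Finset.sum_congr rfl fun k _ => h1 k, Finset.sum_const, Finset.card_univ,
      Fintype.card_prod, ZMod.card, nsmul_eq_mul, mul_one]
    push_cast
    ring
  · rw [if_neg h]
    have h1 : ∃ l : UNL.G N, pss D ((x : ℂ) * UNL.tp (toU D.a) l) ≠ 1 := by
      by_contra hcon
      push Not at hcon
      obtain ⟨y, hy, e⟩ := ps_perfect (D := D) (N := N) x.2 hcon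
      apply h
      refine ⟨⟨y, hy⟩, Subtype.ext ?_⟩
      rw [e]
      push_cast
      rfl
    obtain ⟨l, hl⟩ := h1
    have h2 : ∑ k : UNL.G N, pss D ((x : ℂ) * UNL.tp (toU D.a) k) =
        (∑ k : UNL.G N, pss D ((x : ℂ) * UNL.tp (toU D.a) k)) *
          pss D ((x : ℂ) * UNL.tp (toU D.a) l) := by
      rw [Finset.sum_mul, ← Equiv.sum_comp (Equiv.addRight l)]
      refine Finset.sum_congr rfl fun k _ => ?_
      exact pss_addk x k l
    have h3 : (∑ k : UNL.G N, pss D ((x : ℂ) * UNL.tp (toU D.a) k)) *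
        (pss D ((x : ℂ) * UNL.tp (toU D.a) l) - 1) = 0 := by
      rw [mul_sub, ← h2, mul_one, sub_self]
    exact (mul_eq_zero.1 h3).resolve_right (sub_ne_zero.2 hl)

theorem orthk (k : UNL.G N) : ∑ r : UNL.G N, pss D ((rp D r : ℂ) * UNL.tp (toU D.a) k) =
    if k = 0 then (N : ℂ) ^ 2 else 0 := by
  classical
  have h1 : ∀ r : UNL.G N, pss D ((rp D r : ℂ) * UNL.tp (toU D.a) k) =
      pss D ((rp D k : ℂ) * UNL.tp (toU D.a) r) := by
    intro r
    rw [tp_rp, tp_rp]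
    congr 1
    ring
  rw [Finset.sum_congr rfl fun r _ => h1 r, orth]
  have h2 : (∃ y : D.O, rp D k = (N : D.O) * y) ↔ k = 0 := by
    constructor
    · rintro ⟨y, hy⟩
      have h3 : cls N (rp D k) = cls N (0 : D.O) := cls_eq.2 ⟨y, by rw [hy, zero_add]⟩
      rw [cls_rp] at h3
      rw [h3, cls, cod_zero]
      refine Prod.ext ?_ ?_ <;> simp
    · rintro rfl
      refine ⟨0, ?_⟩
      rw [mul_zero, rp]
      simp only [Prod.fst_zero, Prod.snd_zero, ZMod.val_zero, Nat.cast_zero]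
      exact el_zero
  by_cases hk : k = 0
  · rw [if_pos hk, if_pos (h2.2 hk)]
  · rw [if_neg hk, if_neg fun h => hk (h2.1 h)]

/-! ### the Klein function -/

private theorem bs_kl_ne (b : UNL.Par) {k : UNL.G N} (hk : k ≠ 0) :
    UNL.kl b (UNL.tp b k) 0 ≠ 0 := by
  apply UNL.kl_ne
  rw [zero_sub]
  exact UNL.ofl_neg' (UNL.ofl_tp b (Nat.pos_of_ne_zero (NeZero.ne N)) hk)

theorem kl_ne' {k : UNL.G N} (hk : k ≠ 0) : UNL.kl (toU D.a) (UNL.tp (toU D.a) k) 0 ≠ 0 :=
  bs_kl_ne _ hk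

/-- `η₁ τ - η₂` is purely imaginary -/
private theorem bs_leg (b : UNL.Par) : (Pool.Agent.EllSch.eta1 1 (UNL.tau b) * UNL.tau b -
    Pool.Agent.EllSch.eta2 1 (UNL.tau b)).re = 0 := by
  have h := UNL.legendre b (1, 0) (0, 1)
  rw [UNL.et_xx, UNL.et_xx] at h
  simp only [UNL.xx, Pool.Agent.EllSch.eta, Int.cast_one, Int.cast_zero, one_mul, zero_mul, add_zero,
    zero_add, mul_one] at h
  have h1 : Complex.exp (Pool.Agent.EllSch.eta1 1 (UNL.tau b) * UNL.tau b -
      Pool.Agent.EllSch.eta2 1 (UNL.tau b)) = 1 := by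
    rw [Complex.exp_sub, h, div_self (Complex.exp_ne_zero _)]
  rw [Complex.exp_eq_one_iff] at h1
  obtain ⟨n, hn⟩ := h1
  rw [hn]
  simp

private theorem bs_coord (b : UNL.Par) (z : ℂ) : z =
    ((z.re - b.B * z.im / UNL.sD b : ℝ) : ℂ) + ((2 * b.A * z.im / UNL.sD b : ℝ) : ℂ) * UNL.tau b := by
  have hs := (UNL.sD_pos b).ne'
  have hA := (UNL.A_pos b).ne'
  apply Complex.ext
  · rw [Complex.add_re, Complex.ofReal_re, Complex.re_ofReal_mul, UNL.tau_re]
    field_simp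
    ring
  · rw [Complex.add_im, Complex.ofReal_im, Complex.im_ofReal_mul, UNL.tau_im]
    field_simp
    ring

private theorem bs_pair (b : UNL.Par) (z w : ℂ) :
    (UNL.et b z * w - UNL.et b w * z).re = 0 := by
  have hz := bs_coord b z
  have hw := bs_coord b w
  have h := bs_leg b
  have e1 : UNL.et b z * w - UNL.et b w * z =
      ((((z.re - b.B * z.im / UNL.sD b) * (2 * b.A * w.im / UNL.sD b) -
        (w.re - b.B * w.im / UNL.sD b) * (2 * b.A * z.im / UNL.sD b) : ℝ)) : ℂ) *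
      (Pool.Agent.EllSch.eta1 1 (UNL.tau b) * UNL.tau b -
        Pool.Agent.EllSch.eta2 1 (UNL.tau b)) := by
    unfold UNL.et
    generalize (z.re - b.B * z.im / UNL.sD b : ℝ) = p at *
    generalize (2 * b.A * z.im / UNL.sD b : ℝ) = p' at *
    generalize (w.re - b.B * w.im / UNL.sD b : ℝ) = q at *
    generalize (2 * b.A * w.im / UNL.sD b : ℝ) = q' at *
    rw [hz, hw]
    push_cast
    ring
  rw [e1, Complex.re_ofReal_mul, h, mul_zero]

theorem fk_per (b : UNL.Par) (z : ℂ) (x : ℤ × ℤ) : fk b (z + UNL.xx b x) = fk b z := by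
  unfold fk
  congr 1
  obtain ⟨e, he, h⟩ := UNL.sg_add_xx b (-x)
  have hxn : UNL.xx b (-x) = -UNL.xx b x := UNL.xx_neg' b x
  have hen : ‖e‖ = 1 := by rcases he with rfl | rfl <;> simp
  have hm : UNL.et b (-UNL.xx b x) = -UNL.et b (UNL.xx b x) := by
    have := UNL.et_real b (-1) (UNL.xx b x)
    push_cast at this
    rw [neg_one_mul, neg_one_mul] at this
    exact this
  have h1 := h (-z)
  rw [hxn, hm] at h1
  simp only [UNL.kl, UNL.et_add]
  rw [show 0 - (z + UNL.xx b x) = -z + -UNL.xx b x by ring, h1, zero_sub]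
  set X := UNL.xx b x
  set p := UNL.et b X
  set q := UNL.et b z
  have h2 : Complex.exp ((q + p) * 0 - (q + p) * (z + X) / 2) *
      (e * Complex.exp (-p * (-z + -X / 2)) * UNL.sg b (-z)) =
      (e * Complex.exp ((p * z - q * X) / 2)) *
        (Complex.exp (q * 0 - q * z / 2) * UNL.sg b (-z)) := by
    have h3 : Complex.exp ((q + p) * 0 - (q + p) * (z + X) / 2) *
        Complex.exp (-p * (-z + -X / 2)) =
        Complex.exp ((p * z - q * X) / 2) * Complex.exp (q * 0 - q * z / 2) := by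
      rw [← Complex.exp_add, ← Complex.exp_add]
      congr 1
      ring
    linear_combination (e * UNL.sg b (-z)) * h3
  rw [h2, norm_mul, norm_mul, hen, one_mul, Complex.norm_exp]
  have h4 := bs_pair b X z
  have h5 : ((p * z - q * X) / 2).re = 0 := by
    have h6 : ((p * z - q * X) / 2) = ((1 / 2 : ℝ) : ℂ) * (p * z - q * X) := by
      push_cast
      ring
    rw [h6, Complex.re_ofReal_mul, h4, mul_zero]
  rw [h5, Real.exp_zero, one_mul]

/-- multiplication by a unit on coordinates -/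
private def bsE (u : D.Oˣ) : ℤ × ℤ ≃ ℤ × ℤ :=
  ((elE D).trans (Units.mulLeft u)).trans (elE D).symm

private theorem bs_bsE (u : D.Oˣ) (x : ℤ × ℤ) :
    UNI.xx D.a (bsE u x) = ((u : D.O) : ℂ) * UNI.xx D.a x := by
  show UNI.xx D.a (cod D ((u : D.O) * el D x)) = _
  rw [xx_cod]
  rfl

private theorem bs_xx (a : UNI.Par) (m : ℤ × ℤ) : UNL.xx (toU a) m = UNI.xx a m := by
  rw [UNL.xx, UNI.xx, tau_toU]

private theorem bs_u_ne (u : D.Oˣ) : ((u : D.O) : ℂ) ≠ 0 := by
  intro h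
  have h1 : (u : D.O) = 0 := Subtype.ext h
  exact u.ne_zero h1

private theorem bs_u_norm (u : D.Oˣ) : ‖((u : D.O) : ℂ)‖ = 1 := by
  have h := nn_real D (u : D.O)
  rw [nn_eq_one.2 u.isUnit, Nat.cast_one] at h
  have h1 : ‖((u : D.O) : ℂ)‖ ^ 2 = 1 := h.symm
  exact (pow_eq_one_iff_of_nonneg (norm_nonneg _) two_ne_zero).1 h1

private theorem bs_sg_unit (u : D.Oˣ) (z : ℂ) :
    UNL.sg (toU D.a) ((u : D.O) * z) = (u : D.O) * UNL.sg (toU D.a) z := by
  have hu := bs_u_ne u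
  unfold UNL.sg QCL.sig
  rw [mul_assoc]
  congr 1
  congr 1
  rw [← Equiv.tprod_eq (bsE u)]
  refine tprod_congr fun x => ?_
  rw [UNL.lat_xx, UNL.lat_xx, bs_xx, bs_xx, bs_bsE, mul_div_mul_left _ _ hu]

private theorem bs_et_neg (b : UNL.Par) (x : ℂ) : UNL.et b (-x) = -UNL.et b x := by
  have := UNL.et_real b (-1) x
  push_cast at this
  rw [neg_one_mul, neg_one_mul] at this
  exact this

/-- the quasi periods of `u λ` -/
private theorem bs_et_lat (u : D.Oˣ) (x : ℤ × ℤ) :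
    (u : D.O) * UNL.et (toU D.a) ((u : D.O) * UNL.xx (toU D.a) x) =
      UNL.et (toU D.a) (UNL.xx (toU D.a) x) := by
  set b := toU D.a with hb
  set U : ℂ := ((u : D.O) : ℂ) with hU
  have hu : U ≠ 0 := bs_u_ne u
  obtain ⟨e, he, h⟩ := UNL.sg_add_xx b x
  obtain ⟨f, hf, g⟩ := UNL.sg_add_xx b (bsE u x)
  have hX : UNL.xx b (bsE u x) = U * UNL.xx b x := by
    rw [hb, bs_xx, bs_xx, bs_bsE]
  rw [hX] at g
  set X := UNL.xx b x with hXd
  have he0 : e ≠ 0 := by rcases he with rfl | rfl <;> norm_num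
  have hf0 : f ≠ 0 := by rcases hf with rfl | rfl <;> norm_num
  have hsg : ∀ z, UNL.sg b (U * z) = U * UNL.sg b z := fun z => bs_sg_unit u z
  set c : ℂ := U * UNL.et b (U * X) - UNL.et b X with hc
  have key : ∀ z, UNL.Ofl b z → Complex.exp (c * (z + X / 2)) = e / f := by
    intro z hz
    have hs : UNL.sg b z ≠ 0 := QCL.sig_ne (UNL.indL b) hz
    have h1 := g (U * z)
    rw [← mul_add, hsg, hsg, h z] at h1
    have h2 : Complex.exp (UNL.et b (U * X) * (U * z + U * X / 2)) =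
        Complex.exp (c * (z + X / 2)) * Complex.exp (UNL.et b X * (z + X / 2)) := by
      rw [← Complex.exp_add]
      congr 1
      rw [hc]
      ring
    rw [h2] at h1
    have h3 := Complex.exp_ne_zero (UNL.et b X * (z + X / 2))
    rw [eq_div_iff hf0]
    apply mul_left_cancel₀ (mul_ne_zero (mul_ne_zero hu hs) h3)
    linear_combination -h1
  have hopen : IsOpen {z : ℂ | UNL.Ofl b z} := Pool.Agent.EllSch.isOpen_off (UNL.indL b)
  have h0 : UNL.Ofl b (1 / 2) := Pool.Agent.EllSch.Zeta.off_half (UNL.indL b)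
  have hev : (fun z : ℂ => Complex.exp (c * (z + X / 2))) =ᶠ[nhds (1 / 2)] fun _ => e / f := by
    filter_upwards [hopen.mem_nhds h0] with z hz
    exact key z hz
  have hd : HasDerivAt (fun z : ℂ => Complex.exp (c * (z + X / 2)))
      (Complex.exp (c * (1 / 2 + X / 2)) * c) (1 / 2) := by
    have h1 : HasDerivAt (fun z : ℂ => c * (z + X / 2)) c (1 / 2) := by
      have h2 := ((hasDerivAt_id (1 / 2 : ℂ)).add_const (X / 2)).const_mul c
      simpa using h2
    exact h1.cexp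
  have hd2 := hd.unique ((hasDerivAt_const (1 / 2 : ℂ) (e / f)).congr_of_eventuallyEq hev)
  have hc0 : c = 0 := (mul_eq_zero.1 hd2).resolve_left (Complex.exp_ne_zero _)
  rw [hc, sub_eq_zero] at hc0
  exact hc0

private theorem bs_et_unit (u : D.Oˣ) (z : ℂ) :
    (u : D.O) * UNL.et (toU D.a) ((u : D.O) * z) = UNL.et (toU D.a) z := by
  set b := toU D.a with hb
  set U : ℂ := ((u : D.O) : ℂ) with hU
  have hz := bs_coord b z
  set p : ℝ := z.re - b.B * z.im / UNL.sD b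
  set q : ℝ := 2 * b.A * z.im / UNL.sD b
  have h1 := bs_et_lat u (1, 0)
  have h2 := bs_et_lat u (0, 1)
  rw [← hb, ← hU] at h1 h2
  have e1 : UNL.xx b (1, 0) = 1 := by simp [UNL.xx]
  have e2 : UNL.xx b (0, 1) = UNL.tau b := by simp [UNL.xx]
  rw [e1] at h1
  rw [e2] at h2
  have e3 : U * z = (p : ℂ) * (U * 1) + (q : ℂ) * (U * UNL.tau b) := by
    rw [hz]
    ring
  have e4 : UNL.et b z = p * UNL.et b 1 + q * UNL.et b (UNL.tau b) := by
    have e5 : z = (p : ℂ) * 1 + (q : ℂ) * UNL.tau b := by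
      rw [mul_one]
      exact hz
    rw [e5, UNL.et_add, UNL.et_real, UNL.et_real]
  rw [e3, UNL.et_add, UNL.et_real, UNL.et_real, e4, ← h1, ← h2]
  ring

theorem fk_unit (u : D.Oˣ) (z : ℂ) : fk (toU D.a) ((u : D.O) * z) = fk (toU D.a) z := by
  unfold fk
  congr 1
  have h1 := bs_et_unit u z
  simp only [UNL.kl]
  have e1 : 0 - ((u : D.O) : ℂ) * z = ((u : D.O) : ℂ) * (0 - z) := by ring
  rw [e1, bs_sg_unit]
  have e2 : UNL.et (toU D.a) (((u : D.O) : ℂ) * z) * 0 -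
      UNL.et (toU D.a) (((u : D.O) : ℂ) * z) * (((u : D.O) : ℂ) * z) / 2 =
      UNL.et (toU D.a) z * 0 - UNL.et (toU D.a) z * z / 2 := by
    linear_combination (-z / 2) * h1
  rw [e2, norm_mul, norm_mul, norm_mul, bs_u_norm, one_mul]

theorem fg_unit (u : D.Oˣ) (k : UNL.G N) : fg D (ac (u : D.O) k) = fg D k := by
  have hinj : ac (u : D.O) k = 0 ↔ k = 0 := by
    constructor
    · intro h
      have h1 := ac_mul ((u⁻¹ : D.Oˣ) : D.O) (u : D.O) k
      rw [Units.inv_mul, ac_one, h, ac_zero] at h1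
      exact h1
    · rintro rfl
      exact ac_zero _
  unfold fg
  by_cases hk : k = 0
  · rw [if_pos hk, if_pos (hinj.2 hk)]
  · rw [if_neg hk, if_neg fun h => hk (hinj.1 h)]
    have h := tp_sm (D := D) (cod D (u : D.O)) k
    rw [de_toU, xx_cod] at h
    obtain ⟨m, hm⟩ := h
    have e : ((u : D.O) : ℂ) * UNL.tp (toU D.a) k =
        UNL.tp (toU D.a) (ac (u : D.O) k) + UNL.xx (toU D.a) m := by
      rw [bs_xx, ac]
      linear_combination hm
    rw [← fk_unit u (UNL.tp (toU D.a) k), e, fk_per]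

/-- the homomorphism `f ↦ δ (f(q))` -/
def ev {b : UNL.Par} {N : ℕ} (q : UNL.Gn b N) (δ : Additive ℂˣ →+ ℂ) :
    Additive (UNL.Gn b N → ℂˣ) →+ ℂ where
  toFun f := δ (Additive.ofMul (f.toMul q))
  map_zero' := by
    show δ (Additive.ofMul (1 : ℂˣ)) = 0
    exact map_zero δ
  map_add' f g := by
    show δ (Additive.ofMul (f.toMul q * g.toMul q)) = _
    exact map_add δ (Additive.ofMul (f.toMul q)) (Additive.ofMul (g.toMul q))

theorem ev_const {b : UNL.Par} (q : UNL.Gn b N) (δ : Additive ℂˣ →+ ℂ) {c : ℂ} (hc : c ≠ 0) :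
    UNL.co (ev q δ) (fun _ _ => c) = δ (Additive.ofMul (Units.mk0 c hc)) := by
  unfold UNL.co
  rw [UNL.cl_val b N (UNL.nz_const b N hc)]
  rfl

theorem gc_ev {b : UNL.Par} (q : UNL.Gn b N) (δ : Additive ℂˣ →+ ℂ) (k : UNL.G N) :
    UNL.gc (ev q δ) k = gd b δ k := by
  unfold UNL.gc gd
  by_cases hk : k = 0
  · rw [if_pos hk, dif_neg fun h => h.1 hk]
  · have h0 := bs_kl_ne b hk
    rw [if_neg hk, dif_pos ⟨hk, h0⟩]
    exact ev_const q δ h0

/-- there are generic points -/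
theorem gn_ne (b : UNL.Par) (N : ℕ) [NeZero N] : Nonempty (UNL.Gn b N) := by
  have hN : (N : ℂ) ≠ 0 := Nat.cast_ne_zero.2 (NeZero.ne N)
  have key : ∀ p : ℤ, ¬ ((15 : ℤ) ∣ p) → UNL.Ofl b ((p : ℂ) / 15) := by
    intro p hp
    rw [UNL.ofl_iff']
    intro x hx
    have h1 := congrArg Complex.im hx
    have h2 := congrArg Complex.re hx
    have e1 : ((p : ℂ) / 15) = (((p : ℝ) / 15 : ℝ) : ℂ) := by push_cast; rfl
    have e2 : (UNL.xx b x).im = x.2 * (UNL.tau b).im := by simp [UNL.xx]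
    have e3 : (UNL.xx b x).re = x.1 + x.2 * (UNL.tau b).re := by simp [UNL.xx]
    rw [e1, e2, Complex.ofReal_im] at h1
    rw [e1, e3, Complex.ofReal_re] at h2
    have h3 : (x.2 : ℝ) = 0 := (mul_eq_zero.1 h1.symm).resolve_right (UNL.tau_im_pos b).ne'
    rw [h3, zero_mul, add_zero] at h2
    have h4 : (p : ℝ) = 15 * x.1 := by linarith
    have h5 : p = 15 * x.1 := by exact_mod_cast h4
    exact hp ⟨x.1, h5⟩
  refine ⟨⟨((1 / 3) / N, (1 / 5) / N), ?_, ?_, ?_, ?_⟩⟩
  · have e : (N : ℂ) * ((1 / 3 : ℂ) / N) = ((5 : ℤ) : ℂ) / 15 := by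
      field_simp
      push_cast
      norm_num
    show UNL.Ofl b ((N : ℂ) * ((1 / 3 : ℂ) / N))
    rw [e]
    exact key 5 (by decide)
  · have e : (N : ℂ) * ((1 / 5 : ℂ) / N) = ((3 : ℤ) : ℂ) / 15 := by
      field_simp
      push_cast
      norm_num
    show UNL.Ofl b ((N : ℂ) * ((1 / 5 : ℂ) / N))
    rw [e]
    exact key 3 (by decide)
  · have e : (N : ℂ) * ((1 / 3 : ℂ) / N + (1 / 5 : ℂ) / N) = ((8 : ℤ) : ℂ) / 15 := by
      field_simp
      push_cast
      norm_num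
    show UNL.Ofl b ((N : ℂ) * ((1 / 3 : ℂ) / N + (1 / 5 : ℂ) / N))
    rw [e]
    exact key 8 (by decide)
  · have e : (N : ℂ) * ((1 / 3 : ℂ) / N - (1 / 5 : ℂ) / N) = ((2 : ℤ) : ℂ) / 15 := by
      field_simp
      push_cast
      norm_num
    show UNL.Ofl b ((N : ℂ) * ((1 / 3 : ℂ) / N - (1 / 5 : ℂ) / N))
    rw [e]
    exact key 2 (by decide)

/-- the homomorphism `log |·|` -/
def lg : Additive ℂˣ →+ ℂ where
  toFun x := ((Real.log ‖((x.toMul : ℂˣ) : ℂ)‖ : ℝ) : ℂ)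
  map_zero' := by
    show ((Real.log ‖((1 : ℂˣ) : ℂ)‖ : ℝ) : ℂ) = 0
    simp
  map_add' x y := by
    show ((Real.log ‖((x.toMul * y.toMul : ℂˣ) : ℂ)‖ : ℝ) : ℂ) = _
    rw [Units.val_mul, norm_mul, Real.log_mul (norm_ne_zero_iff.2 (Units.ne_zero _))
      (norm_ne_zero_iff.2 (Units.ne_zero _))]
    push_cast
    rfl

theorem gd_lg (k : UNL.G N) : gd (toU D.a) lg k = (fg D k : ℂ) := by
  unfold gd fg
  by_cases hk : k = 0
  · rw [dif_neg fun h => h.1 hk, if_pos hk]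
    simp
  · have h0 := bs_kl_ne (toU D.a) hk
    rw [dif_pos ⟨hk, h0⟩, if_neg hk]
    rfl

end

end RN2
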