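import Pool.Agent.RN2.Bs

/-!
# RN2.Cd: characters mod `N`

The maps `ac x : G N → G N`, `x` prime to `N`, form a finite abelian group `U` (`ac_mul`, `Cp_inv`, `Cp_mul`), isomorphic to
`(O/N)ˣ` (`ac_eq`: `ac x = ac y ↔ x ≡ y mod N`; one may also work with the ring `D.O ⧸ (N)`). A homomorphism
`U → ℂˣ` is a `Chr` (`0` off the elements prime to `N`).
-/

open RNK

namespace RN2

noncomputable section

variable {D : OD} {N : ℕ} [NeZero N]

/-- representatives of the classes prime to `N` -/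
structure Rs (D : OD) (N : ℕ) where
  s : Finset D.O
  cp : ∀ x ∈ s, Cp N x
  ex : ∀ x : D.O, Cp N x → ∃! r, r ∈ s ∧ ∀ k : UNL.G N, ac r k = ac x k

/-- the projection to the `χ`-part -/
def pj (S : Rs D N) (χ : Chr D N) (φ : UNL.G N → ℂ) (k : UNL.G N) : ℂ :=
  1 / (S.s.card : ℂ) * ∑ r ∈ S.s, (starRingEnd ℂ) (χ.f r) * φ (ac r k)

/-! ### the ring mod `N` -/

/-- the ring `O / N` -/
private abbrev QR (D : OD) (N : ℕ) : Type := D.O ⧸ (Ideal.span {(N : D.O)} : Ideal D.O)

private abbrev qm (D : OD) (N : ℕ) : D.O →+* QR D N :=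
  Ideal.Quotient.mk (Ideal.span {(N : D.O)})

omit [NeZero N] in
private theorem qm_eq {x y : D.O} : qm D N x = qm D N y ↔ ∃ z : D.O, x = y + (N : D.O) * z := by
  rw [Ideal.Quotient.eq, Ideal.mem_span_singleton']
  constructor
  · rintro ⟨a, ha⟩
    exact ⟨a, by rw [mul_comm, ha]; ring⟩
  · rintro ⟨z, hz⟩
    exact ⟨z, by rw [hz]; ring⟩

private theorem qm_ac {x y : D.O} : qm D N x = qm D N y ↔ ∀ k : UNL.G N, ac x k = ac y k := by
  rw [qm_eq, ac_eq]

omit [NeZero N] in
private theorem qm_unit {x : D.O} : IsUnit (qm D N x) ↔ Cp N x := by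
  constructor
  · intro h
    obtain ⟨b, hb⟩ := h.exists_right_inv
    obtain ⟨y, rfl⟩ := Ideal.Quotient.mk_surjective b
    have h1 : qm D N (x * y) = qm D N 1 := by
      rw [map_mul, map_one]
      exact hb
    obtain ⟨z, hz⟩ := qm_eq.1 h1
    refine ⟨y, -z, ?_⟩
    have : y * x + -z * (N : D.O) = x * y - (N : D.O) * z := by ring
    rw [this, hz]
    ring
  · rintro ⟨a, b, hab⟩
    refine IsUnit.of_mul_eq_one (qm D N a) ?_
    rw [← map_mul, ← map_one (qm D N)]
    refine qm_eq.2 ⟨-b, ?_⟩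
    rw [← hab]
    ring

private instance qfin (D : OD) (N : ℕ) [NeZero N] : Finite (QR D N) := by
  refine Finite.of_surjective (fun k : UNL.G N => qm D N (rp D k)) ?_
  intro q
  obtain ⟨x, rfl⟩ := Ideal.Quotient.mk_surjective q
  obtain ⟨y, hy⟩ := rp_cls (N := N) x
  exact ⟨cls N x, (qm_eq.2 ⟨y, hy⟩).symm⟩

/-- the unit of an element prime to `N` -/
private def qu (x : D.O) (h : Cp N x) : (QR D N)ˣ := (qm_unit.2 h).unit

omit [NeZero N] in
private theorem qu_val (x : D.O) (h : Cp N x) : ((qu x h : (QR D N)ˣ) : QR D N) = qm D N x :=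
  (qm_unit.2 h).unit_spec

omit [NeZero N] in
private theorem Cp_mul' {x y : D.O} : Cp N (x * y) ↔ Cp N x ∧ Cp N y := by
  rw [← qm_unit, ← qm_unit, ← qm_unit, map_mul, IsUnit.mul_iff]

omit [NeZero N] in
private theorem Cp_one' : Cp N (1 : D.O) := isCoprime_one_left

private theorem chr_norm (χ : Chr D N) {x : D.O} (hx : Cp N x) : ‖χ.f x‖ = 1 := by
  classical
  haveI : Finite (QR D N)ˣ := inferInstance
  letI : Fintype (QR D N)ˣ := Fintype.ofFinite _
  have h1 : (qu x hx) ^ Fintype.card (QR D N)ˣ = 1 := pow_card_eq_one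
  have h2 : qm D N (x ^ Fintype.card (QR D N)ˣ) = qm D N 1 := by
    rw [map_pow, map_one, ← qu_val x hx, ← Units.val_pow_eq_pow_val, h1, Units.val_one]
  obtain ⟨z, hz⟩ := qm_eq.1 h2
  have h3 : ∀ n : ℕ, χ.f (x ^ n) = χ.f x ^ n := by
    intro n
    induction n with
    | zero => rw [pow_zero, pow_zero, χ.one]
    | succ n ih => rw [pow_succ, χ.mul, ih, pow_succ]
  have h4 : χ.f x ^ Fintype.card (QR D N)ˣ = 1 := by
    rw [← h3, hz, χ.per, χ.one]
  exact Complex.norm_eq_one_of_pow_eq_one h4 Fintype.card_ne_zero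

open Classical in
/-- the character of `O` of a character of the unit group mod `N` -/
private def mkChr (ψ : AddChar (Additive (QR D N)ˣ) ℂ) : Chr D N where
  f x := if h : Cp N x then ψ (Additive.ofMul (qu x h)) else 0
  mul x y := by
    by_cases hx : Cp N x
    · by_cases hy : Cp N y
      · have hxy : Cp N (x * y) := Cp_mul'.2 ⟨hx, hy⟩
        rw [dif_pos hx, dif_pos hy, dif_pos hxy, ← AddChar.map_add_eq_mul, ← ofMul_mul]
        congr 2
        apply Units.ext
        rw [Units.val_mul, qu_val, qu_val, qu_val, map_mul]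
      · have hxy : ¬ Cp N (x * y) := fun h => hy (Cp_mul'.1 h).2
        rw [dif_neg hy, dif_neg hxy, mul_zero]
    · have hxy : ¬ Cp N (x * y) := fun h => hx (Cp_mul'.1 h).1
      rw [dif_neg hx, dif_neg hxy, zero_mul]
  one := by
    rw [dif_pos Cp_one']
    have : (qu (1 : D.O) Cp_one' : (QR D N)ˣ) = 1 := by
      apply Units.ext
      rw [qu_val, Units.val_one, map_one]
    rw [this, ofMul_one, AddChar.map_zero_eq_one]
  per x y := by
    have hq : qm D N (x + (N : D.O) * y) = qm D N x := qm_eq.2 ⟨y, rfl⟩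
    have hc : Cp N (x + (N : D.O) * y) ↔ Cp N x := by
      rw [← qm_unit, ← qm_unit, hq]
    by_cases hx : Cp N x
    · rw [dif_pos hx, dif_pos (hc.2 hx)]
      congr 2
      apply Units.ext
      rw [qu_val, qu_val, hq]
    · rw [dif_neg hx, dif_neg (fun h => hx (hc.1 h))]
  zr x hx := by rw [dif_neg hx]

/-- a representative of a unit -/
private def urep (u : (QR D N)ˣ) : D.O := Classical.choose (Ideal.Quotient.mk_surjective (u : QR D N))

omit [NeZero N] in
private theorem urep_spec (u : (QR D N)ˣ) : qm D N (urep u) = (u : QR D N) :=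
  Classical.choose_spec (Ideal.Quotient.mk_surjective (u : QR D N))

omit [NeZero N] in
private theorem urep_inj : Function.Injective (urep : (QR D N)ˣ → D.O) := by
  intro u v h
  apply Units.ext
  rw [← urep_spec u, ← urep_spec v, h]

open Classical in
private theorem gch (G : Type*) [AddCommGroup G] [Fintype G] :
    ∃ (m : ℕ) (X : Fin m → AddChar G ℂ),
      ∀ g : G, ∑ i, X i g = if g = 0 then (Fintype.card G : ℂ) else 0 := by
  let e := Fintype.equivFin (AddChar G ℂ)
  refine ⟨_, fun i => e.symm i, ?_⟩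
  intro g
  rw [e.symm.sum_comp (fun ψ : AddChar G ℂ => ψ g)]
  exact AddChar.sum_apply_eq_ite g

open Classical in
theorem chars (D : OD) (N : ℕ) [NeZero N] : ∃ (S : Rs D N) (m : ℕ) (X : Fin m → Chr D N),
    ∀ x : D.O, Cp N x →
      ∑ i, (X i).f x = if ∀ k : UNL.G N, ac x k = k then (S.s.card : ℂ) else 0 := by
  letI : Fintype (QR D N)ˣ := Fintype.ofFinite _
  letI : Fintype (Additive (QR D N)ˣ) := Additive.fintype
  let s : Finset D.O := Finset.univ.image (urep : (QR D N)ˣ → D.O)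
  have hcard : s.card = Fintype.card (Additive (QR D N)ˣ) := by
    rw [Finset.card_image_of_injective _ urep_inj, Finset.card_univ]
    exact Fintype.card_congr Additive.ofMul
  let S : Rs D N :=
    { s := s
      cp := by
        intro x hx
        obtain ⟨u, -, rfl⟩ := Finset.mem_image.1 hx
        rw [← qm_unit, urep_spec]
        exact u.isUnit
      ex := by
        intro x hx
        refine ⟨urep (qu x hx), ⟨Finset.mem_image_of_mem _ (Finset.mem_univ _), ?_⟩, ?_⟩
        · refine qm_ac.1 ?_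
          rw [urep_spec, qu_val]
        · rintro r ⟨hr, hrk⟩
          obtain ⟨u, -, rfl⟩ := Finset.mem_image.1 hr
          have h1 : qm D N (urep u) = qm D N x := qm_ac.2 hrk
          congr 1
          apply Units.ext
          rw [← urep_spec u, h1, qu_val] }
  obtain ⟨m, X, hX⟩ := gch (Additive (QR D N)ˣ)
  refine ⟨S, m, fun i => mkChr (X i), ?_⟩
  intro x hx
  have h1 : ∑ i, (mkChr (X i)).f x = ∑ i, X i (Additive.ofMul (qu x hx)) := by
    refine Finset.sum_congr rfl fun i _ => ?_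
    show (if h : Cp N x then (X i) (Additive.ofMul (qu x h)) else 0) = _
    rw [dif_pos hx]
  have h2 : (∀ k : UNL.G N, ac x k = k) ↔ (Additive.ofMul (qu x hx) : Additive (QR D N)ˣ) = 0 := by
    have h3 : (∀ k : UNL.G N, ac x k = k) ↔ ∀ k : UNL.G N, ac x k = ac (1 : D.O) k := by
      simp only [ac_one]
    rw [h3, ← qm_ac, ← ofMul_one, Additive.ofMul.injective.eq_iff, Units.ext_iff, qu_val,
      Units.val_one, map_one]
  rw [h1, hX]
  by_cases h5 : ∀ k : UNL.G N, ac x k = k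
  · rw [if_pos h5, if_pos (h2.1 h5)]
    show _ = ((s.card : ℕ) : ℂ)
    rw [hcard]
  · rw [if_neg h5, if_neg (fun h => h5 (h2.2 h))]

theorem card_pos (S : Rs D N) : 0 < S.s.card := by
  obtain ⟨r, ⟨hr, -⟩, -⟩ := S.ex 1 Cp_one'
  exact Finset.card_pos.2 ⟨r, hr⟩

/-- a sum over the representatives can be shifted -/
theorem rs_shift (S : Rs D N) {x : D.O} (hx : Cp N x) {h : D.O → ℂ} (hh : Pe N h) :
    ∑ r ∈ S.s, h (r * x) = ∑ r ∈ S.s, h r := by
  classical
  have hcp : ∀ r ∈ S.s, Cp N (r * x) := fun r hr => Cp_mul'.2 ⟨S.cp r hr, hx⟩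
  -- the shift
  let g : D.O → D.O := fun r => if hr : r ∈ S.s then (S.ex (r * x) (hcp r hr)).choose else r
  have hg : ∀ r ∈ S.s, g r ∈ S.s ∧ ∀ k : UNL.G N, ac (g r) k = ac (r * x) k := by
    intro r hr
    show (if hr : r ∈ S.s then (S.ex (r * x) (hcp r hr)).choose else r) ∈ S.s ∧ _
    simp only [g, dif_pos hr]
    exact (S.ex (r * x) (hcp r hr)).choose_spec.1
  have hmaps : ∀ r ∈ S.s, g r ∈ S.s := fun r hr => (hg r hr).1
  have hinj : Set.InjOn g S.s := by
    intro r hr r' hr' hrr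
    have h1 : qm D N (r * x) = qm D N (r' * x) := by
      rw [qm_ac]
      intro k
      rw [← (hg r hr).2 k, ← (hg r' hr').2 k, hrr]
    rw [map_mul, map_mul] at h1
    have h2 : qm D N r = qm D N r' := (qm_unit.2 hx).mul_right_cancel h1
    obtain ⟨q, -, hq⟩ := S.ex r (S.cp r hr)
    rw [hq r ⟨hr, fun k => rfl⟩, hq r' ⟨hr', fun k => (qm_ac.1 h2 k).symm⟩]
  have hsurj : Set.SurjOn g S.s S.s :=
    Finset.surjOn_of_injOn_of_card_le g (fun r hr => hmaps r hr) hinj le_rfl
  refine Finset.sum_nbij g (fun r hr => hmaps r hr) hinj hsurj ?_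
  intro r hr
  obtain ⟨z, hz⟩ := ac_eq.1 (hg r hr).2
  rw [hz, hh]

open Classical in
theorem pj_sum (S : Rs D N) {m : ℕ} (X : Fin m → Chr D N)
    (hX : ∀ x : D.O, Cp N x →
      ∑ i, (X i).f x = if ∀ k : UNL.G N, ac x k = k then (S.s.card : ℂ) else 0)
    (φ : UNL.G N → ℂ) (k : UNL.G N) : ∑ i, pj S (X i) φ k = φ k := by
  have hc : (S.s.card : ℂ) ≠ 0 := by
    exact_mod_cast (card_pos S).ne'
  obtain ⟨r0, ⟨hr0, hr0k⟩, hr0u⟩ := S.ex 1 Cp_one'
  have h1 : ∑ i, pj S (X i) φ k = 1 / (S.s.card : ℂ) *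
      ∑ r ∈ S.s, (starRingEnd ℂ) (∑ i, (X i).f r) * φ (ac r k) := by
    unfold pj
    rw [← Finset.mul_sum, Finset.sum_comm]
    congr 1
    refine Finset.sum_congr rfl fun r _ => ?_
    rw [map_sum, Finset.sum_mul]
  rw [h1]
  have h2 : ∑ r ∈ S.s, (starRingEnd ℂ) (∑ i, (X i).f r) * φ (ac r k) = (S.s.card : ℂ) * φ k := by
    rw [Finset.sum_eq_single_of_mem r0 hr0]
    · rw [hX r0 (S.cp r0 hr0), if_pos (fun k => by rw [hr0k, ac_one])]
      rw [hr0k, ac_one]
      simp
    · intro r hr hne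
      rw [hX r (S.cp r hr), if_neg]
      · simp
      · intro hall
        apply hne
        exact hr0u r ⟨hr, fun k => by rw [hall, ac_one]⟩
  rw [h2]
  field_simp

theorem pj_eq (S : Rs D N) (χ : Chr D N) (φ : UNL.G N → ℂ) {x : D.O} (hx : Cp N x)
    (k : UNL.G N) : pj S χ φ (ac x k) = χ.f x * pj S χ φ k := by
  have hper : Pe N (fun r : D.O => (starRingEnd ℂ) (χ.f r) * φ (ac r k)) := by
    intro r z
    show (starRingEnd ℂ) (χ.f (r + (N : D.O) * z)) * φ (ac (r + (N : D.O) * z) k) = _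
    rw [χ.per, ac_per]
  have h1 := rs_shift S hx hper
  have h2 : ∑ r ∈ S.s, (starRingEnd ℂ) (χ.f (r * x)) * φ (ac (r * x) k) =
      (starRingEnd ℂ) (χ.f x) * ∑ r ∈ S.s, (starRingEnd ℂ) (χ.f r) * φ (ac r (ac x k)) := by
    rw [Finset.mul_sum]
    refine Finset.sum_congr rfl fun r _ => ?_
    rw [χ.mul, map_mul, ac_mul]
    ring
  have h3 : χ.f x * (starRingEnd ℂ) (χ.f x) = 1 := by
    rw [Complex.mul_conj, Complex.normSq_eq_norm_sq, chr_norm χ hx]
    simp
  unfold pj
  have h4 : ∑ r ∈ S.s, (starRingEnd ℂ) (χ.f r) * φ (ac r (ac x k)) =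
      χ.f x * ∑ r ∈ S.s, (starRingEnd ℂ) (χ.f r) * φ (ac r k) := by
    rw [← h1]
    show _ = χ.f x * ∑ r ∈ S.s, (starRingEnd ℂ) (χ.f (r * x)) * φ (ac (r * x) k)
    rw [h2, ← mul_assoc, h3, one_mul]
  rw [h4]
  ring

/-- a unit invariant function has no part for a character which is not trivial on the units -/
theorem pj_triv (S : Rs D N) (χ : Chr D N) {φ : UNL.G N → ℂ}
    (hu : ∀ (u : D.Oˣ) (k : UNL.G N), φ (ac (u : D.O) k) = φ k) (hχ : ¬ χ.Tu) (k : UNL.G N) :
    pj S χ φ k = 0 := by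
  unfold Chr.Tu at hχ
  push Not at hχ
  obtain ⟨u, hu1⟩ := hχ
  have hcu : Cp N (u : D.O) := by
    rw [← qm_unit]
    exact u.isUnit.map _
  have h1 := pj_eq S χ φ hcu k
  have h2 : pj S χ φ (ac (u : D.O) k) = pj S χ φ k := by
    unfold pj
    congr 1
    refine Finset.sum_congr rfl fun r _ => ?_
    rw [← ac_mul, mul_comm r, ac_mul, hu]
  rw [h2] at h1
  have h3 : (χ.f (u : D.O) - 1) * pj S χ φ k = 0 := by
    rw [sub_mul, one_mul, ← h1, sub_self]
  rcases mul_eq_zero.1 h3 with h | h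
  · exact absurd (sub_eq_zero.1 h) hu1
  · exact h

theorem rs_sum (S : Rs D N) {χ : Chr D N} (hn : χ.Nt) : ∑ r ∈ S.s, χ.f r = 0 := by
  obtain ⟨x, hx, hx1⟩ := hn
  have h1 := rs_shift S hx (h := χ.f) (fun r z => χ.per r z)
  have h2 : ∑ r ∈ S.s, χ.f (r * x) = χ.f x * ∑ r ∈ S.s, χ.f r := by
    rw [Finset.mul_sum]
    refine Finset.sum_congr rfl fun r _ => ?_
    rw [χ.mul, mul_comm]
  rw [h2] at h1
  have h3 : (χ.f x - 1) * ∑ r ∈ S.s, χ.f r = 0 := by
    rw [sub_mul, one_mul, h1, sub_self]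
  rcases mul_eq_zero.1 h3 with h | h
  · exact absurd (sub_eq_zero.1 h) hx1
  · exact h

end

end RN2
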