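import Pool.Agent.RN2.Bs

/-!
# RN2.Du: multiplicity one for distributions

`φ̂(y) = Σ_k φ(k) ψ(y tp k)` (`ψ = pss D`), `y ∈ O`; it depends on `y` mod `N`.
1. `φ̂(u y) = conj χ(u) φ̂(y)` for `u` prime to `N` (`k ↦ u k` is a bijection, `he`, `pss_ac`; `|χ(u)| = 1`).
2. For a prime `q`, `q q' = N`: `φ̂(q y) = Σ_m ψ(y tp m) Σ_{q k = m} φ(k) = Σ_{m ∈ q G} φ(m) ψ(y tp m)` (`hd`, `pss_ac`), and
  `[m ∈ q G] = (1/N(q)) Σ_{z mod q} ψ(q' z tp m)` (`m = tp`-class of `m' / N`: `ψ(q' z m' / N) = ψ(z m' / q)`, trivial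
  for all `z` iff `q ∣ m'` iff `m ∈ q G`; `ps_perfect`). So `nn(q) φ̂(q y) = Σ_{z mod q} φ̂(y + q' z)`.
3. Claim: `φ̂(y) = 0` for all `y`. Let `d` be a gcd of `y` and `N`; induction on `nn(d)`. If `d` is a unit, `y` is prime to
  `N` and `φ̂(y) = conj χ(y) φ̂(1) = 0` (`h0`). Otherwise let `q` be a prime with `q ∣ d`, `N = q^a N'`, `q ∤ N'`, `y = q y₁`,
  `q' = q^{a-1} N'`. In `nn(q) φ̂(y) = Σ_z φ̂(y₁ + q' z)`: for primes `p ≠ q` the `p`-parts of `gcd (y₁ + q' z, N)` and
  of `gcd (y, N)` agree (`N_p ∣ q'`). If `q^{a-1} ∤ y₁` then `gcd (y₁ + q' z, N) ~ d / q` for all `z`: all terms vanish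
  by induction. If `q^{a-1} ∣ y₁` then `y₁ + q' z` is divisible by `q^{a-1}`, and by `q^a` for exactly one `z = z₀`
  mod `q`; the other terms have gcd `~ d / q` and vanish. So `nn(q) φ̂(y) = φ̂(y₂)`, `y₂ = y₁ + q' z₀`, `q^a ∣ y₂`, and
  `q y₂ ≡ q y₁ = y` mod `N`. Choose `u` with `u ≡ q` mod `N'`, `u ≡ 1` mod `q^a` (`u` is prime to `N`): `(u - q) y₂ ≡ 0` mod `N`,
  so `φ̂(y) = φ̂(q y₂) = φ̂(u y₂) = conj χ(u) φ̂(y₂)`. Hence `φ̂(y₂) = nn(q) conj χ(u) φ̂(y₂)`, `nn(q) ≥ 2`, so `φ̂(y₂) = 0`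
  and `φ̂(y) = 0`.
4. Fourier inversion: `N² φ(k) = Σ_r φ̂(rp r) ψ(- rp r tp k)` (`orthk`), so `φ = 0`.
-/

open RNK

namespace RN2

noncomputable section

variable {D : OD} {N : ℕ} [NeZero N]

open Classical in
/-- the distribution relation for `q` -/
def Dst (q : D.O) (φ : UNL.G N → ℂ) : Prop := ∀ m : UNL.G N, (∃ k, ac q k = m) →
  ∑ k ∈ Finset.univ.filter (fun k : UNL.G N => ac q k = m), φ k = φ m

/-! ### the pairing -/

private def pe (y : D.O) (k : UNL.G N) : ℂ := pss D ((y : ℂ) * UNL.tp (toU D.a) k)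

omit [NeZero N] in
private theorem pe_add (x y : D.O) (k : UNL.G N) : pe (x + y) k = pe x k * pe y k := by
  unfold pe
  rw [← pss_add, ← add_mul]
  congr 1

private theorem pe_addk (y : D.O) (k l : UNL.G N) : pe y (k + l) = pe y k * pe y l :=
  pss_addk y k l

private theorem pe_ac (x y : D.O) (k : UNL.G N) : pe y (ac x k) = pe (y * x) k := by
  unfold pe
  rw [pss_ac]
  congr 1

omit [NeZero N] in
private theorem pe_ne (y : D.O) (k : UNL.G N) : pe y k ≠ 0 := by
  intro h
  have h1 : ‖pe y k‖ = 1 := pss_norm _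
  rw [h, norm_zero] at h1
  exact zero_ne_one h1

private theorem pe_zero (y : D.O) : pe y (0 : UNL.G N) = 1 := by
  have h := pe_addk y (0 : UNL.G N) 0
  rw [add_zero] at h
  have h2 := pe_ne y (0 : UNL.G N)
  exact mul_left_cancel₀ h2 (by rw [mul_one]; exact h.symm)

private theorem pe_nat (y : D.O) (k : UNL.G N) : pe ((N : D.O) * y) k = 1 := by
  rw [mul_comm, ← pe_ac, ac_nat, pe_zero]

private theorem pe_per (x y : D.O) (k : UNL.G N) : pe (x + (N : D.O) * y) k = pe x k := by
  rw [pe_add, pe_nat, mul_one]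

private theorem pe_cls (x y : D.O) : pe y (cls N x) = pss D ((y : ℂ) * ((x : ℂ) / N)) := by
  obtain ⟨w, hw⟩ := rp_cls (N := N) x
  have hN : (N : ℂ) ≠ 0 := Nat.cast_ne_zero.2 (NeZero.ne N)
  have h1 : (x : ℂ) = (rp D (cls N x) : D.O) + (N : ℂ) * (w : ℂ) := by
    have := congrArg (fun t : D.O => (t : ℂ)) hw
    simpa using this
  have h2 : (y : ℂ) * ((x : ℂ) / N)
      = (y : ℂ) * UNL.tp (toU D.a) (cls N x) + ((y * w : D.O) : ℂ) := by
    rw [tp_rp]
    conv_lhs => rw [h1]
    push_cast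
    field_simp
  rw [h2, pss_add, pss_O (y * w).2, mul_one]
  rfl

/-- the action in terms of representatives -/
private theorem ac_cls (x : D.O) (k : UNL.G N) : ac x k = cls N (x * rp D k) := by
  have h1 : ∀ y : D.O, pe y (ac x k) = pe y (cls N (x * rp D k)) := by
    intro y
    rw [pe_ac, pe_cls]
    unfold pe
    rw [tp_rp]
    congr 1
    push_cast
    ring
  have h2 : ∀ y : D.O, pe y (ac x k + -cls N (x * rp D k)) = 1 := by
    intro y
    rw [pe_addk, h1, ← pe_addk, add_neg_cancel, pe_zero]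
  have h3 := orthk (D := D) (ac x k + -cls N (x * rp D k))
  have h4 : ∑ r : UNL.G N, pss D ((rp D r : ℂ) * UNL.tp (toU D.a)
      (ac x k + -cls N (x * rp D k))) = (N : ℂ) ^ 2 := by
    have : ∀ r : UNL.G N, pss D ((rp D r : ℂ) * UNL.tp (toU D.a)
      (ac x k + -cls N (x * rp D k))) = 1 := fun r => h2 (rp D r)
    rw [Finset.sum_congr rfl fun r _ => this r]
    simp only [Finset.sum_const, Finset.card_univ, Fintype.card_prod, ZMod.card, nsmul_eq_mul,
      mul_one]
    push_cast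
    ring
  rw [h4] at h3
  have hN : (N : ℂ) ^ 2 ≠ 0 := pow_ne_zero _ (Nat.cast_ne_zero.2 (NeZero.ne N))
  by_cases h5 : ac x k + -cls N (x * rp D k) = 0
  · exact add_neg_eq_zero.1 h5
  · rw [if_neg h5] at h3
    exact absurd h3 hN

/-! ### the Fourier transform -/

private def fh (φ : UNL.G N → ℂ) (y : D.O) : ℂ := ∑ k : UNL.G N, φ k * pe y k

private theorem fh_per (φ : UNL.G N → ℂ) (x y : D.O) : fh φ (x + (N : D.O) * y) = fh φ x := by
  unfold fh
  exact Finset.sum_congr rfl fun k _ => by rw [pe_per]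

private theorem ac_bij {u : D.O} (hu : Cp N u) : Function.Bijective (fun k : UNL.G N => ac u k) := by
  obtain ⟨v, _, hv⟩ := Cp_inv hu
  constructor
  · intro k l h
    have h1 := congrArg (fun t => ac v t) h
    simp only at h1
    rw [(hv k).1, (hv l).1] at h1
    exact h1
  · intro k
    exact ⟨ac v k, (hv k).2⟩

private theorem fh_u (χ : Chr D N) {φ : UNL.G N → ℂ}
    (he : ∀ x : D.O, Cp N x → ∀ k, φ (ac x k) = χ.f x * φ k) {u : D.O} (hu : Cp N u) (y : D.O) :
    χ.f u * fh φ (u * y) = fh φ y := by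
  unfold fh
  rw [← (ac_bij hu).sum_comp (fun k => φ k * pe y k), Finset.mul_sum]
  refine Finset.sum_congr rfl fun k _ => ?_
  rw [he u hu, pe_ac, mul_comm y u]
  ring

omit [NeZero N] in
private theorem chi_pow (χ : Chr D N) (u : D.O) (m : ℕ) : χ.f (u ^ m) = χ.f u ^ m := by
  induction m with
  | zero => rw [pow_zero, pow_zero, χ.one]
  | succ m ih => rw [pow_succ, pow_succ, χ.mul, ih]

private theorem ac_pow (u : D.O) (m : ℕ) (k : UNL.G N) :
    ac (u ^ m) k = (fun k : UNL.G N => ac u k)^[m] k := by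
  induction m with
  | zero => rw [pow_zero, ac_one, Function.iterate_zero, id]
  | succ m ih => rw [pow_succ', ac_mul, ih, Function.iterate_succ', Function.comp]

private theorem chi_norm (χ : Chr D N) {u : D.O} (hu : Cp N u) : ‖χ.f u‖ = 1 := by
  let σ : Equiv.Perm (UNL.G N) := Equiv.ofBijective _ (ac_bij hu)
  have hσ : σ ^ orderOf σ = 1 := pow_orderOf_eq_one σ
  have hm : 0 < orderOf σ := orderOf_pos σ
  have h1 : ∀ k : UNL.G N, ac (u ^ orderOf σ) k = ac (1 : D.O) k := by
    intro k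
    rw [ac_one, ac_pow]
    have h2 : (fun k : UNL.G N => ac u k)^[orderOf σ] k = (σ ^ orderOf σ) k := by
      rw [← Equiv.Perm.iterate_eq_pow]
      rfl
    rw [h2, hσ]
    rfl
  obtain ⟨z, hz⟩ := ac_eq.1 h1
  have h3 : χ.f u ^ orderOf σ = 1 := by
    rw [← chi_pow, hz, χ.per, χ.one]
  have h4 : ‖χ.f u‖ ^ orderOf σ = 1 := by rw [← norm_pow, h3, norm_one]
  exact (pow_eq_one_iff_of_nonneg (norm_nonneg _) hm.ne').1 h4

private theorem natO_ne : (N : D.O) ≠ 0 := by
  intro h
  have h1 := congrArg (fun t : D.O => (t : ℂ)) h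
  simp only [ZeroMemClass.coe_zero] at h1
  have h2 : ((N : D.O) : ℂ) = (N : ℂ) := by simp
  rw [h2] at h1
  exact (Nat.cast_ne_zero (R := ℂ)).2 (NeZero.ne N) h1

/-- `q' m = 0` iff `m ∈ q G` -/
private theorem ac_q {q q' : D.O} (hq : q * q' = (N : D.O)) (m : UNL.G N) :
    ac q' m = 0 ↔ ∃ k, ac q k = m := by
  have hN : (N : D.O) ≠ 0 := natO_ne
  have hq' : q' ≠ 0 := by
    rintro rfl
    rw [mul_zero] at hq
    exact hN hq.symm
  constructor
  · intro h
    have h0 : cls N (0 : D.O) = 0 := by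
      have h1 := ac_cls (0 : D.O) (0 : UNL.G N)
      rw [ac_zero, zero_mul] at h1
      exact h1.symm
    rw [ac_cls, ← h0] at h
    obtain ⟨z, hz⟩ := cls_eq.1 h
    have h2 : rp D m = q * z := by
      refine mul_left_cancel₀ hq' ?_
      rw [hz, ← hq]
      ring
    refine ⟨cls N z, ?_⟩
    rw [ac_cls]
    conv_rhs => rw [← cls_rp (D := D) m]
    obtain ⟨w, hw⟩ := rp_cls (N := N) z
    rw [cls_eq]
    refine ⟨-(q * w), ?_⟩
    rw [h2]
    conv_rhs => rw [hw]
    ring
  · rintro ⟨k, rfl⟩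
    rw [← ac_mul, mul_comm, hq, ac_nat]

private theorem fh_q {φ : UNL.G N → ℂ} {q q' : D.O} (hd : Dst q φ) (hq : q * q' = (N : D.O))
    (y : D.O) : (N : ℂ) ^ 2 * fh φ (q * y) = ∑ r : UNL.G N, fh φ (y + q' * rp D r) := by
  classical
  have h1 : fh φ (q * y) = ∑ m : UNL.G N, if ac q' m = 0 then φ m * pe y m else 0 := by
    unfold fh
    have e1 : ∀ k : UNL.G N, φ k * pe (q * y) k = φ k * pe y (ac q k) := by
      intro k
      rw [pe_ac, mul_comm y q]
    rw [Finset.sum_congr rfl fun k _ => e1 k]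
    rw [← Finset.sum_fiberwise_of_maps_to (s := Finset.univ) (t := Finset.univ)
      (g := fun k : UNL.G N => ac q k) (fun _ _ => Finset.mem_univ _)]
    refine Finset.sum_congr rfl fun m _ => ?_
    have e2 : ∑ k ∈ Finset.univ.filter (fun k : UNL.G N => ac q k = m), φ k * pe y (ac q k)
        = (∑ k ∈ Finset.univ.filter (fun k : UNL.G N => ac q k = m), φ k) * pe y m := by
      rw [Finset.sum_mul]
      refine Finset.sum_congr rfl fun k hk => ?_
      rw [(Finset.mem_filter.1 hk).2]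
    rw [e2]
    by_cases h : ∃ k, ac q k = m
    · rw [if_pos ((ac_q hq m).2 h)]
      have h2 := hd m h
      rw [← h2]
    · rw [if_neg (fun h' => h ((ac_q hq m).1 h'))]
      rw [Finset.filter_false_of_mem fun k _ hk => h ⟨k, hk⟩, Finset.sum_empty, zero_mul]
  have h2 : ∑ r : UNL.G N, fh φ (y + q' * rp D r)
      = ∑ m : UNL.G N, φ m * pe y m * ∑ r : UNL.G N, pe (rp D r) (ac q' m) := by
    unfold fh
    rw [Finset.sum_comm]
    refine Finset.sum_congr rfl fun m _ => ?_
    rw [Finset.mul_sum]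
    refine Finset.sum_congr rfl fun r _ => ?_
    rw [pe_add, pe_ac, mul_comm q' (rp D r)]
    ring
  rw [h1, h2, Finset.mul_sum]
  refine Finset.sum_congr rfl fun m _ => ?_
  have h3 : ∑ r : UNL.G N, pe (rp D r) (ac q' m) = if ac q' m = 0 then (N : ℂ) ^ 2 else 0 :=
    orthk (ac q' m)
  rw [h3]
  split_ifs <;> ring

private theorem fh_main (χ : Chr D N) {φ : UNL.G N → ℂ}
    (he : ∀ x : D.O, Cp N x → ∀ k, φ (ac x k) = χ.f x * φ k)
    (hd : ∀ q : D.O, Prime q → q ∣ (N : D.O) → Dst q φ)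
    (h0 : fh φ (1 : D.O) = 0) : ∀ d y : D.O, d ∣ y → d ∣ (N : D.O) →
      (∀ c, c ∣ y → c ∣ (N : D.O) → c ∣ d) → fh φ y = 0 := by
  classical
  have hN : (N : D.O) ≠ 0 := natO_ne
  intro d
  induction d using (wellFounded_dvdNotUnit (α := D.O)).induction with
  | _ d ih =>
  intro y hy hdN hg
  by_cases hu : IsUnit d
  · have hc : Cp N y := by
      unfold Cp
      rw [← isRelPrime_iff_isCoprime]
      intro c hc1 hc2
      exact isUnit_of_dvd_unit (hg c hc1 hc2) hu
    have h1 := fh_u χ he hc 1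
    rw [mul_one, h0] at h1
    have h2 : χ.f y ≠ 0 := by
      intro h
      have := chi_norm χ hc
      rw [h, norm_zero] at this
      exact zero_ne_one this
    exact (mul_eq_zero.1 h1).resolve_left h2
  · have hd0 : d ≠ 0 := by
      rintro rfl
      exact hN (zero_dvd_iff.1 hdN)
    obtain ⟨q, hqi, hqd⟩ := WfDvdMonoid.exists_irreducible_factor hu hd0
    have hqp : Prime q := hqi.prime
    obtain ⟨y₁, rfl⟩ := hqd.trans hy
    obtain ⟨n, N', hN', hNe⟩ := WfDvdMonoid.max_power_factor hN hqi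
    have hqN : q ∣ (N : D.O) := hqd.trans hdN
    obtain ⟨a, rfl⟩ : ∃ a, n = a + 1 := by
      refine Nat.exists_eq_succ_of_ne_zero ?_
      rintro rfl
      rw [pow_zero, one_mul] at hNe
      exact hN' (hNe ▸ hqN)
    set q' : D.O := q ^ a * N' with hq'
    have hqq : q * q' = (N : D.O) := by
      rw [hNe, hq']
      ring
    have key : ∀ z : D.O, ¬ q ^ (a + 1) ∣ y₁ + q' * z → fh φ (y₁ + q' * z) = 0 := by
      intro z hz
      let g := IsBezout.gcd (y₁ + q' * z) (N : D.O)
      have hg1 : g ∣ y₁ + q' * z := IsBezout.gcd_dvd_left _ _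
      have hg2 : g ∣ (N : D.O) := IsBezout.gcd_dvd_right _ _
      have hg0 : g ≠ 0 := by
        intro h
        rw [h] at hg2
        exact hN (zero_dvd_iff.1 hg2)
      obtain ⟨e, hge⟩ := hg2
      have hqe : q ∣ e := by
        by_contra hqe
        have h1 : q ^ (a + 1) ∣ g * e := ⟨N', by rw [← hge, hNe]⟩
        exact hz ((hqp.pow_dvd_of_dvd_mul_right (a + 1) hqe h1).trans hg1)
      obtain ⟨e', rfl⟩ := hqe
      have hqgN : q * g ∣ (N : D.O) := ⟨e', by rw [hge]; ring⟩
      have hqgy : q * g ∣ q * y₁ := by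
        have h1 : q * g ∣ q * (y₁ + q' * z) := mul_dvd_mul_left q hg1
        have h2 : q * (y₁ + q' * z) = q * y₁ + (N : D.O) * z := by
          rw [← hqq]
          ring
        rw [h2] at h1
        exact (dvd_add_left (hqgN.mul_right z)).1 h1
      obtain ⟨t, ht⟩ := hg _ hqgy hqgN
      refine ih g ⟨hg0, q * t, ?_, ?_⟩ _ hg1 ⟨q * e', hge⟩ fun c hc1 hc2 => IsBezout.dvd_gcd hc1 hc2
      · intro h
        exact hqi.not_isUnit (isUnit_of_dvd_unit (dvd_mul_right q t) h)
      · rw [ht]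
        ring
    have hsum := fh_q (hd q hqp hqN) hqq y₁
    have hNN : (N : ℂ) ^ 2 ≠ 0 := pow_ne_zero _ (Nat.cast_ne_zero.2 (NeZero.ne N))
    by_cases hz : ∃ z₀, q ^ (a + 1) ∣ y₁ + q' * z₀
    · obtain ⟨z₀, hz₀⟩ := hz
      have hmod : ∀ z : D.O, q ^ (a + 1) ∣ y₁ + q' * z → q ∣ z - z₀ := by
        intro z hz
        have h1 : q ^ (a + 1) ∣ q ^ a * (N' * (z - z₀)) := by
          have h2 := dvd_sub hz hz₀
          have h3 : y₁ + q' * z - (y₁ + q' * z₀) = q ^ a * (N' * (z - z₀)) := by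
            rw [hq']
            ring
          rwa [h3] at h2
        rw [pow_succ] at h1
        have h4 : q ∣ N' * (z - z₀) :=
          (mul_dvd_mul_iff_left (pow_ne_zero a hqi.ne_zero)).1 h1
        exact (hqp.dvd_or_dvd h4).resolve_left hN'
      have hterm : ∀ r : UNL.G N, fh φ (y₁ + q' * rp D r)
          = if q ∣ rp D r - z₀ then fh φ (y₁ + q' * z₀) else 0 := by
        intro r
        by_cases h : q ∣ rp D r - z₀
        · rw [if_pos h]
          obtain ⟨t, ht⟩ := h
          have h1 : y₁ + q' * rp D r = (y₁ + q' * z₀) + (N : D.O) * t := by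
            have h2 : rp D r = z₀ + q * t := by rw [← ht]; ring
            rw [h2, ← hqq]
            ring
          rw [h1, fh_per]
        · rw [if_neg h]
          exact key _ fun h' => h (hmod _ h')
      rw [Finset.sum_congr rfl fun r _ => hterm r, ← Finset.sum_filter, Finset.sum_const,
        nsmul_eq_mul] at hsum
      set M := (Finset.univ.filter (fun r : UNL.G N => q ∣ rp D r - z₀)).card with hM
      have hMlt : M < N ^ 2 := by
        have h1 : M < (Finset.univ : Finset (UNL.G N)).card := by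
          refine Finset.card_lt_card ?_
          rw [Finset.filter_ssubset]
          refine ⟨cls N (z₀ + 1), Finset.mem_univ _, fun h => ?_⟩
          obtain ⟨w, hw⟩ := rp_cls (N := N) (z₀ + 1)
          have h2 : rp D (cls N (z₀ + 1)) - z₀ = 1 - (N : D.O) * w := by
            rw [← sub_eq_zero]
            have : rp D (cls N (z₀ + 1)) = z₀ + 1 - (N : D.O) * w := by
              rw [eq_sub_iff_add_eq, ← hw]
            rw [this]
            ring
          rw [h2] at h
          have h3 : q ∣ 1 := by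
            have h4 := dvd_add h (hqN.mul_right w)
            rwa [sub_add_cancel] at h4
          exact hqi.not_isUnit (isUnit_of_dvd_one h3)
        rw [Finset.card_univ, Fintype.card_prod, ZMod.card] at h1
        rw [sq]
        exact h1
      -- the unit `u`
      have hcop : IsCoprime (q ^ (a + 1)) N' :=
        IsCoprime.pow_left ((isRelPrime_iff_isCoprime).1 fun c hc1 hc2 => by
          by_contra hcu
          have h1 : Associated c q := (hqi.dvd_iff.1 hc1).resolve_left hcu |>.symm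
          exact hN' (h1.symm.dvd.trans hc2))
      have hcop' : IsCoprime q N' :=
        IsCoprime.of_isCoprime_of_dvd_left hcop (dvd_pow_self q (Nat.succ_ne_zero a))
      obtain ⟨s, t, hst⟩ := hcop
      set u : D.O := q + t * N' * (1 - q) with hu'
      have hu1 : u = 1 + s * q ^ (a + 1) * (q - 1) := by
        have : t * N' = 1 - s * q ^ (a + 1) := by rw [← hst]; ring
        rw [hu', this]
        ring
      have hCu : Cp N u := by
        unfold Cp
        rw [hNe]
        refine IsCoprime.mul_right ?_ ?_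
        · rw [hu1]
          refine ⟨1, -(s * (q - 1)), ?_⟩
          ring
        · obtain ⟨x, w, hxw⟩ := hcop'
          refine ⟨x, w - x * t * (1 - q), ?_⟩
          rw [hu', ← hxw]
          ring
      obtain ⟨w, hw⟩ := hz₀
      have e1 : fh φ (u * (y₁ + q' * z₀)) = fh φ (q * y₁) := by
        have h1 : u * (y₁ + q' * z₀) = q * y₁ + (N : D.O) * (z₀ + t * (1 - q) * w) := by
          have h2 : u * (y₁ + q' * z₀) = q * (y₁ + q' * z₀) + t * N' * (1 - q) * (y₁ + q' * z₀) := by
            rw [hu']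
            ring
          rw [h2]
          have h3 : t * N' * (1 - q) * (y₁ + q' * z₀) = (N : D.O) * (t * (1 - q) * w) := by
            rw [hw, hNe]
            ring
          have h4 : q * (y₁ + q' * z₀) = q * y₁ + (N : D.O) * z₀ := by
            rw [← hqq]
            ring
          rw [h3, h4]
          ring
        rw [h1, fh_per]
      have e2 := fh_u χ he hCu (y₁ + q' * z₀)
      rw [e1] at e2
      rw [← e2] at hsum
      by_contra hX
      have h5 := congrArg norm hsum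
      rw [norm_mul, norm_mul, norm_mul, chi_norm χ hCu, one_mul, norm_pow] at h5
      have h6 : 0 < ‖fh φ (q * y₁)‖ := norm_pos_iff.2 hX
      have h7 := mul_right_cancel₀ h6.ne' h5
      rw [Complex.norm_natCast, Complex.norm_natCast] at h7
      have h8 : N ^ 2 = M := by exact_mod_cast h7
      omega
    · have h1 : ∑ r : UNL.G N, fh φ (y₁ + q' * rp D r) = 0 :=
        Finset.sum_eq_zero fun r _ => key _ fun h => hz ⟨_, h⟩
      rw [h1] at hsum
      exact (mul_eq_zero.1 hsum).resolve_left hNN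

theorem mult_one (χ : Chr D N) {φ : UNL.G N → ℂ}
    (he : ∀ x : D.O, Cp N x → ∀ k, φ (ac x k) = χ.f x * φ k)
    (hd : ∀ q : D.O, Prime q → q ∣ (N : D.O) → Dst q φ)
    (h0 : ∑ k : UNL.G N, φ k * pss D (UNL.tp (toU D.a) k) = 0) : φ = 0 := by
  classical
  have h0' : fh φ (1 : D.O) = 0 := by
    rw [← h0]
    unfold fh pe
    refine Finset.sum_congr rfl fun k _ => ?_
    rw [OneMemClass.coe_one, one_mul]
  have hz : ∀ y : D.O, fh φ y = 0 := fun y =>
    fh_main χ he hd h0' (IsBezout.gcd y (N : D.O)) y (IsBezout.gcd_dvd_left _ _)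
      (IsBezout.gcd_dvd_right _ _) fun c hc1 hc2 => IsBezout.dvd_gcd hc1 hc2
  funext k
  have hNN : (N : ℂ) ^ 2 ≠ 0 := pow_ne_zero _ (Nat.cast_ne_zero.2 (NeZero.ne N))
  have h1 : ∑ r : UNL.G N, fh φ (rp D r) * pe (rp D r) (-k) = (N : ℂ) ^ 2 * φ k := by
    unfold fh
    have e1 : ∀ r : UNL.G N, (∑ m : UNL.G N, φ m * pe (rp D r) m) * pe (rp D r) (-k)
        = ∑ m : UNL.G N, φ m * pe (rp D r) (m + -k) := by
      intro r
      rw [Finset.sum_mul]
      refine Finset.sum_congr rfl fun m _ => ?_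
      rw [pe_addk]
      ring
    rw [Finset.sum_congr rfl fun r _ => e1 r, Finset.sum_comm]
    have e2 : ∀ m : UNL.G N, ∑ r : UNL.G N, φ m * pe (rp D r) (m + -k)
        = if m = k then (N : ℂ) ^ 2 * φ k else 0 := by
      intro m
      rw [← Finset.mul_sum]
      have h3 : ∑ r : UNL.G N, pe (rp D r) (m + -k) = if m + -k = 0 then (N : ℂ) ^ 2 else 0 :=
        orthk (m + -k)
      rw [h3]
      by_cases h : m = k
      · rw [if_pos h, if_pos (by rw [h, add_neg_cancel]), h]
        ring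
      · rw [if_neg h, if_neg (fun h' => h (add_neg_eq_zero.1 h')), mul_zero]
    rw [Finset.sum_congr rfl fun m _ => e2 m, Finset.sum_ite_eq' Finset.univ k]
    simp
  have h2 : ∑ r : UNL.G N, fh φ (rp D r) * pe (rp D r) (-k) = 0 :=
    Finset.sum_eq_zero fun r _ => by rw [hz, zero_mul]
  rw [h2] at h1
  exact (mul_eq_zero.1 h1.symm).resolve_left hNN

end

end RN2
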