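import Pool.Agent.RN2.Hk

/-!
# RN2.Hl: heat summation of a Fourier series at a point of continuity

`K` from `heat_kernel`. `Σ_n exp (-τ |mm n|²) fc F n ch n z = ∫ K τ (pr z - x) F(cu x) dx` (Fubini: the sum
`Σ exp (-τ |mm n|²) ch n (z - u)` is uniformly convergent, `F` is integrable; `ch_add`, `ch_arg_neg`, `per_cu_sub`, `per_pr`,
see `BFej_int` in `UNI/BFej`) `= ∫ K τ x F(z - cu x) dx`. Let `ε > 0`; on a neighbourhood `U` of `0 ∈ E`
`|F(z - cu x) - F(z)| < ε` (continuity of `F` at `z`, periodicity: `pr` is a local homeomorphism), there the integral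
of `K τ |F(z - ·) - F(z)|` is `≤ ε`; off `U`, `K τ ≤ ε`, and `F - F(z)` is integrable.
-/

open MeasureTheory Filter Topology UQO

namespace RN2

variable [Lt]

theorem Hl_sub (G : E → ℂ) (y : E) : ∫ x : E, G (y - x) = ∫ x : E, G x := by
  rw [← ZHat_integral_add G y, ← ZHat_integral_neg (fun x : E => G (x + y))]
  refine integral_congr_ae (Eventually.of_forall fun x => ?_)
  show G (y - x) = G (-x + y)
  rw [sub_eq_neg_add]

theorem Hl_term {F : ℂ → ℂ} (z : ℂ) (n : ℤ × ℤ) :
    fc F n * ch n z = ∫ x : E, F (cu (pr z - x)) * ch n (cu x) := by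
  unfold fc
  rw [← integral_mul_const, ← Hl_sub _ (pr z)]
  refine integral_congr_ae (Eventually.of_forall fun x => ?_)
  show F (cu (pr z - x)) * ch (-n) (cu (pr z - x)) * ch n z = F (cu (pr z - x)) * ch n (cu x)
  have h1 : ch (-n) (cu (pr z - x)) = ch (-n) z * ch n (cu x) := by
    rw [per_cu_sub (ch_per (-n)), sub_eq_add_neg, ch_add, ch_arg_neg, neg_neg, per_pr (ch_per (-n))]
  have h2 : ch (-n) z * ch n z = 1 := by
    rw [← ch_idx_add, neg_add_cancel, ch_idx_zero]
  rw [h1]
  linear_combination (F (cu (pr z - x)) * ch n (cu x)) * h2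

theorem heat_lim {F : ℂ → ℂ} (hP : Per F) (hi : Integrable (fun x : E => F (cu x))) {z : ℂ}
    (hc : ContinuousAt F z) :
    Tendsto (fun τ : ℝ => ∑' n : ℤ × ℤ,
      ((Real.exp (-τ * ‖mm n‖ ^ 2) : ℝ) : ℂ) * (fc F n * ch n z)) (𝓝[>] 0) (𝓝 (F z)) := by
  obtain ⟨K, hKc, hK0, hKs, hKU, hK1⟩ := heat_kernel
  set G : E → ℂ := fun x => F (cu (pr z - x)) with hG
  have hGi : Integrable G := by
    have h1 : Integrable (fun x : E => F (cu (x + pr z))) := by
      have : (volume : Measure E).IsAddRightInvariant := by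
        show ((volume : Measure UnitAddCircle).prod
          (volume : Measure UnitAddCircle)).IsAddRightInvariant
        infer_instance
      exact hi.comp_add_right (pr z)
    have h2 : Integrable (fun x : E => F (cu (-x + pr z))) :=
      (ZHat_mp_neg.integrable_comp_of_integrable h1)
    refine h2.congr (Eventually.of_forall fun x => ?_)
    show F (cu (-x + pr z)) = F (cu (pr z - x))
    rw [sub_eq_neg_add]
  have hG0 : G 0 = F z := by
    show F (cu (pr z - 0)) = F z
    rw [sub_zero, per_pr hP]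
  have hGc : ContinuousAt G 0 := by
    have hPr : Per F := hP
    have h1 : ContinuousAt (fun y : E => F (cu y)) (pr z) := by
      refine continuousAt_cu hP ?_
      obtain ⟨n, hn⟩ := pr_eq_iff.1 (pr_cu (pr z))
      rw [hn]
      have h2 : F = fun u => F (u - xx n) := by
        funext u
        have h3 := hP (u - xx n) n
        rw [sub_add_cancel] at h3
        exact h3
      rw [h2]
      refine ContinuousAt.comp (g := F) (f := fun u => u - xx n) ?_ ?_
      · show ContinuousAt F (z + xx n - xx n)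
        rw [add_sub_cancel_right]
        exact hc
      · exact (continuous_id.sub continuous_const).continuousAt
    have h4 : ContinuousAt (fun x : E => pr z - x) 0 := (continuous_const.sub continuous_id).continuousAt
    refine ContinuousAt.comp (g := fun y : E => F (cu y)) (f := fun x : E => pr z - x) ?_ h4
    show ContinuousAt (fun y : E => F (cu y)) (pr z - 0)
    rw [sub_zero]
    exact h1
  have hKb : ∀ t, 0 < t → ∃ C : ℝ, ∀ x, ‖((K t x : ℝ) : ℂ)‖ ≤ C := by
    intro t ht
    obtain ⟨C, hC⟩ := (isCompact_univ (X := E)).exists_bound_of_continuousOn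
      (Complex.continuous_ofReal.comp (hKc t ht)).continuousOn
    exact ⟨C, fun x => hC x (Set.mem_univ x)⟩
  have hKm : ∀ t, 0 < t → AEStronglyMeasurable (fun x : E => ((K t x : ℝ) : ℂ)) :=
    fun t ht => (Complex.continuous_ofReal.comp (hKc t ht)).aestronglyMeasurable
  have hKi : ∀ t, 0 < t → Integrable (fun x : E => K t x) := by
    intro t ht
    obtain ⟨C, hC⟩ := hKb t ht
    refine Integrable.of_bound (C := C) (hKc t ht).aestronglyMeasurable
      (Eventually.of_forall fun x => ?_)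
    have h := hC x
    rwa [Complex.norm_real] at h
  have hKGi : ∀ t, 0 < t → Integrable (fun x : E => ((K t x : ℝ) : ℂ) * G x) := by
    intro t ht
    obtain ⟨C, hC⟩ := hKb t ht
    exact hGi.bdd_mul (hKm t ht) (Eventually.of_forall hC)
  -- the sum is the integral
  have hsum : ∀ t, 0 < t → ∑' n : ℤ × ℤ,
      ((Real.exp (-t * ‖mm n‖ ^ 2) : ℝ) : ℂ) * (fc F n * ch n z) =
      ∫ x : E, ((K t x : ℝ) : ℂ) * G x := by
    intro t ht
    have e1 : ∀ n : ℤ × ℤ, Integrable (fun x : E =>
        ((Real.exp (-t * ‖mm n‖ ^ 2) : ℝ) : ℂ) * (G x * ch n (cu x))) := by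
      intro n
      refine Integrable.const_mul ?_ _
      exact hGi.mul_bdd (c := 1) (continuous_ch_cu n).aestronglyMeasurable
        (Eventually.of_forall fun x => by rw [norm_ch])
    have e2 : Summable (fun n : ℤ × ℤ => ∫ x : E,
        ‖((Real.exp (-t * ‖mm n‖ ^ 2) : ℝ) : ℂ) * (G x * ch n (cu x))‖) := by
      have e3 : (fun n : ℤ × ℤ => ∫ x : E,
          ‖((Real.exp (-t * ‖mm n‖ ^ 2) : ℝ) : ℂ) * (G x * ch n (cu x))‖) =
          fun n : ℤ × ℤ => Real.exp (-t * ‖mm n‖ ^ 2) * ∫ x : E, ‖G x‖ := by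
        funext n
        rw [← integral_const_mul]
        refine integral_congr_ae (Eventually.of_forall fun x => ?_)
        show ‖((Real.exp (-t * ‖mm n‖ ^ 2) : ℝ) : ℂ) * (G x * ch n (cu x))‖ = _
        rw [norm_mul, norm_mul, norm_ch, mul_one, Complex.norm_real,
          Real.norm_of_nonneg (Real.exp_pos _).le]
      rw [e3]
      exact (gauss_summable ht).mul_right _
    have e4 := hasSum_integral_of_summable_integral_norm e1 e2
    have e5 : ∀ x : E, ∑' n : ℤ × ℤ, ((Real.exp (-t * ‖mm n‖ ^ 2) : ℝ) : ℂ) * (G x * ch n (cu x)) =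
        ((K t x : ℝ) : ℂ) * G x := by
      intro x
      have e6 : ∀ n : ℤ × ℤ, ((Real.exp (-t * ‖mm n‖ ^ 2) : ℝ) : ℂ) * (G x * ch n (cu x)) =
          (((Real.exp (-t * ‖mm n‖ ^ 2) : ℝ) : ℂ) * ch n (cu x)) * G x := fun n => by ring
      rw [tsum_congr e6, tsum_mul_right, (hKs t ht x).tsum_eq]
    simp only [e5] at e4
    rw [← e4.tsum_eq]
    refine tsum_congr fun n => ?_
    rw [integral_const_mul, Hl_term z n]
  have hev : (fun τ : ℝ => ∑' n : ℤ × ℤ,
      ((Real.exp (-τ * ‖mm n‖ ^ 2) : ℝ) : ℂ) * (fc F n * ch n z)) =ᶠ[𝓝[>] 0]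
      fun τ => ∫ x : E, ((K τ x : ℝ) : ℂ) * G x := by
    filter_upwards [self_mem_nhdsWithin] with τ hτ
    exact hsum τ hτ
  refine Tendsto.congr' hev.symm ?_
  rw [Metric.tendsto_nhds]
  intro ε hε
  set C : ℝ := ∫ x : E, ‖G x - F z‖ with hC
  have hDi : Integrable (fun x : E => G x - F z) := hGi.sub (integrable_const _)
  have hC0 : 0 ≤ C := integral_nonneg fun x => norm_nonneg _
  have hU : {x : E | ‖G x - F z‖ ≤ ε / 2} ∈ 𝓝 (0 : E) := by
    have h1 := Metric.continuousAt_iff'.1 hGc (ε / 2) (half_pos hε)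
    filter_upwards [h1] with x hx
    rw [hG0, dist_eq_norm] at hx
    exact hx.le
  have h2 := hKU _ hU (ε / (4 * (C + 1))) (by positivity)
  filter_upwards [h2, self_mem_nhdsWithin] with τ h3 hτ
  have hτ0 : 0 < τ := hτ
  rw [dist_eq_norm]
  have h4 : ∫ x : E, ((K τ x : ℝ) : ℂ) * (G x - F z) =
      (∫ x : E, ((K τ x : ℝ) : ℂ) * G x) - F z := by
    have h5 : (fun x : E => ((K τ x : ℝ) : ℂ) * (G x - F z)) =
        fun x : E => ((K τ x : ℝ) : ℂ) * G x - ((K τ x : ℝ) : ℂ) * F z := by
      funext x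
      ring
    have h8 : Integrable (fun x : E => ((K τ x : ℝ) : ℂ) * F z) :=
      ((hKi τ hτ0).ofReal (𝕜 := ℂ)).mul_const _
    rw [h5, integral_sub (hKGi τ hτ0) h8, integral_mul_const]
    have h6 : ∫ x : E, ((K τ x : ℝ) : ℂ) = ((∫ x : E, K τ x : ℝ) : ℂ) := integral_ofReal
    rw [h6, hK1 τ hτ0, Complex.ofReal_one, one_mul]
  rw [← h4]
  have h7 : ‖∫ x : E, ((K τ x : ℝ) : ℂ) * (G x - F z)‖ ≤
      ∫ x : E, (ε / 2 * K τ x + ε / (4 * (C + 1)) * ‖G x - F z‖) := by
    refine norm_integral_le_of_norm_le (((hKi τ hτ0).const_mul _).add (hDi.norm.const_mul _))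
      (Eventually.of_forall fun x => ?_)
    rw [norm_mul, Complex.norm_real, Real.norm_of_nonneg (hK0 τ hτ0 x)]
    have hk := hK0 τ hτ0 x
    have hn := norm_nonneg (G x - F z)
    have hq : 0 ≤ ε / (4 * (C + 1)) := by positivity
    by_cases hx : ‖G x - F z‖ ≤ ε / 2
    · have h8 := mul_le_mul_of_nonneg_left hx hk
      have h9 := mul_nonneg hq hn
      linarith
    · have h8 := mul_le_mul_of_nonneg_right (h3 x hx) hn
      have h9 : 0 ≤ ε / 2 * K τ x := by positivity
      linarith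
  refine h7.trans_lt ?_
  rw [integral_add ((hKi τ hτ0).const_mul _) (hDi.norm.const_mul _), integral_const_mul,
    integral_const_mul, hK1 τ hτ0, mul_one, ← hC]
  have h10 : ε / (4 * (C + 1)) * C ≤ ε / 4 := by
    rw [div_mul_eq_mul_div, div_le_div_iff₀ (by positivity) (by norm_num)]
    nlinarith
  linarith

end RN2
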