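import Pool.Agent.RN2.Lk
import Pool.Agent.RN2.Hl
import Pool.Agent.UNL.Gen

/-!
# RN2.Kf: Kronecker's limit formula for finite combinations

`b = toU D.a`, `A = 1`, so the frequencies `UNL.mm b n` run through `O` (`n ↦ mm b n` is a bijection of `ℤ²` with
`O`: `mm b n = n.1 - n.2 τ̄`, `τ̄ = t - τ`), `UNL.ch b n u = pss D (mm b n * u)`.
1. For `k ≠ 0` (`tp k ∉ L`: `UNL.Gen.tp_off`) `heat_lim` for `F = fk b`, `z = tp k` and `fk_fc`:
  `c₀ - (1/2κ) Σ'_{x ≠ 0} exp (-τ N(x)) pss D (x tp k) / N(x) → fk b (tp k) = fg D k`, `c₀` = the constant coefficient.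
2. Multiply by `A k` and add over `k ≠ 0` (`A 0 = 0`; `Σ A = 0` kills `c₀`).
-/

open RNK Filter Topology

namespace RN2

noncomputable section

variable {D : OD} {N : ℕ} [NeZero N]

/-- the bijection of the frequencies with `O` -/
private def kf_e (D : OD) : ℤ × ℤ ≃ D.O :=
  (show ℤ × ℤ ≃ ℤ × ℤ from
    { toFun := fun n => (n.1 - n.2 * D.a.t, n.2)
      invFun := fun n => (n.1 + n.2 * D.a.t, n.2)
      left_inv := fun n => by ext <;> simp
      right_inv := fun n => by ext <;> simp }).trans (elE D)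

private theorem kf_coe (n : ℤ × ℤ) : ((kf_e D n : D.O) : ℂ) = UNL.mm (toU D.a) n := by
  show UNI.xx D.a (n.1 - n.2 * D.a.t, n.2) = UNL.mm (toU D.a) n
  have h1 : (starRingEnd ℂ) (UNL.tau (toU D.a)) = (D.a.t : ℂ) - UNI.om D.a := by
    rw [tau_toU]
    have h2 : (starRingEnd ℂ) 2 = 2 := map_ofNat _ 2
    simp only [UNI.om, map_div₀, map_add, map_mul, map_intCast, Complex.conj_I,
      Complex.conj_ofReal, h2]
    ring
  rw [UNL.mm, h1, UNI.xx]
  push_cast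
  ring

private theorem kf_nn (n : ℤ × ℤ) : ((nn D (kf_e D n) : ℕ) : ℝ) = ‖UNL.mm (toU D.a) n‖ ^ 2 := by
  rw [nn_real, kf_coe]

private theorem kf_ch (n : ℤ × ℤ) (u : ℂ) :
    UNL.ch (toU D.a) n u = pss D (((kf_e D n : D.O) : ℂ) * u) := by
  rw [kf_coe]
  rfl

private theorem kf_per (b : UNL.Par) :
    @UQO.Per (UNL.PartB_lt b) ℂ (fun z => ((fk b z : ℝ) : ℂ)) := by
  intro u n
  exact congrArg (fun r : ℝ => (r : ℂ)) (fk_per b u n)

/-- the Fourier series of `fk`, with the heat factor -/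
private def kf_S (b : UNL.Par) (τ : ℝ) (z : ℂ) : ℂ :=
  ∑' n : ℤ × ℤ, ((Real.exp (-τ * ‖UNL.mm b n‖ ^ 2) : ℝ) : ℂ) *
    (UNL.fc b (fun z => ((fk b z : ℝ) : ℂ)) n * UNL.ch b n z)

private theorem kf_lim (b : UNL.Par) {z : ℂ} (hz : UNL.Ofl b z) :
    Tendsto (fun τ : ℝ => kf_S b τ z) (𝓝[>] 0) (𝓝 ((fk b z : ℝ) : ℂ)) := by
  letI := UNL.PartB_lt b
  have h := heat_lim (kf_per b) (fk_int b) (fk_cont b hz)
  refine h.congr fun τ => ?_
  unfold kf_S
  refine tsum_congr fun n => ?_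
  rw [UNL.PartB_ch]
  have h2 : UNL.fc b (fun z => ((fk b z : ℝ) : ℂ)) n =
      UQO.fc (fun z => ((fk b z : ℝ) : ℂ)) n := by
    unfold UNL.fc UQO.fc
    refine MeasureTheory.integral_congr_ae (Filter.Eventually.of_forall fun x => ?_)
    show _ * UNL.ch b (-n) (UNL.cu b x) = _ * UQO.ch (-n) (UQO.cu x)
    rw [UNL.PartB_ch]
    rfl
  rw [h2]
  rfl

private theorem kf_norm_ch (b : UNL.Par) (n : ℤ × ℤ) (u : ℂ) : ‖UNL.ch b n u‖ = 1 := by
  unfold UNL.ch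
  rw [Complex.norm_exp]
  have : (((UNL.kap b : ℝ) : ℂ) * (UNL.mm b n * u - UNL.cj (UNL.mm b n * u))).re = 0 := by
    rw [Complex.re_ofReal_mul, Complex.sub_re, Complex.conj_re, sub_self, mul_zero]
  rw [this, Real.exp_zero]

private theorem kf_gauss (b : UNL.Par) {τ : ℝ} (hτ : 0 < τ) :
    Summable (fun n : ℤ × ℤ => Real.exp (-τ * ‖UNL.mm b n‖ ^ 2)) := by
  letI := UNL.PartB_lt b
  exact gauss_summable hτ

private theorem kf_kap (b : UNL.Par) : 0 < UNL.kap b := by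
  unfold UNL.kap
  have h1 := UNL.A_pos b
  have h2 := UNL.sD_pos b
  have h3 := Real.pi_pos
  positivity

private theorem kf_zero : kf_e D 0 = 0 := by
  show el D ((0 : ℤ) - 0 * D.a.t, (0 : ℤ)) = 0
  rw [zero_mul, sub_zero]
  exact el_zero

private theorem kf_ge {n : ℤ × ℤ} (hn : n ≠ 0) : 1 ≤ ‖UNL.mm (toU D.a) n‖ ^ 2 := by
  rw [← kf_nn]
  have h1 : nn D (kf_e D n) ≠ 0 := by
    rw [Ne, nn_eq_zero, ← kf_zero, (kf_e D).injective.eq_iff]
    exact hn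
  exact_mod_cast Nat.one_le_iff_ne_zero.2 h1

private theorem kf_sum {τ : ℝ} (hτ : 0 < τ) (z : ℂ) :
    Summable (fun n : ℤ × ℤ => ((Real.exp (-τ * ‖UNL.mm (toU D.a) n‖ ^ 2) : ℝ) : ℂ) *
      (UNL.fc (toU D.a) (fun z => ((fk (toU D.a) z : ℝ) : ℂ)) n * UNL.ch (toU D.a) n z)) := by
  set c : ℤ × ℤ → ℂ := UNL.fc (toU D.a) (fun z => ((fk (toU D.a) z : ℝ) : ℂ)) with hc
  have hκ := kf_kap (toU D.a)
  have hb : ∀ n, ‖c n‖ ≤ ‖c 0‖ + 1 / (2 * UNL.kap (toU D.a)) := by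
    intro n
    by_cases hn : n = 0
    · rw [hn]
      have : 0 ≤ 1 / (2 * UNL.kap (toU D.a)) := by positivity
      linarith
    · have h1 := kf_ge (D := D) hn
      have h2 : c n = -(1 / (2 * UNL.kap (toU D.a) * ((‖UNL.mm (toU D.a) n‖ ^ 2 : ℝ) : ℂ))) :=
        fk_fc (toU D.a) hn
      have h3 : ‖c n‖ = 1 / (2 * UNL.kap (toU D.a) * ‖UNL.mm (toU D.a) n‖ ^ 2) := by
        rw [h2, norm_neg, norm_div, norm_one, norm_mul, norm_mul, Complex.norm_real,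
          Complex.norm_real, Real.norm_of_nonneg hκ.le,
          Real.norm_of_nonneg (sq_nonneg _)]
        norm_num
      rw [h3]
      have h4 : 1 / (2 * UNL.kap (toU D.a) * ‖UNL.mm (toU D.a) n‖ ^ 2) ≤
          1 / (2 * UNL.kap (toU D.a)) := by
        apply one_div_le_one_div_of_le (by positivity)
        nlinarith
      have := norm_nonneg (c 0)
      linarith
  refine Summable.of_norm_bounded
    ((kf_gauss (toU D.a) hτ).mul_right (‖c 0‖ + 1 / (2 * UNL.kap (toU D.a)))) fun n => ?_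
  rw [norm_mul, norm_mul, kf_norm_ch, mul_one, Complex.norm_real,
    Real.norm_of_nonneg (Real.exp_nonneg _)]
  exact mul_le_mul_of_nonneg_left (hb n) (Real.exp_nonneg _)

theorem kron {A : UNL.G N → ℂ} (h0 : A 0 = 0) (hs : ∑ k, A k = 0) :
    Tendsto (fun τ : ℝ => ∑' x : D.O, (∑ k : UNL.G N, A k * pss D ((x : ℂ) * UNL.tp (toU D.a) k)) *
      ((Real.exp (-τ * nn D x) / nn D x : ℝ) : ℂ)) (𝓝[>] 0)
      (𝓝 (-(2 * UNL.kap (toU D.a)) * ∑ k : UNL.G N, A k * (fg D k : ℂ))) := by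
  have hκ : ((UNL.kap (toU D.a) : ℝ) : ℂ) ≠ 0 := by
    exact_mod_cast (kf_kap (toU D.a)).ne'
  have h1 : Tendsto (fun τ => ∑ k : UNL.G N, A k * kf_S (toU D.a) τ (UNL.tp (toU D.a) k))
      (𝓝[>] 0) (𝓝 (∑ k, A k * (fg D k : ℂ))) := by
    refine tendsto_finsetSum _ fun k _ => ?_
    by_cases hk : k = 0
    · rw [hk, h0]
      simp only [zero_mul]
      exact tendsto_const_nhds
    · have h2 : fg D k = fk (toU D.a) (UNL.tp (toU D.a) k) := if_neg hk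
      rw [h2]
      exact (kf_lim (toU D.a) (UNL.Gen.tp_off (toU D.a) hk)).const_mul _
  have h2 := h1.const_mul (-(2 * UNL.kap (toU D.a) : ℂ))
  refine h2.congr' ?_
  filter_upwards [self_mem_nhdsWithin] with τ hτ
  have hτ : 0 < τ := hτ
  unfold kf_S
  rw [← (kf_e D).tsum_eq]
  have h3 : ∀ k : UNL.G N, A k * ∑' n : ℤ × ℤ,
      ((Real.exp (-τ * ‖UNL.mm (toU D.a) n‖ ^ 2) : ℝ) : ℂ) *
        (UNL.fc (toU D.a) (fun z => ((fk (toU D.a) z : ℝ) : ℂ)) n *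
          UNL.ch (toU D.a) n (UNL.tp (toU D.a) k)) =
      ∑' n : ℤ × ℤ, A k * (((Real.exp (-τ * ‖UNL.mm (toU D.a) n‖ ^ 2) : ℝ) : ℂ) *
        (UNL.fc (toU D.a) (fun z => ((fk (toU D.a) z : ℝ) : ℂ)) n *
          UNL.ch (toU D.a) n (UNL.tp (toU D.a) k))) := fun k => tsum_mul_left.symm
  rw [Finset.sum_congr rfl fun k _ => h3 k,
    ← Summable.tsum_finsetSum fun k _ => (kf_sum hτ (UNL.tp (toU D.a) k)).mul_left (A k),
    ← tsum_mul_left]
  refine tsum_congr fun n => ?_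
  by_cases hn : n = 0
  · have e1 : ∑ k : UNL.G N, A k * (((Real.exp (-τ * ‖UNL.mm (toU D.a) n‖ ^ 2) : ℝ) : ℂ) *
        (UNL.fc (toU D.a) (fun z => ((fk (toU D.a) z : ℝ) : ℂ)) n *
          UNL.ch (toU D.a) n (UNL.tp (toU D.a) k))) = 0 := by
      have e2 : ∀ k : UNL.G N, A k * (((Real.exp (-τ * ‖UNL.mm (toU D.a) n‖ ^ 2) : ℝ) : ℂ) *
          (UNL.fc (toU D.a) (fun z => ((fk (toU D.a) z : ℝ) : ℂ)) n *
            UNL.ch (toU D.a) n (UNL.tp (toU D.a) k))) =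
          A k * (((Real.exp (-τ * ‖UNL.mm (toU D.a) n‖ ^ 2) : ℝ) : ℂ) *
          UNL.fc (toU D.a) (fun z => ((fk (toU D.a) z : ℝ) : ℂ)) n) := by
        intro k
        rw [kf_ch, hn, kf_zero]
        have : pss D (((0 : D.O) : ℂ) * UNL.tp (toU D.a) k) = 1 := by
          rw [ZeroMemClass.coe_zero, zero_mul, pss_zero]
        rw [this, mul_one]
      rw [Finset.sum_congr rfl fun k _ => e2 k, ← Finset.sum_mul, hs, zero_mul]
    have e3 : ∑ k : UNL.G N, A k * pss D (((kf_e D n : D.O) : ℂ) * UNL.tp (toU D.a) k) = 0 := by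
      have e4 : ∀ k : UNL.G N,
          A k * pss D (((kf_e D n : D.O) : ℂ) * UNL.tp (toU D.a) k) = A k := by
        intro k
        rw [hn, kf_zero, ZeroMemClass.coe_zero, zero_mul, pss_zero, mul_one]
      rw [Finset.sum_congr rfl fun k _ => e4 k, hs]
    rw [e1, e3, mul_zero, zero_mul]
  · have h1 := kf_ge (D := D) hn
    have h4 : (((‖UNL.mm (toU D.a) n‖ ^ 2 : ℝ)) : ℂ) ≠ 0 := by
      have : (‖UNL.mm (toU D.a) n‖ ^ 2 : ℝ) ≠ 0 := by linarith
      exact_mod_cast this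
    rw [Finset.mul_sum, Finset.sum_mul]
    refine Finset.sum_congr rfl fun k _ => ?_
    rw [fk_fc (toU D.a) hn, kf_ch, kf_nn, Complex.ofReal_div]
    field_simp

end

end RN2
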