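import Pool.Agent.RN2.Rl
import Pool.Agent.RN2.Ze

/-!
# RN2.Nv: `L(1, χ) ≠ 0`

1. `χ.f` has period `N`, `χ(0) = 0` (if `0` is prime to `N` then `N` is a unit of `O`, so `χ` is constant, `= 1`,
  against `Nt`), and `Σ_k χ(rp k) = 0` (multiply by an `x` prime to `N` with `χ(x) ≠ 1`: it permutes the classes
  mod `N`). `cont_zero` gives `Z`, and `Z'` for `χ̄`.
2. Suppose `Z(1) = 0`, so `Z'(1) = 0`. Let `M` be the function of `cont_all` for `c0 N` (`c0_pe`). Then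
  `F(s) = M(s)² dslope Z 1 s dslope Z' 1 s` is entire, for `Re s > 1` it is `Ds c0 s ^ 2 Ds χ s Ds χ̄ s = LSeries A s` (`rl`),
  and `F(-1) = 0`. But `LSeries.positive_of_differentiable_of_eqOn` gives `0 < F(-1)` (`x = 1`,
  `abscissaOfAbsConv A ≤ 1`: `LSeries.abscissaOfAbsConv_le_of_forall_lt_LSeriesSummable`).
-/

open RNK Filter Topology
open scoped ComplexOrder

namespace RN2

noncomputable section

variable {D : OD} {N : ℕ} [NeZero N]

/-- a non trivial character has sum zero -/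
theorem chr_sum (χ : Chr D N) (hn : χ.Nt) : χ.f 0 = 0 ∧ ∑ k : UNL.G N, χ.f (rp D k) = 0 := by
  obtain ⟨x, hx, hx1⟩ := hn
  refine ⟨?_, ?_⟩
  · refine χ.zr 0 fun h0 => hx1 ?_
    have hu : IsUnit ((N : D.O)) := isCoprime_zero_left.1 h0
    obtain ⟨y, hy⟩ := hu.dvd (a := x - 1)
    have h1 : x = 1 + (N : D.O) * y := by rw [← hy]; ring
    rw [h1, χ.per, χ.one]
  · obtain ⟨u, v, huv⟩ := hx
    have hinj : Function.Injective (fun k : UNL.G N => cls N (x * rp D k)) := by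
      intro k l hkl
      obtain ⟨z, hz⟩ := cls_eq.1 hkl
      have h2 : rp D k = rp D l + (N : D.O) * (u * z + v * (rp D k - rp D l)) := by
        linear_combination u * hz - (rp D k - rp D l) * huv
      have h3 := cls_eq.2 ⟨_, h2⟩
      rwa [cls_rp, cls_rp] at h3
    have hbij : Function.Bijective (fun k : UNL.G N => cls N (x * rp D k)) :=
      Finite.injective_iff_bijective.1 hinj
    have h4 : ∀ k : UNL.G N, χ.f (rp D (cls N (x * rp D k))) = χ.f x * χ.f (rp D k) := by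
      intro k
      obtain ⟨y, hy⟩ := rp_cls (N := N) (x * rp D k)
      rw [← χ.mul]
      conv_rhs => rw [hy]
      rw [χ.per]
    have h5 : ∑ k : UNL.G N, χ.f (rp D k) = χ.f x * ∑ k : UNL.G N, χ.f (rp D k) := by
      rw [Finset.mul_sum, ← Finset.sum_congr rfl fun k _ => h4 k]
      exact (hbij.sum_comp (fun k : UNL.G N => χ.f (rp D k))).symm
    have h6 : (χ.f x - 1) * ∑ k : UNL.G N, χ.f (rp D k) = 0 := by
      linear_combination -h5
    exact (mul_eq_zero.1 h6).resolve_left (sub_ne_zero.2 hx1)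

theorem L_ne (χ : Chr D N) (hu : χ.Tu) (hn : χ.Nt) : ∃ v : ℂ, v ≠ 0 ∧
    Tendsto (fun τ : ℝ => ∑' x : D.O, χ.f x * ((Real.exp (-τ * nn D x) / nn D x : ℝ) : ℂ))
      (𝓝[>] 0) (𝓝 v) := by
  obtain ⟨h0, hs⟩ := chr_sum χ hn
  obtain ⟨Z, hZd, hZ, hZt⟩ := cont_zero (a := χ.f) χ.per h0 hs
  have hc0 : (starRingEnd ℂ) (χ.f 0) = 0 := by rw [h0, map_zero]
  have hcs : ∑ k : UNL.G N, (starRingEnd ℂ) (χ.f (rp D k)) = 0 := by
    rw [← map_sum, hs, map_zero]
  have hcp : Pe N (fun x : D.O => (starRingEnd ℂ) (χ.f x)) := fun x y => by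
    show (starRingEnd ℂ) (χ.f _) = (starRingEnd ℂ) (χ.f x)
    rw [χ.per]
  obtain ⟨Z', hZd', hZ', hZt'⟩ := cont_zero (a := fun x : D.O => (starRingEnd ℂ) (χ.f x)) hcp hc0 hcs
  refine ⟨Z 1, fun hZ1 => ?_, hZt⟩
  have hZ1' : Z' 1 = 0 := by
    have h1 : Tendsto (fun τ : ℝ => (starRingEnd ℂ) (∑' x : D.O, χ.f x *
        ((Real.exp (-τ * nn D x) / nn D x : ℝ) : ℂ))) (𝓝[>] 0) (𝓝 ((starRingEnd ℂ) (Z 1))) :=
      (Complex.continuous_conj.tendsto (Z 1)).comp hZt
    rw [hZ1, map_zero] at h1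
    refine tendsto_nhds_unique hZt' (h1.congr fun τ => ?_)
    rw [Complex.conj_tsum]
    refine tsum_congr fun x => ?_
    rw [map_mul, Complex.conj_ofReal]
  obtain ⟨M, hMd, hM, hM1⟩ := cont_all (D := D) (N := N) (c0_pe N)
  obtain ⟨A, hA0, hA1, hA⟩ := rl χ hu
  have hds : ∀ {f : ℂ → ℂ}, Differentiable ℂ f → Differentiable ℂ (dslope f 1) := by
    intro f hf
    rw [← differentiableOn_univ] at hf ⊢
    exact (Complex.differentiableOn_dslope Filter.univ_mem).2 hf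
  have hF : Differentiable ℂ fun s : ℂ => M s ^ 2 * dslope Z 1 s * dslope Z' 1 s :=
    ((hMd.pow 2).mul (hds hZd)).mul (hds hZd')
  have hEq : {s : ℂ | (1 : ℝ) < s.re}.EqOn (fun s : ℂ => M s ^ 2 * dslope Z 1 s * dslope Z' 1 s)
      (LSeries A) := by
    intro s hs
    have hs' : 1 < s.re := hs
    have hs1 : s ≠ 1 := by
      rintro rfl
      rw [Complex.one_re] at hs'
      exact lt_irrefl _ hs'
    have hs2 : s - 1 ≠ 0 := sub_ne_zero.2 hs1
    show M s ^ 2 * dslope Z 1 s * dslope Z' 1 s = LSeries A s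
    rw [dslope_of_ne _ hs1, dslope_of_ne _ hs1, slope_def_field, slope_def_field, hZ1, hZ1',
      sub_zero, sub_zero, hZ s hs', hZ' s hs', hM s hs', (hA s hs').2]
    field_simp
  have hab : LSeries.abscissaOfAbsConv A ≤ ((1 : ℝ) : EReal) := by
    refine LSeries.abscissaOfAbsConv_le_of_forall_lt_LSeriesSummable fun y hy => ?_
    refine (hA (y : ℂ) ?_).1
    rwa [Complex.ofReal_re]
  have hpos := LSeries.positive_of_differentiable_of_eqOn hA0 hA1 hF hab hEq (-1)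
  have hz : M ((-1 : ℝ) : ℂ) = 0 := by
    rw [Complex.ofReal_neg, Complex.ofReal_one]
    exact hM1
  rw [hz] at hpos
  have h7 : (0 : ℂ) ^ 2 * dslope Z 1 ((-1 : ℝ) : ℂ) * dslope Z' 1 ((-1 : ℝ) : ℂ) = 0 := by ring
  rw [h7] at hpos
  exact lt_irrefl _ hpos

end

end RN2
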