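import Pool.Agent.RN2.Cd
import Pool.Agent.RN2.Du
import Pool.Agent.RN2.Nv
import Pool.Agent.RN2.Kf
import Pool.Agent.UNL.AMain

/-!
# RN2.Dc: all distributions are combinations of `log |Klein function|`

`S`, `X` from `chars`. For `χ = X i` let `φ_χ = pj S χ φ`; `φ = Σ φ_χ` (`pj_sum`), `φ_χ(x k) = χ(x) φ_χ(k)` (`pj_eq`), and `φ_χ`
satisfies the relations of `φ` (`ac q`, `ac r` commute, `ac r` is bijective). It is enough: `Σ A φ_χ = 0`.
1. If `χ` is not trivial on the units then `φ_χ = 0` (`pj_triv`).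
2. `χ` trivial (`¬ χ.Nt`): `δ(k) = [k = 0]` satisfies all relations and is invariant; `φ_χ - φ̂_χ(1) δ` has transform
  `0` at `1`, so it is `0` (`mult_one`), `Σ A φ_χ = φ̂_χ(1) A(0) = 0`.
3. `χ` with `Tu`, `Nt`: `f_χ = pj S χ (fg D)`. It satisfies the relations (`fg_dist`; the constants are killed by
  `Σ_r conj χ(r) = 0`). `f̂_χ(1) = Σ_k f_χ(k) ψ(tp k) = (1/|S|) Σ_k fg(k) A_χ(k)`,
  `A_χ(k) = Σ_r conj χ(r) ψ(tp (r⁻¹ k))`. `A_χ(0) = 0`, `Σ_k A_χ(k) = 0` and for `x ∈ O`:
  `Σ_k A_χ(k) ψ(x tp k) = N² Σ_r conj χ(r) [x r ≡ -1] = N² χ(x)` (`χ(-1) = 1`). `kron` for `A_χ` and `L_ne`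
  (uniqueness of limits): `-2κ Σ_k A_χ(k) fg(k) = N² v ≠ 0`. So `f̂_χ(1) ≠ 0`,
  `φ_χ = (φ̂_χ(1) / f̂_χ(1)) f_χ` (`mult_one`), and `Σ_k A(k) f_χ(k) = (1/|S|) Σ_r conj χ(r) Σ_k A(k) fg(r k) = 0`
  by `hA`.
`fg_dist`: `UNL.dist_gc` with `hat = ev q₀ lg` (`gn_ne`, `gc_ev`, `gd_lg`).
-/

open RNK Filter Topology

namespace RN2

noncomputable section

variable {D : OD} {N : ℕ} [NeZero N]

open Classical in
theorem fg_dist {q : D.O} (hq : q ∣ (N : D.O)) : ∃ C C' : ℝ, ∀ m : UNL.G N, (∃ k, ac q k = m) →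
    ∑ k ∈ Finset.univ.filter (fun k : UNL.G N => ac q k = m), fg D k =
      fg D m + if m = 0 then C' else C := by
  obtain ⟨q', hq'⟩ := hq
  have hd : UNL.de (toU D.a) (cod D q) * UNL.de (toU D.a) (cod D q') = N := by
    rw [de_toU, de_toU, xx_cod, xx_cod, ← Subring.coe_mul, ← hq']
    simp
  obtain ⟨q₀⟩ := gn_ne (toU D.a) N
  obtain ⟨CA, hCA⟩ := UNL.dist_gc (ev q₀ lg) (cod D q) (cod D q') hd
  refine ⟨CA.re, CA.re + (UNL.co (ev q₀ lg) (fun _ _ => UNL.de (toU D.a) (cod D q))).re,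
    fun m hm => ?_⟩
  have h := hCA m hm
  simp only [gc_ev, gd_lg] at h
  have h1 := congrArg Complex.re h
  have h2 : (∑ k ∈ Finset.univ.filter (fun k : UNL.G N => ac q k = m), fg D k : ℝ) =
      (∑ k ∈ Finset.univ.filter (fun k : UNL.G N => UNL.sm (toU D.a) (cod D q) k = m),
        ((fg D k : ℝ) : ℂ)).re := by
    rw [Complex.re_sum]
    refine Finset.sum_congr ?_ fun k _ => (Complex.ofReal_re _).symm
    ext k
    rw [Finset.mem_filter, Finset.mem_filter]
    rfl
  rw [h2, h1]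
  by_cases hm0 : m = 0
  · rw [if_pos hm0, if_pos hm0]
    simp only [Complex.add_re, Complex.ofReal_re]
    ring
  · rw [if_neg hm0, if_neg hm0]
    simp only [Complex.add_re, Complex.ofReal_re, add_zero]

/-! ### the relations of the `χ`-part -/

open Classical in
private theorem dc_shift {r : D.O} (hr : Cp N r) (q : D.O) (m : UNL.G N) (φ : UNL.G N → ℂ) :
    ∑ k ∈ Finset.univ.filter (fun k : UNL.G N => ac q k = m), φ (ac r k) =
      ∑ k ∈ Finset.univ.filter (fun k : UNL.G N => ac q k = ac r m), φ k := by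
  obtain ⟨y, -, hy⟩ := Cp_inv hr
  refine Finset.sum_nbij' (fun k => ac r k) (fun k => ac y k) ?_ ?_ ?_ ?_ ?_
  · intro k hk
    rw [Finset.mem_filter] at hk ⊢
    refine ⟨Finset.mem_univ _, ?_⟩
    rw [← ac_mul, mul_comm, ac_mul, hk.2]
  · intro k hk
    rw [Finset.mem_filter] at hk ⊢
    refine ⟨Finset.mem_univ _, ?_⟩
    rw [← ac_mul, mul_comm, ac_mul, hk.2, (hy m).1]
  · intro k _
    exact (hy k).1
  · intro k _
    exact (hy k).2
  · intro k _
    rfl

/-- a sum over all of `G` can be shifted -/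
private theorem dc_sum {x y : D.O} (hy : ∀ k : UNL.G N, ac y (ac x k) = k ∧ ac x (ac y k) = k)
    (h : UNL.G N → ℂ) : ∑ k : UNL.G N, h (ac x k) = ∑ k : UNL.G N, h k :=
  Finset.sum_nbij' (fun k => ac x k) (fun k => ac y k) (fun _ _ => Finset.mem_univ _)
    (fun _ _ => Finset.mem_univ _) (fun k _ => (hy k).1) (fun k _ => (hy k).2) (fun _ _ => rfl)

private theorem dc_ker {x : D.O} (hx : Cp N x) (k : UNL.G N) : ac x k = 0 ↔ k = 0 := by
  obtain ⟨y, -, hy⟩ := Cp_inv (N := N) hx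
  constructor
  · intro h
    rw [← (hy k).1, h, ac_zero]
  · rintro rfl
    exact ac_zero x

private theorem dc_ne (χ : Chr D N) {x : D.O} (hx : Cp N x) : χ.f x ≠ 0 := by
  obtain ⟨y, -, hy⟩ := Cp_inv hx
  have h1 : ∀ k : UNL.G N, ac (x * y) k = ac (1 : D.O) k := by
    intro k
    rw [ac_mul, (hy k).2, ac_one]
  obtain ⟨z, hz⟩ := ac_eq.1 h1
  intro h0
  have h2 := χ.mul x y
  rw [hz, χ.per, χ.one, h0, zero_mul] at h2
  exact one_ne_zero h2

private theorem dc_norm (χ : Chr D N) {x : D.O} (hx : Cp N x) : ‖χ.f x‖ = 1 := by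
  have h3 : ∀ n : ℕ, χ.f (x ^ n) = χ.f x ^ n := by
    intro n
    induction n with
    | zero => rw [pow_zero, pow_zero, χ.one]
    | succ n ih => rw [pow_succ, χ.mul, ih, pow_succ]
  have h0 := dc_ne χ hx
  obtain ⟨i, j, hij, he⟩ := Finite.exists_ne_map_eq_of_infinite (fun n : ℕ => cls N (x ^ n))
  have key : ∀ i j : ℕ, i < j → cls N (x ^ i) = cls N (x ^ j) → ‖χ.f x‖ = 1 := by
    intro i j hij he
    obtain ⟨z, hz⟩ := cls_eq.1 he
    have h1 : χ.f x ^ i = χ.f x ^ j := by
      rw [← h3, ← h3, hz, χ.per]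
    have h2 : χ.f x ^ (j - i) = 1 := by
      have h4 : χ.f x ^ i * χ.f x ^ (j - i) = χ.f x ^ i * 1 := by
        rw [← pow_add, Nat.add_sub_cancel' hij.le, mul_one, h1]
      exact mul_left_cancel₀ (pow_ne_zero i h0) h4
    exact Complex.norm_eq_one_of_pow_eq_one h2 (Nat.sub_ne_zero_of_lt hij)
  rcases lt_or_gt_of_ne hij with h | h
  · exact key i j h he
  · exact key j i h he.symm

private theorem dc_conj_mul (χ : Chr D N) {x : D.O} (hx : Cp N x) :
    (starRingEnd ℂ) (χ.f x) * χ.f x = 1 := by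
  rw [mul_comm, Complex.mul_conj, Complex.normSq_eq_norm_sq, dc_norm χ hx]
  simp

private theorem dc_conj_sum (S : Rs D N) {χ : Chr D N} (hn : χ.Nt) :
    ∑ r ∈ S.s, (starRingEnd ℂ) (χ.f r) = 0 := by
  rw [← map_sum, rs_sum S hn, map_zero]

/-- if `φ` satisfies the relation up to a term which depends only on `m = 0`, the `χ`-part
satisfies the relation -/
private theorem dc_dst (S : Rs D N) (χ : Chr D N) {q : D.O} {φ : UNL.G N → ℂ} {e : UNL.G N → ℂ}
    (he : ∀ r ∈ S.s, ∀ m : UNL.G N, e (ac r m) = e m)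
    (hz : ∀ m : UNL.G N, (∑ r ∈ S.s, (starRingEnd ℂ) (χ.f r)) * e m = 0)
    (h : ∀ m : UNL.G N, (∃ k, ac q k = m) →
      ∑ k ∈ (Finset.univ.filter (fun k : UNL.G N => ac q k = m)), φ k = φ m + e m) :
    Dst q (pj S χ φ) := by
  classical
  intro m hm
  have h1 : ∀ r ∈ S.s,
      ∑ k ∈ (Finset.univ.filter (fun k : UNL.G N => ac q k = m)), φ (ac r k) =
        φ (ac r m) + e m := by
    intro r hr
    have h2 : ∃ k, ac q k = ac r m := by
      obtain ⟨k, hk⟩ := hm
      refine ⟨ac r k, ?_⟩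
      rw [← ac_mul, mul_comm, ac_mul, hk]
    have h3 := h (ac r m) h2
    rw [he r hr] at h3
    rw [← h3]
    have h4 := dc_shift (S.cp r hr) q m φ
    convert h4
  have h5 : ∑ k ∈ Finset.univ.filter (fun k : UNL.G N => ac q k = m), pj S χ φ k =
      1 / (S.s.card : ℂ) * ∑ r ∈ S.s, (starRingEnd ℂ) (χ.f r) * (φ (ac r m) + e m) := by
    unfold pj
    rw [← Finset.mul_sum, Finset.sum_comm]
    congr 1
    refine Finset.sum_congr rfl fun r hr => ?_
    rw [← Finset.mul_sum, ← h1 r hr]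
  have h6 : ∑ r ∈ S.s, (starRingEnd ℂ) (χ.f r) * (φ (ac r m) + e m) =
      ∑ r ∈ S.s, (starRingEnd ℂ) (χ.f r) * φ (ac r m) := by
    simp only [mul_add]
    rw [Finset.sum_add_distrib, ← Finset.sum_mul, hz m, add_zero]
  rw [h6] at h5
  convert h5
  rfl

/-! ### the transform of the `χ`-part -/

omit [NeZero N] in
private theorem dc_tp0 : UNL.tp (toU D.a) (0 : UNL.G N) = 0 := by
  simp [UNL.tp]

private theorem dc_hat (S : Rs D N) (χ : Chr D N) (φ : UNL.G N → ℂ) (iv : D.O → D.O)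
    (hiv : ∀ r ∈ S.s, ∀ k : UNL.G N, ac (iv r) (ac r k) = k ∧ ac r (ac (iv r) k) = k) :
    ∑ k : UNL.G N, pj S χ φ k * pss D (UNL.tp (toU D.a) k) =
      1 / (S.s.card : ℂ) * ∑ k : UNL.G N, (∑ r ∈ S.s, (starRingEnd ℂ) (χ.f r) *
        pss D (UNL.tp (toU D.a) (ac (iv r) k))) * φ k := by
  have h1 : ∀ r ∈ S.s, ∑ k : UNL.G N, φ (ac r k) * pss D (UNL.tp (toU D.a) k) =
      ∑ k : UNL.G N, pss D (UNL.tp (toU D.a) (ac (iv r) k)) * φ k := by
    intro r hr
    rw [← dc_sum (hiv r hr) (fun k => pss D (UNL.tp (toU D.a) (ac (iv r) k)) * φ k)]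
    refine Finset.sum_congr rfl fun k _ => ?_
    rw [(hiv r hr k).1, mul_comm]
  have h2 : ∑ k : UNL.G N, pj S χ φ k * pss D (UNL.tp (toU D.a) k) =
      1 / (S.s.card : ℂ) * ∑ r ∈ S.s, (starRingEnd ℂ) (χ.f r) *
        ∑ k : UNL.G N, φ (ac r k) * pss D (UNL.tp (toU D.a) k) := by
    unfold pj
    simp only [Finset.mul_sum, Finset.sum_mul]
    rw [Finset.sum_comm]
    refine Finset.sum_congr rfl fun r _ => Finset.sum_congr rfl fun k _ => ?_
    ring
  rw [h2]
  congr 1
  rw [Finset.sum_congr rfl fun r hr => by rw [h1 r hr]]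
  simp only [Finset.mul_sum, Finset.sum_mul]
  rw [Finset.sum_comm]
  refine Finset.sum_congr rfl fun r _ => Finset.sum_congr rfl fun k _ => ?_
  ring

private theorem dc_pair (S : Rs D N) (χ : Chr D N) (hu : χ.Tu) (iv : D.O → D.O)
    (hiv : ∀ r ∈ S.s, ∀ k : UNL.G N, ac (iv r) (ac r k) = k ∧ ac r (ac (iv r) k) = k) (x : D.O) :
    ∑ k : UNL.G N, (∑ r ∈ S.s, (starRingEnd ℂ) (χ.f r) *
        pss D (UNL.tp (toU D.a) (ac (iv r) k))) * pss D ((x : ℂ) * UNL.tp (toU D.a) k) =
      (N : ℂ) ^ 2 * χ.f x := by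
  classical
  have h1 : ∀ r ∈ S.s, ∑ k : UNL.G N, pss D (UNL.tp (toU D.a) (ac (iv r) k)) *
      pss D ((x : ℂ) * UNL.tp (toU D.a) k) =
      if ∃ y : D.O, 1 + x * r = (N : D.O) * y then (N : ℂ) ^ 2 else 0 := by
    intro r hr
    rw [← dc_sum (hiv r hr) (fun k => pss D (UNL.tp (toU D.a) (ac (iv r) k)) *
      pss D ((x : ℂ) * UNL.tp (toU D.a) k))]
    have h2 : ∀ k : UNL.G N, pss D (UNL.tp (toU D.a) (ac (iv r) (ac r k))) *
        pss D ((x : ℂ) * UNL.tp (toU D.a) (ac r k)) =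
        pss D (((1 + x * r : D.O) : ℂ) * UNL.tp (toU D.a) k) := by
      intro k
      rw [(hiv r hr k).1, pss_ac, ← pss_add]
      congr 1
      push_cast
      ring
    rw [Finset.sum_congr rfl fun k _ => h2 k]
    have h3 := orth (N := N) (1 + x * r)
    convert h3
  have h3 : ∑ k : UNL.G N, (∑ r ∈ S.s, (starRingEnd ℂ) (χ.f r) *
        pss D (UNL.tp (toU D.a) (ac (iv r) k))) * pss D ((x : ℂ) * UNL.tp (toU D.a) k) =
      ∑ r ∈ S.s, (starRingEnd ℂ) (χ.f r) *
        (if ∃ y : D.O, 1 + x * r = (N : D.O) * y then (N : ℂ) ^ 2 else 0) := by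
    simp only [Finset.sum_mul]
    rw [Finset.sum_comm]
    refine Finset.sum_congr rfl fun r hr => ?_
    rw [← h1 r hr, Finset.mul_sum]
    refine Finset.sum_congr rfl fun k _ => ?_
    ring
  rw [h3]
  by_cases hx : Cp N x
  · obtain ⟨x', hx', hxx⟩ := Cp_inv hx
    have hnx : Cp N (-x') := IsCoprime.neg_left hx'
    obtain ⟨r₀, ⟨hr₀, hr₀k⟩, hr₀u⟩ := S.ex (-x') hnx
    have h4 : ∀ r ∈ S.s, (∃ y : D.O, 1 + x * r = (N : D.O) * y) ↔ r = r₀ := by
      intro r hr
      constructor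
      · rintro ⟨y, hy⟩
        refine hr₀u r ⟨hr, fun k => ?_⟩
        have h5 : ac (x * r) k = -k := by
          have h6 : x * r = -1 + (N : D.O) * y := by
            rw [← hy]
            ring
          rw [h6, ac_per, ac_neg, ac_one]
        rw [ac_neg, ← (hxx (ac r k)).1, ← ac_mul x, h5, ac_negk]
      · intro hrr
        rw [hrr]
        have h5 : ∀ k : UNL.G N, ac (x * r₀) k = ac (-1 : D.O) k := by
          intro k
          rw [ac_mul, hr₀k, ac_neg, ac_negk, (hxx k).2, ac_neg, ac_one]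
        obtain ⟨z, hz⟩ := ac_eq.1 h5
        exact ⟨z, by rw [hz]; ring⟩
    rw [Finset.sum_eq_single_of_mem r₀ hr₀, if_pos ((h4 r₀ hr₀).2 rfl)]
    · obtain ⟨z, hz⟩ := (h4 r₀ hr₀).2 rfl
      have h6 : χ.f x * χ.f r₀ = 1 := by
        rw [← χ.mul]
        have h7 : x * r₀ = -1 + (N : D.O) * z := by
          rw [← hz]
          ring
        rw [h7, χ.per]
        have h8 := hu (-1)
        simpa using h8
      have h7 := dc_conj_mul χ (S.cp r₀ hr₀)
      have h8 : (starRingEnd ℂ) (χ.f r₀) = χ.f x := by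
        calc (starRingEnd ℂ) (χ.f r₀) = (starRingEnd ℂ) (χ.f r₀) * (χ.f x * χ.f r₀) := by
              rw [h6, mul_one]
          _ = (starRingEnd ℂ) (χ.f r₀) * χ.f r₀ * χ.f x := by ring
          _ = χ.f x := by rw [h7, one_mul]
      rw [h8, mul_comm]
    · intro r hr hne
      rw [if_neg (fun h => hne ((h4 r hr).1 h)), mul_zero]
  · rw [χ.zr x hx, mul_zero]
    refine Finset.sum_eq_zero fun r hr => ?_
    rw [if_neg, mul_zero]
    rintro ⟨y, hy⟩
    apply hx
    refine ⟨-r, y, ?_⟩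
    have h5 : y * (N : D.O) = 1 + x * r := by
      rw [hy]
      ring
    rw [h5]
    ring

private theorem dc_ne_zero (S : Rs D N) (χ : Chr D N) (hu : χ.Tu) (hn : χ.Nt) :
    ∑ k : UNL.G N, pj S χ (fun k => (fg D k : ℂ)) k * pss D (UNL.tp (toU D.a) k) ≠ 0 := by
  classical
  have hex : ∀ r : D.O, ∃ y : D.O, r ∈ S.s →
      ∀ k : UNL.G N, ac y (ac r k) = k ∧ ac r (ac y k) = k := by
    intro r
    by_cases hr : r ∈ S.s
    · obtain ⟨y, -, hy⟩ := Cp_inv (S.cp r hr)
      exact ⟨y, fun _ => hy⟩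
    · exact ⟨0, fun h => absurd h hr⟩
  choose iv hiv using hex
  rw [dc_hat S χ _ iv hiv]
  set A : UNL.G N → ℂ := fun k => ∑ r ∈ S.s, (starRingEnd ℂ) (χ.f r) *
    pss D (UNL.tp (toU D.a) (ac (iv r) k)) with hA
  have hA0 : A 0 = 0 := by
    show ∑ r ∈ S.s, (starRingEnd ℂ) (χ.f r) * pss D (UNL.tp (toU D.a) (ac (iv r) 0)) = 0
    have h1 : ∀ r ∈ S.s, (starRingEnd ℂ) (χ.f r) *
        pss D (UNL.tp (toU D.a) (ac (iv r) (0 : UNL.G N))) = (starRingEnd ℂ) (χ.f r) := by
      intro r _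
      rw [ac_zero, dc_tp0, pss_zero, mul_one]
    rw [Finset.sum_congr rfl h1]
    exact dc_conj_sum S hn
  have hAs : ∑ k, A k = 0 := by
    have h1 : ∀ r ∈ S.s, ∑ k : UNL.G N, pss D (UNL.tp (toU D.a) (ac (iv r) k)) =
        ∑ k : UNL.G N, pss D (UNL.tp (toU D.a) k) := fun r hr =>
      dc_sum (fun k => ⟨(hiv r hr k).2, (hiv r hr k).1⟩) (fun k => pss D (UNL.tp (toU D.a) k))
    show ∑ k : UNL.G N, ∑ r ∈ S.s, (starRingEnd ℂ) (χ.f r) *
      pss D (UNL.tp (toU D.a) (ac (iv r) k)) = 0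
    rw [Finset.sum_comm]
    have h2 : ∀ r ∈ S.s, ∑ k : UNL.G N, (starRingEnd ℂ) (χ.f r) *
        pss D (UNL.tp (toU D.a) (ac (iv r) k)) =
        (starRingEnd ℂ) (χ.f r) * ∑ k : UNL.G N, pss D (UNL.tp (toU D.a) k) := by
      intro r hr
      rw [← Finset.mul_sum, h1 r hr]
    rw [Finset.sum_congr rfl h2, ← Finset.sum_mul, dc_conj_sum S hn, zero_mul]
  have h2 := kron (D := D) hA0 hAs
  obtain ⟨v, hv, h3⟩ := L_ne χ hu hn
  have h4 := h3.const_mul ((N : ℂ) ^ 2)
  have h5 : (fun τ : ℝ => ∑' x : D.O, (∑ k : UNL.G N, A k *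
      pss D ((x : ℂ) * UNL.tp (toU D.a) k)) * ((Real.exp (-τ * nn D x) / nn D x : ℝ) : ℂ)) =
      fun τ : ℝ => (N : ℂ) ^ 2 *
        ∑' x : D.O, χ.f x * ((Real.exp (-τ * nn D x) / nn D x : ℝ) : ℂ) := by
    funext τ
    rw [← tsum_mul_left]
    refine tsum_congr fun x => ?_
    rw [dc_pair S χ hu iv hiv x]
    ring
  rw [h5] at h2
  have h6 := tendsto_nhds_unique h2 h4
  intro h0
  have hc : (1 / (S.s.card : ℂ)) ≠ 0 := by
    have : (S.s.card : ℂ) ≠ 0 := by exact_mod_cast (card_pos S).ne'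
    exact one_div_ne_zero this
  have h7 : ∑ k, A k * (fg D k : ℂ) = 0 := (mul_eq_zero.1 h0).resolve_left hc
  rw [h7, mul_zero] at h6
  have hN : (N : ℂ) ≠ 0 := Nat.cast_ne_zero.2 (NeZero.ne N)
  exact mul_ne_zero (pow_ne_zero 2 hN) hv h6.symm

theorem dist_zero {A : UNL.G N → ℚ} (hA0 : A 0 = 0)
    (hA : ∀ x : D.O, Cp N x → ∑ k : UNL.G N, (A k : ℝ) * fg D (ac x k) = 0) {φ : UNL.G N → ℂ}
    (hu : ∀ (u : D.Oˣ) (k : UNL.G N), φ (ac (u : D.O) k) = φ k)
    (hd : ∀ q : D.O, Prime q → q ∣ (N : D.O) → Dst q φ) :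
    ∑ k : UNL.G N, (A k : ℂ) * φ k = 0 := by
  classical
  obtain ⟨S, m, X, hX⟩ := chars D N
  have hkey : ∀ i, ∑ k : UNL.G N, (A k : ℂ) * pj S (X i) φ k = 0 := by
    intro i
    generalize X i = χ
    have hdφ : ∀ q : D.O, Prime q → q ∣ (N : D.O) → Dst q (pj S χ φ) := by
      intro q hq hqN
      refine dc_dst S χ (φ := φ) (e := fun _ => 0) (fun _ _ _ => rfl) (fun _ => mul_zero _) ?_
      intro m hm
      have h1 := hd q hq hqN m hm
      rw [add_zero]
      convert h1
    by_cases hTu : χ.Tu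
    · by_cases hNt : χ.Nt
      · -- the main case
        set f : UNL.G N → ℂ := pj S χ (fun k => (fg D k : ℂ)) with hf
        have hdf : ∀ q : D.O, Prime q → q ∣ (N : D.O) → Dst q f := by
          intro q hq hqN
          obtain ⟨C, C', hC⟩ := fg_dist hqN
          refine dc_dst S χ (e := fun m => ((if m = 0 then C' else C : ℝ) : ℂ)) ?_ ?_ ?_
          · intro r hr m
            simp only [dc_ker (S.cp r hr)]
          · intro m
            rw [dc_conj_sum S hNt, zero_mul]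
          · intro m hm
            have h1 := congrArg (fun r : ℝ => (r : ℂ)) (hC m hm)
            simp only [Complex.ofReal_sum, Complex.ofReal_add] at h1
            convert h1
        have hf1 := dc_ne_zero S χ hTu hNt
        rw [← hf] at hf1
        set F : ℂ := ∑ k : UNL.G N, f k * pss D (UNL.tp (toU D.a) k) with hF
        set c : ℂ := (∑ k : UNL.G N, pj S χ φ k * pss D (UNL.tp (toU D.a) k)) / F with hc
        have h0 : (fun k => pj S χ φ k - c * f k) = 0 := by
          refine mult_one χ ?_ ?_ ?_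
          · intro x hx k
            show pj S χ φ (ac x k) - c * f (ac x k) = χ.f x * (pj S χ φ k - c * f k)
            rw [hf, pj_eq S χ _ hx, pj_eq S χ _ hx]
            ring
          · intro q hq hqN m hm
            have h1 := hdφ q hq hqN m hm
            have h2 := hdf q hq hqN m hm
            rw [Finset.sum_sub_distrib, ← Finset.mul_sum, h1, h2]
          · have h1 : ∀ k : UNL.G N, (pj S χ φ k - c * f k) * pss D (UNL.tp (toU D.a) k) =
                pj S χ φ k * pss D (UNL.tp (toU D.a) k) -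
                  c * (f k * pss D (UNL.tp (toU D.a) k)) := by
              intro k
              ring
            rw [Finset.sum_congr rfl fun k _ => h1 k, Finset.sum_sub_distrib, ← Finset.mul_sum,
              ← hF, hc, div_mul_cancel₀ _ hf1, sub_self]
        have h1 : ∀ k, pj S χ φ k = c * f k := fun k => sub_eq_zero.1 (congrFun h0 k)
        have h2 : ∑ k : UNL.G N, (A k : ℂ) * f k = 0 := by
          have h3 : ∑ k : UNL.G N, (A k : ℂ) * f k = 1 / (S.s.card : ℂ) *
              ∑ r ∈ S.s, (starRingEnd ℂ) (χ.f r) *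
                ∑ k : UNL.G N, (A k : ℂ) * (fg D (ac r k) : ℂ) := by
            rw [hf]
            unfold pj
            simp only [Finset.mul_sum]
            rw [Finset.sum_comm]
            refine Finset.sum_congr rfl fun r _ => Finset.sum_congr rfl fun k _ => ?_
            ring
          rw [h3]
          have h4 : ∀ r ∈ S.s, (starRingEnd ℂ) (χ.f r) *
              ∑ k : UNL.G N, (A k : ℂ) * (fg D (ac r k) : ℂ) = 0 := by
            intro r hr
            have h5 := congrArg (fun r : ℝ => (r : ℂ)) (hA r (S.cp r hr))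
            simp only [Complex.ofReal_sum, Complex.ofReal_mul, Complex.ofReal_ratCast,
              Complex.ofReal_zero] at h5
            rw [h5, mul_zero]
          rw [Finset.sum_eq_zero h4, mul_zero]
        have h3 : ∀ k : UNL.G N, (A k : ℂ) * pj S χ φ k = c * ((A k : ℂ) * f k) := by
          intro k
          rw [h1]
          ring
        rw [Finset.sum_congr rfl fun k _ => h3 k, ← Finset.mul_sum, h2, mul_zero]
      · -- the trivial character
        have hχ : ∀ x : D.O, Cp N x → χ.f x = 1 := by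
          intro x hx
          by_contra h
          exact hNt ⟨x, hx, h⟩
        set c : ℂ := ∑ k : UNL.G N, pj S χ φ k * pss D (UNL.tp (toU D.a) k) with hc
        have h0 : (fun k : UNL.G N => pj S χ φ k - c * (if k = 0 then (1 : ℂ) else 0)) = 0 := by
          refine mult_one χ ?_ ?_ ?_
          · intro x hx k
            show pj S χ φ (ac x k) - c * (if ac x k = 0 then (1 : ℂ) else 0) =
              χ.f x * (pj S χ φ k - c * (if k = 0 then (1 : ℂ) else 0))
            rw [pj_eq S χ _ hx, hχ x hx]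
            simp only [dc_ker hx, one_mul]
          · intro q hq hqN m hm
            have h1 := hdφ q hq hqN m hm
            rw [Finset.sum_sub_distrib, ← Finset.mul_sum, h1]
            congr 2
            rw [Finset.sum_ite_eq']
            by_cases hm0 : m = 0
            · rw [if_pos hm0, if_pos]
              rw [Finset.mem_filter]
              exact ⟨Finset.mem_univ _, by rw [ac_zero, hm0]⟩
            · rw [if_neg hm0, if_neg]
              rw [Finset.mem_filter, ac_zero]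
              rintro ⟨-, h⟩
              exact hm0 h.symm
          · have h1 : ∀ k : UNL.G N, (pj S χ φ k - c * (if k = 0 then (1 : ℂ) else 0)) *
                pss D (UNL.tp (toU D.a) k) =
                pj S χ φ k * pss D (UNL.tp (toU D.a) k) - (if k = 0 then c else 0) := by
              intro k
              by_cases hk : k = 0
              · rw [if_pos hk, if_pos hk, hk, dc_tp0, pss_zero]
                ring
              · rw [if_neg hk, if_neg hk]
                ring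
            rw [Finset.sum_congr rfl fun k _ => h1 k, Finset.sum_sub_distrib,
              Finset.sum_ite_eq', if_pos (Finset.mem_univ _), ← hc, sub_self]
        have h1 : ∀ k : UNL.G N, (A k : ℂ) * pj S χ φ k = 0 := by
          intro k
          have h2 : pj S χ φ k = c * (if k = 0 then (1 : ℂ) else 0) :=
            sub_eq_zero.1 (congrFun h0 k)
          rw [h2]
          by_cases hk : k = 0
          · rw [hk, hA0]
            simp
          · rw [if_neg hk]
            simp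
        exact Finset.sum_eq_zero fun k _ => h1 k
    · refine Finset.sum_eq_zero fun k _ => ?_
      rw [pj_triv S χ hu hTu k, mul_zero]
  have h1 : ∀ k : UNL.G N, (A k : ℂ) * φ k = ∑ i, (A k : ℂ) * pj S (X i) φ k := by
    intro k
    rw [← Finset.mul_sum]
    congr 1
    refine (pj_sum S X (fun x hx => ?_) φ k).symm
    rw [hX x hx]
  rw [Finset.sum_congr rfl fun k _ => h1 k, Finset.sum_comm]
  exact Finset.sum_eq_zero fun i _ => hkey i

end

end RN2
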