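import Pool.Agent.RN2.Bs
import Pool.Agent.RNK.Wc

/-!
# RN2.De: the coefficients vanish at `0`

`Q = P ∪ U`. For a homomorphism `δ` let `hat = ev q₀ δ` (`gn_ne`), `gc hat k = gd b δ k` (`gc_ev`). As in `RNK/Wc` (`wc_sum`,
`wc_relQ`, `wc_relR`: private, copy them; there `c(0) = 0` is assumed, here keep the term of `m = 0`):
`Σ_k Rl q c k gd δ k = S_q Cst hat q + c(0) δ(q)`, `S_q = Σ_{m ∈ q G} c(m)`, `Σ_k Rl q c k = (N(q) - 1) S_q` (all `q ∈ Q`
divide `N`; `UNL.dist_gc`, `Cst`). `const_rel` with `e = (N, 0)`: `(N² - 1) Cst q = (N(q) - 1) Cst e`. So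
`(N² - 1) Σ_q S_q Cst q = Cst e Σ_q (N(q) - 1) S_q = Cst e Σ_k A k = 0`, and `hK` gives `Σ_{q ∈ Q} c_q(0) δ(q) = 0` for every `δ`
(if `N = 1` then `P` is empty). Let `q ∈ P`. The homomorphism `ℤ^P × Oˣ → ℂˣ` is injective (unique factorisation in the
principal ideal domain `O`: the elements of `P` are pairwise non associated primes), so there is a `δ` with `δ(q) = 1`,
`δ(q') = 0` for `q' ∈ P`, `q' ≠ q`, `δ(u) = 0` for units `u` (`Module.Baer.of_divisible`, `Module.Baer.extension_property`). Hence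
`c_q(0) = 0`.
-/

open RNK

namespace RN2

noncomputable section

variable {D : OD} {N : ℕ} [NeZero N]

/-! ### multiplication by an element dividing `N` -/

private theorem wc_lin (b : UNL.Par) {x y : ℤ} (h : (x : ℂ) + y * UNL.alp b = 0) :
    x = 0 ∧ y = 0 := by
  have h1 := congrArg (starRingEnd ℂ) h
  simp only [map_add, map_mul, map_intCast, map_zero] at h1
  have h2 : (y : ℂ) * (UNL.alp b - (starRingEnd ℂ) (UNL.alp b)) = 0 := by
    linear_combination h - h1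
  have h3 : UNL.alp b - (starRingEnd ℂ) (UNL.alp b) ≠ 0 := by
    have h4 := UNL.alp_sub b
    rw [UNL.cj] at h4
    rw [h4]
    refine mul_ne_zero ?_ Complex.I_ne_zero
    have h5 := UNL.sD_pos b
    exact_mod_cast h5.ne'
  have h4 : (y : ℂ) = 0 := (mul_eq_zero.1 h2).resolve_right h3
  rw [h4, zero_mul, add_zero] at h
  exact ⟨by exact_mod_cast h, by exact_mod_cast h4⟩

private theorem wc_eqs (b : UNL.Par) {N : ℕ} {d d' : ℤ × ℤ}
    (h : UNL.de b d * UNL.de b d' = N) :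
    d.1 * d'.1 - b.A * b.C * (d.2 * d'.2) = N ∧
      d.1 * d'.2 + d.2 * d'.1 + b.B * (d.2 * d'.2) = 0 := by
  have h1 := UNL.alp_sq b
  have h2 : ((d.1 * d'.1 - b.A * b.C * (d.2 * d'.2) - N : ℤ) : ℂ) +
      ((d.1 * d'.2 + d.2 * d'.1 + b.B * (d.2 * d'.2) : ℤ) : ℂ) * UNL.alp b = 0 := by
    simp only [UNL.de] at h
    push_cast at h1 ⊢
    linear_combination h - ((d.2 : ℂ) * d'.2) * h1
  obtain ⟨h3, h4⟩ := wc_lin b h2
  exact ⟨by linarith, h4⟩

/-- the matrix of the multiplication -/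
private def wcM (b : UNL.Par) (d : ℤ × ℤ) : UNL.M2 :=
  ⟨d.1, -(b.C * d.2), b.A * d.2, d.1 + b.B * d.2⟩

private theorem wcM_az (b : UNL.Par) (d : ℤ × ℤ) {N : ℕ} (k : UNL.G N) :
    (wcM b d).az k = UNL.sm b d k := by
  refine Prod.ext ?_ ?_
  · simp only [UNL.M2.az, wcM, UNL.sm]
    push_cast
    ring
  · simp only [UNL.M2.az, wcM, UNL.sm]
    push_cast
    ring

private theorem wcM_det (b : UNL.Par) (d : ℤ × ℤ) : (wcM b d).det = Nd b d := by
  simp only [UNL.M2.det, wcM, Nd]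
  ring

private theorem wcM_comp (b : UNL.Par) {N : ℕ} {d d' : ℤ × ℤ}
    (h : UNL.de b d * UNL.de b d' = N) (j : ℤ × ℤ) :
    (wcM b d).ai ((wcM b d').ai j) = (N : ℤ) • j := by
  obtain ⟨h1, h2⟩ := wc_eqs b h
  refine Prod.ext ?_ ?_
  · simp only [UNL.M2.ai, wcM, Prod.smul_fst, smul_eq_mul]
    linear_combination j.1 * h1 - b.C * j.2 * h2
  · simp only [UNL.M2.ai, wcM, Prod.smul_snd, smul_eq_mul]
    linear_combination j.2 * h1 + (b.A * j.1 + b.B * j.2) * h2

private theorem wc_Nd_pos (b : UNL.Par) {N : ℕ} [NeZero N] {d d' : ℤ × ℤ}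
    (h : UNL.de b d * UNL.de b d' = N) : 0 < Nd b d := by
  have hD := b.hD
  have h1 : 4 * Nd b d = (2 * d.1 + b.B * d.2) ^ 2 + (4 * b.A * b.C - b.B ^ 2) * d.2 ^ 2 := by
    simp only [Nd]
    ring
  by_contra hc
  have h2 : (2 * d.1 + b.B * d.2) ^ 2 + (4 * b.A * b.C - b.B ^ 2) * d.2 ^ 2 ≤ 0 := by
    rw [← h1]
    linarith
  have h3 : 0 < 4 * b.A * b.C - b.B ^ 2 := by linarith
  have h4 : d.2 = 0 := by
    by_contra h5
    have h6 : 0 < d.2 ^ 2 := by positivity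
    have h7 := mul_pos h3 h6
    have h8 := sq_nonneg (2 * d.1 + b.B * d.2)
    linarith
  have h5 : d.1 = 0 := by
    rw [h4] at h2
    have h6 : (2 * d.1) ^ 2 ≤ 0 := by nlinarith
    have h7 : (2 * d.1) ^ 2 = 0 := le_antisymm h6 (sq_nonneg _)
    have h8 := pow_eq_zero_iff (two_ne_zero) |>.1 h7
    linarith
  have h6 : UNL.de b d = 0 := by
    simp only [UNL.de, h4, h5]
    simp
  rw [h6, zero_mul] at h
  have h7 : (N : ℂ) ≠ 0 := Nat.cast_ne_zero.2 (NeZero.ne N)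
  exact h7 h.symm

private theorem wc_card_ker {N : ℕ} [NeZero N] (m m' : UNL.M2) (h : m.det ≠ 0)
    (hm : ∀ j : ℤ × ℤ, m.ai (m'.ai j) = (N : ℤ) • j) :
    Nat.card (m.azh N).ker = m.det.natAbs := by
  have h1 : Nat.card (m.azh N).ker * Nat.card (m.azh N).range = Nat.card (ZMod N × ZMod N) := by
    rw [← AddSubgroup.index_ker]
    exact AddSubgroup.card_mul_index _
  have h2 : Nat.card (m.azh N).range * (m.azh N).range.index = Nat.card (ZMod N × ZMod N) :=
    AddSubgroup.card_mul_index _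
  have h3 : 0 < Nat.card (m.azh N).range := Nat.card_pos
  have h4 : Nat.card (m.azh N).ker = (m.azh N).range.index := by
    refine Nat.eq_of_mul_eq_mul_left h3 ?_
    rw [h2, ← h1, mul_comm]
  rw [h4, ← m.index_range h, ← AddSubgroup.index_comap_of_surjective _ (UNL.M2.rd_surj N)]
  congr 1
  ext v
  constructor
  · rintro ⟨k, hk⟩
    obtain ⟨k', rfl⟩ := UNL.M2.rd_surj N k
    rw [UNL.M2.azh_apply, UNL.M2.az_rd] at hk
    have h5 : UNL.M2.rd N (v - m.ai k') = 0 := by rw [map_sub, hk, sub_self]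
    obtain ⟨j, hj⟩ := UNL.M2.rd_eq_zero.1 h5
    refine ⟨k' + m'.ai j, ?_⟩
    have h6 : m.ai (k' + m'.ai j) = m.ai k' + m.ai (m'.ai j) :=
      m.ail.map_add _ _
    rw [UNL.M2.ail_apply, h6, hm, ← hj]
    abel
  · rintro ⟨k, rfl⟩
    exact ⟨UNL.M2.rd N k, by rw [UNL.M2.azh_apply, UNL.M2.az_rd]; rfl⟩

private theorem wc_fib (b : UNL.Par) {N : ℕ} [NeZero N] {q q' : ℤ × ℤ}
    (hq : UNL.de b q * UNL.de b q' = N) {m : UNL.G N} (hm : ∃ k, UNL.sm b q k = m) :
    ((Finset.univ.filter (fun k : UNL.G N => UNL.sm b q k = m)).card : ℤ) = Nd b q := by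
  obtain ⟨k0, hk0⟩ := hm
  have h3 : (Finset.univ.filter (fun k : UNL.G N => UNL.sm b q k = m)).card =
      Nat.card ((wcM b q).azh N).ker := by
    rw [Nat.card_eq_fintype_card, ← Fintype.card_subtype]
    refine Fintype.card_congr ⟨fun k => ⟨k.1 - k0, ?_⟩, fun k => ⟨k.1 + k0, ?_⟩, ?_, ?_⟩
    · rw [AddMonoidHom.mem_ker, map_sub, UNL.M2.azh_apply, UNL.M2.azh_apply, wcM_az, wcM_az, k.2,
        hk0, sub_self]
    · have := (AddMonoidHom.mem_ker.1 k.2)
      rw [← wcM_az, ← UNL.M2.azh_apply, map_add, this, UNL.M2.azh_apply, wcM_az, hk0, zero_add]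
    · intro k; simp
    · intro k; simp
  have hp := wc_Nd_pos b hq
  rw [h3, wc_card_ker (wcM b q) (wcM b q') (by rw [wcM_det]; exact hp.ne') (wcM_comp b hq), wcM_det,
    Int.natAbs_of_nonneg hp.le]

/-! ### the sum of a relation against a function -/

open Classical in
private theorem wc_sum (b : UNL.Par) {N : ℕ} [NeZero N] {R : Type*} [AddCommGroup R] [Module ℚ R]
    (q : ℤ × ℤ) (c : UNL.G N → ℚ) (g : UNL.G N → R) :
    ∑ k : UNL.G N, Rl b q c k • g k =
      ∑ m ∈ Finset.univ.filter (fun m : UNL.G N => ∃ k, UNL.sm b q k = m),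
        c m • ((∑ k ∈ Finset.univ.filter (fun k : UNL.G N => UNL.sm b q k = m), g k) - g m) := by
  have h1 : ∑ k : UNL.G N, c (UNL.sm b q k) • g k =
      ∑ m ∈ Finset.univ.filter (fun m : UNL.G N => ∃ k, UNL.sm b q k = m),
        c m • ∑ k ∈ Finset.univ.filter (fun k : UNL.G N => UNL.sm b q k = m), g k := by
    rw [← Finset.sum_fiberwise Finset.univ (fun k : UNL.G N => UNL.sm b q k)
      (fun k => c (UNL.sm b q k) • g k)]
    rw [Finset.sum_filter]
    refine Finset.sum_congr rfl fun m _ => ?_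
    split_ifs with hm
    · rw [Finset.smul_sum]
      refine Finset.sum_congr rfl fun k hk => ?_
      rw [(Finset.mem_filter.1 hk).2]
    · refine Finset.sum_eq_zero fun k hk => ?_
      exact absurd ⟨k, (Finset.mem_filter.1 hk).2⟩ hm
  have h2 : ∑ k : UNL.G N, (if ∃ m : UNL.G N, UNL.sm b q m = k then c k else 0) • g k =
      ∑ m ∈ Finset.univ.filter (fun m : UNL.G N => ∃ k, UNL.sm b q k = m), c m • g m := by
    rw [Finset.sum_filter]
    refine Finset.sum_congr rfl fun m _ => ?_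
    split_ifs with hm
    · rfl
    · rw [zero_smul]
  simp only [Rl, sub_smul, Finset.sum_sub_distrib, smul_sub]
  rw [h1, ← h2]
  congr!

open Classical in
/-- the sum over the image -/
private def wcS (b : UNL.Par) {N : ℕ} [NeZero N] (q : ℤ × ℤ) (c : UNL.G N → ℚ) : ℚ :=
  ∑ m ∈ Finset.univ.filter (fun m : UNL.G N => ∃ k, UNL.sm b q k = m), c m

private theorem wc_relQ (b : UNL.Par) {N : ℕ} [NeZero N] {q q' : ℤ × ℤ}
    (hq : UNL.de b q * UNL.de b q' = N) (c : UNL.G N → ℚ) :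
    ∑ k : UNL.G N, Rl b q c k = ((Nd b q : ℤ) - 1 : ℚ) * wcS b q c := by
  classical
  have h := wc_sum b q c (fun _ : UNL.G N => (1 : ℚ))
  simp only [smul_eq_mul, mul_one] at h
  rw [h, wcS, Finset.mul_sum]
  refine Finset.sum_congr rfl fun m hm => ?_
  have h1 := wc_fib b hq (m := m) (by simpa using (Finset.mem_filter.1 hm).2)
  rw [Finset.sum_const, nsmul_eq_mul, mul_one]
  have h2 : ((Finset.univ.filter (fun k : UNL.G N => UNL.sm b q k = m)).card : ℚ) =
      ((Nd b q : ℤ) : ℚ) := by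
    rw [← h1]
    push_cast
    congr!
  rw [h2]
  ring

/-- the sum of a relation, with the term of `0` -/
private theorem wc_relR (b : UNL.Par) {N : ℕ} [NeZero N] {R : Type*} [Ring R] [Algebra ℚ R]
    (hat : Additive (UNL.Gn b N → ℂˣ) →+ R) {q q' : ℤ × ℤ}
    (hq : UNL.de b q * UNL.de b q' = N) (c : UNL.G N → ℚ) :
    ∑ k : UNL.G N, Rl b q c k • UNL.gc hat k = wcS b q c • Cst hat q +
      c 0 • UNL.co hat (fun _ _ => UNL.de b q) := by
  classical
  obtain ⟨CA, hCA⟩ := UNL.dist_gc hat q q' hq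
  have hz : ∃ k, UNL.sm b q k = (0 : UNL.G N) := ⟨0, by simp [UNL.sm]⟩
  have h0 := hCA 0 hz
  rw [UNL.gc_zero, zero_add, if_pos rfl] at h0
  have hC : Cst hat q = CA := by
    rw [Cst]
    refine sub_eq_of_eq_add ?_
    convert h0
  have hmem : (0 : UNL.G N) ∈ Finset.univ.filter (fun m : UNL.G N => ∃ k, UNL.sm b q k = m) :=
    Finset.mem_filter.2 ⟨Finset.mem_univ _, hz⟩
  rw [wc_sum b q c (fun k => UNL.gc hat k), wcS, Finset.sum_smul]
  rw [← Finset.add_sum_erase _ _ hmem, ← Finset.add_sum_erase _ (fun i => c i • Cst hat q) hmem]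
  have h3 : ∀ m ∈ (Finset.univ.filter (fun m : UNL.G N => ∃ k, UNL.sm b q k = m)).erase 0,
      c m • ((∑ k ∈ Finset.univ.filter (fun k : UNL.G N => UNL.sm b q k = m), UNL.gc hat k) -
        UNL.gc hat m) = c m • Cst hat q := by
    intro m hm
    obtain ⟨hm0, hm⟩ := Finset.mem_erase.1 hm
    have h1 := hCA m (by simpa using (Finset.mem_filter.1 hm).2)
    rw [if_neg hm0, add_zero] at h1
    have h2 : (∑ k ∈ Finset.univ.filter (fun k : UNL.G N => UNL.sm b q k = m), UNL.gc hat k) =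
        UNL.gc hat m + CA := by
      convert h1
    rw [h2, hC, add_sub_cancel_left]
  rw [Finset.sum_congr rfl h3]
  have h4 : (∑ k ∈ Finset.univ.filter (fun k : UNL.G N => UNL.sm b q k = 0), UNL.gc hat k) =
      CA + UNL.co hat (fun _ _ => UNL.de b q) := by
    convert h0
  rw [h4, UNL.gc_zero, sub_zero, hC, smul_add]
  abel

/-! ### the homomorphism -/

private theorem dvd_iff {D : OD} {P : Finset D.O} (hP : ∀ q ∈ P, Prime q)
    (hne : ∀ q ∈ P, ∀ q' ∈ P, Associated q q' → q = q') (m : P → ℕ) (q1 : P) :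
    (q1 : D.O) ∣ ∏ q : P, (q : D.O) ^ m q ↔ m q1 ≠ 0 := by
  constructor
  · intro h
    obtain ⟨q, -, hq⟩ := (Prime.dvd_finset_prod_iff (hP q1 q1.2) _).1 h
    have h1 : m q ≠ 0 := by
      intro h0
      rw [h0, pow_zero] at hq
      exact (hP q1 q1.2).not_isUnit (isUnit_of_dvd_one hq)
    have h2 : (q1 : D.O) ∣ (q : D.O) := (hP q1 q1.2).dvd_of_dvd_pow hq
    have h3 : q1 = q := Subtype.ext
      (hne _ q1.2 _ q.2 ((hP q1 q1.2).associated_of_dvd (hP q q.2) h2))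
    rw [h3]
    exact h1
  · intro h
    exact (dvd_pow_self _ h).trans (Finset.dvd_prod_of_mem _ (Finset.mem_univ q1))

open Classical in
private theorem ex_dl {D : OD} {P : Finset D.O} (hP : ∀ q ∈ P, Prime q)
    (hne : ∀ q ∈ P, ∀ q' ∈ P, Associated q q' → q = q') {q0 : D.O} (h0 : q0 ∈ P) :
    ∃ δ : Additive ℂˣ →+ ℂ,
      (∀ (q : D.O) (h : (q : ℂ) ≠ 0), q ∈ P →
        δ (Additive.ofMul (Units.mk0 (q : ℂ) h)) = if q = q0 then 1 else 0) ∧
      ∀ (u : D.O) (h : (u : ℂ) ≠ 0), IsUnit u →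
        δ (Additive.ofMul (Units.mk0 (u : ℂ) h)) = 0 := by
  have hq0 : ∀ q : P, ((q : D.O) : ℂ) ≠ 0 := fun q h => by
    exact (hP q q.2).ne_zero (Subtype.ext h)
  let e : P → ℂˣ := fun q => Units.mk0 _ (hq0 q)
  let ug : D.Oˣ →* ℂˣ := Units.map (D.O.subtype : D.O →* ℂ)
  let f1 : (P → ℤ) →+ Additive ℂˣ :=
    { toFun := fun n => ∑ q : P, n q • Additive.ofMul (e q)
      map_zero' := by simp
      map_add' := by
        intro n m
        rw [← Finset.sum_add_distrib]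
        refine Finset.sum_congr rfl fun q _ => ?_
        rw [Pi.add_apply, add_zsmul] }
  let f : (P → ℤ) × Additive D.Oˣ →+ Additive ℂˣ :=
    AddMonoidHom.coprod f1 (MonoidHom.toAdditive ug)
  let g : (P → ℤ) × Additive D.Oˣ →+ ℂ :=
    ((Int.castAddHom ℂ).comp (Pi.evalAddMonoidHom (fun _ : P => ℤ) ⟨q0, h0⟩)).comp
      (AddMonoidHom.fst _ _)
  have hf : Function.Injective f := by
    refine (injective_iff_map_eq_zero f).2 ?_
    rintro ⟨n, u⟩ h
    have h1 : (∑ q : P, n q • Additive.ofMul (e q)) + Additive.ofMul (ug u.toMul) = 0 := h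
    have h2 : (∏ q : P, e q ^ n q) * ug u.toMul = 1 := by
      have := congrArg Additive.toMul h1
      simpa [toMul_sum, toMul_zsmul] using this
    have h3 : (∏ q : P, e q ^ (n q).toNat) * ug u.toMul = ∏ q : P, e q ^ (-(n q)).toNat := by
      have h4 : (∏ q : P, e q ^ (n q).toNat) =
          (∏ q : P, e q ^ n q) * ∏ q : P, e q ^ (-(n q)).toNat := by
        rw [← Finset.prod_mul_distrib]
        refine Finset.prod_congr rfl fun q _ => ?_
        rw [← zpow_natCast, ← zpow_natCast, ← zpow_add]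
        congr 1
        omega
      rw [h4, mul_right_comm, h2, one_mul]
    have h5 : (∏ q : P, (q : D.O) ^ (n q).toNat) * (u.toMul : D.O) =
        ∏ q : P, (q : D.O) ^ (-(n q)).toNat := by
      apply Subtype.ext
      have := congrArg (Units.val : ℂˣ → ℂ) h3
      push_cast at this ⊢
      exact this
    have h6 : ∀ q : P, n q = 0 := by
      intro q1
      have h7 : (q1 : D.O) ∣ (∏ q : P, (q : D.O) ^ (n q).toNat) * (u.toMul : D.O) ↔
          (q1 : D.O) ∣ ∏ q : P, (q : D.O) ^ (n q).toNat :=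
        (Units.isUnit u.toMul).dvd_mul_right
      rw [h5, dvd_iff hP hne, dvd_iff hP hne] at h7
      omega
    have h8 : n = 0 := funext h6
    have h9 : u = 0 := by
      have h10 : (u.toMul : D.O) = 1 := by
        have h11 := h5
        simpa [h6] using h11
      exact congrArg Additive.ofMul (Units.ext h10 : u.toMul = 1)
    rw [h8, h9]
    rfl
  obtain ⟨δ, hδ⟩ := Module.Baer.extension_property_addMonoidHom
    (Module.Baer.of_divisible ℂ) f hf g
  have hδ' : ∀ x, δ (f x) = g x := fun x => DFunLike.congr_fun hδ x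
  refine ⟨δ, ?_, ?_⟩
  · intro q h hq
    have h1 := hδ' (Pi.single ⟨q, hq⟩ 1, 0)
    have h2 : f (Pi.single ⟨q, hq⟩ 1, 0) = Additive.ofMul (Units.mk0 (q : ℂ) h) := by
      show (∑ q' : P, (Pi.single ⟨q, hq⟩ 1 : P → ℤ) q' • Additive.ofMul (e q')) +
        (MonoidHom.toAdditive ug) 0 = _
      rw [map_zero, add_zero, Finset.sum_eq_single ⟨q, hq⟩]
      · rw [Pi.single_eq_same, one_smul]
      · intro q' _ hq'
        rw [Pi.single_eq_of_ne hq', zero_smul]
      · intro h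
        exact absurd (Finset.mem_univ _) h
    have h3 : g (Pi.single ⟨q, hq⟩ 1, 0) = if q = q0 then 1 else 0 := by
      show (((Pi.single ⟨q, hq⟩ 1 : P → ℤ) ⟨q0, h0⟩ : ℤ) : ℂ) = _
      rw [Pi.single_apply]
      by_cases hqq : q = q0
      · subst hqq
        simp
      · rw [if_neg hqq, if_neg (fun h => hqq (congrArg Subtype.val h).symm)]
        simp
    rw [← h2, h1, h3]
  · intro u h hu
    have h1 := hδ' (0, Additive.ofMul hu.unit)
    have h2 : f (0, Additive.ofMul hu.unit) = Additive.ofMul (Units.mk0 (u : ℂ) h) := by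
      show f1 0 + Additive.ofMul (ug hu.unit) = _
      rw [map_zero, zero_add]
      congr 1
      apply Units.ext
      rfl
    have h3 : g (0, Additive.ofMul hu.unit) = 0 := by
      show (((0 : P → ℤ) ⟨q0, h0⟩ : ℤ) : ℂ) = 0
      simp
    rw [← h2, h1, h3]

open Classical in
theorem c_zero {P U : Finset D.O} (hP : ∀ q ∈ P, Prime q ∧ q ∣ (N : D.O))
    (hne : ∀ q ∈ P, ∀ q' ∈ P, Associated q q' → q = q') (hU : ∀ u ∈ U, IsUnit u)
    {A : UNL.G N → ℚ} {c : D.O → UNL.G N → ℚ}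
    (hA : ∀ k, A k = ∑ q ∈ P ∪ U, Rl (toU D.a) (cod D q) (c q) k) (hs : ∑ k, A k = 0)
    (hK : ∀ δ : Additive ℂˣ →+ ℂ, ∑ k : UNL.G N, (A k : ℂ) * gd (toU D.a) δ k = 0) :
    ∀ q ∈ P, c q 0 = 0 := by
  intro q0 hq0
  have hN1 : N ≠ 1 := by
    intro h1
    have h2 := (hP q0 hq0).2
    rw [h1, Nat.cast_one] at h2
    exact (hP q0 hq0).1.not_isUnit (isUnit_of_dvd_one h2)
  have hN0 : 0 < N := Nat.pos_of_ne_zero (NeZero.ne N)
  have h2N : 2 ≤ N := by omega
  have hde : ∀ q : D.O, UNL.de (toU D.a) (cod D q) = (q : ℂ) := fun q => by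
    rw [de_toU, xx_cod]
  have hdv : ∀ q ∈ P ∪ U, q ∣ (N : D.O) := by
    intro q hq
    rcases Finset.mem_union.1 hq with h | h
    · exact (hP q h).2
    · exact (hU q h).dvd
  have hq' : ∀ q ∈ P ∪ U, ∃ y : D.O,
      UNL.de (toU D.a) (cod D q) * UNL.de (toU D.a) (cod D y) = N := by
    intro q hq
    obtain ⟨y, hy⟩ := hdv q hq
    refine ⟨y, ?_⟩
    rw [hde, hde]
    have := congrArg (Subtype.val : D.O → ℂ) hy
    push_cast at this
    exact this.symm
  obtain ⟨q1⟩ := gn_ne (toU D.a) N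
  obtain ⟨δ, hd1, hd2⟩ := ex_dl (fun q hq => (hP q hq).1) hne hq0
  have hK1 := hK δ
  have hdl : ∀ q ∈ P ∪ U, UNL.co (ev q1 δ) (fun _ _ => UNL.de (toU D.a) (cod D q)) =
      if q = q0 then 1 else 0 := by
    intro q hq
    have hne0 : (q : ℂ) ≠ 0 := by
      intro h0
      obtain ⟨y, hy⟩ := hq' q hq
      rw [hde, h0, zero_mul] at hy
      exact Nat.cast_ne_zero.2 hN0.ne' hy.symm
    rw [hde, ev_const q1 δ hne0]
    rcases Finset.mem_union.1 hq with h | h
    · exact hd1 q hne0 h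
    · rw [hd2 q hne0 (hU q h), if_neg]
      intro h1
      exact (hP q0 hq0).1.not_isUnit (h1 ▸ hU q h)
  have e0 : ∑ k : UNL.G N, A k • UNL.gc (ev q1 δ) k = 0 := by
    rw [← hK1]
    refine Finset.sum_congr rfl fun k _ => ?_
    rw [gc_ev, Rat.smul_def]
  have e1 : ∑ k : UNL.G N, A k • UNL.gc (ev q1 δ) k =
      ∑ q ∈ P ∪ U, ∑ k : UNL.G N, Rl (toU D.a) (cod D q) (c q) k • UNL.gc (ev q1 δ) k := by
    rw [Finset.sum_comm]
    refine Finset.sum_congr rfl fun k _ => ?_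
    rw [hA, Finset.sum_smul]
  have e2 : ∑ q ∈ P ∪ U, ∑ k : UNL.G N, Rl (toU D.a) (cod D q) (c q) k = 0 := by
    rw [← hs, Finset.sum_comm]
    exact Finset.sum_congr rfl fun k _ => (hA k).symm
  have e3 : ∀ q ∈ P ∪ U, ∑ k : UNL.G N, Rl (toU D.a) (cod D q) (c q) k • UNL.gc (ev q1 δ) k =
      wcS (toU D.a) (cod D q) (c q) • Cst (ev q1 δ) (cod D q) +
        c q 0 • (if q = q0 then (1 : ℂ) else 0) := by
    intro q hq
    obtain ⟨y, hy⟩ := hq' q hq
    rw [wc_relR (toU D.a) (ev q1 δ) hy, hdl q hq]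
  have e4 : ∀ q ∈ P ∪ U, ∑ k : UNL.G N, Rl (toU D.a) (cod D q) (c q) k =
      ((Nd (toU D.a) (cod D q) : ℤ) - 1 : ℚ) * wcS (toU D.a) (cod D q) (c q) := by
    intro q hq
    obtain ⟨y, hy⟩ := hq' q hq
    exact wc_relQ (toU D.a) hy _
  have hE : UNL.de (toU D.a) ((N : ℤ), 0) * UNL.de (toU D.a) (1, 0) = (N : ℂ) := by
    simp [UNL.de]
  have h5 : ∀ q ∈ P ∪ U, (((N : ℚ) ^ 2 - 1)) • Cst (ev q1 δ) (cod D q) =
      ((Nd (toU D.a) (cod D q) : ℤ) - 1 : ℚ) • Cst (ev q1 δ) ((N : ℤ), 0) := by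
    intro q hq
    obtain ⟨y, hy⟩ := hq' q hq
    have h6 := const_rel (ev q1 δ) ((N : ℤ), 0) (1, 0) (cod D q) (cod D y) hE hy
    have h7 : Nd (toU D.a) ((N : ℤ), 0) = (N : ℤ) ^ 2 := by simp [Nd]
    rw [h7] at h6
    have h8 : (((N : ℤ) ^ 2 - 1 : ℤ) : ℚ) • Cst (ev q1 δ) (cod D q) =
        ((Nd (toU D.a) (cod D q) - 1 : ℤ) : ℚ) • Cst (ev q1 δ) ((N : ℤ), 0) := by
      rw [Int.cast_smul_eq_zsmul, Int.cast_smul_eq_zsmul]
      exact h6
    push_cast at h8
    exact h8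
  have h9 : ((N : ℚ) ^ 2 - 1) • ∑ q ∈ P ∪ U,
      wcS (toU D.a) (cod D q) (c q) • Cst (ev q1 δ) (cod D q) = 0 := by
    rw [Finset.smul_sum]
    have h10 : ∀ q ∈ P ∪ U, ((N : ℚ) ^ 2 - 1) •
        (wcS (toU D.a) (cod D q) (c q) • Cst (ev q1 δ) (cod D q)) =
        (((Nd (toU D.a) (cod D q) : ℤ) - 1 : ℚ) * wcS (toU D.a) (cod D q) (c q)) •
          Cst (ev q1 δ) ((N : ℤ), 0) := by
      intro q hq
      rw [smul_comm, h5 q hq, smul_smul, mul_comm]
    rw [Finset.sum_congr rfl h10, ← Finset.sum_smul, ← Finset.sum_congr rfl e4, e2, zero_smul]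
  have h11 : ((N : ℚ) ^ 2 - 1) ≠ 0 := by
    have h12 : (2 : ℚ) ≤ N := by exact_mod_cast h2N
    nlinarith
  have h12 := (smul_eq_zero.1 h9).resolve_left h11
  rw [e1, Finset.sum_congr rfl e3, Finset.sum_add_distrib, h12, zero_add] at e0
  have h13 : ∑ q ∈ P ∪ U, c q 0 • (if q = q0 then (1 : ℂ) else 0) = c q0 0 • (1 : ℂ) := by
    rw [Finset.sum_eq_single q0]
    · rw [if_pos rfl]
    · intro q _ hq
      rw [if_neg hq, smul_zero]
    · intro h
      exact absurd (Finset.mem_union_left _ hq0) h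
  rw [h13] at e0
  exact (smul_eq_zero.1 e0).resolve_right one_ne_zero

end

end RN2
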