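import Pool.Agent.RN2.Sy
import Pool.Agent.UNL.All
import Pool.Agent.UNL.PartC
import Pool.Agent.UNI.BForms

/-!
# RN2.Sr: the regulator form of the symmetrised weight, integrability for every weight
(proved)

See the header of `RN2/Sy` (`sy_reg`). `E2 = UNL.E × UNL.E`.
* `reg_int`: for EVERY weight `W` the form is integrable. It is a finite sum (translates, `k`, `l`, `h`, `j`) of
  `BW(F) * wedge(g, h)`, `BW` is bounded and measurable in the point. `Af`, `Cf` are products of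
  `℘(z + s) - ℘(k)` with integer exponents, whose logarithmic derivative is a combination of `Z(z + ..)` and
  `2 Z`-type functions (`UNI/BForms`: the logarithmic derivatives in terms of `Z`; `UQO.Z_shift_int`: each is
  integrable on `E`). `wedge (Af k (u)) (Af l (v)) = (Af k)'/(Af k)(u) * (Af l)'/(Af l)(v)`: a product of integrable
  functions of one variable; `wedge (Cf (u-v)) (Af l (v)) = (Cf'/Cf)(u-v) * (Af'/Af)(v)`: integrable
  (`UNI/BConv`: `prod_int`, `conv_int`). See how `UNL/PartB`, `UNI/BRB` prove the integrability for symmetric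
  weights; `UNL.Gen.XReg_eq`, `UNL.Gen.int_tr` for the translates.
* `reg_sy`: `∫ XReg (syW W) = 8 ∫ XReg W`.
-/

open RNK MeasureTheory

namespace RN2

noncomputable section

variable {b : UNL.Par} {N : ℕ} [NeZero N]

/-! ### integrability -/

private theorem Sr_RB [UQO.Lt] (W : UQO.Gr N → UQO.Gr N → ℤ) :
    Integrable (fun q : UQO.E × UQO.E => UQO.RB W (UQO.cu q.1) (UQO.cu q.2)) := by
  have e : (fun q : UQO.E × UQO.E => UQO.RB W (UQO.cu q.1) (UQO.cu q.2)) = fun q =>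
      4 * (N : ℂ) ^ 4 * (UQO.F1 N (UQO.cu q.1) (UQO.cu q.2) * UQO.g1 W (UQO.cu q.1) (UQO.cu q.2)) +
      (N : ℂ) ^ 2 * (∑ k ∈ (Finset.univ : Finset (UQO.Gr N)).erase 0,
        ∑ l ∈ (Finset.univ : Finset (UQO.Gr N)).erase 0,
        (W k l : ℂ) * (UQO.F2 k (UQO.cu q.1) *
          (UQO.gam N (UQO.cu q.1 - UQO.cu q.2) * UQO.aa (UQO.tq l) (UQO.cu q.2)))) +
      (N : ℂ) ^ 2 * (∑ k ∈ (Finset.univ : Finset (UQO.Gr N)).erase 0,
        ∑ l ∈ (Finset.univ : Finset (UQO.Gr N)).erase 0,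
        (-(W k l : ℂ)) * (UQO.F2 l (UQO.cu q.2) *
          (UQO.gam N (UQO.cu q.2 - UQO.cu q.1) * UQO.aa (UQO.tq k) (UQO.cu q.1)))) := by
    funext q
    have h1 : UQO.gam N (UQO.cu q.2 - UQO.cu q.1) = -UQO.gam N (UQO.cu q.1 - UQO.cu q.2) := by
      rw [← UQO.gam_neg, neg_sub]
    simp only [UQO.RB, UQO.g1, Finset.mul_sum, ← Finset.sum_add_distrib, h1]
    refine Finset.sum_congr rfl fun k _ => Finset.sum_congr rfl fun l _ => ?_
    ring
  rw [e]
  obtain ⟨C, hC⟩ := UQO.F1_bdd N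
  have hm := UQO.F1_meas N
  have i1 : Integrable (fun q : UQO.E × UQO.E => UQO.F1 N (UQO.cu q.1) (UQO.cu q.2) *
      UQO.g1 W (UQO.cu q.1) (UQO.cu q.2)) :=
    (UQO.g1_int W).bdd_mul (c := C) hm.aestronglyMeasurable
      (Filter.Eventually.of_forall fun q => hC _ _)
  have i2 : Integrable (fun q : UQO.E × UQO.E =>
      ∑ k ∈ (Finset.univ : Finset (UQO.Gr N)).erase 0,
        ∑ l ∈ (Finset.univ : Finset (UQO.Gr N)).erase 0,
        (W k l : ℂ) * (UQO.F2 k (UQO.cu q.1) *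
          (UQO.gam N (UQO.cu q.1 - UQO.cu q.2) * UQO.aa (UQO.tq l) (UQO.cu q.2)))) := by
    refine integrable_finsetSum _ fun k hk => integrable_finsetSum _ fun l _ => ?_
    exact (UQO.fam2_kl (Finset.ne_of_mem_erase hk) l).1.const_mul _
  have i3 : Integrable (fun q : UQO.E × UQO.E =>
      ∑ k ∈ (Finset.univ : Finset (UQO.Gr N)).erase 0,
        ∑ l ∈ (Finset.univ : Finset (UQO.Gr N)).erase 0,
        (-(W k l : ℂ)) * (UQO.F2 l (UQO.cu q.2) *
          (UQO.gam N (UQO.cu q.2 - UQO.cu q.1) * UQO.aa (UQO.tq k) (UQO.cu q.1)))) := by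
    refine integrable_finsetSum _ fun k _ => integrable_finsetSum _ fun l hl => ?_
    exact ((UQO.fam2_kl (Finset.ne_of_mem_erase hl) k).1.const_mul (-(W k l : ℂ))).swap
  exact ((i1.const_mul _).add (i2.const_mul _)).add (i3.const_mul _)

private theorem Sr_reg (W : UNL.G N → UNL.G N → ℤ) :
    Integrable (fun q : UNL.E × UNL.E => UNL.Reg b W (UNL.cu b q.1) (UNL.cu b q.2)) := by
  let _ := UNL.PartB_lt b
  exact (Sr_RB (N := N) W).congr (UQO.ae_Rq W).symm

theorem reg_int (W : UNL.G N → UNL.G N → ℤ) :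
    Integrable (fun q : UNL.E × UNL.E => UNL.Gen.XReg b W (UNL.cu b q.1) (UNL.cu b q.2)) := by
  simp only [UNL.Gen.XReg_eq]
  exact integrable_finsetSum _ fun s _ => integrable_finsetSum _ fun t _ =>
    (UNL.Gen.int_tr b (UNL.Gen.Reg_per2 b W) (UNL.tp b s) (UNL.tp b t) (Sr_reg W)).1

/-! ### symmetrisation -/

/-- the contribution of `(k, l)` to the regulator form -/
private def SrT (b : UNL.Par) {N : ℕ} [NeZero N] (k l : UNL.G N) (u v : ℂ) : ℂ :=
  (4 : ℤ) • (∑ h ∈ (Finset.univ : Finset (UNL.G N)).erase 0,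
      (EE7.BW (UNL.Ff b (UNL.tp b h) u v) : ℂ) *
        UNL.wedge (fun u _ => UNL.Af b k u) (fun _ v => UNL.Af b l v) u v)
    + (∑ j ∈ (((Finset.univ : Finset (UNL.G N)).erase 0).erase k).erase (-k),
      (EE7.BW (UNL.Yf b (UNL.tp b k) (UNL.tp b j) u) : ℂ) *
        UNL.wedge (fun u v => UNL.Cf b N (u - v)) (fun _ v => UNL.Af b l v) u v)
    + (∑ j ∈ (((Finset.univ : Finset (UNL.G N)).erase 0).erase l).erase (-l),
      (EE7.BW (UNL.Yf b (UNL.tp b l) (UNL.tp b j) v) : ℂ) *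
        UNL.wedge (fun u v => UNL.Cf b N (u - v)) (fun u _ => UNL.Af b k u) u v)

private theorem Sr_Reg (W : UNL.G N → UNL.G N → ℤ) (u v : ℂ) :
    UNL.Reg b W u v = ∑ k ∈ (Finset.univ : Finset (UNL.G N)).erase 0,
      ∑ l ∈ (Finset.univ : Finset (UNL.G N)).erase 0, W k l • SrT b k l u v := rfl

private theorem Sr_wedge {g h g' h' : ℂ → ℂ → ℂ} (hg : ∀ u v, g v u = g' u v)
    (hh : ∀ u v, h v u = h' u v) (u v : ℂ) : UNL.wedge g h v u = -UNL.wedge g' h' u v := by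
  have e1 : g' = fun u v => g v u := by
    funext u v
    exact (hg u v).symm
  have e2 : h' = fun u v => h v u := by
    funext u v
    exact (hh u v).symm
  subst e1 e2
  unfold UNL.wedge
  ring

private theorem Sr_wedge_symm (g h : ℂ → ℂ → ℂ) (u v : ℂ) :
    UNL.wedge h g u v = -UNL.wedge g h u v := by
  unfold UNL.wedge
  ring

private theorem Sr_BW (z : ℂ) : EE7.BW z⁻¹ = -EE7.BW z := by
  by_cases hz : z = 0
  · rw [hz, inv_zero, EE7.BW_zero, neg_zero]
  · rw [← one_div]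
    exact EE7.BW_inv hz

private theorem Sr_Ff (h u v : ℂ) : UNL.Ff b h v u = (UNL.Ff b h u v)⁻¹ := by
  rw [UNL.Ff, UNL.Ff, inv_div]

private theorem Sr_Af (k : UNL.G N) (z : ℂ) : UNL.Af b (-k) z = UNL.Af b k z := by
  simp only [UNL.Af, UNL.Gen.P_tp_neg0]

private theorem Sr_Yf (k : UNL.G N) (y z : ℂ) :
    UNL.Yf b (UNL.tp b (-k)) y z = UNL.Yf b (UNL.tp b k) y z := by
  simp only [UNL.Yf, UNL.Gen.P_tp_neg0]

private theorem Sr_erase (k : UNL.G N) :
    (((Finset.univ : Finset (UNL.G N)).erase 0).erase (-k)).erase (- -k) =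
      (((Finset.univ : Finset (UNL.G N)).erase 0).erase k).erase (-k) := by
  rw [neg_neg, Finset.erase_right_comm]

private theorem Sr_T1 (k l : UNL.G N) (u v : ℂ) : SrT b (-k) l u v = SrT b k l u v := by
  unfold SrT
  rw [Sr_erase]
  simp only [Sr_Af, Sr_Yf]

private theorem Sr_T2 (k l : UNL.G N) (u v : ℂ) : SrT b k (-l) u v = SrT b k l u v := by
  unfold SrT
  rw [Sr_erase]
  simp only [Sr_Af, Sr_Yf]

private theorem Sr_T3 (k l : UNL.G N) (u v : ℂ) : SrT b k l v u = -SrT b l k u v := by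
  have w1 : UNL.wedge (fun u _ => UNL.Af b k u) (fun _ v => UNL.Af b l v) v u =
      UNL.wedge (fun u _ => UNL.Af b l u) (fun _ v => UNL.Af b k v) u v := by
    rw [Sr_wedge (g' := fun _ v => UNL.Af b k v) (h' := fun u _ => UNL.Af b l u)
      (fun _ _ => rfl) (fun _ _ => rfl), Sr_wedge_symm, neg_neg]
  have hC : ∀ u v : ℂ, (fun u v => UNL.Cf b N (u - v)) v u = (fun u v => UNL.Cf b N (u - v)) u v := by
    intro u v
    show UNL.Cf b N (v - u) = UNL.Cf b N (u - v)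
    rw [← UNL.Gen.Cf_neg, neg_sub]
  have w2 : UNL.wedge (fun u v => UNL.Cf b N (u - v)) (fun _ v => UNL.Af b l v) v u =
      -UNL.wedge (fun u v => UNL.Cf b N (u - v)) (fun u _ => UNL.Af b l u) u v :=
    Sr_wedge hC (fun _ _ => rfl) u v
  have w3 : UNL.wedge (fun u v => UNL.Cf b N (u - v)) (fun u _ => UNL.Af b k u) v u =
      -UNL.wedge (fun u v => UNL.Cf b N (u - v)) (fun _ v => UNL.Af b k v) u v :=
    Sr_wedge hC (fun _ _ => rfl) u v
  unfold SrT
  rw [w1, w2, w3]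
  have h1 : ∀ h : UNL.G N, (EE7.BW (UNL.Ff b (UNL.tp b h) v u) : ℂ) =
      -(EE7.BW (UNL.Ff b (UNL.tp b h) u v) : ℂ) := by
    intro h
    rw [Sr_Ff, Sr_BW]
    push_cast
    rfl
  simp only [h1, neg_mul, mul_neg, Finset.sum_neg_distrib, smul_neg]
  ring

private theorem Sr_sum {A : Type*} [AddCommMonoid A] (f : UNL.G N → A) :
    ∑ k ∈ (Finset.univ : Finset (UNL.G N)).erase 0, f (-k) =
      ∑ k ∈ (Finset.univ : Finset (UNL.G N)).erase 0, f k := by
  refine Finset.sum_equiv (Equiv.neg (UNL.G N)) ?_ ?_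
  · intro k
    simp
  · intro k _
    simp

/-- the sum over the nonzero classes -/
private def SrS {N : ℕ} [NeZero N] (W : UNL.G N → UNL.G N → ℤ) (T : UNL.G N → UNL.G N → ℂ) : ℂ :=
  ∑ k ∈ (Finset.univ : Finset (UNL.G N)).erase 0,
    ∑ l ∈ (Finset.univ : Finset (UNL.G N)).erase 0, (W k l : ℂ) * T k l

private theorem SrS_add (W W' : UNL.G N → UNL.G N → ℤ) (T : UNL.G N → UNL.G N → ℂ) :
    SrS (fun k l => W k l + W' k l) T = SrS W T + SrS W' T := by
  unfold SrS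
  simp only [← Finset.sum_add_distrib]
  refine Finset.sum_congr rfl fun k _ => Finset.sum_congr rfl fun l _ => ?_
  push_cast
  ring

private theorem SrS_sub (W W' : UNL.G N → UNL.G N → ℤ) (T : UNL.G N → UNL.G N → ℂ) :
    SrS (fun k l => W k l - W' k l) T = SrS W T - SrS W' T := by
  unfold SrS
  simp only [← Finset.sum_sub_distrib]
  refine Finset.sum_congr rfl fun k _ => Finset.sum_congr rfl fun l _ => ?_
  push_cast
  ring

private theorem SrS_1 (W : UNL.G N → UNL.G N → ℤ) {T : UNL.G N → UNL.G N → ℂ}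
    (h : ∀ k l, T (-k) l = T k l) : SrS (fun k l => W (-k) l) T = SrS W T := by
  unfold SrS
  rw [← Sr_sum (fun k => ∑ l ∈ (Finset.univ : Finset (UNL.G N)).erase 0, (W k l : ℂ) * T k l)]
  simp only [h]

private theorem SrS_2 (W : UNL.G N → UNL.G N → ℤ) {T : UNL.G N → UNL.G N → ℂ}
    (h : ∀ k l, T k (-l) = T k l) : SrS (fun k l => W k (-l)) T = SrS W T := by
  unfold SrS
  refine Finset.sum_congr rfl fun k _ => ?_
  rw [← Sr_sum (fun l => (W k l : ℂ) * T k l)]
  simp only [h]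

private theorem SrS_3 (W : UNL.G N → UNL.G N → ℤ) {T T' : UNL.G N → UNL.G N → ℂ}
    (h : ∀ k l, T k l = -T' l k) : SrS (fun k l => W l k) T = -SrS W T' := by
  unfold SrS
  rw [Finset.sum_comm, ← Finset.sum_neg_distrib]
  refine Finset.sum_congr rfl fun k _ => ?_
  rw [← Finset.sum_neg_distrib]
  refine Finset.sum_congr rfl fun l _ => ?_
  rw [h l k, mul_neg]

private theorem SrS_sy (W : UNL.G N → UNL.G N → ℤ) {T T' : UNL.G N → UNL.G N → ℂ}
    (h1 : ∀ k l, T (-k) l = T k l) (h2 : ∀ k l, T k (-l) = T k l)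
    (h3 : ∀ k l, T k l = -T' l k) : SrS (syW W) T = 4 * SrS W T + 4 * SrS W T' := by
  have h0 : SrS (syW W) T = SrS (syA W) T := by
    unfold SrS
    refine Finset.sum_congr rfl fun k hk => Finset.sum_congr rfl fun l hl => ?_
    rw [syW, if_neg (Finset.ne_of_mem_erase hk), if_neg (Finset.ne_of_mem_erase hl)]
  have e : syA W = fun k l => (((W k l + W (-k) l) + W k (-l)) + W (-k) (-l)) -
      (((W l k + W (-l) k) + W l (-k)) + W (-l) (-k)) := rfl
  have c0 := SrS_3 W h3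
  have c1 : SrS (fun k l => W (-k) l) T = SrS W T := SrS_1 W h1
  have c2 : SrS (fun k l => W k (-l)) T = SrS W T := SrS_2 W h2
  have c3 : SrS (fun k l => W (-k) (-l)) T = SrS W T :=
    (SrS_2 (fun k l => W (-k) l) h2).trans c1
  have c4 : SrS (fun k l => W (-l) k) T = -SrS W T' := (SrS_2 (fun k l => W l k) h2).trans c0
  have c5 : SrS (fun k l => W l (-k)) T = -SrS W T' := (SrS_1 (fun k l => W l k) h1).trans c0
  have c6 : SrS (fun k l => W (-l) (-k)) T = -SrS W T' :=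
    (SrS_2 (fun k l => W l (-k)) h2).trans c5
  rw [h0, e, SrS_sub, SrS_add, SrS_add, SrS_add, SrS_add, SrS_add, SrS_add, c0, c1, c2, c3, c4,
    c5, c6]
  ring

private theorem Sr_Reg' (W : UNL.G N → UNL.G N → ℤ) (u v : ℂ) :
    UNL.Reg b W u v = SrS W (fun k l => SrT b k l u v) := by
  rw [Sr_Reg, SrS]
  refine Finset.sum_congr rfl fun k _ => Finset.sum_congr rfl fun l _ => ?_
  rw [zsmul_eq_mul]

private theorem Sr_sy (W : UNL.G N → UNL.G N → ℤ) (u v : ℂ) :
    UNL.Reg b (syW W) u v = 4 * UNL.Reg b W u v + 4 * UNL.Reg b W v u := by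
  rw [Sr_Reg', Sr_Reg' W u v, Sr_Reg' W v u]
  exact SrS_sy W (fun k l => Sr_T1 k l u v) (fun k l => Sr_T2 k l u v)
    (fun k l => Sr_T3 k l v u)

private theorem Sr_XReg (W : UNL.G N → UNL.G N → ℤ) (u v : ℂ) :
    UNL.Gen.XReg b (syW W) u v = 4 * UNL.Gen.XReg b W u v + 4 * UNL.Gen.XReg b W v u := by
  have e1 : UNL.Gen.XReg b W v u =
      ∑ s : UNL.G N, ∑ t : UNL.G N, UNL.Reg b W (v + UNL.tp b t) (u + UNL.tp b s) := by
    rw [UNL.Gen.XReg_eq, Finset.sum_comm]
  rw [UNL.Gen.XReg_eq, UNL.Gen.XReg_eq b W u v, e1, Finset.mul_sum, Finset.mul_sum,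
    ← Finset.sum_add_distrib]
  refine Finset.sum_congr rfl fun s _ => ?_
  rw [Finset.mul_sum, Finset.mul_sum, ← Finset.sum_add_distrib]
  exact Finset.sum_congr rfl fun t _ => Sr_sy W _ _

theorem reg_sy (W : UNL.G N → UNL.G N → ℤ) :
    ∫ q : UNL.E × UNL.E, UNL.Gen.XReg b (syW W) (UNL.cu b q.1) (UNL.cu b q.2) =
      8 * ∫ q : UNL.E × UNL.E, UNL.Gen.XReg b W (UNL.cu b q.1) (UNL.cu b q.2) := by
  have i1 := reg_int (b := b) W
  have i2 : Integrable (fun q : UNL.E × UNL.E =>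
      UNL.Gen.XReg b W (UNL.cu b q.2) (UNL.cu b q.1)) := i1.swap
  have h2 : ∫ q : UNL.E × UNL.E, UNL.Gen.XReg b W (UNL.cu b q.2) (UNL.cu b q.1) =
      ∫ q : UNL.E × UNL.E, UNL.Gen.XReg b W (UNL.cu b q.1) (UNL.cu b q.2) :=
    integral_prod_swap (μ := (volume : Measure UNL.E)) (ν := (volume : Measure UNL.E))
      (fun q : UNL.E × UNL.E => UNL.Gen.XReg b W (UNL.cu b q.1) (UNL.cu b q.2))
  simp only [Sr_XReg]
  rw [integral_add (i1.const_mul 4) (i2.const_mul 4), integral_const_mul, integral_const_mul, h2]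
  ring

end

end RN2
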