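import Pool.Agent.RN2.Wd
import Pool.Agent.RN2.Sr
import Pool.Agent.RNK.Wm

/-!
# RN2.Fin: the regulator integral of every closed invariant element
-/

open RNK MeasureTheory

namespace RN2

noncomputable section

variable {D : OD} {N : ℕ} [NeZero N]

theorem int_all (hN : Even N) {W : UNL.G N → UNL.G N → ℤ}
    (hsupp : ∀ k l, k ≠ 0 → l ≠ 0 → W k l ≠ 0 → (N / 2) • k = 0 ∧ (N / 2) • l = 0)
    (hinv : ∀ d : ℤ × ℤ, (∃ e z : ℤ × ℤ, UNL.de (toU D.a) d * UNL.de (toU D.a) e +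
      N * UNL.de (toU D.a) z = 1) →
      ∀ k l, W (UNL.sm (toU D.a) d k) (UNL.sm (toU D.a) d l) = W k l)
    (hcl : ∀ Φ : (Additive (UNL.Gn (toU D.a) N → ℂˣ)) [⋀^Fin 4]→ₗ[ℤ] ℂ,
      UNL.bdry (toU D.a) W Φ = 0) {L : ℂ → ℂ}
    (hd : deriv L (-1) = -(6 * (UNL.sD (toU D.a) / (2 * Real.pi)) ^ 5 : ℝ) *
      UNL.E42 (toU D.a)) :
    Integrable (fun q : UNL.E × UNL.E =>
      UNL.Gen.XReg (toU D.a) W (UNL.cu (toU D.a) q.1) (UNL.cu (toU D.a) q.2)) ∧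
    ∃ ρ ∈ D.K, ∫ q : UNL.E × UNL.E,
      UNL.Gen.XReg (toU D.a) W (UNL.cu (toU D.a) q.1) (UNL.cu (toU D.a) q.2) =
      (2 * Real.pi) ^ 3 * ρ * deriv L (-1) := by
  have h := CW_of_closed hN (sy_even W) (sy_anti W) (sy_row W) (sy_supp hsupp)
    (sy_inv rfl hinv) (sy_closed hcl)
  obtain ⟨-, ρ, hρ, h2⟩ := int_XW hN h hd
  rw [reg_sy] at h2
  refine ⟨reg_int W, ρ / 8, D.K.div_mem hρ ?_, ?_⟩
  · exact O_sub_K (by simpa using nat_O (D := D) 8)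
  · linear_combination (1 / 8 : ℂ) * h2

end

end RN2
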