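import Pool.Agent.UNI.AForm

/-!
# RN2.Fo: the formal boundary without the relation `K` (proved)

The proof of `UNI.form` (files `UNI/AF1 - AF6`, `AForm`), keeping the terms which the hypothesis `K` kills.
`n = |Γ|`, `MA` as there, `𝒦(d) = Σ_k (W k d - W k (k+d)) g_k`, `q(a) = Σ_t w_t v_{a-t}`,
`D_k(s) = Σ_j fY1 (sh u s) g k j * fY (sh u s) g k j`.
1. With `x = sh u s`, `S = Σ_j g_j` (see `UNI/AF2, AF3`: `sum_fa`, `sum_fc0`, `sum_ca`, and `lemY`):
  `D_k = -2n (x_k + x_{-k}) x_0 - 2 (x_k + x_{-k}) S + 4 x_0 S + 2n (x_k + x_{-k}) g_k - 4n x_0 g_k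
         - 2 Σ_j g_{k-j} x_j - 2 Σ_j g_{k+j} x_j + 4 Σ_j g_j x_j`.
2. `Σ_{k,l} W Σ_s D_k(s) q(l-s) = -4n MA - 4n Σ_{s,d} u(-s) 𝒦(d) q(d-s)`: the terms with `S` or with
  `Σ_j g_{k±j} x_j` depend on `l - k` or on `l` only (weighted sum zero); the terms with `g_k` give
  `4n Σ_s u(-s) Σ_{k,l} W(k,l) g_k (q(l-k-s) - q(l-s))`.
3. So `partII` becomes `16 n³ MA + 16 n³ Σ_{s,d,t} u(-s) 𝒦(d) w(t) v(d-s-t)`
  `= 16 n³ (MA + Σ_{a,b,d} u(a) 𝒦(d) w(a-b+d) v(b))`.
4. The second one variable part (roles of `u`, `v` exchanged, `W b a`, `w(-x)`, `𝒦' = -𝒦`) is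
  `16 n³ (MA' - Σ_{a,b,d} v(b) 𝒦(d) w(a-b-d) u(a))`; `𝒦(-d) = 𝒦(d)` (`W` even, `g` even) and
  `v 𝒦 w u = - u 𝒦 w v` (letters anticommute, `𝒦(d) ∈ L`), so it is `16 n³ (MA' + Σ u(a) 𝒦(d) w(a-b+d) v(b))`.
5. `partI` is unchanged. Total: `32 n³ Σ_{a,b,d} u(a) 𝒦(d) w(a-b+d) v(b)`.
-/

open Finset

namespace RN2

namespace Fo

open UNI UNI.AF

section

variable {Γ R : Type*} [AddCommGroup Γ] [Fintype Γ] [Ring R] [Module ℚ R] {W : Γ → Γ → ℤ}
variable {L : AddSubgroup R}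

/-- the letter `𝒦(d)` -/
def Kd (W : Γ → Γ → ℤ) (g : Γ → R) (d : Γ) : R := ∑ k, (W k d - W k (k + d)) • g k

theorem lemY2 (Wn : ∀ k l, W (-k) l = W k l) (Wa : ∀ k l, W l k = -W k l)
    (Wr : ∀ l, ∑ k, W k l = 0) (hL : ∀ x ∈ L, x * x = 0) {u g : Γ → R} (hu : ∀ k, u k ∈ L)
    (hg : ∀ k, g k ∈ L) (su : ∑ k, u k = 0) (gn : ∀ k, g (-k) = g k) (q : Γ → R) :
    ∑ k, ∑ l, W k l • (∑ s, (∑ j, fY1 (sh u s) g k j * fY (sh u s) g k j) * q (l - s)) =
      -((4 * (Fintype.card Γ : ℤ)) • ∑ k, ∑ l, W k l • (∑ s, u (k - s) * u (-s) * q (l - s)))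
      - (4 * (Fintype.card Γ : ℤ)) • ∑ d, ∑ s, u (-s) * Kd W g d * q (d - s) := by
  set n : ℤ := (Fintype.card Γ : ℤ) with hn
  set S : R := ∑ j, g j with hS
  set B0 : Γ → Γ → R := fun k l => ∑ s, u (k - s) * u (-s) * q (l - s) with hB0
  set B1 : Γ → Γ → R := fun k l => ∑ s, u (k - s) * S * q (l - s) with hB1
  set B1' : Γ → Γ → R := fun _ l => ∑ s, u (-s) * S * q (l - s) with hB1'
  set B2 : Γ → Γ → R := fun k l => ∑ s, u (k - s) * g k * q (l - s) with hB2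
  set B3 : Γ → Γ → R := fun k l => ∑ s, u (-s) * g k * q (l - s) with hB3
  set B4 : Γ → Γ → R := fun k l => ∑ s, ∑ j, u (j - s) * g (k - j) * q (l - s) with hB4
  set B5 : Γ → Γ → R := fun _ l => ∑ s, ∑ j, u (j - s) * g j * q (l - s) with hB5
  have hΦ : ∀ k l, ∑ s, (∑ j, fY1 (sh u s) g k j * fY (sh u s) g k j) * q (l - s) =
      -((2 * n) • (B0 k l + B0 (-k) l))
      - (2 : ℤ) • (B1 k l + B1 (-k) l - (2 : ℤ) • B1' k l)
      + (2 * n) • (B2 k l + B2 (-k) l - (2 : ℤ) • B3 k l)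
      + (2 : ℤ) • (B4 k l + B4 (-k) l - (2 : ℤ) • B5 k l) := by
    intro k l
    have h1 : ∀ s, (∑ j, fY1 (sh u s) g k j * fY (sh u s) g k j) * q (l - s) =
        -((2 * n) • (u (k - s) * u (-s) * q (l - s) + u (-k - s) * u (-s) * q (l - s)))
        - (2 : ℤ) • (u (k - s) * S * q (l - s) + u (-k - s) * S * q (l - s)
          - (2 : ℤ) • (u (-s) * S * q (l - s)))
        + (2 * n) • (u (k - s) * g k * q (l - s) + u (-k - s) * g (-k) * q (l - s)
          - (2 : ℤ) • (u (-s) * g k * q (l - s)))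
        + (2 : ℤ) • ((∑ j, u (j - s) * g (k - j) * q (l - s))
          + (∑ j, u (j - s) * g (-k - j) * q (l - s))
          - (2 : ℤ) • (∑ j, u (j - s) * g j * q (l - s))) := by
      intro s
      have e : ∀ j, g (-k - j) = g (k + j) := by
        intro j
        rw [← gn (k + j)]
        congr 1
        abel
      rw [DY hL (x := sh u s) (fun j => hu _) hg (sum_sh u su s) gn k]
      simp only [sh, zero_sub, gn, e]
      simp only [sub_mul, add_mul, neg_mul, smul_mul_assoc, Finset.sum_mul]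
      rfl
    simp_rw [h1]
    simp only [hB0, hB1, hB1', hB2, hB3, hB4, hB5, Finset.sum_add_distrib,
      Finset.sum_sub_distrib, Finset.sum_neg_distrib, ← Finset.smul_sum]
  simp_rw [hΦ]
  have hsm : ∀ (c : ℤ) (Φ : Γ → Γ → R), ∑ k, ∑ l, W k l • (c • Φ k l) =
      c • ∑ k, ∑ l, W k l • Φ k l := by
    intro c Φ
    simp only [Finset.smul_sum]
    refine Finset.sum_congr rfl (fun k _ => Finset.sum_congr rfl (fun l _ => ?_))
    rw [smul_comm]
  have r1 : ∑ k, ∑ l, W k l • B1 k l = 0 := by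
    refine van3 Wn Wa B1 (fun d => ∑ s, u (-s) * S * q (d - s)) (fun k l _ => ?_)
    simp only [hB1]
    rw [← sum_addL (fun s => u (k - s) * S * q (l - s)) k]
    refine Finset.sum_congr rfl (fun s _ => ?_)
    have b1 : k - (k + s) = -s := by abel
    have b2 : l - (k + s) = l - k - s := by abel
    rw [b1, b2]
  have r1' : ∑ k, ∑ l, W k l • B1' k l = 0 := indK Wr B1' (fun l => B1' 0 l) (fun k l _ => rfl)
  have r4 : ∑ k, ∑ l, W k l • B4 k l = 0 := by
    refine van3 Wn Wa B4 (fun d => ∑ s, ∑ j, u (j - s) * g (-d - j) * q (-s)) (fun k l _ => ?_)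
    simp only [hB4]
    rw [← sum_addL (fun s => ∑ j, u (j - s) * g (k - j) * q (l - s)) l]
    refine Finset.sum_congr rfl (fun s _ => ?_)
    rw [← sum_addL (fun j => u (j - (l + s)) * g (k - j) * q (l - (l + s))) l]
    refine Finset.sum_congr rfl (fun j _ => ?_)
    have b1 : l + j - (l + s) = j - s := by abel
    have b2 : k - (l + j) = -(l - k) - j := by abel
    have b3 : l - (l + s) = -s := by abel
    rw [b1, b2, b3]
  have r5 : ∑ k, ∑ l, W k l • B5 k l = 0 := indK Wr B5 (fun l => B5 0 l) (fun k l _ => rfl)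
  have r23 : ∑ k, ∑ l, W k l • B2 k l = (∑ k, ∑ l, W k l • B3 k l)
      - ∑ d, ∑ s, u (-s) * Kd W g d * q (d - s) := by
    have e2 : ∑ k, ∑ l, W k l • B2 k l =
        ∑ l, ∑ s, u (-s) * (∑ k, W k (k + l) • g k) * q (l - s) := by
      have a1 : ∀ k, ∑ l, W k l • B2 k l = ∑ l, ∑ s, u (-s) * (W k (k + l) • g k) * q (l - s) := by
        intro k
        rw [← sum_addL (fun l => W k l • B2 k l) k]
        refine Finset.sum_congr rfl (fun l _ => ?_)
        simp only [hB2]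
        rw [Finset.smul_sum, ← sum_addL (fun s => W k (k + l) • (u (k - s) * g k * q (k + l - s))) k]
        refine Finset.sum_congr rfl (fun s _ => ?_)
        have b1 : k - (k + s) = -s := by abel
        have b2 : k + l - (k + s) = l - s := by abel
        rw [b1, b2, mul_smul_comm, smul_mul_assoc]
      simp_rw [a1]
      rw [Finset.sum_comm]
      refine Finset.sum_congr rfl (fun l _ => ?_)
      rw [Finset.sum_comm]
      refine Finset.sum_congr rfl (fun s _ => ?_)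
      rw [Finset.mul_sum, Finset.sum_mul]
    have e3 : ∑ k, ∑ l, W k l • B3 k l =
        ∑ l, ∑ s, u (-s) * (∑ k, W k l • g k) * q (l - s) := by
      rw [Finset.sum_comm]
      refine Finset.sum_congr rfl (fun l _ => ?_)
      simp only [hB3]
      simp_rw [Finset.smul_sum]
      rw [Finset.sum_comm]
      refine Finset.sum_congr rfl (fun s _ => ?_)
      rw [Finset.mul_sum, Finset.sum_mul]
      refine Finset.sum_congr rfl (fun k _ => ?_)
      rw [mul_smul_comm, smul_mul_assoc]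
    rw [e2, e3, ← Finset.sum_sub_distrib]
    refine Finset.sum_congr rfl (fun l _ => ?_)
    rw [← Finset.sum_sub_distrib]
    refine Finset.sum_congr rfl (fun s _ => ?_)
    have hK : Kd W g l = (∑ k, W k l • g k) - ∑ k, W k (k + l) • g k := by
      simp only [Kd, sub_smul, Finset.sum_sub_distrib]
    rw [hK, mul_sub, sub_mul]
    abel
  have hev : ∀ Φ : Γ → Γ → R, ∑ k, ∑ l, W k l • Φ (-k) l = ∑ k, ∑ l, W k l • Φ k l := evenK Wn
  simp only [smul_add, smul_sub, smul_neg, Finset.sum_add_distrib, Finset.sum_sub_distrib,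
    Finset.sum_neg_distrib, hsm, hev, r1, r1', r4, r5, r23, smul_zero]
  module

theorem partII2 (hL : ∀ x ∈ L, x * x = 0) {u v w g : Γ → R}
    (hu : ∀ k, u k ∈ L) (hg : ∀ k, g k ∈ L)
    (su : ∑ k, u k = 0) (sv : ∑ k, v k = 0) (gn : ∀ k, g (-k) = g k)
    (Wn : ∀ k l, W (-k) l = W k l) (Wa : ∀ k l, W l k = -W k l)
    (Wr : ∀ l, ∑ k, W k l = 0) :
    ∑ s, ∑ t, ∑ k, ∑ l, W k l • ((∑ j, fY1 (sh u s) g k j * fY (sh u s) g k j) *
      (-((2 * (Fintype.card Γ : ℤ)) • w (t - s)) - (2 : ℤ) • ∑ j, g j) * fA (sh v t) l) =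
      (16 * (Fintype.card Γ : ℤ) ^ 3) • MA W u v w + (16 * (Fintype.card Γ : ℤ) ^ 3) •
        ∑ d, ∑ s, u (-s) * Kd W g d * ∑ t, w t * v (d - s - t) := by
  set n : ℤ := (Fintype.card Γ : ℤ) with hn
  set D : Γ → Γ → R := fun k s => ∑ j, fY1 (sh u s) g k j * fY (sh u s) g k j with hD
  set q : Γ → R := fun a => ∑ t, w t * v (a - t) with hq
  have h1 : ∑ s, ∑ t, ∑ k, ∑ l, W k l • (D k s *
      (-((2 * n) • w (t - s)) - (2 : ℤ) • ∑ j, g j) * fA (sh v t) l) =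
      ∑ k, ∑ l, W k l • ∑ s, D k s * (-((2 * n ^ 2) • (q (l - s) + q (-l - s)
        - (2 : ℤ) • q (-s)))) := by
    have a1 : ∀ s t : Γ, ∑ k, ∑ l, W k l • (D k s *
        (-((2 * n) • w (t - s)) - (2 : ℤ) • ∑ j, g j) * fA (sh v t) l) =
        ∑ x : Γ × Γ, W x.1 x.2 • (D x.1 s *
        (-((2 * n) • w (t - s)) - (2 : ℤ) • ∑ j, g j) * fA (sh v t) x.2) := by
      intro s t
      rw [Fintype.sum_prod_type]
    simp_rw [a1]
    have a2 : ∀ s : Γ, ∑ t, ∑ x : Γ × Γ, W x.1 x.2 • (D x.1 s *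
        (-((2 * n) • w (t - s)) - (2 : ℤ) • ∑ j, g j) * fA (sh v t) x.2) =
        ∑ x : Γ × Γ, W x.1 x.2 • (D x.1 s * (-((2 * n ^ 2) • (q (x.2 - s) + q (-x.2 - s)
        - (2 : ℤ) • q (-s))))) := by
      intro s
      rw [Finset.sum_comm]
      refine Finset.sum_congr rfl (fun x _ => ?_)
      rw [← Finset.smul_sum]
      congr 1
      have := sum_t (w := w) sv (∑ j, g j) s x.2
      simp only [hq]
      rw [← this, Finset.mul_sum]
      refine Finset.sum_congr rfl (fun t _ => ?_)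
      rw [mul_assoc]
    simp_rw [a2]
    rw [Finset.sum_comm, Fintype.sum_prod_type]
    refine Finset.sum_congr rfl (fun k _ => Finset.sum_congr rfl (fun l _ => ?_))
    rw [← Finset.smul_sum]
  rw [h1]
  have h2 : ∀ k l, ∑ s, D k s * (-((2 * n ^ 2) • (q (l - s) + q (-l - s) - (2 : ℤ) • q (-s)))) =
      -((2 * n ^ 2) • ((∑ s, D k s * q (l - s)) + (∑ s, D k s * q (-l - s))
        - (2 : ℤ) • ∑ s, D k s * q (-s))) := by
    intro k l
    simp only [mul_neg, mul_smul_comm, mul_add, mul_sub, Finset.sum_neg_distrib,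
      ← Finset.smul_sum, Finset.sum_add_distrib, Finset.sum_sub_distrib]
  simp_rw [h2]
  have hsm : ∀ (c : ℤ) (Φ : Γ → Γ → R), ∑ k, ∑ l, W k l • (c • Φ k l) =
      c • ∑ k, ∑ l, W k l • Φ k l := by
    intro c Φ
    simp only [Finset.smul_sum]
    refine Finset.sum_congr rfl (fun k _ => Finset.sum_congr rfl (fun l _ => ?_))
    rw [smul_comm]
  have b1 : ∑ k, ∑ l, W k l • ∑ s, D k s * q (-l - s) = ∑ k, ∑ l, W k l • ∑ s, D k s * q (l - s) :=
    evenL Wn Wa (fun k l => ∑ s, D k s * q (l - s))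
  have b2 : ∑ k, ∑ l, W k l • ∑ s, D k s * q (-s) = 0 :=
    indL Wa Wr _ (fun k => ∑ s, D k s * q (-s)) (fun _ _ _ => rfl)
  have b3 := lemY2 Wn Wa Wr hL hu hg su gn q
  have b4 : ∑ k, ∑ l, W k l • (∑ s, u (k - s) * u (-s) * q (l - s)) = MA W u v w := rfl
  rw [b4] at b3
  have b5 : ∑ k, ∑ l, W k l • ∑ s, D k s * q (l - s) = -((4 * n) • MA W u v w)
      - (4 * n) • ∑ d, ∑ s, u (-s) * Kd W g d * q (d - s) := b3
  simp only [smul_neg, Finset.sum_neg_distrib, hsm]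
  simp only [smul_add, smul_sub, Finset.sum_add_distrib, Finset.sum_sub_distrib, hsm, b1, b2, b5,
    smul_zero]
  module

theorem Q1 (u v w g : Γ → R) (W : Γ → Γ → ℤ) :
    ∑ d, ∑ s, u (-s) * Kd W g d * ∑ t, w t * v (d - s - t) =
      ∑ a, ∑ b, ∑ d, u a * Kd W g d * w (a - b + d) * v b := by
  have h1 : ∀ d, ∑ s, u (-s) * Kd W g d * ∑ t, w t * v (d - s - t) =
      ∑ a, ∑ b, u a * Kd W g d * w (a - b + d) * v b := by
    intro d
    rw [← sum_neg (fun s => u (-s) * Kd W g d * ∑ t, w t * v (d - s - t))]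
    refine Finset.sum_congr rfl (fun a _ => ?_)
    rw [← sum_subL (fun t => w t * v (d - -a - t)) (a + d), Finset.mul_sum]
    refine Finset.sum_congr rfl (fun b _ => ?_)
    have e1 : a + d - b = a - b + d := by abel
    have e2 : d - -a - (a - b + d) = b := by abel
    rw [e1, e2, neg_neg, ← mul_assoc]
  simp_rw [h1]
  rw [Finset.sum_comm]
  refine Finset.sum_congr rfl (fun a _ => ?_)
  rw [Finset.sum_comm]

theorem Kd_neg {g : Γ → R} (gn : ∀ k, g (-k) = g k) (Wn : ∀ k l, W (-k) l = W k l)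
    (Wa : ∀ k l, W l k = -W k l) (d : Γ) : Kd W g (-d) = Kd W g d := by
  simp only [Kd, sub_smul, Finset.sum_sub_distrib]
  congr 1
  · refine Finset.sum_congr rfl (fun k _ => ?_)
    rw [Wn' Wn Wa]
  · rw [← sum_neg (fun k => W k (k + -d) • g k)]
    refine Finset.sum_congr rfl (fun k _ => ?_)
    have e : -k + -d = -(k + d) := by abel
    rw [e, Wn' Wn Wa, Wn, gn]

theorem Kd_swap (g : Γ → R) (Wa : ∀ k l, W l k = -W k l) (d : Γ) :
    Kd (fun a b => W b a) g d = -Kd W g d := by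
  simp only [Kd]
  rw [← Finset.sum_neg_distrib]
  refine Finset.sum_congr rfl (fun k _ => ?_)
  rw [Wa k d, Wa k (k + d), ← neg_smul]
  congr 1
  ring

theorem Kd_mem {g : Γ → R} (hg : ∀ k, g k ∈ L) (d : Γ) : Kd W g d ∈ L :=
  L.sum_mem (fun k _ => L.zsmul_mem (hg k) _)

theorem anti4 (hL : ∀ x ∈ L, x * x = 0) {a b c d : R} (ha : a ∈ L) (hb : b ∈ L) (hc : c ∈ L)
    (hd : d ∈ L) : a * b * c * d = -(d * b * c * a) := by
  have h1 := anti hL ha hd
  have h2 := anti hL hb hd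
  have h3 := anti hL hc hd
  have h4 := anti hL ha hb
  have h5 := anti hL ha hc
  calc a * b * c * d = a * b * (c * d) := by noncomm_ring
    _ = -(a * (b * d) * c) := by rw [h3]; noncomm_ring
    _ = (a * d) * b * c := by rw [h2]; noncomm_ring
    _ = -(d * (a * b) * c) := by rw [h1]; noncomm_ring
    _ = d * b * (a * c) := by rw [h4]; noncomm_ring
    _ = _ := by rw [h5]; noncomm_ring

theorem Q2 (hL : ∀ x ∈ L, x * x = 0) {u v w g : Γ → R} (hu : ∀ k, u k ∈ L) (hv : ∀ k, v k ∈ L)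
    (hw : ∀ k, w k ∈ L) (hg : ∀ k, g k ∈ L) (gn : ∀ k, g (-k) = g k)
    (Wn : ∀ k l, W (-k) l = W k l) (Wa : ∀ k l, W l k = -W k l) :
    ∑ d, ∑ s, v (-s) * Kd (fun a b => W b a) g d * ∑ t, (fun a => w (-a)) t * u (d - s - t) =
      ∑ a, ∑ b, ∑ d, u a * Kd W g d * w (a - b + d) * v b := by
  rw [Q1 v u (fun a => w (-a)) g (fun a b => W b a), Finset.sum_comm]
  refine Finset.sum_congr rfl (fun a _ => Finset.sum_congr rfl (fun b _ => ?_))
  rw [← sum_neg (fun d => v b * Kd (fun a b => W b a) g d * (fun a => w (-a)) (b - a + d) * u a)]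
  refine Finset.sum_congr rfl (fun d _ => ?_)
  rw [Kd_swap g Wa, Kd_neg gn Wn Wa]
  beta_reduce
  have e : -(b - a + -d) = a - b + d := by abel
  rw [e, anti4 hL (hu a) (Kd_mem hg d) (hw _) (hv b)]
  noncomm_ring

end

end Fo

open UNI (dl sh)

open UNI UNI.AF Fo in
theorem form2 {Γ R : Type*} [AddCommGroup Γ] [Fintype Γ] [Ring R] [Module ℚ R]
    (L : AddSubgroup R) (hL : ∀ x ∈ L, x * x = 0)
    (u v w z g : Γ → R) (hu : ∀ k, u k ∈ L) (hv : ∀ k, v k ∈ L) (hw : ∀ k, w k ∈ L)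
    (hg : ∀ k, g k ∈ L) (eps : R)
    (su : ∑ k, u k = 0) (sv : ∑ k, v k = 0) (sw : ∑ k, w k = 0)
    (gn : ∀ k, g (-k) = g k)
    (W : Γ → Γ → ℤ) (Wn : ∀ k l, W (-k) l = W k l) (Wa : ∀ k l, W l k = -W k l)
    (Wr : ∀ l, ∑ k, W k l = 0) (Ws : ∀ k l, W k l ≠ 0 → ∃ m, k = m + m) :
    ∑ s, ∑ t, dl W (sh u s) (sh v t) (sh w (s - t)) (sh z (s + t)) g eps =
      (32 * (Fintype.card Γ : ℤ) ^ 3) • ∑ a, ∑ b, ∑ d,
        u a * (∑ k, (W k d - W k (k + d)) • g k) * w (a - b + d) * v b := by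
  set n : ℤ := (Fintype.card Γ : ℤ) with hn
  have hC : ∀ s t : Γ, fC (sh w (s - t)) g = -((2 * n) • w (t - s)) - (2 : ℤ) • ∑ j, g j := by
    intro s t
    rw [fC, sum_fa _ _ (sum_sh w sw (s - t))]
    have e : sh w (s - t) 0 = w (t - s) := by
      simp only [sh]
      congr 1
      abel
    rw [e]
  set X : Γ → Γ → Γ → R := fun s t h =>
    (fF1 (sh u s) (sh v t) (sh w (s - t)) (sh z (s + t)) g h + eps) * fF (sh u s) (sh v t) h
    with hX
  have hdl : ∀ s t, dl W (sh u s) (sh v t) (sh w (s - t)) (sh z (s + t)) g eps =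
      (16 * n ^ 2) • (∑ h, ∑ k, ∑ l, W k l • (X s t h * u (k - s) * v (l - t)))
      + (∑ k, ∑ l, W k l • ((∑ j, fY1 (sh u s) g k j * fY (sh u s) g k j) *
        (-((2 * n) • w (t - s)) - (2 : ℤ) • ∑ j, g j) * fA (sh v t) l))
      + ∑ k, ∑ l, W k l • ((∑ j, fY1 (sh v t) g l j * fY (sh v t) g l j) *
        (-((2 * n) • w (t - s)) - (2 : ℤ) • ∑ j, g j) * fA (sh u s) k) := by
    intro s t
    rw [dl]
    have h1 : ∀ k l, (4 * (∑ h, (fF1 (sh u s) (sh v t) (sh w (s - t)) (sh z (s + t)) g h + eps) *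
          fF (sh u s) (sh v t) h * fA (sh u s) k * fA (sh v t) l)
        + (∑ j, fY1 (sh u s) g k j * fY (sh u s) g k j * fC (sh w (s - t)) g * fA (sh v t) l)
        + (∑ j, fY1 (sh v t) g l j * fY (sh v t) g l j * fC (sh w (s - t)) g * fA (sh u s) k)) =
        (4 : ℤ) • (∑ h, X s t h * fA (sh u s) k * fA (sh v t) l)
        + ((∑ j, fY1 (sh u s) g k j * fY (sh u s) g k j) *
        (-((2 * n) • w (t - s)) - (2 : ℤ) • ∑ j, g j) * fA (sh v t) l)
        + ((∑ j, fY1 (sh v t) g l j * fY (sh v t) g l j) *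
        (-((2 * n) • w (t - s)) - (2 : ℤ) • ∑ j, g j) * fA (sh u s) k) := by
      intro k l
      rw [hC]
      rw [Finset.sum_mul, Finset.sum_mul, Finset.sum_mul, Finset.sum_mul, zsmul_eq_mul]
      norm_num
      rfl
    simp_rw [h1]
    simp only [smul_add, Finset.sum_add_distrib]
    congr 2
    have hsm : ∀ (c : ℤ) (Φ : Γ → Γ → R), ∑ k, ∑ l, W k l • (c • Φ k l) =
        c • ∑ k, ∑ l, W k l • Φ k l := by
      intro c Φ
      simp only [Finset.smul_sum]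
      refine Finset.sum_congr rfl (fun k _ => Finset.sum_congr rfl (fun l _ => ?_))
      rw [smul_comm]
    rw [hsm]
    have h2 : ∑ k, ∑ l, W k l • ∑ h, X s t h * fA (sh u s) k * fA (sh v t) l =
        ∑ h, ∑ k, ∑ l, W k l • (X s t h * fA (sh u s) k * fA (sh v t) l) := by
      simp_rw [Finset.smul_sum]
      have h3 : ∀ k, ∑ l, ∑ h, W k l • (X s t h * fA (sh u s) k * fA (sh v t) l) =
          ∑ h, ∑ l, W k l • (X s t h * fA (sh u s) k * fA (sh v t) l) :=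
        fun k => Finset.sum_comm
      simp_rw [h3]
      rw [Finset.sum_comm]
    rw [h2]
    have h4 : ∀ h, ∑ k, ∑ l, W k l • (X s t h * fA (sh u s) k * fA (sh v t) l) =
        (4 * n ^ 2) • ∑ k, ∑ l, W k l • (X s t h * u (k - s) * v (l - t)) := by
      intro h
      rw [red2 Wn Wa Wr]
      rfl
    simp_rw [h4]
    rw [← Finset.smul_sum, smul_smul]
    congr 1
    ring
  simp_rw [hdl]
  simp only [Finset.sum_add_distrib, ← Finset.smul_sum]
  have p1 : ∑ s, ∑ t, ∑ h, ∑ k, ∑ l, W k l • (X s t h * u (k - s) * v (l - t)) = T W u v X := by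
    rw [T]
    have a1 : ∀ s t h : Γ, ∑ k, ∑ l, W k l • (X s t h * u (k - s) * v (l - t)) =
        ∑ x : Γ × Γ, W x.1 x.2 • (X s t h * u (x.1 - s) * v (x.2 - t)) := by
      intro s t h
      rw [Fintype.sum_prod_type]
    simp_rw [a1]
    have a2 : ∀ s t : Γ, ∑ h, ∑ x : Γ × Γ, W x.1 x.2 • (X s t h * u (x.1 - s) * v (x.2 - t)) =
        ∑ x : Γ × Γ, ∑ h, W x.1 x.2 • (X s t h * u (x.1 - s) * v (x.2 - t)) :=
      fun s t => Finset.sum_comm
    simp_rw [a2]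
    have a3 : ∀ s : Γ, ∑ t, ∑ x : Γ × Γ, ∑ h, W x.1 x.2 • (X s t h * u (x.1 - s) * v (x.2 - t)) =
        ∑ x : Γ × Γ, ∑ t, ∑ h, W x.1 x.2 • (X s t h * u (x.1 - s) * v (x.2 - t)) :=
      fun s => Finset.sum_comm
    simp_rw [a3]
    rw [Finset.sum_comm, Fintype.sum_prod_type]
    refine Finset.sum_congr rfl (fun k _ => Finset.sum_congr rfl (fun l _ => ?_))
    simp_rw [Finset.smul_sum]
  rw [p1]
  have p2 := partI (W := W) (z := z) (g := g) hL hu hv hw su sv Wn Wa Wr Ws eps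
  have p3 := partII2 (W := W) (w := w) hL hu hg su sv gn Wn Wa Wr
  have Wn2 : ∀ k l, (fun a b => W b a) (-k) l = (fun a b => W b a) k l := fun k l =>
    Wn' Wn Wa l k
  have Wa2 : ∀ k l, (fun a b => W b a) l k = -(fun a b => W b a) k l := fun k l => Wa l k
  have Wr2 : ∀ l, ∑ k, (fun a b => W b a) k l = 0 := fun l => Wr' Wa Wr l
  have p4 := partII2 (W := fun a b => W b a) (u := v) (v := u) (w := fun a => w (-a)) hL hv hg sv su
    gn Wn2 Wa2 Wr2
  have q1 := Q1 u v w g W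
  have q2 := Q2 hL hu hv hw hg gn Wn Wa
  rw [← hn] at p3 p4
  rw [q1] at p3
  rw [q2] at p4
  have p5 : ∑ s, ∑ t, ∑ k, ∑ l, W k l • ((∑ j, fY1 (sh v t) g l j * fY (sh v t) g l j) *
        (-((2 * n) • w (t - s)) - (2 : ℤ) • ∑ j, g j) * fA (sh u s) k) =
      (16 * n ^ 3) • MA (fun a b => W b a) v u (fun a => w (-a)) + (16 * n ^ 3) •
        ∑ a, ∑ b, ∑ d, u a * Kd W g d * w (a - b + d) * v b := by
    rw [← p4, Finset.sum_comm]
    refine Finset.sum_congr rfl (fun t _ => Finset.sum_congr rfl (fun s _ => ?_))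
    rw [Finset.sum_comm]
    refine Finset.sum_congr rfl (fun l _ => Finset.sum_congr rfl (fun k _ => ?_))
    rw [neg_sub]
  rw [p5]
  have p2' : T W u v X = -(n • MA W u v w) - n • MA (fun a b => W b a) v u (fun a => w (-a)) := p2
  have p3' : ∑ s, ∑ t, ∑ k, ∑ l, W k l • ((∑ j, fY1 (sh u s) g k j * fY (sh u s) g k j) *
      (-((2 * n) • w (t - s)) - (2 : ℤ) • ∑ j, g j) * fA (sh v t) l) = (16 * n ^ 3) • MA W u v w
      + (16 * n ^ 3) • ∑ a, ∑ b, ∑ d, u a * Kd W g d * w (a - b + d) * v b :=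
    p3
  rw [p2', p3']
  change _ = (32 * n ^ 3) • ∑ a, ∑ b, ∑ d, u a * Kd W g d * w (a - b + d) * v b
  module

end RN2
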