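import Pool.Agent.RN2.Bs

/-!
# RN2.Gd: decomposition of pairs by their greatest common divisor

`O` is a principal ideal domain (`pir`), `w` the (finite) number of units. For `c, d ≠ 0` choose a generator
`γ(c,d)` of `(c, d)`.
* `gcd_sum`: `(g, c', d') ↦ ((g c', g d'), g / γ(g c', g d'))` is a bijection of the triples with `c', d'` coprime
  with the pairs times the units (`g` generates `(g c', g d')`).
* `lcm_sum`: `(g, c', d', e) ↦ ((g c' d' e, g c', g d'), g / γ(g c', g d'))` is a bijection of the quadruples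
  (`c', d'` coprime) with (the triples `(z, c, d)`, `z ≠ 0`, `c ∣ z`, `d ∣ z`) times the units: a common multiple
  of `g c'` and `g d'` is a multiple of `g c' d'`.
-/

open RNK

namespace RN2

noncomputable section

variable {D : OD}

/-- the number of units -/
def wn (D : OD) : ℕ := Nat.card D.Oˣ

theorem wn_pos (D : OD) : 0 < wn D := by
  haveI := finU D
  exact Nat.card_pos

/-- non zero pairs -/
def P2 (D : OD) : Type := {p : D.O × D.O // p.1 ≠ 0 ∧ p.2 ≠ 0}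

/-- triples `(g, c', d')` with `c', d'` coprime -/
def T3 (D : OD) : Type :=
  {p : D.O × D.O × D.O // p.1 ≠ 0 ∧ p.2.1 ≠ 0 ∧ p.2.2 ≠ 0 ∧ IsCoprime p.2.1 p.2.2}

/-- triples `(z, c, d)` with `c ∣ z`, `d ∣ z` -/
def Q3 (D : OD) : Type := {p : D.O × D.O × D.O // p.1 ≠ 0 ∧ p.2.1 ∣ p.1 ∧ p.2.2 ∣ p.1}

/-- quadruples `(g, c', d', e)` with `c', d'` coprime -/
def T4 (D : OD) : Type := {p : D.O × D.O × D.O × D.O //
  p.1 ≠ 0 ∧ p.2.1 ≠ 0 ∧ p.2.2.1 ≠ 0 ∧ p.2.2.2 ≠ 0 ∧ IsCoprime p.2.1 p.2.2.1}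

/-! ### the greatest common divisor in a principal ideal domain -/

section gen

variable {R : Type*} [CommRing R] [IsDomain R] [IsPrincipalIdealRing R]

private theorem Gd_ex (c d : R) (hc : c ≠ 0) : ∃ g c1 d1 : R, g ≠ 0 ∧ c = g * c1 ∧ d = g * d1 ∧
    IsCoprime c1 d1 := by
  obtain ⟨c1, h1⟩ := IsBezout.gcd_dvd_left c d
  obtain ⟨d1, h2⟩ := IsBezout.gcd_dvd_right c d
  obtain ⟨a, b, h3⟩ := IsBezout.gcd_eq_sum c d
  have hg : IsBezout.gcd c d ≠ 0 := by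
    intro h0
    rw [h0, zero_mul] at h1
    exact hc h1
  refine ⟨_, c1, d1, hg, h1, h2, a, b, ?_⟩
  apply mul_left_cancel₀ hg
  calc IsBezout.gcd c d * (a * c1 + b * d1)
      = a * (IsBezout.gcd c d * c1) + b * (IsBezout.gcd c d * d1) := by ring
    _ = a * c + b * d := by rw [← h1, ← h2]
    _ = IsBezout.gcd c d * 1 := by rw [h3, mul_one]

/-- two decompositions differ by a unit -/
private theorem Gd_un {g c1 d1 g' c1' d1' : R} (hg : g ≠ 0) (h1 : g * c1 = g' * c1')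
    (h2 : g * d1 = g' * d1') (hc : IsCoprime c1 d1) (hc' : IsCoprime c1' d1') :
    ∃ u : Rˣ, (u : R) * g = g' := by
  have h3 : g' ∣ g := by
    obtain ⟨a, b, h⟩ := hc
    refine ⟨a * c1' + b * d1', ?_⟩
    calc g = g * (a * c1 + b * d1) := by rw [h, mul_one]
      _ = a * (g * c1) + b * (g * d1) := by ring
      _ = a * (g' * c1') + b * (g' * d1') := by rw [h1, h2]
      _ = g' * (a * c1' + b * d1') := by ring
  have h4 : g ∣ g' := by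
    obtain ⟨a, b, h⟩ := hc'
    refine ⟨a * c1 + b * d1, ?_⟩
    calc g' = g' * (a * c1' + b * d1') := by rw [h, mul_one]
      _ = a * (g' * c1') + b * (g' * d1') := by ring
      _ = a * (g * c1) + b * (g * d1) := by rw [h1, h2]
      _ = g * (a * c1 + b * d1) := by ring
  obtain ⟨u, hu⟩ := associated_of_dvd_dvd h4 h3
  exact ⟨u, by rw [mul_comm]; exact hu⟩

end gen

/-! ### the bijections -/

private theorem Gd_ex' (q : P2 D) : ∃ t : D.O × D.O × D.O, t.1 ≠ 0 ∧ q.1.1 = t.1 * t.2.1 ∧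
    q.1.2 = t.1 * t.2.2 ∧ IsCoprime t.2.1 t.2.2 := by
  haveI := pir D
  obtain ⟨g, c1, d1, h1, h2, h3, h4⟩ := Gd_ex q.1.1 q.1.2 q.2.1
  exact ⟨(g, c1, d1), h1, h2, h3, h4⟩

private def Gd_ga (q : P2 D) : D.O × D.O × D.O := Classical.choose (Gd_ex' q)

private theorem Gd_ga_spec (q : P2 D) : (Gd_ga q).1 ≠ 0 ∧ q.1.1 = (Gd_ga q).1 * (Gd_ga q).2.1 ∧
    q.1.2 = (Gd_ga q).1 * (Gd_ga q).2.2 ∧ IsCoprime (Gd_ga q).2.1 (Gd_ga q).2.2 :=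
  Classical.choose_spec (Gd_ex' q)

private theorem Gd_cop {c d : D.O} (u : D.Oˣ) (h : IsCoprime c d) :
    IsCoprime (c * ((u⁻¹ : D.Oˣ) : D.O)) (d * ((u⁻¹ : D.Oˣ) : D.O)) := by
  obtain ⟨a, b, h⟩ := h
  refine ⟨a * u, b * u, ?_⟩
  calc a * (u : D.O) * (c * ((u⁻¹ : D.Oˣ) : D.O)) + b * (u : D.O) * (d * ((u⁻¹ : D.Oˣ) : D.O))
      = (a * c + b * d) * ((u : D.O) * ((u⁻¹ : D.Oˣ) : D.O)) := by ring
    _ = 1 := by rw [h, Units.mul_inv, one_mul]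

private theorem Gd_cancel (g c : D.O) (u : D.Oˣ) :
    ((u : D.O) * g) * (c * ((u⁻¹ : D.Oˣ) : D.O)) = g * c := by
  calc ((u : D.O) * g) * (c * ((u⁻¹ : D.Oˣ) : D.O))
      = g * c * ((u : D.O) * ((u⁻¹ : D.Oˣ) : D.O)) := by ring
    _ = g * c := by rw [Units.mul_inv, mul_one]

private def Gd_f3 (x : P2 D × D.Oˣ) : T3 D :=
  ⟨((x.2 : D.O) * (Gd_ga x.1).1, (Gd_ga x.1).2.1 * ((x.2⁻¹ : D.Oˣ) : D.O),
    (Gd_ga x.1).2.2 * ((x.2⁻¹ : D.Oˣ) : D.O)), by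
    obtain ⟨h1, h2, h3, h4⟩ := Gd_ga_spec x.1
    refine ⟨mul_ne_zero (Units.ne_zero _) h1, mul_ne_zero ?_ (Units.ne_zero _),
      mul_ne_zero ?_ (Units.ne_zero _), Gd_cop _ h4⟩
    · intro h0
      rw [h0, mul_zero] at h2
      exact x.1.2.1 h2
    · intro h0
      rw [h0, mul_zero] at h3
      exact x.1.2.2 h3⟩

private theorem Gd_f3_1 (x : P2 D × D.Oˣ) : (Gd_f3 x).1.1 * (Gd_f3 x).1.2.1 = x.1.1.1 :=
  (Gd_cancel _ _ _).trans (Gd_ga_spec x.1).2.1.symm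

private theorem Gd_f3_2 (x : P2 D × D.Oˣ) : (Gd_f3 x).1.1 * (Gd_f3 x).1.2.2 = x.1.1.2 :=
  (Gd_cancel _ _ _).trans (Gd_ga_spec x.1).2.2.1.symm

private theorem Gd_f3_bij : Function.Bijective (Gd_f3 (D := D)) := by
  constructor
  · intro x y h
    have h1 : x.1 = y.1 := by
      apply Subtype.ext
      apply Prod.ext
      · rw [← Gd_f3_1 x, ← Gd_f3_1 y, h]
      · rw [← Gd_f3_2 x, ← Gd_f3_2 y, h]
    obtain ⟨q, u⟩ := x
    obtain ⟨q', u'⟩ := y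
    have h1' : q = q' := h1
    subst h1'
    have h2 : (u : D.O) * (Gd_ga q).1 = (u' : D.O) * (Gd_ga q).1 := congrArg (fun t => t.1.1) h
    have h3 : (u : D.O) = (u' : D.O) := mul_right_cancel₀ (Gd_ga_spec q).1 h2
    rw [Units.ext h3]
  · rintro ⟨⟨g, c, d⟩, h1, h2, h3, h4⟩
    set q : P2 D := ⟨(g * c, g * d), mul_ne_zero h1 h2, mul_ne_zero h1 h3⟩ with hq
    obtain ⟨k1, k2, k3, k4⟩ := Gd_ga_spec q
    haveI := pir D
    obtain ⟨u, hu⟩ := Gd_un k1 (g' := g) (c1' := c) (d1' := d) k2.symm k3.symm k4 h4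
    refine ⟨(q, u), ?_⟩
    have e1 : (Gd_f3 (q, u)).1.1 = g := hu
    have e2 := Gd_f3_1 (q, u)
    have e3 := Gd_f3_2 (q, u)
    rw [e1] at e2 e3
    apply Subtype.ext
    apply Prod.ext
    · exact e1
    · apply Prod.ext
      · exact mul_left_cancel₀ h1 e2
      · exact mul_left_cancel₀ h1 e3

private def Gd_e3 : P2 D × D.Oˣ ≃ T3 D := Equiv.ofBijective _ Gd_f3_bij

private theorem Gd_fin {X : Type*} {f : X → ℂ} {s : ℂ} (hf : HasSum f s) :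
    HasSum (fun x : X × D.Oˣ => f x.1) (wn D * s) := by
  haveI := finU D
  haveI : Fintype D.Oˣ := Fintype.ofFinite _
  have hg : HasSum (fun _ : D.Oˣ => (1 : ℂ)) (wn D) := by
    have h := hasSum_fintype (fun _ : D.Oˣ => (1 : ℂ))
    have e : ∑ _u : D.Oˣ, (1 : ℂ) = (wn D : ℂ) := by
      rw [Finset.sum_const, Finset.card_univ, nsmul_eq_mul, mul_one, wn, Nat.card_eq_fintype_card]
    rwa [e] at h
  have h := hf.mul hg (summable_mul_of_summable_norm hf.summable.norm hg.summable.norm)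
  rw [mul_comm]
  simpa using h

theorem gcd_sum {h : D.O → D.O → ℂ} (hs : Summable (fun p : P2 D => h p.1.1 p.1.2)) :
    HasSum (fun p : T3 D => h (p.1.1 * p.1.2.1) (p.1.1 * p.1.2.2))
      (wn D * ∑' p : P2 D, h p.1.1 p.1.2) := by
  have h1 := Gd_fin (D := D) hs.hasSum
  rw [← Gd_e3.hasSum_iff]
  convert h1 using 1
  funext x
  show h ((Gd_f3 x).1.1 * (Gd_f3 x).1.2.1) ((Gd_f3 x).1.1 * (Gd_f3 x).1.2.2) = _
  rw [Gd_f3_1, Gd_f3_2]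

private theorem Gd_q3 (q : Q3 D) : q.1.2.1 ≠ 0 ∧ q.1.2.2 ≠ 0 := by
  obtain ⟨h1, h2, h3⟩ := q.2
  constructor
  · intro h0
    rw [h0, zero_dvd_iff] at h2
    exact h1 h2
  · intro h0
    rw [h0, zero_dvd_iff] at h3
    exact h1 h3

private def Gd_p (q : Q3 D) : P2 D := ⟨(q.1.2.1, q.1.2.2), Gd_q3 q⟩

private theorem Gd_z (q : Q3 D) (u : D.Oˣ) : ∃ e : D.O, e ≠ 0 ∧
    q.1.1 = (Gd_f3 (Gd_p q, u)).1.1 * (Gd_f3 (Gd_p q, u)).1.2.1 * (Gd_f3 (Gd_p q, u)).1.2.2 * e := by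
  have e2 : (Gd_f3 (Gd_p q, u)).1.1 * (Gd_f3 (Gd_p q, u)).1.2.1 = q.1.2.1 := Gd_f3_1 (Gd_p q, u)
  have e3 : (Gd_f3 (Gd_p q, u)).1.1 * (Gd_f3 (Gd_p q, u)).1.2.2 = q.1.2.2 := Gd_f3_2 (Gd_p q, u)
  obtain ⟨h1, -, -, h4⟩ := (Gd_f3 (Gd_p q, u)).2
  generalize Gd_f3 (Gd_p q, u) = t at *
  obtain ⟨hz, ⟨x, hx⟩, ⟨y, hy⟩⟩ := q.2
  have h5 : t.1.2.1 * x = t.1.2.2 * y := by
    apply mul_left_cancel₀ h1
    rw [← mul_assoc, e2, ← mul_assoc, e3, ← hx, ← hy]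
  have h6 : t.1.2.1 ∣ y := h4.dvd_of_dvd_mul_left ⟨x, h5.symm⟩
  obtain ⟨e, he⟩ := h6
  have h7 : q.1.1 = t.1.1 * t.1.2.1 * t.1.2.2 * e := by
    rw [hy, ← e3, he]
    ring
  refine ⟨e, ?_, h7⟩
  rintro rfl
  rw [mul_zero] at h7
  exact hz h7

private def Gd_f4 (x : Q3 D × D.Oˣ) : T4 D :=
  ⟨((Gd_f3 (Gd_p x.1, x.2)).1.1, (Gd_f3 (Gd_p x.1, x.2)).1.2.1, (Gd_f3 (Gd_p x.1, x.2)).1.2.2,
    Classical.choose (Gd_z x.1 x.2)),
    (Gd_f3 (Gd_p x.1, x.2)).2.1, (Gd_f3 (Gd_p x.1, x.2)).2.2.1, (Gd_f3 (Gd_p x.1, x.2)).2.2.2.1,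
    (Classical.choose_spec (Gd_z x.1 x.2)).1, (Gd_f3 (Gd_p x.1, x.2)).2.2.2.2⟩

private theorem Gd_f4_0 (x : Q3 D × D.Oˣ) :
    (Gd_f4 x).1.1 * (Gd_f4 x).1.2.1 * (Gd_f4 x).1.2.2.1 * (Gd_f4 x).1.2.2.2 = x.1.1.1 :=
  (Classical.choose_spec (Gd_z x.1 x.2)).2.symm

private theorem Gd_f4_1 (x : Q3 D × D.Oˣ) : (Gd_f4 x).1.1 * (Gd_f4 x).1.2.1 = x.1.1.2.1 :=
  Gd_f3_1 (Gd_p x.1, x.2)

private theorem Gd_f4_2 (x : Q3 D × D.Oˣ) : (Gd_f4 x).1.1 * (Gd_f4 x).1.2.2.1 = x.1.1.2.2 :=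
  Gd_f3_2 (Gd_p x.1, x.2)

private theorem Gd_f4_bij : Function.Bijective (Gd_f4 (D := D)) := by
  constructor
  · intro x y h
    have h1 : x.1 = y.1 := by
      apply Subtype.ext
      apply Prod.ext
      · rw [← Gd_f4_0 x, ← Gd_f4_0 y, h]
      · apply Prod.ext
        · rw [← Gd_f4_1 x, ← Gd_f4_1 y, h]
        · rw [← Gd_f4_2 x, ← Gd_f4_2 y, h]
    obtain ⟨q, u⟩ := x
    obtain ⟨q', u'⟩ := y
    have h1' : q = q' := h1
    subst h1'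
    have h2 : (u : D.O) * (Gd_ga (Gd_p q)).1 = (u' : D.O) * (Gd_ga (Gd_p q)).1 :=
      congrArg (fun t => t.1.1) h
    have h3 : (u : D.O) = (u' : D.O) := mul_right_cancel₀ (Gd_ga_spec (Gd_p q)).1 h2
    rw [Units.ext h3]
  · rintro ⟨⟨g, c, d, e⟩, h1, h2, h3, h4, h5⟩
    set q : Q3 D := ⟨(g * c * d * e, g * c, g * d),
      mul_ne_zero (mul_ne_zero (mul_ne_zero h1 h2) h3) h4,
      ⟨d * e, by show g * c * d * e = g * c * (d * e); ring⟩,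
      ⟨c * e, by show g * c * d * e = g * d * (c * e); ring⟩⟩ with hq
    obtain ⟨⟨q', u⟩, hx⟩ := Gd_f3_bij.2 (⟨(g, c, d), h1, h2, h3, h5⟩ : T3 D)
    have e1 := Gd_f3_1 (q', u)
    have e2 := Gd_f3_2 (q', u)
    rw [hx] at e1 e2
    have hq' : q' = Gd_p q := by
      apply Subtype.ext
      apply Prod.ext
      · exact e1.symm
      · exact e2.symm
    rw [hq'] at hx
    refine ⟨(q, u), ?_⟩
    have k0 := Gd_f4_0 (q, u)
    have k1 : (Gd_f4 (q, u)).1.1 = g := congrArg (fun t => t.1.1) hx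
    have k2 : (Gd_f4 (q, u)).1.2.1 = c := congrArg (fun t => t.1.2.1) hx
    have k3 : (Gd_f4 (q, u)).1.2.2.1 = d := congrArg (fun t => t.1.2.2) hx
    rw [k1, k2, k3] at k0
    have k4 : (Gd_f4 (q, u)).1.2.2.2 = e :=
      mul_left_cancel₀ (mul_ne_zero (mul_ne_zero h1 h2) h3) k0
    apply Subtype.ext
    exact Prod.ext k1 (Prod.ext k2 (Prod.ext k3 k4))

private def Gd_e4 : Q3 D × D.Oˣ ≃ T4 D := Equiv.ofBijective _ Gd_f4_bij

theorem lcm_sum {h : D.O → D.O → D.O → ℂ} {S : ℂ}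
    (hs : HasSum (fun p : T4 D => h (p.1.1 * p.1.2.1 * p.1.2.2.1 * p.1.2.2.2)
      (p.1.1 * p.1.2.1) (p.1.1 * p.1.2.2.1)) S) :
    Summable (fun p : Q3 D => h p.1.1 p.1.2.1 p.1.2.2) ∧
    S = wn D * ∑' p : Q3 D, h p.1.1 p.1.2.1 p.1.2.2 := by
  rw [← Gd_e4.hasSum_iff] at hs
  have h1 : HasSum (fun x : Q3 D × D.Oˣ => h x.1.1.1 x.1.1.2.1 x.1.1.2.2) S := by
    convert hs using 1
    funext x
    show _ = h ((Gd_f4 x).1.1 * (Gd_f4 x).1.2.1 * (Gd_f4 x).1.2.2.1 * (Gd_f4 x).1.2.2.2)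
      ((Gd_f4 x).1.1 * (Gd_f4 x).1.2.1) ((Gd_f4 x).1.1 * (Gd_f4 x).1.2.2.1)
    rw [Gd_f4_0, Gd_f4_1, Gd_f4_2]
  have h2 : Summable (fun p : Q3 D => h p.1.1 p.1.2.1 p.1.2.2) := by
    have h3 := h1.summable.comp_injective
      (i := fun q : Q3 D => (q, (1 : D.Oˣ))) (fun a b hab => (Prod.ext_iff.1 hab).1)
    exact h3
  exact ⟨h2, h1.unique (Gd_fin (D := D) h2.hasSum)⟩

end

end RN2
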