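import Pool.Agent.UQO.ZHat
import Pool.Agent.UQO.Fej
import Pool.Agent.UNI.BFej
import Pool.Agent.K3R.LFunLattice

/-!
# RN2.Hk: the heat kernel of the torus

`[UQO.Lt]`: any lattice `L = ℤ + ℤ τ`, `y = Im τ`, frequencies `mm n`, `ch n u = exp (2 π i Im (mm n u) / y)`.
`K t x = Σ_n exp (- t |mm n|²) ch n (cu x) = (π / (t y)) Σ_m exp (- π² |cu x + xx m|² / (t y²))`.
The second equality (`Hk_poisson`): two applications of the one variable Poisson formula (`Hk_p1`, from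
`Complex.tsum_exp_neg_quadratic`).
* positivity and smallness away from `0`: from the right side (`|cu x + xx m|` is bounded below off a
  neighbourhood of `0`; the sum over `m` is `O(exp (-c / t))` times a convergent sum for `t ≤ 1`).
* `∫ K t = 1`: integrate the left side (uniformly convergent).
-/

open MeasureTheory Filter Topology UQO

namespace RN2

variable [Lt]

theorem Hk_mm (n : ℤ × ℤ) : LatL.Q (-(om : ℂ).re) (om : ℂ).im n = ‖mm n‖ ^ 2 := by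
  rw [← Complex.normSq_eq_norm_sq, Complex.normSq_apply, mm_re, mm_im, LatL.Q]
  ring

theorem Hk_xx (n : ℤ × ℤ) : LatL.Q (om : ℂ).re (om : ℂ).im n = ‖xx n‖ ^ 2 := by
  rw [← Complex.normSq_eq_norm_sq, Complex.normSq_apply, xx_re, xx_im, LatL.Q]
  ring

theorem gauss_summable {t : ℝ} (ht : 0 < t) :
    Summable (fun n : ℤ × ℤ => Real.exp (-t * ‖mm n‖ ^ 2)) := by
  have h := LatL.sum_gauss (x := -(om : ℂ).re) om_pos ht
  refine h.congr fun n => ?_
  rw [Hk_mm]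

theorem Hk_xx_summable {t : ℝ} (ht : 0 < t) :
    Summable (fun n : ℤ × ℤ => Real.exp (-t * ‖xx n‖ ^ 2)) := by
  have h := LatL.sum_gauss (x := (om : ℂ).re) om_pos ht
  refine h.congr fun n => ?_
  rw [Hk_xx]

theorem Hk_shift_le {t R : ℝ} (ht : 0 < t) {z : ℂ} (hz : ‖z‖ ≤ R) (m : ℤ × ℤ) :
    Real.exp (-t * ‖z + xx m‖ ^ 2) ≤ Real.exp (t * R ^ 2) * Real.exp (-(t / 2) * ‖xx m‖ ^ 2) := by
  rw [← Real.exp_add]
  apply Real.exp_le_exp.mpr
  have h1 : ‖xx m‖ ≤ ‖z + xx m‖ + ‖z‖ := by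
    calc ‖xx m‖ = ‖(z + xx m) - z‖ := by rw [add_sub_cancel_left]
      _ ≤ _ := norm_sub_le _ _
  have h2 : ‖xx m‖ ^ 2 ≤ 2 * ‖z + xx m‖ ^ 2 + 2 * ‖z‖ ^ 2 := by
    have h3 : ‖xx m‖ ^ 2 ≤ (‖z + xx m‖ + ‖z‖) ^ 2 :=
      pow_le_pow_left₀ (norm_nonneg _) h1 2
    nlinarith [sq_nonneg (‖z + xx m‖ - ‖z‖)]
  have h4 : ‖z‖ ^ 2 ≤ R ^ 2 := pow_le_pow_left₀ (norm_nonneg _) hz 2
  nlinarith [mul_le_mul_of_nonneg_left h2 ht.le, mul_le_mul_of_nonneg_left h4 ht.le]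

theorem Hk_shift_summable {t : ℝ} (ht : 0 < t) (z : ℂ) :
    Summable (fun m : ℤ × ℤ => Real.exp (-t * ‖z + xx m‖ ^ 2)) :=
  Summable.of_nonneg_of_le (fun _ => (Real.exp_pos _).le) (Hk_shift_le ht le_rfl)
    ((Hk_xx_summable (half_pos ht)).mul_left _)

omit [Lt] in
theorem Hk_p1 {a : ℝ} (ha : 0 < a) (α θ : ℝ) :
    ∑' n : ℤ, Complex.exp (((-(a * ((n : ℝ) - α) ^ 2) : ℝ) : ℂ) +
        2 * Real.pi * Complex.I * ((n : ℂ) * θ)) =
      ((√(Real.pi / a) : ℝ) : ℂ) * ∑' k : ℤ, Complex.exp (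
        ((-(Real.pi ^ 2 / a * (θ + (k : ℝ)) ^ 2) : ℝ) : ℂ) +
        2 * Real.pi * Complex.I * (α * (θ + (k : ℂ)))) := by
  have hp := Real.pi_pos
  have hpc : (Real.pi : ℂ) ≠ 0 := Complex.ofReal_ne_zero.mpr hp.ne'
  have hac : (a : ℂ) ≠ 0 := Complex.ofReal_ne_zero.mpr ha.ne'
  have hap : 0 < a / Real.pi := by positivity
  have key := Complex.tsum_exp_neg_quadratic (a := ((a / Real.pi : ℝ) : ℂ))
    (by rw [Complex.ofReal_re]; exact hap) (a * α / Real.pi + Complex.I * θ)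
  have e0 : (1 : ℂ) / ((a / Real.pi : ℝ) : ℂ) ^ (1 / 2 : ℂ) = ((√(Real.pi / a) : ℝ) : ℂ) := by
    have h1 : √(Real.pi / a) = (√(a / Real.pi))⁻¹ := by
      rw [← Real.sqrt_inv, inv_div]
    rw [h1, Real.sqrt_eq_rpow, Complex.ofReal_inv, Complex.ofReal_cpow hap.le, one_div]
    norm_num
  rw [e0] at key
  have e1 : ∀ n : ℤ, Complex.exp (((-(a * ((n : ℝ) - α) ^ 2) : ℝ) : ℂ) +
      2 * Real.pi * Complex.I * ((n : ℂ) * θ)) = Complex.exp (-(a * α ^ 2)) *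
      Complex.exp (-Real.pi * ((a / Real.pi : ℝ) : ℂ) * n ^ 2 +
        2 * Real.pi * (a * α / Real.pi + Complex.I * θ) * n) := by
    intro n
    rw [← Complex.exp_add]
    congr 1
    push_cast
    field_simp
    ring
  have e2 : ∀ k : ℤ, Complex.exp (-Real.pi / ((a / Real.pi : ℝ) : ℂ) *
      (((-k : ℤ) : ℂ) + Complex.I * (a * α / Real.pi + Complex.I * θ)) ^ 2) =
      Complex.exp (a * α ^ 2) * Complex.exp (
        ((-(Real.pi ^ 2 / a * (θ + (k : ℝ)) ^ 2) : ℝ) : ℂ) +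
        2 * Real.pi * Complex.I * (α * (θ + (k : ℂ)))) := by
    intro k
    rw [← Complex.exp_add]
    congr 1
    push_cast
    have hI : Complex.I ^ 2 = -1 := Complex.I_sq
    have h3 : (-(k : ℂ) + Complex.I * (a * α / Real.pi + Complex.I * θ)) ^ 2 =
        (θ + k) ^ 2 - 2 * Complex.I * (a * α / Real.pi) * (θ + k) - (a * α / Real.pi) ^ 2 := by
      have h4 : Complex.I * (a * α / Real.pi + Complex.I * θ) =
          Complex.I * (a * α / Real.pi) - θ := by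
        rw [mul_add, ← mul_assoc, Complex.I_mul_I]
        ring
      rw [h4]
      linear_combination (a * α / Real.pi : ℂ) ^ 2 * hI
    rw [h3]
    field_simp
    ring
  rw [tsum_congr e1, tsum_mul_left, key,
    ← (Equiv.neg ℤ).tsum_eq (fun k : ℤ => Complex.exp (-Real.pi / ((a / Real.pi : ℝ) : ℂ) *
      ((k : ℂ) + Complex.I * (a * α / Real.pi + Complex.I * θ)) ^ 2))]
  have e3 : ∀ k : ℤ, Complex.exp (-Real.pi / ((a / Real.pi : ℝ) : ℂ) *
      (((Equiv.neg ℤ k : ℤ) : ℂ) + Complex.I * (a * α / Real.pi + Complex.I * θ)) ^ 2) =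
      Complex.exp (a * α ^ 2) * Complex.exp (
        ((-(Real.pi ^ 2 / a * (θ + (k : ℝ)) ^ 2) : ℝ) : ℂ) +
        2 * Real.pi * Complex.I * (α * (θ + (k : ℂ)))) := e2
  rw [tsum_congr e3, tsum_mul_left, mul_left_comm, ← mul_assoc (Complex.exp (-(a * α ^ 2))),
    ← Complex.exp_add, neg_add_cancel, Complex.exp_zero, one_mul]

theorem Hk_poisson {t : ℝ} (ht : 0 < t) (s r : ℝ) :
    ∑' n : ℤ × ℤ, ((Real.exp (-t * ‖mm n‖ ^ 2) : ℝ) : ℂ) * ch n ((s : ℂ) + (r : ℂ) * om) =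
      (((Real.pi / (t * (om : ℂ).im)) * ∑' m : ℤ × ℤ,
        Real.exp (-(Real.pi ^ 2 / (t * (om : ℂ).im ^ 2)) *
          ‖((s : ℂ) + (r : ℂ) * om) + xx m‖ ^ 2) : ℝ) : ℂ) := by
  have hp := Real.pi_pos
  have hy := om_pos
  set y : ℝ := (om : ℂ).im with hyd
  set x0 : ℝ := (om : ℂ).re with hxd
  set F : ℤ × ℤ → ℂ := fun n =>
    ((Real.exp (-t * ‖mm n‖ ^ 2) : ℝ) : ℂ) * ch n ((s : ℂ) + (r : ℂ) * om) with hF
  have hFs : Summable F := by
    refine Summable.of_norm ?_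
    refine (gauss_summable ht).congr fun n => ?_
    rw [hF]
    show _ = ‖_ * _‖
    rw [norm_mul, norm_ch, mul_one, Complex.norm_real, Real.norm_of_nonneg (Real.exp_pos _).le]
  set S : ℤ × ℤ → ℂ := fun q =>
    Complex.exp (((-(t * y ^ 2 * (q.1 : ℝ) ^ 2) : ℝ) : ℂ) + 2 * Real.pi * Complex.I * (q.1 * s)) *
      Complex.exp (((-(Real.pi ^ 2 / t * (r + (q.2 : ℝ)) ^ 2) : ℝ) : ℂ) +
        2 * Real.pi * Complex.I * (((q.1 * x0 : ℝ) : ℂ) * (r + (q.2 : ℂ)))) with hS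
  have hnorm : ∀ (u : ℝ) (v : ℂ), v.im = 0 →
      ‖Complex.exp ((u : ℂ) + 2 * Real.pi * Complex.I * v)‖ = Real.exp u := by
    intro u v hv
    rw [Complex.norm_exp]
    congr 1
    simp [hv]
  have h1d : ∀ {c : ℝ}, 0 < c → ∀ b : ℝ,
      Summable (fun k : ℤ => Real.exp (-(c * (b + (k : ℝ)) ^ 2))) := by
    intro c hc b
    have h1 := (LatL.sum1b hc (-(2 * c * b))).mul_left (Real.exp (-(c * b ^ 2)))
    refine h1.congr fun k => ?_
    rw [← Real.exp_add]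
    congr 1
    ring
  have hSs : Summable S := by
    refine Summable.of_norm ?_
    have h1 := LatL.prod_summable (h1d (c := t * y ^ 2) (by positivity) 0)
      (h1d (c := Real.pi ^ 2 / t) (by positivity) r)
    refine h1.congr fun q => ?_
    rw [hS]
    show _ = ‖_ * _‖
    rw [norm_mul, hnorm _ _ (by simp), hnorm _ _ (by simp), zero_add]
  set G : ℤ × ℤ → ℝ := fun m => Real.exp (-(Real.pi ^ 2 / (t * y ^ 2)) *
          ‖((s : ℂ) + (r : ℂ) * om) + xx m‖ ^ 2) with hG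
  have hGs : Summable G := Hk_shift_summable (t := Real.pi ^ 2 / (t * y ^ 2)) (by positivity) _
  have h2 : ∀ n2 : ℤ, ∑' n1 : ℤ, F (n1, n2) =
      ((√(Real.pi / t) : ℝ) : ℂ) * ∑' k : ℤ, S (n2, k) := by
    intro n2
    have e1 : ∀ n1 : ℤ, F (n1, n2) = Complex.exp (((-(t * y ^ 2 * (n2 : ℝ) ^ 2) : ℝ) : ℂ) +
        2 * Real.pi * Complex.I * (n2 * s)) *
        Complex.exp (((-(t * ((n1 : ℝ) - n2 * x0) ^ 2) : ℝ) : ℂ) +
          2 * Real.pi * Complex.I * ((n1 : ℂ) * r)) := by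
      intro n1
      rw [hF]
      show ((Real.exp (-t * ‖mm (n1, n2)‖ ^ 2) : ℝ) : ℂ) * ch (n1, n2) _ = _
      rw [ch_st, ← Hk_mm, LatL.Q, Complex.ofReal_exp, ← Complex.exp_add, ← Complex.exp_add]
      congr 1
      rw [← hyd, ← hxd]
      push_cast
      ring
    rw [tsum_congr e1, tsum_mul_left, Hk_p1 ht (n2 * x0) r, mul_left_comm, ← tsum_mul_left]
  have h3 : ∀ k : ℤ, ∑' n2 : ℤ, S (n2, k) =
      ((√(Real.pi / (t * y ^ 2)) : ℝ) : ℂ) * ∑' j : ℤ, ((G (j, k) : ℝ) : ℂ) := by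
    intro k
    have hty : 0 < t * y ^ 2 := by positivity
    have e1 : ∀ n2 : ℤ, S (n2, k) = Complex.exp (((-(Real.pi ^ 2 / t * (r + (k : ℝ)) ^ 2) : ℝ) : ℂ)) *
        Complex.exp (((-(t * y ^ 2 * ((n2 : ℝ) - 0) ^ 2) : ℝ) : ℂ) +
          2 * Real.pi * Complex.I * ((n2 : ℂ) * ((s + x0 * (r + k) : ℝ) : ℂ))) := by
      intro n2
      rw [hS]
      show Complex.exp _ * Complex.exp _ = _
      rw [← Complex.exp_add, ← Complex.exp_add]
      congr 1
      push_cast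
      ring
    have e2 : ∀ j : ℤ, ((G (j, k) : ℝ) : ℂ) =
        Complex.exp (((-(Real.pi ^ 2 / t * (r + (k : ℝ)) ^ 2) : ℝ) : ℂ)) *
        Complex.exp (((-(Real.pi ^ 2 / (t * y ^ 2) * ((s + x0 * (r + k)) + (j : ℝ)) ^ 2) : ℝ) : ℂ) +
        2 * Real.pi * Complex.I * (((0 : ℝ) : ℂ) * (((s + x0 * (r + k) : ℝ) : ℂ) + (j : ℂ)))) := by
      intro j
      rw [hG]
      show ((Real.exp (-(Real.pi ^ 2 / (t * y ^ 2)) *
          ‖((s : ℂ) + (r : ℂ) * om) + xx (j, k)‖ ^ 2) : ℝ) : ℂ) = _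
      have h4 : ‖((s : ℂ) + (r : ℂ) * om) + xx (j, k)‖ ^ 2 =
          ((s + x0 * (r + k)) + (j : ℝ)) ^ 2 + (r + k) ^ 2 * y ^ 2 := by
        rw [← Complex.normSq_eq_norm_sq, Complex.normSq_apply, Complex.add_re, Complex.add_im,
          Tor_re, Tor_im, xx_re, xx_im, ← hxd, ← hyd]
        ring
      rw [h4, Complex.ofReal_exp, ← Complex.exp_add, Complex.ofReal_zero, zero_mul, mul_zero,
        add_zero, ← Complex.ofReal_add]
      congr 2
      have hy0 : y ≠ 0 := hy.ne'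
      field_simp
      ring
    rw [tsum_congr e1, tsum_mul_left, Hk_p1 hty 0 (s + x0 * (r + k)), tsum_congr e2, tsum_mul_left]
    ring
  have hGc : Summable (fun m : ℤ × ℤ => ((G m : ℝ) : ℂ)) := Complex.summable_ofReal.mpr hGs
  have h4 : ∑' n : ℤ × ℤ, F n = ∑' n2 : ℤ, ∑' n1 : ℤ, F (n1, n2) := by
    have h5 : Summable (fun c : ℤ × ℤ => F ((Equiv.prodComm ℤ ℤ) c)) :=
      (Equiv.prodComm ℤ ℤ).summable_iff.mpr hFs
    rw [← (Equiv.prodComm ℤ ℤ).tsum_eq, h5.tsum_prod]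
    rfl
  have h6 : ∑' n2 : ℤ, ∑' k : ℤ, S (n2, k) = ∑' k : ℤ, ∑' n2 : ℤ, S (n2, k) := by
    have h5 : Summable (fun c : ℤ × ℤ => S ((Equiv.prodComm ℤ ℤ) c)) :=
      (Equiv.prodComm ℤ ℤ).summable_iff.mpr hSs
    rw [← hSs.tsum_prod, ← (Equiv.prodComm ℤ ℤ).tsum_eq, h5.tsum_prod]
    rfl
  have h7 : ∑' k : ℤ, ∑' j : ℤ, ((G (j, k) : ℝ) : ℂ) = ((∑' m : ℤ × ℤ, G m : ℝ) : ℂ) := by
    have h5 : Summable (fun c : ℤ × ℤ => ((G ((Equiv.prodComm ℤ ℤ) c) : ℝ) : ℂ)) :=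
      (Equiv.prodComm ℤ ℤ).summable_iff.mpr hGc
    rw [Complex.ofReal_tsum, ← (Equiv.prodComm ℤ ℤ).tsum_eq (fun m : ℤ × ℤ => ((G m : ℝ) : ℂ)),
      h5.tsum_prod]
    rfl
  rw [h4, tsum_congr h2, tsum_mul_left, h6, tsum_congr h3, tsum_mul_left, h7, ← mul_assoc,
    ← Complex.ofReal_mul, ← Complex.ofReal_mul]
  congr 2
  rw [← Real.sqrt_mul (by positivity)]
  have h8 : Real.pi / t * (Real.pi / (t * y ^ 2)) = (Real.pi / (t * y)) ^ 2 := by
    have hy0 : y ≠ 0 := hy.ne'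
    field_simp
  rw [h8, Real.sqrt_sq (by positivity)]

theorem heat_kernel : ∃ K : ℝ → E → ℝ,
    (∀ t, 0 < t → Continuous (K t)) ∧ (∀ t, 0 < t → ∀ x, 0 ≤ K t x) ∧
    (∀ t, 0 < t → ∀ x : E, HasSum (fun n : ℤ × ℤ =>
      ((Real.exp (-t * ‖mm n‖ ^ 2) : ℝ) : ℂ) * ch n (cu x)) (K t x)) ∧
    (∀ U ∈ 𝓝 (0 : E), ∀ ε : ℝ, 0 < ε → ∀ᶠ t in 𝓝[>] (0 : ℝ), ∀ x ∉ U, K t x ≤ ε) ∧
    ∀ t, 0 < t → ∫ x : E, K t x = 1 := by
  have hp := Real.pi_pos
  have hy := om_pos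
  set K : ℝ → E → ℝ := fun t x => (Real.pi / (t * (om : ℂ).im)) * ∑' m : ℤ × ℤ,
        Real.exp (-(Real.pi ^ 2 / (t * (om : ℂ).im ^ 2)) * ‖cu x + xx m‖ ^ 2) with hK
  have hnn : ∀ (t : ℝ) (n : ℤ × ℤ) (x : E),
      ‖((Real.exp (-t * ‖mm n‖ ^ 2) : ℝ) : ℂ) * ch n (cu x)‖ = Real.exp (-t * ‖mm n‖ ^ 2) := by
    intro t n x
    rw [norm_mul, norm_ch, mul_one, Complex.norm_real, Real.norm_of_nonneg (Real.exp_pos _).le]
  have hsum : ∀ t, 0 < t → ∀ x : E, HasSum (fun n : ℤ × ℤ =>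
      ((Real.exp (-t * ‖mm n‖ ^ 2) : ℝ) : ℂ) * ch n (cu x)) ((K t x : ℝ) : ℂ) := by
    intro t ht x
    have h1 : Summable (fun n : ℤ × ℤ =>
      ((Real.exp (-t * ‖mm n‖ ^ 2) : ℝ) : ℂ) * ch n (cu x)) := by
      refine Summable.of_norm ?_
      exact (gauss_summable ht).congr fun n => (hnn t n x).symm
    have h2 := h1.hasSum
    have h3 := Hk_poisson ht (rep x.1) (rep x.2)
    have h4 : (rep x.1 : ℂ) + (rep x.2 : ℂ) * om = cu x := rfl
    rw [h4] at h3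
    rw [h3] at h2
    exact h2
  refine ⟨K, fun t ht => ?_, fun t ht x => ?_, hsum, fun U hU ε hε => ?_, fun t ht => ?_⟩
  · have h1 : K t = fun x => (∑' n : ℤ × ℤ,
        ((Real.exp (-t * ‖mm n‖ ^ 2) : ℝ) : ℂ) * ch n (cu x)).re := by
      funext x
      rw [(hsum t ht x).tsum_eq, Complex.ofReal_re]
    rw [h1]
    refine Complex.continuous_re.comp ?_
    exact continuous_tsum (fun n => continuous_const.mul (continuous_ch_cu n))
      (gauss_summable ht) (fun n x => (hnn t n x).le)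
  · exact mul_nonneg (by positivity) (tsum_nonneg fun m => (Real.exp_pos _).le)
  · -- smallness
    obtain ⟨δ, hδ, hδU⟩ : ∃ δ : ℝ, 0 < δ ∧ ∀ u : ℂ, ‖u‖ < δ → pr u ∈ U := by
      have h1 : Tendsto pr (𝓝 0) (𝓝 0) := by
        have h2 := continuous_pr.tendsto (0 : ℂ)
        rwa [Tor_pr_zero] at h2
      obtain ⟨δ, hδ, h3⟩ := Metric.mem_nhds_iff.1 (h1 hU)
      exact ⟨δ, hδ, fun u hu => h3 (by simpa using hu)⟩
    have hlow : ∀ x ∉ U, ∀ m : ℤ × ℤ, δ ≤ ‖cu x + xx m‖ := by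
      intro x hx m
      by_contra hc
      push Not at hc
      have h1 := hδU _ hc
      rw [pr_add, pr_cu, pr_xx, add_zero] at h1
      exact hx h1
    obtain ⟨R, hR⟩ : ∃ R : ℝ, ∀ x : E, ‖cu x‖ ≤ R := by
      refine ⟨1 + ‖(om : ℂ)‖, fun x => ?_⟩
      have h1 : ∀ a : UnitAddCircle, |rep a| ≤ 1 := by
        intro a
        have h2 := (AddCircle.equivIco 1 0 a).2
        have h3 : (0 : ℝ) ≤ rep a := h2.1
        have h4 : rep a < 0 + 1 := h2.2
        rw [abs_of_nonneg h3]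
        linarith
      have h5 : cu x = (rep x.1 : ℂ) + (rep x.2 : ℂ) * om := rfl
      rw [h5]
      refine (norm_add_le _ _).trans ?_
      rw [norm_mul, Complex.norm_real, Complex.norm_real, Real.norm_eq_abs, Real.norm_eq_abs]
      have h6 := mul_le_mul_of_nonneg_right (h1 x.2) (norm_nonneg (om : ℂ))
      linarith [h1 x.1]
    set y : ℝ := (om : ℂ).im with hyd
    set c : ℝ := Real.pi ^ 2 / y ^ 2 with hc
    have hc0 : 0 < c := by positivity
    set A : ℝ := Real.exp (c / 2 * R ^ 2) * ∑' m : ℤ × ℤ, Real.exp (-(c / 2 / 2) * ‖xx m‖ ^ 2) with hA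
    have hA0 : 0 ≤ A := mul_nonneg (Real.exp_pos _).le (tsum_nonneg fun m => (Real.exp_pos _).le)
    have hbd : ∀ t : ℝ, 0 < t → t ≤ 1 → ∀ x ∉ U,
        K t x ≤ (Real.pi / y * A) * (8 / (c * δ ^ 2) ^ 2) * t := by
      intro t ht ht1 x hx
      have e1 : ∀ m : ℤ × ℤ, Real.exp (-(Real.pi ^ 2 / (t * y ^ 2)) * ‖cu x + xx m‖ ^ 2) ≤
          Real.exp (-(c * δ ^ 2 / (2 * t))) * (Real.exp (c / 2 * R ^ 2) *
            Real.exp (-(c / 2 / 2) * ‖xx m‖ ^ 2)) := by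
        intro m
        refine le_trans ?_ (mul_le_mul_of_nonneg_left
          (Hk_shift_le (half_pos hc0) (hR x) m) (Real.exp_pos _).le)
        rw [← Real.exp_add]
        apply Real.exp_le_exp.mpr
        have h1 : δ ^ 2 ≤ ‖cu x + xx m‖ ^ 2 := pow_le_pow_left₀ hδ.le (hlow x hx m) 2
        have h2 : Real.pi ^ 2 / (t * y ^ 2) = c / t := by
          rw [hc, div_div]
          congr 1
          ring
        rw [h2]
        set q : ℝ := ‖cu x + xx m‖ ^ 2 with hq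
        have h3 : c * δ ^ 2 / (2 * t) ≤ c * q / (2 * t) := by gcongr
        have h4 : c / 2 * q ≤ c * q / (2 * t) := by
          rw [le_div_iff₀ (by positivity)]
          have h5 : 0 ≤ c * q := by positivity
          nlinarith [mul_le_mul_of_nonneg_left ht1 h5]
        have h6 : c / t * q = c * q / (2 * t) + c * q / (2 * t) := by
          field_simp
          ring
        linarith
      have hs1 := Hk_shift_summable (t := Real.pi ^ 2 / (t * y ^ 2)) (by positivity) (cu x)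
      have hs2 : Summable (fun m : ℤ × ℤ => Real.exp (-(c * δ ^ 2 / (2 * t))) *
          (Real.exp (c / 2 * R ^ 2) * Real.exp (-(c / 2 / 2) * ‖xx m‖ ^ 2))) :=
        ((Hk_xx_summable (half_pos (half_pos hc0))).mul_left _).mul_left _
      have e2 : ∑' m : ℤ × ℤ, Real.exp (-(Real.pi ^ 2 / (t * y ^ 2)) * ‖cu x + xx m‖ ^ 2) ≤
          Real.exp (-(c * δ ^ 2 / (2 * t))) * A := by
        refine (hs1.tsum_le_tsum e1 hs2).trans (le_of_eq ?_)
        rw [tsum_mul_left, tsum_mul_left]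
      have e3 : Real.exp (-(c * δ ^ 2 / (2 * t))) ≤ 8 / (c * δ ^ 2) ^ 2 * t ^ 2 := by
        have h1 : 0 < c * δ ^ 2 / (2 * t) := by positivity
        have h2 := Real.quadratic_le_exp_of_nonneg h1.le
        have h3 : (c * δ ^ 2 / (2 * t)) ^ 2 / 2 ≤ Real.exp (c * δ ^ 2 / (2 * t)) := by linarith
        rw [Real.exp_neg]
        have h4 : 8 / (c * δ ^ 2) ^ 2 * t ^ 2 = ((c * δ ^ 2 / (2 * t)) ^ 2 / 2)⁻¹ := by
          field_simp
          ring
        rw [h4]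
        exact inv_anti₀ (by positivity) h3
      have e4 : K t x ≤ Real.pi / (t * y) * ((8 / (c * δ ^ 2) ^ 2 * t ^ 2) * A) := by
        refine mul_le_mul_of_nonneg_left (e2.trans ?_) (by positivity)
        exact mul_le_mul_of_nonneg_right e3 hA0
      refine e4.trans (le_of_eq ?_)
      have hy0 : y ≠ 0 := hy.ne'
      field_simp
    set B : ℝ := (Real.pi / y * A) * (8 / (c * δ ^ 2) ^ 2) with hB
    have hB0 : 0 ≤ B := by positivity
    have h1 : ∀ᶠ t in 𝓝[>] (0 : ℝ), t < min 1 (ε / (B + 1)) := by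
      refine nhdsWithin_le_nhds ?_
      exact gt_mem_nhds (lt_min one_pos (by positivity))
    filter_upwards [h1, self_mem_nhdsWithin] with t ht1 ht0 x hx
    have ht0' : 0 < t := ht0
    refine (hbd t ht0' (ht1.le.trans (min_le_left _ _)) x hx).trans ?_
    have h2 : t ≤ ε / (B + 1) := ht1.le.trans (min_le_right _ _)
    have h3 : t * (B + 1) ≤ ε := by rwa [le_div_iff₀ (by positivity)] at h2
    nlinarith
  · have h1 : ∀ n : ℤ × ℤ, Integrable (fun x : E =>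
        ((Real.exp (-t * ‖mm n‖ ^ 2) : ℝ) : ℂ) * ch n (cu x)) := by
      intro n
      refine Integrable.of_bound (C := Real.exp (-t * ‖mm n‖ ^ 2)) ?_
        (Eventually.of_forall fun x => (hnn t n x).le)
      exact (continuous_const.mul (continuous_ch_cu n)).aestronglyMeasurable
    have h2 : Summable (fun n : ℤ × ℤ => ∫ x : E,
        ‖((Real.exp (-t * ‖mm n‖ ^ 2) : ℝ) : ℂ) * ch n (cu x)‖) := by
      refine (gauss_summable ht).congr fun n => ?_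
      simp only [hnn]
      rw [integral_const]
      have h3 : (volume : Measure E).real Set.univ = 1 := by
        rw [Measure.volume_eq_prod, Measure.real, ← Set.univ_prod_univ, Measure.prod_prod]
        simp
      rw [h3, one_smul]
    have h3 := hasSum_integral_of_summable_integral_norm h1 h2
    have h4 : ∀ x : E, ∑' n : ℤ × ℤ, ((Real.exp (-t * ‖mm n‖ ^ 2) : ℝ) : ℂ) * ch n (cu x) =
        ((K t x : ℝ) : ℂ) := fun x => (hsum t ht x).tsum_eq
    simp only [h4] at h3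
    have h5 : HasSum (fun n : ℤ × ℤ => ∫ x : E,
        ((Real.exp (-t * ‖mm n‖ ^ 2) : ℝ) : ℂ) * ch n (cu x)) 1 := by
      have h6 : (fun n : ℤ × ℤ => ∫ x : E,
          ((Real.exp (-t * ‖mm n‖ ^ 2) : ℝ) : ℂ) * ch n (cu x)) =
          fun n : ℤ × ℤ => if n = 0 then (1 : ℂ) else 0 := by
        funext n
        rw [integral_const_mul, integral_ch]
        split_ifs with h
        · rw [h, mm_zero]
          simp
        · rw [mul_zero]
      rw [h6]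
      exact hasSum_ite_eq 0 1
    have h7 := h3.unique h5
    have h8 : ∫ x : E, ((K t x : ℝ) : ℂ) = ((∫ x : E, K t x : ℝ) : ℂ) := integral_ofReal
    rw [h8] at h7
    exact_mod_cast h7

end RN2
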