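import Pool.Agent.RN2.Bs
import Pool.Agent.UNL.Gen

/-!
# RN2.Ho: the letters are independent

`Lx α φ k = α (cl (fun u v => kl (tp k) (φ u v)))`, `co α f = α (cl f)` (`UNL/ACl0`).
1. Independence: let `m n p : G N → ℤ` and `c ≠ 0` with
  `∏_k kl(tp k)(u)^{m_k} ∏_k kl(tp k)(v)^{n_k} ∏_k kl(tp k)(u-v)^{p_k} c = 1` for all generic `(u, v)`. Then
  `m = n = p = 0`, `c = 1`. Proof: fix `v` with `2 N v ∉ L`. Let `u → tp k₀`, `u ≠ tp k₀` (`(u, v)` is generic for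
  `u` close to `tp k₀`: the lattice is closed and discrete, `N (tp k₀ ± v) ∉ L`). `kl(tp k₀)(u) → 0` and is not
  `0`, all other factors tend to numbers `≠ 0` (`UNL.kl_ne`: `kl a k z ≠ 0` if `Ofl a (z - k)`; `tp k - tp k₀ ∉ L`
  for `k ≠ k₀`, `UNL.Gen.tp_add`, `tp_neg`, `tp_off`), so the absolute value of the product tends to `0` or `∞`
  unless `m_{k₀} = 0`. In the same way `n = 0` (exchange `u, v`), `p = 0` (`u = v + z`, `z → tp k₀`,
  `N (tp k₀ + v)`, `N (tp k₀ + 2 v) ∉ L`). Then `c = 1`.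
2. So the homomorphism `j : (G N → ℤ)³ × Additive ℂˣ → Additive (Gn b N → ℂˣ)`, `(m, n, p, c) ↦` the product, is
  injective, and the homomorphism `(m, n, p, c) ↦ Σ m_k φ₁ k + Σ n_k φ₂ k + Σ p_k φ₃ k + δ c` extends along `j`
  (`Module.Baer.of_divisible`, `Module.Baer.extension_property`; `ℂ` is divisible).
-/

open RNK

namespace RN2

noncomputable section

open Filter Topology

private theorem ho_indL (b : UNL.Par) : Pool.Agent.EllSch.Ind 1 (UNL.tau b) := UNL.Gen.ind b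

private theorem ho_open (b : UNL.Par) : IsOpen {z : ℂ | UNL.Ofl b z} :=
  Pool.Agent.EllSch.isOpen_off (ho_indL b)

private theorem ho_openN (b : UNL.Par) (f : ℂ → ℂ) (hf : Continuous f) {z₀ : ℂ}
    (h : UNL.Ofl b (f z₀)) : ∀ᶠ z in 𝓝[≠] z₀, UNL.Ofl b (f z) :=
  ((hf.continuousAt.eventually_mem ((ho_open b).mem_nhds h))).filter_mono nhdsWithin_le_nhds

private theorem ho_punct (b : UNL.Par) {N : ℕ} [NeZero N] (k : UNL.G N) :
    ∀ᶠ z in 𝓝[≠] (UNL.tp b k), UNL.Ofl b (N * z) := by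
  have hN : (N : ℂ) ≠ 0 := by exact_mod_cast NeZero.ne N
  have h0 : ∀ᶠ w in 𝓝[≠] (0 : ℂ), QCL.sig 1 (UNL.tau b) w ≠ 0 :=
    (QCL.sig_deriv_zero (ho_indL b)).eventually_ne one_ne_zero
  have ht : Tendsto (fun z : ℂ => (N : ℂ) * (z - UNL.tp b k)) (𝓝[≠] (UNL.tp b k)) (𝓝[≠] 0) := by
    refine tendsto_nhdsWithin_iff.2 ⟨?_, ?_⟩
    · have hc : Continuous fun z : ℂ => (N : ℂ) * (z - UNL.tp b k) := by fun_prop
      have := hc.tendsto (UNL.tp b k)
      simp only [sub_self, mul_zero] at this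
      exact this.mono_left nhdsWithin_le_nhds
    · filter_upwards [self_mem_nhdsWithin] with z hz
      exact mul_ne_zero hN (sub_ne_zero.2 hz)
  filter_upwards [ht.eventually h0] with z hz
  have h1 : UNL.Ofl b ((N : ℂ) * (z - UNL.tp b k)) := by
    by_contra hc
    obtain ⟨n, hn⟩ := (UNL.Gen.not_ofl_iff b _).1 hc
    apply hz
    rw [hn, ← UNL.Gen.lat_xx]
    exact QCL.sig_lat 1 (UNL.tau b) n
  have h2 : (N : ℂ) * z = (N : ℂ) * (z - UNL.tp b k) +
      UNL.xx b ((k.1.val : ℤ), (k.2.val : ℤ)) := by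
    rw [← UNL.Gen.mul_tp]
    ring
  rw [h2, UNL.Gen.ofl_add_xx]
  exact h1

private theorem ho_kl_cont (b : UNL.Par) (k : ℂ) : Continuous (UNL.kl b k) := by
  unfold UNL.kl UNL.sg
  have h := (QCL.sig_diff (ho_indL b)).continuous
  fun_prop

private theorem ho_tp_sub (b : UNL.Par) {N : ℕ} [NeZero N] {k j : UNL.G N} (h : j ≠ k) :
    UNL.Ofl b (UNL.tp b k - UNL.tp b j) := by
  obtain ⟨n, hn⟩ := UNL.Gen.tp_neg b j
  obtain ⟨m, hm⟩ := UNL.Gen.tp_add b k (-j)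
  have e : UNL.tp b k - UNL.tp b j = UNL.tp b (k + -j) + UNL.xx b (m - n) := by
    rw [UNL.Gen.xx_sub]
    linear_combination hm - hn
  rw [e, UNL.Gen.ofl_add_xx]
  apply UNL.Gen.tp_off
  intro h'
  exact h (eq_of_sub_eq_zero (by rw [sub_eq_add_neg]; exact h')).symm

/-- one variable -/
private theorem ho_key (b : UNL.Par) {N : ℕ} [NeZero N] (m : UNL.G N → ℤ) (k₀ : UNL.G N)
    (H : ℂ → ℂ) (hH : ContinuousAt H (UNL.tp b k₀)) (hH0 : H (UNL.tp b k₀) ≠ 0)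
    (he : ∀ᶠ z in 𝓝[≠] (UNL.tp b k₀), (∏ k, UNL.kl b (UNL.tp b k) z ^ m k) * H z = 1) :
    m k₀ = 0 := by
  classical
  set z₀ := UNL.tp b k₀ with hz₀
  set G : ℂ → ℂ := fun z => (∏ k ∈ Finset.univ.erase k₀, UNL.kl b (UNL.tp b k) z ^ m k) * H z
    with hG
  have hGc : ContinuousAt G z₀ := by
    refine ContinuousAt.mul ?_ hH
    refine tendsto_finsetProd _ fun k hk => ?_
    refine ((ho_kl_cont b (UNL.tp b k)).continuousAt).zpow₀ (m k) (Or.inl ?_)
    exact UNL.kl_ne b (ho_tp_sub b (Finset.ne_of_mem_erase hk))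
  have hG0 : G z₀ ≠ 0 := by
    refine mul_ne_zero (Finset.prod_ne_zero_iff.2 fun k hk => zpow_ne_zero _ ?_) hH0
    exact UNL.kl_ne b (ho_tp_sub b (Finset.ne_of_mem_erase hk))
  have hGt : Tendsto G (𝓝[≠] z₀) (𝓝 (G z₀)) := hGc.tendsto.mono_left nhdsWithin_le_nhds
  have hkt : Tendsto (UNL.kl b z₀) (𝓝[≠] z₀) (𝓝 0) := by
    have h1 := (ho_kl_cont b z₀).tendsto z₀
    have h2 : UNL.kl b z₀ z₀ = 0 := by
      unfold UNL.kl UNL.sg
      rw [sub_self]
      have h3 := QCL.sig_lat 1 (UNL.tau b) 0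
      have h4 : Pool.Agent.EllSch.lat 1 (UNL.tau b) 0 = 0 := by
        rw [UNL.Gen.lat_xx, UNL.Gen.xx_zero]
      rw [h4] at h3
      rw [h3, mul_zero]
    rw [h2] at h1
    exact h1.mono_left nhdsWithin_le_nhds
  have hkn : ∀ᶠ z in 𝓝[≠] z₀, UNL.kl b z₀ z ≠ 0 := by
    filter_upwards [ho_punct b k₀] with z hz
    exact UNL.kl_ne b (UNL.ofl_sub' hz (UNL.tn_tp b (Nat.pos_of_ne_zero (NeZero.ne N)) k₀))
  have he' : ∀ᶠ z in 𝓝[≠] z₀, UNL.kl b z₀ z ^ m k₀ * G z = 1 := by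
    filter_upwards [he] with z hz
    rw [← hz, ← Finset.mul_prod_erase _ _ (Finset.mem_univ k₀)]
    simp only [hG]
    ring
  rcases lt_trichotomy (m k₀) 0 with h | h | h
  · exfalso
    obtain ⟨e, he0, he1⟩ : ∃ e : ℕ, e ≠ 0 ∧ m k₀ = -(e : ℤ) :=
      ⟨(m k₀).natAbs, by omega, by omega⟩
    have h1 : ∀ᶠ z in 𝓝[≠] z₀, G z = UNL.kl b z₀ z ^ e := by
      filter_upwards [he', hkn] with z h1 h2
      rw [he1, zpow_neg, zpow_natCast] at h1
      have h3 : UNL.kl b z₀ z ^ e ≠ 0 := pow_ne_zero e h2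
      field_simp at h1
      exact h1
    have h2 : Tendsto (fun z => UNL.kl b z₀ z ^ e) (𝓝[≠] z₀) (𝓝 0) := by
      have := hkt.pow e
      rwa [zero_pow he0] at this
    exact hG0 (tendsto_nhds_unique hGt (h2.congr' (h1.mono fun z hz => hz.symm)))
  · exact h
  · exfalso
    obtain ⟨e, he0, he1⟩ : ∃ e : ℕ, e ≠ 0 ∧ m k₀ = (e : ℤ) :=
      ⟨(m k₀).natAbs, by omega, by omega⟩
    have h2 : Tendsto (fun z => UNL.kl b z₀ z ^ e * G z) (𝓝[≠] z₀) (𝓝 (0 * G z₀)) := by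
      have := hkt.pow e
      rw [zero_pow he0] at this
      exact this.mul hGt
    rw [zero_mul] at h2
    have h3 : Tendsto (fun z => UNL.kl b z₀ z ^ e * G z) (𝓝[≠] z₀) (𝓝 1) := by
      refine tendsto_const_nhds.congr' ?_
      filter_upwards [he'] with z hz
      rw [← hz, he1, zpow_natCast]
    exact zero_ne_one (tendsto_nhds_unique h2 h3)

/-- the product of the letters with exponents `m` at `z` -/
private def ho_pr (b : UNL.Par) {N : ℕ} [NeZero N] (m : UNL.G N → ℤ) (z : ℂ) : ℂ :=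
  ∏ k, UNL.kl b (UNL.tp b k) z ^ m k

private theorem ho_pr_ne (b : UNL.Par) {N : ℕ} [NeZero N] (m : UNL.G N → ℤ) {z : ℂ}
    (hz : UNL.Ofl b (N * z)) : ho_pr b m z ≠ 0 := by
  refine Finset.prod_ne_zero_iff.2 fun k _ => zpow_ne_zero _ (UNL.kl_ne b ?_)
  exact UNL.ofl_sub' hz (UNL.tn_tp b (Nat.pos_of_ne_zero (NeZero.ne N)) k)

private theorem ho_pr_cont (b : UNL.Par) {N : ℕ} [NeZero N] (m : UNL.G N → ℤ) {z : ℂ}
    (hz : UNL.Ofl b (N * z)) : ContinuousAt (ho_pr b m) z := by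
  refine tendsto_finsetProd _ fun k _ => ?_
  refine ((ho_kl_cont b (UNL.tp b k)).continuousAt).zpow₀ (m k) (Or.inl (UNL.kl_ne b ?_))
  exact UNL.ofl_sub' hz (UNL.tn_tp b (Nat.pos_of_ne_zero (NeZero.ne N)) k)

private theorem ho_base (b : UNL.Par) (N : ℕ) [NeZero N] :
    ∃ v : ℂ, UNL.Ofl b (N * v) ∧ UNL.Ofl b (N * (2 * v)) := by
  have hN : (N : ℂ) ≠ 0 := by exact_mod_cast NeZero.ne N
  have h2 : UNL.Ofl b (N * (2 * (1 / (4 * N) : ℂ))) := by
    have e : (N : ℂ) * (2 * (1 / (4 * N) : ℂ)) = 1 / 2 := by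
      field_simp
      norm_num
    rw [e]
    exact Pool.Agent.EllSch.Zeta.off_half (ho_indL b)
  refine ⟨1 / (4 * N), ?_, h2⟩
  apply UNL.Gen.ofl_of_mul b 2
  have e : ((2 : ℕ) : ℂ) * (N * (1 / (4 * N) : ℂ)) = N * (2 * (1 / (4 * N) : ℂ)) := by
    push_cast
    ring
  rw [e]
  exact h2

private theorem ho_tpv (b : UNL.Par) {N : ℕ} [NeZero N] (k : UNL.G N) {v : ℂ}
    (h : UNL.Ofl b (N * v)) : UNL.Ofl b (N * (UNL.tp b k + v)) ∧ UNL.Ofl b (N * (UNL.tp b k - v)) := by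
  constructor
  · rw [add_comm]
    exact UNL.Gen.ofl_add_tp b h k
  · have h1 : UNL.Ofl b (N * (-v)) := by
      rw [mul_neg]
      exact (UNL.Gen.ofl_neg b _).2 h
    have e : UNL.tp b k - v = -v + UNL.tp b k := by ring
    rw [e]
    exact UNL.Gen.ofl_add_tp b h1 k

private theorem ho_indep (b : UNL.Par) {N : ℕ} [NeZero N] (m n p : UNL.G N → ℤ) (c : ℂ)
    (hc : c ≠ 0)
    (h : ∀ u v : ℂ, UNL.Gen.Gp b N u v → ho_pr b m u * ho_pr b n v * ho_pr b p (u - v) * c = 1) :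
    m = 0 ∧ n = 0 ∧ p = 0 ∧ c = 1 := by
  obtain ⟨v, hv, hv2⟩ := ho_base b N
  have hmv : UNL.Ofl b (N * (-v)) := by
    rw [mul_neg]
    exact (UNL.Gen.ofl_neg b _).2 hv
  have hm : m = 0 := by
    funext k₀
    refine ho_key b m k₀ (fun z => ho_pr b n v * ho_pr b p (z - v) * c) ?_ ?_ ?_
    · refine ContinuousAt.mul (ContinuousAt.mul continuousAt_const ?_) continuousAt_const
      have h1 : ContinuousAt (ho_pr b p) (UNL.tp b k₀ - v) := ho_pr_cont b p (ho_tpv b k₀ hv).2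
      exact ContinuousAt.comp (f := fun z : ℂ => z - v) h1 (by fun_prop)
    · exact mul_ne_zero (mul_ne_zero (ho_pr_ne b n hv) (ho_pr_ne b p (ho_tpv b k₀ hv).2)) hc
    · filter_upwards [ho_punct b k₀,
        ho_openN b (fun z => N * (z + v)) (by fun_prop) (ho_tpv b k₀ hv).1,
        ho_openN b (fun z => N * (z - v)) (by fun_prop) (ho_tpv b k₀ hv).2] with z h1 h2 h3
      have := h z v ⟨h1, hv, h2, h3⟩
      rw [← this]
      simp only [ho_pr]
      ring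
  have hn : n = 0 := by
    funext k₀
    refine ho_key b n k₀ (fun z => ho_pr b m v * ho_pr b p (v - z) * c) ?_ ?_ ?_
    · refine ContinuousAt.mul (ContinuousAt.mul continuousAt_const ?_) continuousAt_const
      have h0 : UNL.Ofl b (N * (v - UNL.tp b k₀)) := UNL.Gen.ofl_sub_tp b hv k₀
      have h1 : ContinuousAt (ho_pr b p) (v - UNL.tp b k₀) := ho_pr_cont b p h0
      exact ContinuousAt.comp (f := fun z : ℂ => v - z) h1 (by fun_prop)
    · exact mul_ne_zero (mul_ne_zero (ho_pr_ne b m hv)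
        (ho_pr_ne b p (UNL.Gen.ofl_sub_tp b hv k₀))) hc
    · filter_upwards [ho_punct b k₀,
        ho_openN b (fun z => N * (v + z)) (by fun_prop) (UNL.Gen.ofl_add_tp b hv k₀),
        ho_openN b (fun z => N * (v - z)) (by fun_prop) (UNL.Gen.ofl_sub_tp b hv k₀)]
        with z h1 h2 h3
      have := h v z ⟨hv, h1, h2, h3⟩
      rw [← this]
      simp only [ho_pr]
      ring
  have hp : p = 0 := by
    funext k₀
    have h4 : UNL.Ofl b (N * (UNL.tp b k₀ + v)) := (ho_tpv b k₀ hv).1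
    refine ho_key b p k₀ (fun z => ho_pr b m (z + v) * ho_pr b n v * c) ?_ ?_ ?_
    · refine ContinuousAt.mul (ContinuousAt.mul ?_ continuousAt_const) continuousAt_const
      have h1 : ContinuousAt (ho_pr b m) (UNL.tp b k₀ + v) := ho_pr_cont b m h4
      exact ContinuousAt.comp (f := fun z : ℂ => z + v) h1 (by fun_prop)
    · exact mul_ne_zero (mul_ne_zero (ho_pr_ne b m h4) (ho_pr_ne b n hv)) hc
    · filter_upwards [ho_punct b k₀,
        ho_openN b (fun z => N * (z + v)) (by fun_prop) h4,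
        ho_openN b (fun z => N * (z + 2 * v)) (by fun_prop) (ho_tpv b k₀ hv2).1] with z h1 h2 h3
      have e1 : z + v + v = z + 2 * v := by ring
      have e2 : z + v - v = z := by ring
      have := h (z + v) v ⟨h2, hv, by rw [e1]; exact h3, by rw [e2]; exact h1⟩
      rw [e2] at this
      rw [← this]
      simp only [ho_pr]
      ring
  refine ⟨hm, hn, hp, ?_⟩
  -- a generic point near `tp 0 = 0`
  have hev : ∀ᶠ z in 𝓝[≠] (UNL.tp b (0 : UNL.G N)), c = 1 := by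
    filter_upwards [ho_punct b (0 : UNL.G N),
        ho_openN b (fun z => N * (z + v)) (by fun_prop) (ho_tpv b (0 : UNL.G N) hv).1,
        ho_openN b (fun z => N * (z - v)) (by fun_prop) (ho_tpv b (0 : UNL.G N) hv).2] with z h1 h2 h3
    have := h z v ⟨h1, hv, h2, h3⟩
    rw [hm, hn, hp] at this
    simpa [ho_pr] using this
  exact hev.exists.choose_spec

/-- the letter on the line `φ` -/
private def ho_L (b : UNL.Par) {N : ℕ} [NeZero N] (φ : ℂ → ℂ → ℂ) (k : UNL.G N) :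
    Additive (UNL.Gn b N → ℂˣ) := UNL.cl b N (fun u v => UNL.kl b (UNL.tp b k) (φ u v))

private def ho_K (b : UNL.Par) (N : ℕ) (c : Additive ℂˣ) : Additive (UNL.Gn b N → ℂˣ) :=
  Additive.ofMul (fun _ => c.toMul)

private theorem ho_K_add (b : UNL.Par) (N : ℕ) (c d : Additive ℂˣ) :
    ho_K b N (c + d) = ho_K b N c + ho_K b N d := rfl

private def ho_j (b : UNL.Par) (N : ℕ) [NeZero N] :
    ((UNL.G N → ℤ) × (UNL.G N → ℤ) × (UNL.G N → ℤ) × Additive ℂˣ) →+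
      Additive (UNL.Gn b N → ℂˣ) :=
  AddMonoidHom.mk' (fun x => ∑ k, x.1 k • ho_L b (fun u _ => u) k +
    ∑ k, x.2.1 k • ho_L b (fun _ v => v) k + ∑ k, x.2.2.1 k • ho_L b (fun u v => u - v) k +
      ho_K b N x.2.2.2) (by
    intro x y
    simp only [Prod.fst_add, Prod.snd_add, Pi.add_apply, add_zsmul, Finset.sum_add_distrib,
      ho_K_add]
    abel)

private def ho_F {N : ℕ} [NeZero N] (φ₁ φ₂ φ₃ : UNL.G N → ℂ) (δ : Additive ℂˣ →+ ℂ) :
    ((UNL.G N → ℤ) × (UNL.G N → ℤ) × (UNL.G N → ℤ) × Additive ℂˣ) →+ ℂ :=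
  AddMonoidHom.mk' (fun x => ∑ k, x.1 k • φ₁ k + ∑ k, x.2.1 k • φ₂ k + ∑ k, x.2.2.1 k • φ₃ k +
      δ x.2.2.2) (by
    intro x y
    simp only [Prod.fst_add, Prod.snd_add, Pi.add_apply, add_zsmul, Finset.sum_add_distrib,
      map_add]
    abel)

private theorem ho_val (b : UNL.Par) {N : ℕ} [NeZero N] {φ : ℂ → ℂ → ℂ} (hφ : UNL.Ln b N φ)
    (m : UNL.G N → ℤ) (q : UNL.Gn b N) :
    ((Additive.toMul (∑ k, m k • ho_L b φ k) q : ℂˣ) : ℂ) = ho_pr b m (φ q.1.1 q.1.2) := by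
  have hN : 0 < N := Nat.pos_of_ne_zero (NeZero.ne N)
  rw [toMul_sum, Finset.prod_apply]
  simp only [toMul_zsmul, Pi.pow_apply, ho_pr]
  push_cast
  refine Finset.prod_congr rfl fun k _ => ?_
  have hnz : UNL.Nz b N (fun u v => UNL.kl b (UNL.tp b k) (φ u v)) :=
    fun q => UNL.kl_ne b (hφ q _ (UNL.tn_tp b hN k))
  rw [ho_L, UNL.cl_val b N hnz]
  simp

private theorem ho_inj (b : UNL.Par) (N : ℕ) [NeZero N] : Function.Injective (ho_j b N) := by
  rw [injective_iff_map_eq_zero]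
  rintro ⟨m, n, p, c⟩ hx
  have hN : 0 < N := Nat.pos_of_ne_zero (NeZero.ne N)
  have hc : ((Additive.toMul c : ℂˣ) : ℂ) ≠ 0 := Units.ne_zero _
  have h := ho_indep b m n p ((Additive.toMul c : ℂˣ) : ℂ) hc (by
    intro u v hg
    let q : UNL.Gn b N := ⟨(u, v), hg⟩
    have h1 : Additive.toMul (ho_j b N (m, n, p, c)) q = 1 := by
      rw [hx]
      rfl
    have h2 : Additive.toMul (ho_j b N (m, n, p, c)) q =
        Additive.toMul (∑ k, m k • ho_L b (fun u _ => u) k) q *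
        Additive.toMul (∑ k, n k • ho_L b (fun _ v => v) k) q *
        Additive.toMul (∑ k, p k • ho_L b (fun u v => u - v) k) q * Additive.toMul c := rfl
    rw [h2] at h1
    have h3 := congrArg (fun x : ℂˣ => (x : ℂ)) h1
    simp only [Units.val_mul, Units.val_one] at h3
    rw [ho_val b (UNL.ln_u b hN), ho_val b (UNL.ln_v b hN), ho_val b (UNL.ln_w b hN)] at h3
    exact h3)
  obtain ⟨h1, h2, h3, h4⟩ := h
  have h5 : c = 0 := by
    have : Additive.toMul c = 1 := Units.ext (by rw [h4]; rfl)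
    exact this
  rw [h1, h2, h3, h5]
  rfl

theorem ex_hom (b : UNL.Par) {N : ℕ} [NeZero N] (φ₁ φ₂ φ₃ : UNL.G N → ℂ)
    (δ : Additive ℂˣ →+ ℂ) : ∃ α : Additive (UNL.Gn b N → ℂˣ) →+ ℂ,
    (∀ k, UNL.Lx α (fun u _ => u) k = φ₁ k) ∧ (∀ k, UNL.Lx α (fun _ v => v) k = φ₂ k) ∧
    (∀ k, UNL.Lx α (fun u v => u - v) k = φ₃ k) ∧
    ∀ (c : ℂ) (hc : c ≠ 0), UNL.co α (fun _ _ => c) = δ (Additive.ofMul (Units.mk0 c hc)) := by
  classical
  obtain ⟨α, hα⟩ := (Module.Baer.of_divisible ℂ).extension_property_addMonoidHom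
    (ho_j b N) (ho_inj b N) (ho_F φ₁ φ₂ φ₃ δ)
  have key : ∀ x, α (ho_j b N x) = ho_F φ₁ φ₂ φ₃ δ x := fun x => DFunLike.congr_fun hα x
  have hK0 : ho_K b N 0 = 0 := rfl
  refine ⟨α, fun k => ?_, fun k => ?_, fun k => ?_, fun c hc => ?_⟩
  · have h := key (Pi.single k 1, 0, 0, 0)
    have e1 : ho_j b N (Pi.single k 1, 0, 0, 0) = ho_L b (fun u _ => u) k := by
      simp [ho_j, Pi.single_apply, hK0]
    have e2 : ho_F φ₁ φ₂ φ₃ δ (Pi.single k 1, 0, 0, 0) = φ₁ k := by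
      simp [ho_F, Pi.single_apply]
    rw [e1, e2] at h
    exact h
  · have h := key (0, Pi.single k 1, 0, 0)
    have e1 : ho_j b N (0, Pi.single k 1, 0, 0) = ho_L b (fun _ v => v) k := by
      simp [ho_j, Pi.single_apply, hK0]
    have e2 : ho_F φ₁ φ₂ φ₃ δ (0, Pi.single k 1, 0, 0) = φ₂ k := by
      simp [ho_F, Pi.single_apply]
    rw [e1, e2] at h
    exact h
  · have h := key (0, 0, Pi.single k 1, 0)
    have e1 : ho_j b N (0, 0, Pi.single k 1, 0) = ho_L b (fun u v => u - v) k := by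
      simp [ho_j, Pi.single_apply, hK0]
    have e2 : ho_F φ₁ φ₂ φ₃ δ (0, 0, Pi.single k 1, 0) = φ₃ k := by
      simp [ho_F, Pi.single_apply]
    rw [e1, e2] at h
    exact h
  · have h := key (0, 0, 0, Additive.ofMul (Units.mk0 c hc))
    have e1 : ho_j b N (0, 0, 0, Additive.ofMul (Units.mk0 c hc)) = UNL.cl b N (fun _ _ => c) := by
      rw [UNL.cl_val b N (UNL.nz_const b N hc)]
      simp only [ho_j, AddMonoidHom.mk'_apply, Pi.zero_apply, zero_smul, Finset.sum_const_zero,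
        zero_add]
      rfl
    have e2 : ho_F φ₁ φ₂ φ₃ δ (0, 0, 0, Additive.ofMul (Units.mk0 c hc)) =
        δ (Additive.ofMul (Units.mk0 c hc)) := by
      simp [ho_F]
    rw [e1, e2] at h
    exact h

end

end RN2
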