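import Pool.Agent.RN2.Fo
import Pool.Agent.RN2.Ho
import Pool.Agent.UNL.AMain

/-!
# RN2.Kr: closedness gives the multiplicative relations

`κ(d) = Σ_k (W k d - W k (k+d)) gd δ k`.
1. Let `α₁, α₂, α₃, α₄` be the homomorphisms of `ex_hom` with the data
  `(φ, 0, 0, 0)`, `(0, 0, ψ, 0)`, `(0, χ, 0, 0)`, `(0, 0, 0, δ)` where `φ = χ = [k = 0]`, `ψ = [k = c]`.
  `Φ(x₁, .., x₄) = det (α_i (x_j))` is alternating, so `bdry b W Φ = 0`.
2. As in `UNL.closed'` (`UNL/AMain`): `UNI.ext_ring Φ` gives `R, hat, lam`, `bdry b W Φ = lam (Σ_{s,t} dl ...)`, and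
  `form2` (`Γ = G N`, `L = Lt hat`, `W` is supported on `2 G`: see the proof of `RNK.closed_gen` in `RNK/Wc`) turns it
  into `32 n³ lam (Σ_{a,b,d} U(a) K(d) Wl(a-b+d) V(b))`, `U = nz (Lx hat (fun u _ => u))` etc.,
  `K(d) = Σ_k (W k d - W k (k+d)) gc hat k`. (Another way: `R = ExteriorAlgebra ℂ (Fin 4 → ℂ)`,
  `hat x = ι (fun i => α_i x)`, `lam` = `liftAlternating` of the determinant.)
3. `lam (hat x₁ hat x₂ hat x₃ hat x₄) = Φ(x₁, .., x₄)`; here the matrix is: `α₁` is non zero only on the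
  letters `u`, `α₂` only on `u - v`, `α₃` only on `v`, `α₄` only on the constants. So up to a sign
  `lam (U(a) K(d) Wl(e) V(b)) = ± φ̃(a) κ(d) ψ̃(e) χ̃(b)`, `φ̃ = φ - mean` etc.; `gc hat k = hat (const)`.
4. So `Σ_{a,b,d} φ̃(a) κ(d) ψ̃(a-b+d) χ̃(b) = 0`. `Σ_d κ(d) = 0` (`Σ_d W k d = 0`, `Σ_d W k (k+d) = 0`), so the sum
  vanishes if one of the three functions is replaced by a constant; hence it equals the sum for `φ, ψ, χ`, which
  is `κ(c)`.
-/

open RNK

namespace RN2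

noncomputable section

open UNI (sh)
open UNL (nz Lx av gc nz_mem gc_mem nz_sum)

/-- the ring -/
private abbrev krR : Type := ExteriorAlgebra ℂ (Fin 4 → ℂ)

private def krFam : (i : ℕ) → (Fin 4 → ℂ) [⋀^Fin i]→ₗ[ℂ] ℂ
  | 4 => Matrix.detRowAlternating
  | _ => 0

private def krL : krR →ₗ[ℂ] ℂ := ExteriorAlgebra.liftAlternating krFam

private theorem krL_apply (x y z w : Fin 4 → ℂ) :
    krL (ExteriorAlgebra.ι ℂ x * ExteriorAlgebra.ι ℂ y * ExteriorAlgebra.ι ℂ z *
      ExteriorAlgebra.ι ℂ w) = Matrix.detRowAlternating ![x, y, z, w] := by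
  have h := ExteriorAlgebra.liftAlternating_apply_ιMulti (R := ℂ) krFam ![x, y, z, w]
  have h2 : ExteriorAlgebra.ιMulti ℂ 4 ![x, y, z, w] =
      ExteriorAlgebra.ι ℂ x * ExteriorAlgebra.ι ℂ y * ExteriorAlgebra.ι ℂ z *
      ExteriorAlgebra.ι ℂ w := by
    simp [ExteriorAlgebra.ιMulti_apply, mul_assoc]
  rw [h2] at h
  exact h

/-- pull back along an additive map -/
private def krPull {H M : Type} [AddCommGroup H] [AddCommGroup M] [Module ℂ M]
    (f : M [⋀^Fin 4]→ₗ[ℂ] ℂ) (g : H →+ M) : H [⋀^Fin 4]→ₗ[ℤ] ℂ where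
  toFun v := f (g ∘ v)
  map_update_add' := by
    intro _ v j x y
    have e : ∀ z, g ∘ Function.update v j z = Function.update (g ∘ v) j (g z) := by
      intro z
      convert Function.comp_update g v j z
    rw [e, e, e, map_add, f.map_update_add]
  map_update_smul' := by
    intro _ v j c x
    have e : ∀ z, g ∘ Function.update v j z = Function.update (g ∘ v) j (g z) := by
      intro z
      convert Function.comp_update g v j z
    rw [e, e, map_zsmul, ← Int.cast_smul_eq_zsmul ℂ c (g x), f.map_update_smul,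
      Int.cast_smul_eq_zsmul]
  map_eq_zero_of_eq' := by
    intro v i j h hij
    exact f.map_eq_zero_of_eq _ (congrArg g h) hij

private theorem krPull_apply {H M : Type} [AddCommGroup H] [AddCommGroup M] [Module ℂ M]
    (f : M [⋀^Fin 4]→ₗ[ℂ] ℂ) (g : H →+ M) (v : Fin 4 → H) : krPull f g v = f (g ∘ v) := rfl

/-- the map to the ring -/
private def krHat {H : Type} [AddCommGroup H] (g : H →+ (Fin 4 → ℂ)) : H →+ krR :=
  (ExteriorAlgebra.ι ℂ (M := Fin 4 → ℂ)).toAddMonoidHom.comp g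

private theorem krHat_apply {H : Type} [AddCommGroup H] (g : H →+ (Fin 4 → ℂ)) (x : H) :
    krHat g x = ExteriorAlgebra.ι ℂ (g x) := rfl

private theorem krHat_sq {H : Type} [AddCommGroup H] (g : H →+ (Fin 4 → ℂ)) (x : H) :
    krHat g x * krHat g x = 0 := by
  rw [krHat_apply]
  exact ExteriorAlgebra.ι_sq_zero _

private theorem krL_hat {H : Type} [AddCommGroup H] (g : H →+ (Fin 4 → ℂ)) (x y z w : H) :
    krL (krHat g x * krHat g y * krHat g z * krHat g w) =
      krPull Matrix.detRowAlternating g ![x, y, z, w] := by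
  rw [krPull_apply]
  simp only [krHat_apply]
  rw [krL_apply]
  congr 1
  funext j
  fin_cases j <;> rfl

private theorem krL_diag (p q r s : ℂ) :
    krL (ExteriorAlgebra.ι ℂ (Pi.single 0 p) * ExteriorAlgebra.ι ℂ (Pi.single 1 q) *
      ExteriorAlgebra.ι ℂ (Pi.single 2 r) * ExteriorAlgebra.ι ℂ (Pi.single 3 s)) =
      p * q * r * s := by
  rw [krL_apply]
  have h : (![Pi.single 0 p, Pi.single 1 q, Pi.single 2 r, Pi.single 3 s] :
      Matrix (Fin 4) (Fin 4) ℂ) = Matrix.diagonal ![p, q, r, s] := by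
    ext i j
    fin_cases i <;> fin_cases j <;> simp [Matrix.diagonal]
  have h2 : Matrix.detRowAlternating (![Pi.single 0 p, Pi.single 1 q, Pi.single 2 r, Pi.single 3 s] :
      Matrix (Fin 4) (Fin 4) ℂ) = Matrix.det (![Pi.single 0 p, Pi.single 1 q, Pi.single 2 r, Pi.single 3 s] :
      Matrix (Fin 4) (Fin 4) ℂ) := rfl
  rw [h2, h, Matrix.det_diagonal, Fin.prod_univ_four]
  rfl


private def krT {Γ : Type*} [AddCommGroup Γ] [Fintype Γ] (κ f g h : Γ → ℂ) : ℂ :=
  ∑ a, ∑ b, ∑ d, f a * κ d * g (a - b + d) * h b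

private theorem krT_f {Γ : Type*} [AddCommGroup Γ] [Fintype Γ] {κ : Γ → ℂ} (hκ : ∑ d, κ d = 0)
    (f g h : Γ → ℂ) (x : ℂ) : krT κ (fun k => f k - x) g h = krT κ f g h := by
  have h1 : krT κ (fun k => f k - x) g h =
      krT κ f g h - ∑ b, ∑ d, x * κ d * h b * ∑ a, g (a - b + d) := by
    have e : ∑ b, ∑ d, x * κ d * h b * ∑ a, g (a - b + d) =
        ∑ a, ∑ b, ∑ d, x * κ d * g (a - b + d) * h b := by
      simp only [Finset.mul_sum]
      calc ∑ b, ∑ d, ∑ a, x * κ d * h b * g (a - b + d)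
          = ∑ b, ∑ a, ∑ d, x * κ d * h b * g (a - b + d) :=
            Finset.sum_congr rfl fun b _ => Finset.sum_comm
        _ = ∑ a, ∑ b, ∑ d, x * κ d * h b * g (a - b + d) := Finset.sum_comm
        _ = _ := by
          refine Finset.sum_congr rfl fun a _ => Finset.sum_congr rfl fun b _ =>
            Finset.sum_congr rfl fun d _ => ?_
          ring
    rw [e, krT, krT, ← Finset.sum_sub_distrib]
    refine Finset.sum_congr rfl fun a _ => ?_
    rw [← Finset.sum_sub_distrib]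
    refine Finset.sum_congr rfl fun b _ => ?_
    rw [← Finset.sum_sub_distrib]
    refine Finset.sum_congr rfl fun d _ => ?_
    ring
  have h2 : ∀ b d : Γ, ∑ a, g (a - b + d) = ∑ a, g a := by
    intro b d
    have := Equiv.sum_comp (Equiv.addRight (d - b)) g
    rw [← this]
    refine Finset.sum_congr rfl fun a _ => ?_
    congr 1
    simp only [Equiv.coe_addRight]
    abel
  rw [h1]
  have h3 : ∀ b : Γ, ∑ d, x * κ d * h b * ∑ a, g (a - b + d) = 0 := by
    intro b
    simp only [h2]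
    rw [show (∑ d, x * κ d * h b * ∑ a, g a) = (∑ d, κ d) * (x * h b * ∑ a, g a) by
      rw [Finset.sum_mul]
      exact Finset.sum_congr rfl fun d _ => by ring]
    rw [hκ, zero_mul]
  simp only [h3, Finset.sum_const_zero, sub_zero]

private theorem krT_g {Γ : Type*} [AddCommGroup Γ] [Fintype Γ] {κ : Γ → ℂ} (hκ : ∑ d, κ d = 0)
    (f g h : Γ → ℂ) (x : ℂ) : krT κ f (fun k => g k - x) h = krT κ f g h := by
  unfold krT
  refine Finset.sum_congr rfl fun a _ => Finset.sum_congr rfl fun b _ => ?_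
  have h1 : ∑ d, f a * κ d * (g (a - b + d) - x) * h b =
      ∑ d, f a * κ d * g (a - b + d) * h b - (∑ d, κ d) * (f a * x * h b) := by
    rw [Finset.sum_mul, ← Finset.sum_sub_distrib]
    exact Finset.sum_congr rfl fun d _ => by ring
  rw [h1, hκ, zero_mul, sub_zero]

private theorem krT_h {Γ : Type*} [AddCommGroup Γ] [Fintype Γ] {κ : Γ → ℂ} (hκ : ∑ d, κ d = 0)
    (f g h : Γ → ℂ) (x : ℂ) : krT κ f g (fun k => h k - x) = krT κ f g h := by
  unfold krT
  refine Finset.sum_congr rfl fun a _ => ?_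
  have h2 : ∀ d : Γ, ∑ b, g (a - b + d) = ∑ b, g b := by
    intro d
    have := Equiv.sum_comp (Equiv.subLeft (a + d)) g
    rw [← this]
    refine Finset.sum_congr rfl fun b _ => ?_
    congr 1
    simp only [Equiv.subLeft_apply]
    abel
  have h1 : ∑ b, ∑ d, f a * κ d * g (a - b + d) * (h b - x) =
      ∑ b, ∑ d, f a * κ d * g (a - b + d) * h b - ∑ d, f a * κ d * x * ∑ b, g (a - b + d) := by
    have e : ∑ d, f a * κ d * x * ∑ b, g (a - b + d) =
        ∑ b, ∑ d, f a * κ d * x * g (a - b + d) := by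
      simp only [Finset.mul_sum]
      exact Finset.sum_comm
    rw [e, ← Finset.sum_sub_distrib]
    refine Finset.sum_congr rfl fun b _ => ?_
    rw [← Finset.sum_sub_distrib]
    exact Finset.sum_congr rfl fun d _ => by ring
  rw [h1]
  simp only [h2]
  rw [show (∑ d, f a * κ d * x * ∑ b, g b) = (∑ d, κ d) * (f a * x * ∑ b, g b) by
    rw [Finset.sum_mul]
    exact Finset.sum_congr rfl fun d _ => by ring]
  rw [hκ, zero_mul, sub_zero]

private theorem krT_ind {Γ : Type*} [AddCommGroup Γ] [Fintype Γ] [DecidableEq Γ] (κ : Γ → ℂ)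
    (c : Γ) : krT κ (fun k => if k = 0 then 1 else 0) (fun k => if k = c then 1 else 0)
      (fun k => if k = 0 then 1 else 0) = κ c := by
  unfold krT
  rw [Finset.sum_eq_single 0, Finset.sum_eq_single 0, Finset.sum_eq_single c]
  · simp
  · intro d _ hd
    simp [hd]
  · intro h
    exact absurd (Finset.mem_univ _) h
  · intro b _ hb
    simp [hb]
  · intro h
    exact absurd (Finset.mem_univ _) h
  · intro a _ ha
    simp [ha]
  · intro h
    exact absurd (Finset.mem_univ _) h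

private def krI (j : Fin 4) : ℂ →ₗ[ℂ] krR :=
  (ExteriorAlgebra.ι ℂ (M := Fin 4 → ℂ)).comp (LinearMap.single ℂ (fun _ => ℂ) j)

private theorem krI_apply (j : Fin 4) (x : ℂ) :
    krI j x = ExteriorAlgebra.ι ℂ (Pi.single j x) := rfl

private theorem krI_nz {Γ : Type*} [AddCommGroup Γ] [Fintype Γ] (j : Fin 4) (f : Γ → ℂ) :
    ∃ x : ℂ, ∀ k, UNL.nz (fun k => krI j (f k)) k = krI j (f k - x) := by
  refine ⟨(((Fintype.card Γ : ℚ)⁻¹ : ℚ) : ℂ) * ∑ k, f k, fun k => ?_⟩
  rw [UNL.nz, UNL.av, ← map_sum, map_sub]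
  congr 1
  rw [← smul_eq_mul, map_smul]
  exact (Rat.cast_smul_eq_qsmul ℂ _ _).symm


private theorem krSupp {N : ℕ} [NeZero N] (hN : Even N) {W : UNL.G N → UNL.G N → ℤ}
    (hsupp : ∀ k l, W k l ≠ 0 → (N / 2) • k = 0) (k l : UNL.G N) (h : W k l ≠ 0) :
    ∃ m, k = m + m := by
  have hN0 : 0 < N := Nat.pos_of_ne_zero (NeZero.ne N)
  have h2 := hsupp k l h
  obtain ⟨M, hM⟩ := hN
  have key : ∀ x : ZMod N, ((N / 2 : ℕ) : ZMod N) * x = 0 → ∃ y : ZMod N, x = y + y := by
    intro x hx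
    have h3 : ((N / 2 * x.val : ℕ) : ZMod N) = 0 := by
      push_cast
      rw [ZMod.natCast_zmod_val]
      exact hx
    rw [ZMod.natCast_eq_zero_iff] at h3
    have h4 : N / 2 = M := by omega
    rw [h4] at h3
    have hM0 : 0 < M := by omega
    have h5 : M * 2 ∣ M * x.val := by
      have : M * 2 = N := by omega
      rw [this]
      exact h3
    obtain ⟨y, hy⟩ := (Nat.mul_dvd_mul_iff_left hM0).1 h5
    refine ⟨(y : ZMod N), ?_⟩
    have h6 : x = ((x.val : ℕ) : ZMod N) := (ZMod.natCast_zmod_val x).symm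
    rw [h6, hy]
    push_cast
    ring
  have e1 : ((N / 2 : ℕ) : ZMod N) * k.1 = 0 := by
    have := congrArg Prod.fst h2
    simpa using this
  have e2 : ((N / 2 : ℕ) : ZMod N) * k.2 = 0 := by
    have := congrArg Prod.snd h2
    simpa using this
  obtain ⟨y1, hy1⟩ := key _ e1
  obtain ⟨y2, hy2⟩ := key _ e2
  exact ⟨(y1, y2), Prod.ext hy1 hy2⟩

private theorem krSum {N : ℕ} [NeZero N] {W : UNL.G N → UNL.G N → ℤ}
    (hanti : ∀ k l, W l k = -W k l) (hrow : ∀ l, ∑ k, W k l = 0) (g : UNL.G N → ℂ) :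
    ∑ d : UNL.G N, ∑ k : UNL.G N, ((W k d : ℂ) - W k (k + d)) * g k = 0 := by
  rw [Finset.sum_comm]
  refine Finset.sum_eq_zero fun k _ => ?_
  rw [← Finset.sum_mul, Finset.sum_sub_distrib]
  have h1 : ∑ d, W k d = 0 := by
    have h := hrow k
    have h2 : ∑ d, W k d = -∑ d, W d k := by
      rw [← Finset.sum_neg_distrib]
      exact Finset.sum_congr rfl fun d _ => hanti d k
    rw [h2, h, neg_zero]
  have h1' : ∑ d, (W k d : ℂ) = 0 := by exact_mod_cast h1
  have h2 : ∑ d, (W k (k + d) : ℂ) = ∑ d, (W k d : ℂ) :=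
    Equiv.sum_comp (Equiv.addLeft k) (fun d => (W k d : ℂ))
  rw [h2, h1', sub_zero, zero_mul]

theorem K_of_closed {b : UNL.Par} {N : ℕ} [NeZero N] (hN : Even N) {W : UNL.G N → UNL.G N → ℤ}
    (hev : ∀ k l, W (-k) l = W k l) (hanti : ∀ k l, W l k = -W k l)
    (hrow : ∀ l, ∑ k, W k l = 0) (hsupp : ∀ k l, W k l ≠ 0 → (N / 2) • k = 0)
    (hcl : ∀ Φ : (Additive (UNL.Gn b N → ℂˣ)) [⋀^Fin 4]→ₗ[ℤ] ℂ, UNL.bdry b W Φ = 0)
    (δ : Additive ℂˣ →+ ℂ) (c : UNL.G N) :
    ∑ k : UNL.G N, ((W k c : ℂ) - W k (k + c)) * gd b δ k = 0 := by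
  classical
  have hN0 : 0 < N := Nat.pos_of_ne_zero (NeZero.ne N)
  obtain ⟨α0, a01, a02, a03, a04⟩ := ex_hom b (N := N) (fun k => if k = 0 then 1 else 0) 0 0 0
  obtain ⟨α1, a11, a12, a13, a14⟩ := ex_hom b (N := N) 0 0 0 δ
  obtain ⟨α2, a21, a22, a23, a24⟩ := ex_hom b (N := N) 0 0 (fun k => if k = c then 1 else 0) 0
  obtain ⟨α3, a31, a32, a33, a34⟩ := ex_hom b (N := N) 0 (fun k => if k = 0 then 1 else 0) 0 0
  set g : Additive (UNL.Gn b N → ℂˣ) →+ (Fin 4 → ℂ) := AddMonoidHom.pi ![α0, α1, α2, α3] with hg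
  have hgv : ∀ x, g x = ![α0 x, α1 x, α2 x, α3 x] := by
    intro x
    funext i
    rw [hg, AddMonoidHom.pi_apply]
    fin_cases i <;> rfl
  set hat := krHat g with hhat
  have hco : ∀ f, UNL.co hat f = ExteriorAlgebra.ι ℂ ![UNL.co α0 f, UNL.co α1 f, UNL.co α2 f,
      UNL.co α3 f] := by
    intro f
    rw [UNL.co, hhat, krHat_apply, hgv]
    rfl
  have hLx : ∀ (f : ℂ → ℂ → ℂ) (k : UNL.G N), Lx hat f k = ExteriorAlgebra.ι ℂ
      ![Lx α0 f k, Lx α1 f k, Lx α2 f k, Lx α3 f k] := fun f k => hco _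
  have hU : Lx hat (fun u _ => u) = fun k => krI 0 (if k = 0 then 1 else 0) := by
    funext k
    rw [hLx, a01, a11, a21, a31, krI_apply]
    congr 1
    funext i
    fin_cases i <;> simp
  have hV : Lx hat (fun _ v => v) = fun k => krI 3 (if k = 0 then 1 else 0) := by
    funext k
    rw [hLx, a02, a12, a22, a32, krI_apply]
    congr 1
    funext i
    fin_cases i <;> simp
  have hW' : Lx hat (fun u v => u - v) = fun k => krI 2 (if k = c then 1 else 0) := by
    funext k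
    rw [hLx, a03, a13, a23, a33, krI_apply]
    congr 1
    funext i
    fin_cases i <;> simp
  have hK : ∀ k, gc hat k = krI 1 (gd b δ k) := by
    intro k
    rw [gc, gd]
    by_cases hk : k = 0
    · rw [if_pos hk, dif_neg (fun h => h.1 hk), map_zero]
    · have hne : UNL.kl b (UNL.tp b k) 0 ≠ 0 := by
        apply UNL.kl_ne
        rw [zero_sub]
        exact UNL.ofl_neg' (UNL.ofl_tp b hN0 hk)
      rw [if_neg hk, dif_pos ⟨hk, hne⟩, hco, a04 _ hne, a14 _ hne, a24 _ hne, a34 _ hne, krI_apply]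
      congr 1
      funext i
      fin_cases i <;> simp
  have hsq : ∀ x, hat x * hat x = 0 := krHat_sq g
  -- the boundary
  have h0 := hcl (krPull Matrix.detRowAlternating g)
  have h1 : ∀ s t : UNL.G N, UNL.xi b (W : UNL.G N → UNL.G N → ℤ) (fun F g' h =>
      krPull Matrix.detRowAlternating g ![UNL.cl b N (UNL.tr b s t (fun u v => 1 - F u v)),
        UNL.cl b N (UNL.tr b s t F),
        UNL.cl b N (UNL.tr b s t g'), UNL.cl b N (UNL.tr b s t h)]) =
      krL.toAddMonoidHom (UNI.dl W (sh (nz (Lx hat (fun u _ => u))) s)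
      (sh (nz (Lx hat (fun _ v => v))) t)
      (sh (nz (Lx hat (fun u v => u - v))) (s - t)) (sh (nz (Lx hat (fun u v => u + v))) (s + t))
      (gc hat) (av (Lx hat (fun u v => u + v)) + av (Lx hat (fun u v => u - v)) -
        2 * av (Lx hat (fun u _ => u)) - 2 * av (Lx hat (fun _ v => v)))) := by
    intro s t
    rw [← UNL.xi_dl hat hsq, ← UNL.xi_map]
    simp only [UNL.co]
    simp only [← krL_hat]
    rfl
  unfold UNL.bdry at h0
  simp_rw [h1] at h0
  simp only [← map_sum] at h0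
  rw [form2 (UNL.Lt hat).toAddSubgroup (fun x hx => UNL.Lt_sq hat hsq hx)
      _ _ _ _ _ (fun k => nz_mem hat _ k) (fun k => nz_mem hat _ k) (fun k => nz_mem hat _ k)
      (fun k => gc_mem hat k) _ (nz_sum _) (nz_sum _) (nz_sum _) (UNL.gc_neg hat hN0) W
      hev hanti hrow (krSupp hN hsupp)] at h0
  obtain ⟨x, hx⟩ := krI_nz (Γ := UNL.G N) 0 (fun k => if k = 0 then 1 else 0)
  obtain ⟨y, hy⟩ := krI_nz (Γ := UNL.G N) 3 (fun k => if k = 0 then 1 else 0)
  obtain ⟨z, hz⟩ := krI_nz (Γ := UNL.G N) 2 (fun k => if k = c then 1 else 0)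
  have h2 : ∀ d, ∑ k, (W k d - W k (k + d)) • gc hat k =
      krI 1 (∑ k : UNL.G N, ((W k d : ℂ) - W k (k + d)) * gd b δ k) := by
    intro d
    rw [map_sum]
    refine Finset.sum_congr rfl fun k _ => ?_
    rw [hK, ← smul_eq_mul, map_smul, ← Int.cast_sub, Int.cast_smul_eq_zsmul]
  set κ : UNL.G N → ℂ := fun d => ∑ k : UNL.G N, ((W k d : ℂ) - W k (k + d)) * gd b δ k with hκ
  have h3 : ∀ p q d : UNL.G N, nz (Lx hat (fun u _ => u)) p *
      (∑ k, (W k d - W k (k + d)) • gc hat k) * nz (Lx hat (fun u v => u - v)) (p - q + d) *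
      nz (Lx hat (fun _ v => v)) q =
      krI 0 ((if p = 0 then 1 else 0) - x) * krI 1 (κ d) *
        krI 2 ((if p - q + d = c then 1 else 0) - z) * krI 3 ((if q = 0 then 1 else 0) - y) := by
    intro p q d
    rw [hU, hV, hW', hx, hy, hz, h2]
  simp only [h3] at h0
  have h4 : krL.toAddMonoidHom ((32 * (Fintype.card (UNL.G N) : ℤ) ^ 3) •
      ∑ p : UNL.G N, ∑ q : UNL.G N, ∑ d : UNL.G N,
        krI 0 ((if p = 0 then 1 else 0) - x) * krI 1 (κ d) *
        krI 2 ((if p - q + d = c then 1 else 0) - z) * krI 3 ((if q = 0 then 1 else 0) - y)) =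
      (32 * (Fintype.card (UNL.G N) : ℤ) ^ 3) • krT κ (fun k => (if k = 0 then 1 else 0) - x)
        (fun k => (if k = c then 1 else 0) - z) (fun k => (if k = 0 then 1 else 0) - y) := by
    rw [map_zsmul]
    congr 1
    rw [map_sum]
    unfold krT
    refine Finset.sum_congr rfl fun p _ => ?_
    rw [map_sum]
    refine Finset.sum_congr rfl fun q _ => ?_
    rw [map_sum]
    refine Finset.sum_congr rfl fun d _ => ?_
    exact krL_diag _ _ _ _
  have hκ0 : ∑ d, κ d = 0 := krSum hanti hrow (gd b δ)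
  rw [h4, krT_f hκ0 (fun k => if k = 0 then 1 else 0), krT_g hκ0 _ (fun k => if k = c then 1 else 0),
    krT_h hκ0 _ _ (fun k => if k = 0 then 1 else 0), krT_ind] at h0
  have h5 : (32 * (Fintype.card (UNL.G N) : ℤ) ^ 3) ≠ 0 := by
    have : (Fintype.card (UNL.G N) : ℤ) ≠ 0 := Nat.cast_ne_zero.2 Fintype.card_ne_zero
    positivity
  exact (smul_eq_zero.1 h0).resolve_left h5

end

end RN2
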