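import Pool.Agent.RN2.Bs
import Pool.Agent.UNL.PartB
import Pool.Agent.UQO.Lap
import Pool.Agent.UQO.LInt
import Pool.Agent.UQO.Green
import Pool.Agent.UQO.ZHat

/-!
# RN2.Lk: the Fourier coefficients of `log |Klein function|`

`fk b z = log |exp (- et(z) z / 2) σ(-z)|`, `et(z) = (η₁ - κ) z + κ z̄` (both sides are `ℝ`-linear, equal at `1` and at
`τ`: the second by the periodicity of `Z`, see `UQO`, `EllSch`). Instance `letI := UNL.PartB_lt b` (`UNL/PartB`: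
`kap b = cc`, `UNL.ch = UQO.ch` etc.).
1. Off the lattice `fk` has the derivative `wl (Z/2) (conj Z / 2)`: `∂ log |σ| = ζ / 2` (`QCL.sig_deriv`), `∂ Re ((η₁-κ) z²) =
  (η₁ - κ) z`, `∂ |z|² = z̄`, `Z = ζ - (η₁-κ) z - κ z̄`.
2. Near every point `|fk| ≤ C |z - s|^{-3/2}` (`UQO.Lap_an` for `σ`); integrable by `UQO.int_of_local`
  (`UQO/LInt`); measurable.
3. `UQO.green_ch` with `S` the lattice, `F = fk`, `A = Z/2`, `B = conj Z / 2` (`Z_int`): `fc (Z/2) n = κ mm(n) fc fk n`,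
  and `fc Z n = - 1 / conj (mm n)` (`UQO.fc_Z`).
-/

open RNK MeasureTheory Filter Topology

namespace RN2

noncomputable section

section UQ

open UQO

variable [Lt]

/-- the function `log |σ(z)| - Re (et(z) z) / 2` in the notation of `UQO` -/
def Lk_F (z : ℂ) : ℝ := Real.log ‖QCL.sig 1 om z‖ -
  ((((Pool.Agent.EllSch.eta1 1 om - cc) * z + cc * cj z) * z) / 2).re

theorem Lk_cj (z : ℂ) : ((z.re : ℝ) : ℂ) = (z + cj z) / 2 := by
  have h : z + cj z = ((2 * z.re : ℝ) : ℂ) := Complex.add_conj z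
  rw [h]
  push_cast
  ring

theorem Lk_deriv {z : ℂ} (hz : Ofl z) :
    HasFDerivAt (fun w => ((Lk_F w : ℝ) : ℂ)) (wl (Z z / 2) (cj (Z z) / 2)) z := by
  have hs : QCL.sig 1 om z ≠ 0 := QCL.sig_ne ind hz
  set ζ : ℂ := Pool.Agent.EllSch.wz 1 om z with hζ
  set p : ℂ := Pool.Agent.EllSch.eta1 1 om - cc with hp
  set s0 : ℂ := QCL.sig 1 om z with hs0
  -- the holomorphic part
  have h1 : HasDerivAt (fun w => QCL.sig 1 om w / s0) (ζ * s0 / s0) z :=
    (QCL.sig_deriv ind hz).div_const s0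
  have h2 : HasDerivAt (fun w => Complex.log (QCL.sig 1 om w / s0)) ζ z := by
    have h3 := h1.clog (by
      show QCL.sig 1 om z / s0 ∈ Complex.slitPlane
      rw [← hs0, div_self hs]
      exact Complex.one_mem_slitPlane)
    refine h3.congr_deriv ?_
    rw [← hs0, div_self hs, div_one, mul_div_assoc, div_self hs, mul_one]
  have h4 : HasDerivAt (fun w : ℂ => p * w ^ 2 / 2) (p * z) z := by
    have h5 := ((hasDerivAt_pow 2 z).const_mul p).div_const 2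
    refine h5.congr_deriv ?_
    push_cast
    ring
  set H : ℂ → ℂ := fun w => Complex.log (QCL.sig 1 om w / s0) - p * w ^ 2 / 2 with hH
  have h6 : HasDerivAt H (ζ - p * z) z := h2.sub h4
  have h7 : HasFDerivAt H ((ζ - p * z) • (ContinuousLinearMap.id ℝ ℂ) : ℂ →L[ℝ] ℂ) z := by
    refine h6.complexToReal_fderiv.congr_fderiv ?_
    ext
    · simp
  have h8 : HasFDerivAt (fun w => cj (H w))
      ((Complex.conjCLE : ℂ →L[ℝ] ℂ).comp ((ζ - p * z) • (ContinuousLinearMap.id ℝ ℂ))) z :=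
    (Complex.conjCLE.hasFDerivAt (x := H z)).comp z h7
  have h9 : HasFDerivAt (fun w : ℂ => cj w) (Complex.conjCLE : ℂ →L[ℝ] ℂ) z :=
    Complex.conjCLE.hasFDerivAt
  have h10 : HasFDerivAt (fun w : ℂ => w * cj w)
      (z • (Complex.conjCLE : ℂ →L[ℝ] ℂ) + cj z • (ContinuousLinearMap.id ℝ ℂ)) z :=
    (hasFDerivAt_id (𝕜 := ℝ) z).mul h9
  set c0 : ℂ := ((Real.log ‖s0‖ : ℝ) : ℂ) with hc0
  have h11 : HasFDerivAt (fun w : ℂ => (1 / 2 : ℂ) * (H w + cj (H w)) - (cc / 2 : ℂ) * (w * cj w) + c0)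
      ((1 / 2 : ℂ) • ((ζ - p * z) • (ContinuousLinearMap.id ℝ ℂ) +
        (Complex.conjCLE : ℂ →L[ℝ] ℂ).comp ((ζ - p * z) • (ContinuousLinearMap.id ℝ ℂ))) -
        (cc / 2 : ℂ) • (z • (Complex.conjCLE : ℂ →L[ℝ] ℂ) +
          cj z • (ContinuousLinearMap.id ℝ ℂ))) z :=
    (((h7.add h8).const_mul (1 / 2 : ℂ)).sub (h10.const_mul (cc / 2 : ℂ))).add_const c0
  have h12 : (fun w => ((Lk_F w : ℝ) : ℂ)) =ᶠ[𝓝 z]
      fun w : ℂ => (1 / 2 : ℂ) * (H w + cj (H w)) - (cc / 2 : ℂ) * (w * cj w) + c0 := by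
    filter_upwards [ZBas_open.mem_nhds hz] with w hw
    have hw0 : QCL.sig 1 om w ≠ 0 := QCL.sig_ne ind hw
    have e1 : Real.log ‖QCL.sig 1 om w‖ =
        (Complex.log (QCL.sig 1 om w / s0)).re + Real.log ‖s0‖ := by
      rw [Complex.log_re, norm_div, Real.log_div (norm_ne_zero_iff.2 hw0) (norm_ne_zero_iff.2 hs)]
      ring
    have e2 : ((p * w + cc * cj w) * w / 2) = p * w ^ 2 / 2 + ((cc : ℝ) : ℂ) / 2 * (w * cj w) := by
      ring
    have e3 : (((cc : ℝ) : ℂ) / 2 * (w * cj w)) = (((cc / 2 * Complex.normSq w : ℝ)) : ℂ) := by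
      have : w * cj w = ((Complex.normSq w : ℝ) : ℂ) := Complex.mul_conj w
      rw [this]
      push_cast
      ring
    have e4 : Lk_F w = (H w).re - cc / 2 * Complex.normSq w + Real.log ‖s0‖ := by
      unfold Lk_F
      rw [← hp, e1, e2, e3, Complex.add_re, Complex.ofReal_re]
      simp only [hH, Complex.sub_re]
      ring
    show ((Lk_F w : ℝ) : ℂ) = _
    rw [e4, e3, hc0, Complex.ofReal_add, Complex.ofReal_sub, Lk_cj]
    ring
  refine (h11.congr_of_eventuallyEq h12).congr_fderiv ?_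
  have hZ : Z z = ζ - p * z - cc * cj z := ZBas_pos hz
  ext1 h
  simp only [wl, _root_.add_apply, _root_.sub_apply, _root_.smul_apply,
    ContinuousLinearMap.id_apply, smul_eq_mul, ContinuousLinearEquiv.coe_coe,
    Complex.conjCLE_apply, ContinuousLinearMap.comp_apply]
  rw [hZ]
  simp only [cj, map_sub, map_mul, Complex.conj_ofReal, Complex.conj_conj]
  ring

theorem Lk_loc (s : ℂ) : ∃ C r : ℝ, 0 < r ∧ ∀ u : ℂ, u ≠ s → ‖u - s‖ < r →
    Ofl u ∧ ‖((Lk_F u : ℝ) : ℂ)‖ ≤ C * ‖u - s‖ ^ (-(3 / 2) : ℝ) := by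
  have h1 : AnalyticAt ℂ (QCL.sig 1 om) s := (QCL.sig_diff ind).analyticAt s
  have h0 : ∀ᶠ u in 𝓝[≠] s, Ofl u := Pool.Agent.EllSch.Basic.eventually_off ind s
  have h2 : ∀ᶠ u in 𝓝[≠] s, QCL.sig 1 om u ≠ 0 := by
    filter_upwards [h0] with u hu
    exact QCL.sig_ne ind hu
  obtain ⟨C, hC, h3⟩ := Lap_an h1 h2
  set g : ℂ → ℝ := fun z : ℂ =>
    ((((Pool.Agent.EllSch.eta1 1 om - cc) * z + cc * cj z) * z) / 2).re with hg
  have h4 : Continuous g := by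
    have : Continuous (fun u : ℂ => cj u) := Complex.continuous_conj
    fun_prop
  have h5 : ∀ᶠ u in 𝓝 s, |g u| < |g s| + 1 :=
    h4.abs.continuousAt.eventually (gt_mem_nhds (by linarith))
  have h6 := ((h3.and (h5.filter_mono nhdsWithin_le_nhds)).and
    ((Lap_ball s one_pos).and h0))
  rw [eventually_nhdsWithin_iff, Metric.eventually_nhds_iff] at h6
  obtain ⟨r, hr, h7⟩ := h6
  refine ⟨C + (|g s| + 1), r, hr, fun u hu hur => ?_⟩
  obtain ⟨⟨⟨-, k1⟩, k2⟩, ⟨k3, k4⟩, k5⟩ := h7 (y := u) (by rwa [dist_eq_norm]) hu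
  refine ⟨k5, ?_⟩
  obtain ⟨y1, y2, y3⟩ := Lap_exp k4 k3
  rw [Complex.norm_real, Real.norm_eq_abs]
  have e1 : |Lk_F u| ≤ |Real.log ‖QCL.sig 1 om u‖| + |g u| := abs_sub _ _
  have hw : ‖u - s‖ ^ (-(1 / 2) : ℝ) ≤ ‖u - s‖ ^ (-(3 / 2) : ℝ) :=
    Real.rpow_le_rpow_of_exponent_ge k4 k3 (by norm_num)
  have hg0 := abs_nonneg (g s)
  calc |Lk_F u| ≤ |Real.log ‖QCL.sig 1 om u‖| + |g u| := e1
    _ ≤ C * ‖u - s‖ ^ (-(1 / 2) : ℝ) + (|g s| + 1) * ‖u - s‖ ^ (-(1 / 2) : ℝ) := by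
        refine add_le_add k1 ?_
        nlinarith
    _ = (C + (|g s| + 1)) * ‖u - s‖ ^ (-(1 / 2) : ℝ) := by ring
    _ ≤ _ := by
        refine mul_le_mul_of_nonneg_left hw (by positivity)

section F

variable {F : ℂ → ℝ} (hF : ∀ u, Ofl u → F u = Lk_F u) (h0 : ∀ u, ¬ Ofl u → F u = 0)
  (hper : Per F)

include hF

theorem Lk_derivF {z : ℂ} (hz : Ofl z) :
    HasFDerivAt (fun w => ((F w : ℝ) : ℂ)) (wl (Z z / 2) (cj (Z z) / 2)) z := by
  refine (Lk_deriv hz).congr_of_eventuallyEq ?_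
  filter_upwards [ZBas_open.mem_nhds hz] with w hw
  rw [hF w hw]

include h0

theorem Lk_meas : Measurable (fun z => ((F z : ℝ) : ℂ)) :=
  ZBas_meas (fun _ hu => (Lk_derivF hF hu).continuousAt) 0 fun u hu => by
    rw [h0 u hu, Complex.ofReal_zero]

include hper

theorem Lk_int : Integrable (fun x : E => ((F (cu x) : ℝ) : ℂ)) := by
  refine int_of_local (G := fun z => ((F z : ℝ) : ℂ)) ?_ (Lk_meas hF h0) fun s => ?_
  · intro u n
    show ((F (u + xx n) : ℝ) : ℂ) = ((F u : ℝ) : ℂ)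
    rw [hper u n]
  · obtain ⟨C, r, hr, h⟩ := Lk_loc s
    refine ⟨C, r, hr, fun u hu hur => ?_⟩
    obtain ⟨k1, k2⟩ := h u hu hur
    rw [hF u k1]
    exact k2

theorem Lk_fc {n : ℤ × ℤ} (hn : n ≠ 0) :
    fc (fun z => ((F z : ℝ) : ℂ)) n = -(1 / (2 * cc * ((‖mm n‖ ^ 2 : ℝ) : ℂ))) := by
  have hS : {u : ℂ | ¬ Ofl u}.Countable := by
    refine (Set.countable_range xx).mono ?_
    intro u hu
    obtain ⟨m, hm⟩ := (not_ofl_iff u).1 hu
    exact ⟨m, hm.symm⟩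
  have hcZ : Integrable (fun x : E => cj (Z (cu x)) / 2) := by
    have h0 : Integrable (fun x : E => cj (Z (cu x))) := by
      refine Z_int.norm.mono' ?_ (Eventually.of_forall fun x => (norm_cj _).le)
      exact (Complex.continuous_conj.comp_aestronglyMeasurable Z_int.aestronglyMeasurable)
    exact h0.div_const 2
  have p1 : Per (fun z => ((F z : ℝ) : ℂ)) := by
    intro u m
    show ((F (u + xx m) : ℝ) : ℂ) = ((F u : ℝ) : ℂ)
    rw [hper u m]
  have p2 : Per (fun z => Z z / 2) := by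
    intro u m
    show Z (u + xx m) / 2 = Z u / 2
    rw [Z_per u m]
  have p3 : Per (fun z => cj (Z z) / 2) := by
    intro u m
    show cj (Z (u + xx m)) / 2 = cj (Z u) / 2
    rw [Z_per u m]
  have h1 := (green_ch (F := fun z => ((F z : ℝ) : ℂ)) (A := fun z => Z z / 2)
    (B := fun z => cj (Z z) / 2) (S := {u : ℂ | ¬ Ofl u})
    p1 p2 p3 hS (fun u hu => Lk_derivF hF (not_not.1 hu))
    (Lk_int hF h0 hper) (Z_int.div_const 2) hcZ n).1
  have h2 : fc (fun z => Z z / 2) n = fc Z n / 2 := by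
    unfold fc
    rw [← integral_div]
    congr 1
    funext x
    ring
  rw [h2, fc_Z] at h1
  have hm : mm n ≠ 0 := fun h => hn (mm_eq_zero.1 h)
  have hm2 : cj (mm n) ≠ 0 := fun h => hm (cj_eq_zero.1 h)
  have hc := cc_ne
  have h3 : ((‖mm n‖ ^ 2 : ℝ) : ℂ) = mm n * cj (mm n) := by
    rw [← Complex.normSq_eq_norm_sq]
    exact (Complex.mul_conj _).symm
  rw [h3]
  have h4 : (cc * mm n) * fc (fun z => ((F z : ℝ) : ℂ)) n =
      (cc * mm n) * -(1 / (2 * cc * (mm n * cj (mm n)))) := by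
    rw [← h1]
    field_simp
  exact mul_left_cancel₀ (mul_ne_zero hc hm) h4

end F

end UQ

variable (b : UNL.Par)

theorem Lk_et (z : ℂ) : UNL.et b z =
    (Pool.Agent.EllSch.eta1 1 (UNL.tau b) - UNL.kap b) * z + UNL.kap b * UNL.cj z := by
  have hL := @UQO.ZBas_leg (UNL.PartB_lt b)
  have hL' : Pool.Agent.EllSch.eta2 1 (UNL.tau b) = UNL.tau b * Pool.Agent.EllSch.eta1 1 (UNL.tau b)
      - 2 * Real.pi * Complex.I := by
    linear_combination hL
  have h := (UNL.sD_pos b).ne'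
  have hA := (UNL.A_pos b).ne'
  have e1 : (((z.re - b.B * z.im / UNL.sD b : ℝ) : ℂ)) +
      (((2 * b.A * z.im / UNL.sD b : ℝ) : ℂ)) * UNL.tau b = z := by
    apply Complex.ext
    · rw [Complex.add_re, Complex.re_ofReal_mul, Complex.ofReal_re, UNL.tau_re]
      field_simp
      ring
    · rw [Complex.add_im, Complex.im_ofReal_mul, Complex.ofReal_im, UNL.tau_im]
      field_simp
      ring
  have e2 : z - UNL.cj z = 2 * ((z.im : ℝ) : ℂ) * Complex.I := by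
    have := Complex.sub_conj z
    rw [this]
    push_cast
    ring
  have e3 : (((2 * b.A * z.im / UNL.sD b : ℝ) : ℂ)) * (2 * Real.pi * Complex.I) =
      UNL.kap b * (z - UNL.cj z) := by
    rw [e2, UNL.kap]
    have h' : ((UNL.sD b : ℝ) : ℂ) ≠ 0 := by exact_mod_cast h
    push_cast
    field_simp
  unfold UNL.et
  rw [hL']
  linear_combination Pool.Agent.EllSch.eta1 1 (UNL.tau b) * e1 - e3

theorem Lk_eq (z : ℂ) (hz : UNL.Ofl b z) : fk b z = @Lk_F (UNL.PartB_lt b) z := by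
  have hs : UNL.sg b (0 - z) ≠ 0 := by
    rw [zero_sub]
    show QCL.sig 1 (UNL.tau b) (-z) ≠ 0
    rw [QCL.sig_neg]
    exact neg_ne_zero.2 (QCL.sig_ne (UNL.indL b) hz)
  have h1 : ‖UNL.sg b (0 - z)‖ = ‖QCL.sig 1 (UNL.tau b) z‖ := by
    rw [zero_sub]
    show ‖QCL.sig 1 (UNL.tau b) (-z)‖ = _
    rw [QCL.sig_neg, norm_neg]
  have h2 : @Lk_F (UNL.PartB_lt b) z = Real.log ‖QCL.sig 1 (UNL.tau b) z‖ -
      ((((Pool.Agent.EllSch.eta1 1 (UNL.tau b) - UNL.kap b) * z + UNL.kap b * UNL.cj z) * z) / 2).re := by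
    rw [UNL.PartB_kap]
    rfl
  rw [h2, ← Lk_et]
  unfold fk UNL.kl
  rw [norm_mul, Real.log_mul (norm_ne_zero_iff.2 (Complex.exp_ne_zero _)) (norm_ne_zero_iff.2 hs),
    Complex.norm_exp, Real.log_exp, h1, mul_zero, zero_sub, Complex.neg_re]
  ring

theorem Lk_off (z : ℂ) (hz : ¬ UNL.Ofl b z) : fk b z = 0 := by
  obtain ⟨m, hm⟩ := (@UQO.not_ofl_iff (UNL.PartB_lt b) z).1 hz
  have h : fk b (0 + UNL.xx b m) = fk b 0 := fk_per b 0 m
  have hz' : z = 0 + UNL.xx b m := by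
    rw [hm, zero_add]
    rfl
  have h3 := QCL.sig_neg 1 (UNL.tau b) 0
  rw [neg_zero] at h3
  have h4 : QCL.sig 1 (UNL.tau b) 0 = 0 := by linear_combination h3 / 2
  rw [hz', h]
  unfold fk UNL.kl UNL.sg
  rw [sub_zero, h4, mul_zero, norm_zero, Real.log_zero]

theorem fk_cont {z : ℂ} (hz : UNL.Ofl b z) : ContinuousAt (fun z => ((fk b z : ℝ) : ℂ)) z :=
  (@Lk_derivF (UNL.PartB_lt b) (fk b) (Lk_eq b) z hz).continuousAt

theorem fk_int : Integrable (fun x : UNL.E => ((fk b (UNL.cu b x) : ℝ) : ℂ)) :=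
  @Lk_int (UNL.PartB_lt b) (fk b) (Lk_eq b) (Lk_off b) (fk_per b)

theorem fk_fc {n : ℤ × ℤ} (hn : n ≠ 0) : UNL.fc b (fun z => ((fk b z : ℝ) : ℂ)) n =
    -(1 / (2 * UNL.kap b * ((‖UNL.mm b n‖ ^ 2 : ℝ) : ℂ))) := by
  have h := @Lk_fc (UNL.PartB_lt b) (fk b) (Lk_eq b) (Lk_off b) (fk_per b) n hn
  rw [UNL.PartB_kap]
  unfold UNL.fc
  simp only [UNL.PartB_ch]
  exact h

end

end RN2
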