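import Pool.Agent.RN2.Gd
import Pool.Agent.RN2.Th

/-!
# RN2.Rk: the Dirichlet series of `|Σ_{c ∣ z} χ(c)|²`

`c0 = c0 N`, `|χ(x)|² = c0(x)` (values at elements prime to `N` are roots of unity: `x^n ≡ 1 mod N`),
`C(s) = Σ_{c', d' ≠ 0 coprime} χ(c') χ̄(d') nn(c' d')^{-s}`, `Re s > 1`. All series are absolutely convergent: they are
sub sums of products of the series `Σ nn(x)^{-s}` (`Ds_summable`).
1. `Ds χ s Ds χ̄ s = Σ_{(c,d)} χ(c) χ̄(d) nn(c)^{-s} nn(d)^{-s} = (1/w) Σ_{(g,c',d')} c0(g) nn(g)^{-2s} χ(c') χ̄(d') nn(c' d')^{-s}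
  = (1/w) Ds c0 (2s) C(s)` (`gcd_sum`).
2. `Σ_{(g,c',d',e)} c0(g) c0(e) χ(c') χ̄(d') nn(g c' d' e)^{-s} = Ds c0 s ^ 2 C(s)` (absolutely convergent), and with
  `h(z,c,d) = c0(z) χ(c) χ̄(d) nn(z)^{-s}` (`c0`, `χ` are multiplicative, `c0(c') χ(c') = χ(c')`) `lcm_sum` gives
  `Ds c0 s ^ 2 C(s) = w Σ_{(z,c,d)} c0(z) χ(c) χ̄(d) nn(z)^{-s} = w Σ_z c0(z) |r(z)|² nn(z)^{-s}`,
  `r(z) = Σ_{c ∣ z} χ(c)` (finite sum, `nn(c) ≤ nn(z)`).
3. So `Ds c0 s ^ 2 Ds χ s Ds χ̄ s = Ds c0 (2s) Σ_z c0(z) |r(z)|² nn(z)^{-s}`.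
-/

open RNK

namespace RN2

noncomputable section

variable {D : OD} {N : ℕ} [NeZero N]

/-! ### values of characters (copied from `Cd`) -/

/-- the ring `O / N` -/
private abbrev rkQ (D : OD) (N : ℕ) : Type := D.O ⧸ (Ideal.span {(N : D.O)} : Ideal D.O)

private abbrev rkq (D : OD) (N : ℕ) : D.O →+* rkQ D N :=
  Ideal.Quotient.mk (Ideal.span {(N : D.O)})

omit [NeZero N] in
private theorem rkq_eq {x y : D.O} : rkq D N x = rkq D N y ↔ ∃ z : D.O, x = y + (N : D.O) * z := by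
  rw [Ideal.Quotient.eq, Ideal.mem_span_singleton']
  constructor
  · rintro ⟨a, ha⟩
    exact ⟨a, by rw [mul_comm, ha]; ring⟩
  · rintro ⟨z, hz⟩
    exact ⟨z, by rw [hz]; ring⟩

omit [NeZero N] in
private theorem rkq_unit {x : D.O} (h : Cp N x) : IsUnit (rkq D N x) := by
  obtain ⟨a, b, hab⟩ := h
  refine IsUnit.of_mul_eq_one (rkq D N a) ?_
  rw [← map_mul, ← map_one (rkq D N)]
  refine rkq_eq.2 ⟨-b, ?_⟩
  rw [← hab]
  ring

private instance rkfin (D : OD) (N : ℕ) [NeZero N] : Finite (rkQ D N) := by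
  refine Finite.of_surjective (fun k : UNL.G N => rkq D N (rp D k)) ?_
  intro q
  obtain ⟨x, rfl⟩ := Ideal.Quotient.mk_surjective q
  obtain ⟨y, hy⟩ := rp_cls (N := N) x
  exact ⟨cls N x, (rkq_eq.2 ⟨y, hy⟩).symm⟩

private theorem rk_norm (χ : Chr D N) {x : D.O} (hx : Cp N x) : ‖χ.f x‖ = 1 := by
  classical
  have : Finite (rkQ D N)ˣ := inferInstance
  let _ : Fintype (rkQ D N)ˣ := Fintype.ofFinite _
  have h1 : (rkq_unit hx).unit ^ Fintype.card (rkQ D N)ˣ = 1 := pow_card_eq_one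
  have h2 : rkq D N (x ^ Fintype.card (rkQ D N)ˣ) = rkq D N 1 := by
    rw [map_pow, map_one, ← (rkq_unit hx).unit_spec, ← Units.val_pow_eq_pow_val, h1, Units.val_one]
  obtain ⟨z, hz⟩ := rkq_eq.1 h2
  have h3 : ∀ n : ℕ, χ.f (x ^ n) = χ.f x ^ n := by
    intro n
    induction n with
    | zero => rw [pow_zero, pow_zero, χ.one]
    | succ n ih => rw [pow_succ, χ.mul, ih, pow_succ]
  have h4 : χ.f x ^ Fintype.card (rkQ D N)ˣ = 1 := by
    rw [← h3, hz, χ.per, χ.one]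
  exact Complex.norm_eq_one_of_pow_eq_one h4 Fintype.card_ne_zero

theorem chr_bdd (χ : Chr D N) (x : D.O) : ‖χ.f x‖ ≤ 1 := by
  by_cases hx : Cp N x
  · exact (rk_norm χ hx).le
  · rw [χ.zr x hx, norm_zero]
    exact zero_le_one

theorem chr_sq (χ : Chr D N) (x : D.O) : χ.f x * (starRingEnd ℂ) (χ.f x) = c0 N x := by
  unfold c0
  by_cases hx : Cp N x
  · rw [if_pos hx, Complex.mul_conj, Complex.normSq_eq_norm_sq, rk_norm χ hx]
    simp
  · rw [if_neg hx, χ.zr x hx, zero_mul]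

theorem c0_pe (N : ℕ) [NeZero N] : Pe N (c0 (D := D) N) := by
  intro x y
  unfold c0
  by_cases hx : Cp N x
  · rw [if_pos hx, if_pos ((Cp_per y).2 hx)]
  · rw [if_neg hx, if_neg (fun h => hx ((Cp_per y).1 h))]

/-- `Σ_{c ∣ z} χ(c)` -/
def rz (χ : Chr D N) (z : D.O) : ℂ := ∑' c : {c : D.O // c ∣ z}, χ.f c.1

theorem rz_unit (χ : Chr D N) (hu : χ.Tu) {z : D.O} (hz : IsUnit z) : rz χ z = wn D := by
  haveI := finU D
  haveI : Fintype D.Oˣ := Fintype.ofFinite _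
  let e : D.Oˣ ≃ {c : D.O // c ∣ z} :=
    { toFun := fun u => ⟨(u : D.O), u.isUnit.dvd⟩
      invFun := fun c => (isUnit_of_dvd_unit c.2 hz).unit
      left_inv := fun u => Units.ext rfl
      right_inv := fun c => Subtype.ext rfl }
  unfold rz
  rw [← e.tsum_eq, tsum_fintype]
  have h1 : ∀ u : D.Oˣ, χ.f (e u).1 = 1 := fun u => hu u
  rw [Finset.sum_congr rfl fun u _ => h1 u, Finset.sum_const, Finset.card_univ, nsmul_eq_mul,
    mul_one, wn, Nat.card_eq_fintype_card]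

/-! ### generic sums -/

private theorem rk_sub {X : Type*} {p : X → Prop} {F : X → ℂ} {S : ℂ} (h : HasSum F S)
    (hz : ∀ x, ¬ p x → F x = 0) : HasSum (fun x : {x : X // p x} => F x.1) S := by
  refine (hasSum_subtype_iff_of_support_subset (s := {x : X | p x}) (f := F) ?_).2 h
  intro x hx
  rw [Function.mem_support] at hx
  by_contra hcon
  exact hx (hz x hcon)

private theorem rk_sub' {X : Type*} {p : X → Prop} {F : X → ℂ} {S : ℂ}
    (h : HasSum (fun x : {x : X // p x} => F x.1) S)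
    (hz : ∀ x, ¬ p x → F x = 0) : HasSum F S := by
  refine (hasSum_subtype_iff_of_support_subset (s := {x : X | p x}) (f := F) ?_).1 h
  intro x hx
  rw [Function.mem_support] at hx
  by_contra hcon
  exact hx (hz x hcon)

private theorem rk_g1 {R : Type*} [CommRing R] {h : R → R → ℂ} {B : R → ℂ} {C : R × R → ℂ} {S : ℂ}
    (hS : HasSum (fun p : R × (R × R) => B p.1 * C p.2) S) (hB : B 0 = 0)
    (hC : ∀ p : R × R, ¬ (p.1 ≠ 0 ∧ p.2 ≠ 0 ∧ IsCoprime p.1 p.2) → C p = 0)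
    (hh : ∀ g c d : R, g ≠ 0 → c ≠ 0 → d ≠ 0 → IsCoprime c d →
      h (g * c) (g * d) = B g * C (c, d)) :
    HasSum (fun p : {p : R × R × R // p.1 ≠ 0 ∧ p.2.1 ≠ 0 ∧ p.2.2 ≠ 0 ∧ IsCoprime p.2.1 p.2.2} =>
      h (p.1.1 * p.1.2.1) (p.1.1 * p.1.2.2)) S := by
  have h1 := rk_sub (p := fun p : R × (R × R) => p.1 ≠ 0 ∧ p.2.1 ≠ 0 ∧ p.2.2 ≠ 0 ∧
    IsCoprime p.2.1 p.2.2) hS (by
      intro p hp
      by_cases h1 : p.1 = 0
      · simp only [h1, hB, zero_mul]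
      · rw [hC p.2 (fun h2 => hp ⟨h1, h2⟩), mul_zero])
  refine HasSum.congr_fun h1 ?_
  rintro ⟨⟨g, c, d⟩, k1, k2, k3, k4⟩
  exact hh g c d k1 k2 k3 k4

private theorem rk_g2 {R : Type*} [CommRing R] {h : R → R → R → ℂ} {B : R → ℂ} {C : R × R → ℂ}
    {S : ℂ}
    (hS : HasSum (fun p : R × (R × (R × R)) => B p.1 * (C (p.2.1, p.2.2.1) * B p.2.2.2)) S)
    (hB : B 0 = 0)
    (hC : ∀ p : R × R, ¬ (p.1 ≠ 0 ∧ p.2 ≠ 0 ∧ IsCoprime p.1 p.2) → C p = 0)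
    (hh : ∀ g c d e : R, g ≠ 0 → c ≠ 0 → d ≠ 0 → e ≠ 0 → IsCoprime c d →
      h (g * c * d * e) (g * c) (g * d) = B g * (C (c, d) * B e)) :
    HasSum (fun p : {p : R × R × R × R // p.1 ≠ 0 ∧ p.2.1 ≠ 0 ∧ p.2.2.1 ≠ 0 ∧ p.2.2.2 ≠ 0 ∧
      IsCoprime p.2.1 p.2.2.1} => h (p.1.1 * p.1.2.1 * p.1.2.2.1 * p.1.2.2.2)
      (p.1.1 * p.1.2.1) (p.1.1 * p.1.2.2.1)) S := by
  have h1 := rk_sub (p := fun p : R × (R × (R × R)) => p.1 ≠ 0 ∧ p.2.1 ≠ 0 ∧ p.2.2.1 ≠ 0 ∧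
    p.2.2.2 ≠ 0 ∧ IsCoprime p.2.1 p.2.2.1) hS (by
      intro p hp
      by_cases h1 : p.1 = 0
      · simp only [h1, hB, zero_mul]
      by_cases h2 : p.2.2.2 = 0
      · simp only [h2, hB, mul_zero]
      · rw [hC (p.2.1, p.2.2.1) (fun h3 => hp ⟨h1, h3.1, h3.2.1, h2, h3.2.2⟩), zero_mul, mul_zero])
  refine HasSum.congr_fun h1 ?_
  rintro ⟨⟨g, c, d, e⟩, k1, k2, k3, k4, k5⟩
  exact hh g c d e k1 k2 k3 k4 k5

private theorem rk_mul {X Y : Type*} {f : X → ℂ} {g : Y → ℂ} {a b : ℂ} (hf : HasSum f a)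
    (hg : HasSum g b) : HasSum (fun p : X × Y => f p.1 * g p.2) (a * b) :=
  hf.mul hg (summable_mul_of_summable_norm hf.summable.norm hg.summable.norm)

private theorem rk_g3 {R : Type*} {B : R → ℂ} {C : R × R → ℂ} {b c : ℂ} (hB : HasSum B b)
    (hC : HasSum C c) :
    HasSum (fun p : R × (R × (R × R)) => B p.1 * (C (p.2.1, p.2.2.1) * B p.2.2.2))
      (b * (c * b)) := by
  have e1 : HasSum (fun p : (R × R) × R => C p.1 * B p.2) (c * b) :=
    rk_mul (f := C) (g := B) hC hB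
  have e2 : HasSum (fun p : R × (R × R) => C (p.1, p.2.1) * B p.2.2) (c * b) := by
    rw [← (Equiv.prodAssoc R R R).hasSum_iff]
    exact e1
  exact rk_mul (f := B) (g := fun p : R × (R × R) => C (p.1, p.2.1) * B p.2.2) hB e2

/-! ### the series -/

private theorem rk_c0_bdd (x : D.O) : ‖c0 (D := D) N x‖ ≤ 1 := by
  unfold c0
  split_ifs <;> simp

private theorem rk_c0_mul (x y : D.O) : c0 (D := D) N (x * y) = c0 N x * c0 N y := by
  unfold c0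
  by_cases hx : Cp N x
  · by_cases hy : Cp N y
    · rw [if_pos hx, if_pos hy, if_pos (Cp_mul.2 ⟨hx, hy⟩), mul_one]
    · rw [if_neg hy, if_neg (fun h => hy (Cp_mul.1 h).2), mul_zero]
  · rw [if_neg hx, if_neg (fun h => hx (Cp_mul.1 h).1), zero_mul]

private theorem rk_c0_sq (x : D.O) : c0 (D := D) N x * c0 N x = c0 N x := by
  unfold c0
  split_ifs <;> simp

private theorem rk_c0_chr (χ : Chr D N) (x : D.O) : c0 N x * χ.f x = χ.f x := by
  unfold c0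
  by_cases hx : Cp N x
  · rw [if_pos hx, one_mul]
  · rw [if_neg hx, χ.zr x hx, zero_mul]

private theorem rk_c0_chr' (χ : Chr D N) (x : D.O) :
    c0 N x * (starRingEnd ℂ) (χ.f x) = (starRingEnd ℂ) (χ.f x) := by
  unfold c0
  by_cases hx : Cp N x
  · rw [if_pos hx, one_mul]
  · rw [if_neg hx, χ.zr x hx, map_zero, zero_mul]

/-- the power -/
private def rkp (s : ℂ) (x : D.O) : ℂ := ((nn D x : ℕ) : ℂ) ^ (-s)

private theorem rkp_mul (s : ℂ) (x y : D.O) : rkp s (x * y) = rkp s x * rkp s y := by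
  unfold rkp
  rw [nn_mul, Nat.cast_mul, Complex.natCast_mul_natCast_cpow]

private theorem rkp_zero {s : ℂ} (hs : 1 < s.re) : rkp s (0 : D.O) = 0 := by
  unfold rkp
  rw [nn_eq_zero.2 rfl, Nat.cast_zero, Complex.zero_cpow]
  intro h
  have h1 := congrArg Complex.re h
  rw [Complex.neg_re, Complex.zero_re] at h1
  linarith

private theorem rkp_two (s : ℂ) {x : D.O} (hx : x ≠ 0) : rkp (2 * s) x = rkp s x * rkp s x := by
  unfold rkp
  have h : ((nn D x : ℕ) : ℂ) ≠ 0 := Nat.cast_ne_zero.2 fun h => hx (nn_eq_zero.1 h)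
  rw [← Complex.cpow_add _ _ h]
  congr 1
  ring

/-- coprime pairs -/
private def rkC (χ : Chr D N) (s : ℂ) (p : D.O × D.O) : ℂ :=
  @ite ℂ (p.1 ≠ 0 ∧ p.2 ≠ 0 ∧ IsCoprime p.1 p.2) (Classical.propDecidable _)
    ((χ.f p.1 * rkp s p.1) * ((starRingEnd ℂ) (χ.f p.2) * rkp s p.2)) 0

private theorem rk_sumA {s : ℂ} (hs : 1 < s.re) :
    HasSum (fun x : D.O => c0 N x * rkp s x) (Ds (c0 (D := D) N) s) :=
  (Ds_summable ⟨1, fun x => rk_c0_bdd (N := N) x⟩ hs).hasSum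

private theorem rk_sumX (χ : Chr D N) {s : ℂ} (hs : 1 < s.re) :
    HasSum (fun x : D.O => χ.f x * rkp s x) (Ds χ.f s) :=
  (Ds_summable ⟨1, fun x => chr_bdd χ x⟩ hs).hasSum

private theorem rk_sumY (χ : Chr D N) {s : ℂ} (hs : 1 < s.re) :
    HasSum (fun x : D.O => (starRingEnd ℂ) (χ.f x) * rkp s x)
      (Ds (fun x => (starRingEnd ℂ) (χ.f x)) s) :=
  (Ds_summable (a := fun x => (starRingEnd ℂ) (χ.f x))
    ⟨1, fun x => by rw [Complex.norm_conj]; exact chr_bdd χ x⟩ hs).hasSum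

private theorem rk_sumXY (χ : Chr D N) {s : ℂ} (hs : 1 < s.re) :
    HasSum (fun p : D.O × D.O => (χ.f p.1 * rkp s p.1) * ((starRingEnd ℂ) (χ.f p.2) * rkp s p.2))
      (Ds χ.f s * Ds (fun x => (starRingEnd ℂ) (χ.f x)) s) :=
  rk_mul (f := fun x : D.O => χ.f x * rkp s x) (g := fun x : D.O => (starRingEnd ℂ) (χ.f x) * rkp s x)
    (rk_sumX χ hs) (rk_sumY χ hs)

private theorem rk_sumC (χ : Chr D N) {s : ℂ} (hs : 1 < s.re) : Summable (rkC χ s) := by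
  have h1 := (rk_sumXY χ hs).summable
  refine Summable.of_norm_bounded h1.norm fun p => ?_
  unfold rkC
  by_cases h : p.1 ≠ 0 ∧ p.2 ≠ 0 ∧ IsCoprime p.1 p.2
  · rw [@if_pos _ (Classical.propDecidable _) h]
  · rw [@if_neg _ (Classical.propDecidable _) h, norm_zero]
    exact norm_nonneg _

private theorem rkC_zero (χ : Chr D N) (s : ℂ) (p : D.O × D.O)
    (h : ¬ (p.1 ≠ 0 ∧ p.2 ≠ 0 ∧ IsCoprime p.1 p.2)) : rkC χ s p = 0 := by
  unfold rkC
  rw [@if_neg _ (Classical.propDecidable _) h]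

private theorem rkC_eq (χ : Chr D N) (s : ℂ) {c d : D.O} (hc : c ≠ 0) (hd : d ≠ 0)
    (h : IsCoprime c d) : rkC χ s (c, d) =
      (χ.f c * rkp s c) * ((starRingEnd ℂ) (χ.f d) * rkp s d) := by
  unfold rkC
  rw [@if_pos _ (Classical.propDecidable _) ⟨hc, hd, h⟩]

private theorem rk_e1 (χ : Chr D N) (s : ℂ) (g c d : D.O) (h1 : g ≠ 0) (h2 : c ≠ 0) (h3 : d ≠ 0)
    (h4 : IsCoprime c d) :
    (χ.f (g * c) * rkp s (g * c)) * ((starRingEnd ℂ) (χ.f (g * d)) * rkp s (g * d)) =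
        (c0 N g * rkp (2 * s) g) * rkC χ s (c, d) := by
  rw [rkC_eq χ s h2 h3 h4, rkp_mul, rkp_mul, χ.mul, χ.mul, map_mul, rkp_two s h1, ← chr_sq χ g]
  generalize χ.f g = x1
  generalize χ.f c = x2
  generalize χ.f d = x3
  generalize rkp s g = x4
  generalize rkp s c = x5
  generalize rkp s d = x6
  ring

private theorem rk1_a (χ : Chr D N) {s : ℂ} (hs : 1 < s.re) :
    HasSum (fun p : P2 D => (χ.f p.1.1 * rkp s p.1.1) *
      ((starRingEnd ℂ) (χ.f p.1.2) * rkp s p.1.2))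
      (Ds χ.f s * Ds (fun x => (starRingEnd ℂ) (χ.f x)) s) := by
  refine rk_sub (p := fun p : D.O × D.O => p.1 ≠ 0 ∧ p.2 ≠ 0)
    (F := fun p : D.O × D.O => (χ.f p.1 * rkp s p.1) * ((starRingEnd ℂ) (χ.f p.2) * rkp s p.2))
    (rk_sumXY χ hs) ?_
  intro p hp
  by_cases h1 : p.1 = 0
  · rw [h1, rkp_zero hs, mul_zero, zero_mul]
  · have h2 : p.2 = 0 := by
      by_contra h2
      exact hp ⟨h1, h2⟩
    rw [h2, rkp_zero hs, mul_zero, mul_zero]

private theorem rk1_b (χ : Chr D N) {s : ℂ} (hs : 1 < s.re) (hs2 : 1 < (2 * s).re) :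
    HasSum (fun p : D.O × (D.O × D.O) => (c0 N p.1 * rkp (2 * s) p.1) * rkC χ s p.2)
      (Ds (c0 (D := D) N) (2 * s) * ∑' p, rkC χ s p) :=
  rk_mul (f := fun x : D.O => c0 N x * rkp (2 * s) x) (g := rkC χ s)
    (rk_sumA hs2) (rk_sumC χ hs).hasSum

private theorem rk1_c (χ : Chr D N) {s : ℂ} (hs : 1 < s.re) (hs2 : 1 < (2 * s).re) :
    HasSum (fun p : T3 D => (χ.f (p.1.1 * p.1.2.1) * rkp s (p.1.1 * p.1.2.1)) *
      ((starRingEnd ℂ) (χ.f (p.1.1 * p.1.2.2)) * rkp s (p.1.1 * p.1.2.2)))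
      (Ds (c0 (D := D) N) (2 * s) * ∑' p, rkC χ s p) :=
  rk_g1 (h := fun c d => (χ.f c * rkp s c) * ((starRingEnd ℂ) (χ.f d) * rkp s d))
    (B := fun x : D.O => c0 N x * rkp (2 * s) x) (C := rkC χ s) (rk1_b χ hs hs2)
    (by rw [rkp_zero hs2, mul_zero]) (rkC_zero χ s)
    (fun g c d h1 h2 h3 h4 => rk_e1 χ s g c d h1 h2 h3 h4)

/-- step 1 -/
private theorem rk1 (χ : Chr D N) {s : ℂ} (hs : 1 < s.re) :
    (wn D : ℂ) * (Ds χ.f s * Ds (fun x => (starRingEnd ℂ) (χ.f x)) s) =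
      Ds (c0 (D := D) N) (2 * s) * ∑' p, rkC χ s p := by
  have hs2 : 1 < (2 * s).re := by
    simp only [Complex.mul_re, Complex.re_ofNat, Complex.im_ofNat, zero_mul, sub_zero]
    linarith
  have e1 := rk1_a χ hs
  have e2 := gcd_sum (h := fun c d => (χ.f c * rkp s c) * ((starRingEnd ℂ) (χ.f d) * rkp s d))
    e1.summable
  rw [e1.tsum_eq] at e2
  exact e2.unique (rk1_c χ hs hs2)

/-- the function on the triples `(z, c, d)` -/
private def rkH (χ : Chr D N) (s : ℂ) (z c d : D.O) : ℂ :=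
  (c0 N z * rkp s z) * (χ.f c * (starRingEnd ℂ) (χ.f d))

private theorem rk_e2 (χ : Chr D N) (s : ℂ) (g c d e : D.O) (h2 : c ≠ 0) (h3 : d ≠ 0)
    (h4 : IsCoprime c d) :
    rkH χ s (g * c * d * e) (g * c) (g * d) =
      (c0 N g * rkp s g) * (rkC χ s (c, d) * (c0 N e * rkp s e)) := by
  unfold rkH
  rw [rkC_eq χ s h2 h3 h4]
  have k0 : c0 N (g * c * d * e) = c0 N g * c0 N c * c0 N d * c0 N e := by
    rw [rk_c0_mul, rk_c0_mul, rk_c0_mul]
  have k0' : rkp s (g * c * d * e) = rkp s g * rkp s c * rkp s d * rkp s e := by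
    rw [rkp_mul, rkp_mul, rkp_mul]
  rw [k0, k0', χ.mul, χ.mul, map_mul]
  have k1 := rk_c0_chr χ c
  have k2 := rk_c0_chr' χ d
  have k3 := chr_sq χ g
  have k4 := rk_c0_sq (D := D) (N := N) g
  generalize c0 N g = a1 at *
  generalize c0 N c = a2 at *
  generalize c0 N d = a3 at *
  generalize c0 N e = a4 at *
  generalize χ.f g = x1 at *
  generalize χ.f c = x2 at *
  generalize χ.f d = x3 at *
  generalize rkp s g = x4
  generalize rkp s c = x5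
  generalize rkp s d = x6
  generalize rkp s e = x7
  calc (a1 * a2 * a3 * a4 * (x4 * x5 * x6 * x7)) *
          ((x1 * x2) * ((starRingEnd ℂ) x1 * (starRingEnd ℂ) x3))
        = (a1 * (x1 * (starRingEnd ℂ) x1)) * (a2 * x2) *
          (a3 * (starRingEnd ℂ) x3) * a4 * (x4 * x5 * x6 * x7) := by ring
      _ = a1 * x2 * (starRingEnd ℂ) x3 * a4 * (x4 * x5 * x6 * x7) := by rw [k3, k4, k1, k2]
      _ = _ := by ring

/-- step 2 -/
private theorem rk2 (χ : Chr D N) {s : ℂ} (hs : 1 < s.re) :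
    Summable (fun p : Q3 D => rkH χ s p.1.1 p.1.2.1 p.1.2.2) ∧
    Ds (c0 (D := D) N) s * ((∑' p, rkC χ s p) * Ds (c0 (D := D) N) s) =
      wn D * ∑' p : Q3 D, rkH χ s p.1.1 p.1.2.1 p.1.2.2 := by
  have e3 := rk_g3 (B := fun x : D.O => c0 N x * rkp s x) (C := rkC χ s)
    (rk_sumA (D := D) (N := N) hs) (rk_sumC χ hs).hasSum
  have e4 := rk_g2 (h := rkH χ s) (B := fun x : D.O => c0 N x * rkp s x) (C := rkC χ s) e3
    (by rw [rkp_zero hs, mul_zero]) (rkC_zero χ s)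
    (fun g c d e h1 h2 h3 h4 h5 => rk_e2 χ s g c d e h2 h3 h5)
  exact lcm_sum (h := rkH χ s) e4

/-- the divisors of `z ≠ 0` are finitely many -/
private theorem rk_div {z : D.O} (hz : z ≠ 0) : {c : D.O | c ∣ z}.Finite := by
  refine (nn_fin (nn D z)).subset ?_
  rintro c ⟨e, he⟩
  show nn D c ≤ nn D z
  rw [he, nn_mul]
  apply Nat.le_mul_of_pos_right
  rw [Nat.pos_iff_ne_zero]
  intro h0
  rw [nn_eq_zero] at h0
  rw [h0, mul_zero] at he
  exact hz he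

open Classical in
private theorem rk_rz (χ : Chr D N) {z : D.O} (hz : z ≠ 0) :
    HasSum (fun c : D.O => if c ∣ z then χ.f c else 0) (rz χ z) := by
  haveI : Finite {c : D.O // c ∣ z} := rk_div hz
  haveI : Fintype {c : D.O // c ∣ z} := Fintype.ofFinite _
  have h1 : HasSum (fun c : {c : D.O // c ∣ z} => χ.f c.1) (rz χ z) := by
    unfold rz
    exact (hasSum_fintype _).summable.hasSum
  have h2 := (hasSum_subtype_iff_of_support_subset (s := {c : D.O | c ∣ z})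
    (f := fun c : D.O => if c ∣ z then χ.f c else 0) (a := rz χ z) ?_).1 ?_
  · exact h2
  · intro c hc
    rw [Function.mem_support] at hc
    by_contra hcon
    exact hc (if_neg hcon)
  · refine HasSum.congr_fun h1 ?_
    rintro ⟨c, hc⟩
    exact if_pos hc

open Classical in
private theorem rk_rz' (χ : Chr D N) {z : D.O} (hz : z ≠ 0) :
    HasSum (fun c : D.O => if c ∣ z then (starRingEnd ℂ) (χ.f c) else 0)
      ((starRingEnd ℂ) (rz χ z)) := by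
  have h := (rk_rz χ hz).map (starRingEnd ℂ) Complex.continuous_conj
  refine HasSum.congr_fun h ?_
  intro c
  show _ = (starRingEnd ℂ) (if c ∣ z then χ.f c else 0)
  split_ifs
  · rfl
  · rw [map_zero]

/-- the sum over the triples, fibred over `z` -/
private theorem rk3 (χ : Chr D N) {s : ℂ} (hs : 1 < s.re) {S : ℂ}
    (h : HasSum (fun p : Q3 D => rkH χ s p.1.1 p.1.2.1 p.1.2.2) S) :
    HasSum (fun z : D.O => (c0 N z * ((‖rz χ z‖ ^ 2 : ℝ) : ℂ)) * ((nn D z : ℕ) : ℂ) ^ (-s)) S := by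
  classical
  set F : D.O × (D.O × D.O) → ℂ := fun p =>
    (c0 N p.1 * rkp s p.1) * ((if p.2.1 ∣ p.1 then χ.f p.2.1 else 0) *
      (if p.2.2 ∣ p.1 then (starRingEnd ℂ) (χ.f p.2.2) else 0)) with hF
  have h1 : HasSum F S := by
    refine rk_sub' (p := fun p : D.O × D.O × D.O => p.1 ≠ 0 ∧ p.2.1 ∣ p.1 ∧ p.2.2 ∣ p.1) ?_ ?_
    · refine HasSum.congr_fun h ?_
      intro p
      obtain ⟨h1, h2, h3⟩ := p.2
      show (c0 N p.1.1 * rkp s p.1.1) * ((if p.1.2.1 ∣ p.1.1 then χ.f p.1.2.1 else 0) *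
        (if p.1.2.2 ∣ p.1.1 then (starRingEnd ℂ) (χ.f p.1.2.2) else 0)) = rkH χ s _ _ _
      rw [if_pos h2, if_pos h3]
      rfl
    · intro p hp
      by_cases h0 : p.1 = 0
      · show (c0 N p.1 * rkp s p.1) * _ = 0
        rw [h0, rkp_zero hs, mul_zero, zero_mul]
      by_cases h2 : p.2.1 ∣ p.1
      · have h3 : ¬ p.2.2 ∣ p.1 := fun h3 => hp ⟨h0, h2, h3⟩
        show _ * (_ * (if p.2.2 ∣ p.1 then (starRingEnd ℂ) (χ.f p.2.2) else 0)) = 0
        rw [if_neg h3, mul_zero, mul_zero]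
      · show _ * ((if p.2.1 ∣ p.1 then χ.f p.2.1 else 0) * _) = 0
        rw [if_neg h2, zero_mul, mul_zero]
  refine h1.prod_fiberwise fun z => ?_
  by_cases hz : z = 0
  · have e : (fun c : D.O × D.O => F (z, c)) = fun _ => 0 := by
      funext c
      show (c0 N z * rkp s z) * _ = 0
      rw [hz, rkp_zero hs, mul_zero, zero_mul]
    rw [e]
    have e2 : (c0 N z * ((‖rz χ z‖ ^ 2 : ℝ) : ℂ)) * ((nn D z : ℕ) : ℂ) ^ (-s) = 0 := by
      have := rkp_zero (D := D) hs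
      unfold rkp at this
      rw [hz, this, mul_zero]
    rw [e2]
    exact hasSum_zero
  · have h2 := (rk_mul (f := fun c : D.O => if c ∣ z then χ.f c else 0)
      (g := fun c : D.O => if c ∣ z then (starRingEnd ℂ) (χ.f c) else 0)
      (rk_rz χ hz) (rk_rz' χ hz)).mul_left (c0 N z * rkp s z)
    have e : (c0 N z * ((‖rz χ z‖ ^ 2 : ℝ) : ℂ)) * ((nn D z : ℕ) : ℂ) ^ (-s) =
        (c0 N z * rkp s z) * (rz χ z * (starRingEnd ℂ) (rz χ z)) := by
      rw [Complex.mul_conj, Complex.normSq_eq_norm_sq]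
      unfold rkp
      ring
    rw [e]
    exact h2

theorem rk_summable (χ : Chr D N) {s : ℂ} (hs : 1 < s.re) :
    Summable (fun z : D.O => (c0 N z * ((‖rz χ z‖ ^ 2 : ℝ) : ℂ)) * ((nn D z : ℕ) : ℂ) ^ (-s)) :=
  (rk3 χ hs (rk2 χ hs).1.hasSum).summable

theorem rk (χ : Chr D N) {s : ℂ} (hs : 1 < s.re) :
    Ds (c0 (D := D) N) s ^ 2 * Ds χ.f s * Ds (fun x => (starRingEnd ℂ) (χ.f x)) s =
      Ds (c0 (D := D) N) (2 * s) * Ds (fun z => c0 N z * ((‖rz χ z‖ ^ 2 : ℝ) : ℂ)) s := by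
  have h1 := rk1 χ hs
  have h2 := (rk2 χ hs).2
  have h3 := (rk3 χ hs (rk2 χ hs).1.hasSum).tsum_eq
  have hw : (wn D : ℂ) ≠ 0 := Nat.cast_ne_zero.2 (wn_pos D).ne'
  have h4 : Ds (fun z => c0 N z * ((‖rz χ z‖ ^ 2 : ℝ) : ℂ)) s =
      ∑' p : Q3 D, rkH χ s p.1.1 p.1.2.1 p.1.2.2 := h3
  rw [h4]
  apply mul_left_cancel₀ hw
  calc (wn D : ℂ) * (Ds (c0 (D := D) N) s ^ 2 * Ds χ.f s *
        Ds (fun x => (starRingEnd ℂ) (χ.f x)) s)
      = Ds (c0 (D := D) N) s ^ 2 * ((wn D : ℂ) * (Ds χ.f s *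
        Ds (fun x => (starRingEnd ℂ) (χ.f x)) s)) := by ring
    _ = Ds (c0 (D := D) N) (2 * s) * (Ds (c0 (D := D) N) s * ((∑' p, rkC χ s p) *
        Ds (c0 (D := D) N) s)) := by rw [h1]; ring
    _ = _ := by rw [h2]; ring

end

end RN2
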