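import Pool.Agent.RN2.Rk

/-!
# RN2.Rl: a Dirichlet series with non negative coefficients

`A(n) = Σ_{(g, z) : nn(g)² nn(z) = n} c0(g) c0(z) |r(z)|²` for `n ≥ 1` (finite sum: `nn_fin`), real and `≥ 0`;
`A(1) = Σ_{g, z units} w² = w⁴ > 0` (`rz_unit`, `nn_eq_one`; a unit is prime to `N`). For `Re s > 1` the product
`Ds c0 (2s) Ds (c0 |r|²) s = Σ_{(g,z)} c0(g) c0(z) |r(z)|² (nn(g)² nn(z))^{-s}` is absolutely convergent (`rk_summable`,
`Ds_summable` at `2 s`); grouping the pairs with `nn(g)² nn(z) = n` (the terms with `g = 0` or `z = 0` are `0`) gives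
`LSeries A s`. With `rk` this is the claim.
-/

open RNK
open scoped ComplexOrder

namespace RN2

noncomputable section

variable {D : OD} {N : ℕ} [NeZero N]

/-- the norm of a pair -/
private def rl_n (D : OD) (p : D.O × D.O) : ℕ := nn D p.1 ^ 2 * nn D p.2

open Classical in
/-- the real coefficient of a pair -/
private def rl_c (χ : Chr D N) (p : D.O × D.O) : ℝ :=
  (if Cp N p.1 then 1 else 0) * ((if Cp N p.2 then 1 else 0) * ‖rz χ p.2‖ ^ 2)

private theorem rl_c_nonneg (χ : Chr D N) (p : D.O × D.O) : 0 ≤ rl_c χ p := by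
  unfold rl_c
  split_ifs <;> positivity

private theorem rl_c_eq (χ : Chr D N) (p : D.O × D.O) : ((rl_c χ p : ℝ) : ℂ) =
    c0 N p.1 * (c0 N p.2 * ((‖rz χ p.2‖ ^ 2 : ℝ) : ℂ)) := by
  unfold rl_c c0
  split_ifs <;> simp

/-- the coefficients -/
private def rl_A (χ : Chr D N) (n : ℕ) : ℂ :=
  ((∑' p : {p : D.O × D.O // rl_n D p = n}, rl_c χ p.1 : ℝ) : ℂ)

private theorem rl_fin {n : ℕ} (hn : n ≠ 0) : {p : D.O × D.O | rl_n D p = n}.Finite := by
  refine ((nn_fin (D := D) n).prod (nn_fin (D := D) n)).subset ?_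
  rintro ⟨g, z⟩ h
  have h1 : nn D g ^ 2 * nn D z = n := h
  have hg : nn D g ≠ 0 := by
    rintro h0
    rw [h0] at h1
    simp at h1
    exact hn h1.symm
  have hz : nn D z ≠ 0 := by
    rintro h0
    rw [h0] at h1
    simp at h1
    exact hn h1.symm
  have hg1 := Nat.one_le_iff_ne_zero.2 hg
  have hz1 := Nat.one_le_iff_ne_zero.2 hz
  constructor
  · show nn D g ≤ n
    nlinarith
  · show nn D z ≤ n
    nlinarith [Nat.one_le_pow 2 _ hg1]

/-- the term of a pair -/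
private def rl_F (χ : Chr D N) (s : ℂ) (p : D.O × D.O) : ℂ :=
  ((rl_c χ p : ℝ) : ℂ) * ((rl_n D p : ℕ) : ℂ) ^ (-s)

private theorem rl_F_eq (χ : Chr D N) (s : ℂ) (p : D.O × D.O) : rl_F χ s p =
    (c0 N p.1 * ((nn D p.1 : ℕ) : ℂ) ^ (-(2 * s))) *
      ((c0 N p.2 * ((‖rz χ p.2‖ ^ 2 : ℝ) : ℂ)) * ((nn D p.2 : ℕ) : ℂ) ^ (-s)) := by
  have h1 : ((rl_n D p : ℕ) : ℂ) ^ (-s) =
      ((nn D p.1 : ℕ) : ℂ) ^ (-(2 * s)) * ((nn D p.2 : ℕ) : ℂ) ^ (-s) := by
    unfold rl_n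
    rw [Nat.cast_mul, Complex.natCast_mul_natCast_cpow, pow_two, Nat.cast_mul,
      Complex.natCast_mul_natCast_cpow]
    have h2 : -(2 * s) = ((2 : ℕ) : ℂ) * (-s) := by
      push_cast
      ring
    rw [h2, Complex.cpow_nat_mul, pow_two]
  unfold rl_F
  rw [h1, rl_c_eq]
  ring

private theorem rl_c0_bdd (x : D.O) : ‖c0 N x‖ ≤ 1 := by
  unfold c0
  split_ifs <;> simp

private theorem rl_sum (χ : Chr D N) {s : ℂ} (hs : 1 < s.re) :
    Summable (rl_F χ s) ∧ ∑' p, rl_F χ s p =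
      Ds (c0 (D := D) N) (2 * s) * Ds (fun z => c0 N z * ((‖rz χ z‖ ^ 2 : ℝ) : ℂ)) s := by
  have h2 : 1 < (2 * s).re := by
    have : (2 * s).re = 2 * s.re := by simp
    rw [this]
    linarith
  have h3 := (Ds_summable (D := D) (a := c0 N) ⟨1, rl_c0_bdd⟩ h2).norm
  have h4 := (rk_summable χ hs).norm
  have h5 := summable_mul_of_summable_norm h3 h4
  have h6 := tsum_mul_tsum_of_summable_norm h3 h4
  have h7 : rl_F χ s = fun p : D.O × D.O =>
      (c0 N p.1 * ((nn D p.1 : ℕ) : ℂ) ^ (-(2 * s))) *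
        ((c0 N p.2 * ((‖rz χ p.2‖ ^ 2 : ℝ) : ℂ)) * ((nn D p.2 : ℕ) : ℂ) ^ (-s)) :=
    funext fun p => rl_F_eq χ s p
  rw [h7]
  exact ⟨h5, h6.symm⟩

private theorem rl_term (χ : Chr D N) {s : ℂ} (hs : 1 < s.re) (n : ℕ) :
    ∑' p : {p : D.O × D.O // rl_n D p = n}, rl_F χ s p.1 = LSeries.term (rl_A χ) s n := by
  have hs0 : -s ≠ 0 := by
    intro h
    have := congrArg Complex.re h
    simp at this
    linarith
  rw [LSeries.term_def]
  split_ifs with hn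
  · subst hn
    have h1 : ∀ p : {p : D.O × D.O // rl_n D p = 0}, rl_F χ s p.1 = 0 := by
      intro p
      unfold rl_F
      rw [p.2, Nat.cast_zero, Complex.zero_cpow hs0, mul_zero]
    rw [tsum_congr h1, tsum_zero]
  · have h1 : ∀ p : {p : D.O × D.O // rl_n D p = n},
        rl_F χ s p.1 = ((rl_c χ p.1 : ℝ) : ℂ) * ((n : ℕ) : ℂ) ^ (-s) := by
      intro p
      unfold rl_F
      rw [p.2]
    rw [tsum_congr h1, tsum_mul_right, rl_A, Complex.ofReal_tsum, Complex.cpow_neg, div_eq_mul_inv]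

theorem rl (χ : Chr D N) (hu : χ.Tu) : ∃ A : ℕ → ℂ, 0 ≤ A ∧ 0 < A 1 ∧
    ∀ s : ℂ, 1 < s.re → LSeriesSummable A s ∧ LSeries A s =
      Ds (c0 (D := D) N) s ^ 2 * Ds χ.f s * Ds (fun x => (starRingEnd ℂ) (χ.f x)) s := by
  refine ⟨rl_A χ, fun n => ?_, ?_, fun s hs => ?_⟩
  · show (0 : ℂ) ≤ rl_A χ n
    unfold rl_A
    rw [Complex.zero_le_real]
    exact tsum_nonneg fun p => rl_c_nonneg χ p.1
  · show (0 : ℂ) < rl_A χ 1
    unfold rl_A
    rw [Complex.zero_lt_real]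
    haveI : Finite {p : D.O × D.O // rl_n D p = 1} := (rl_fin (D := D) one_ne_zero).to_subtype
    have h1 : nn D (1 : D.O) = 1 := nn_eq_one.2 isUnit_one
    have h2 : rl_n D (1, 1) = 1 := by
      unfold rl_n
      rw [h1]
      norm_num
    refine (Summable.of_finite).tsum_pos (fun p => rl_c_nonneg χ p.1) ⟨(1, 1), h2⟩ ?_
    have h3 : Cp N (1 : D.O) := isCoprime_one_left
    show 0 < rl_c χ (1, 1)
    unfold rl_c
    rw [if_pos h3]
    show 0 < 1 * (1 * ‖rz χ 1‖ ^ 2)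
    rw [rz_unit χ hu isUnit_one]
    have h4 := wn_pos D
    have h5 : (0 : ℝ) < ‖((wn D : ℕ) : ℂ)‖ := by
      rw [Complex.norm_natCast]
      exact_mod_cast h4
    positivity
  · obtain ⟨h1, h2⟩ := rl_sum χ hs
    have h3 := (Equiv.sigmaFiberEquiv (rl_n D)).summable_iff.2 h1
    have h4 : Summable (fun n : ℕ => ∑' p : {p : D.O × D.O // rl_n D p = n}, rl_F χ s p.1) :=
      h3.sigma
    have h5 : ∑' p, rl_F χ s p =
        ∑' n : ℕ, ∑' p : {p : D.O × D.O // rl_n D p = n}, rl_F χ s p.1 := by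
      rw [← (Equiv.sigmaFiberEquiv (rl_n D)).tsum_eq (rl_F χ s)]
      exact h3.tsum_sigma
    have h6 : (fun n : ℕ => ∑' p : {p : D.O × D.O // rl_n D p = n}, rl_F χ s p.1) =
        LSeries.term (rl_A χ) s := funext fun n => rl_term χ hs n
    rw [h6] at h4
    refine ⟨h4, ?_⟩
    rw [rk χ hs, ← h2, h5, h6]
    rfl

end

end RN2
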