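import Pool.Agent.RN2.Du

/-!
# RN2.Sp: duality

`V = (G N → ℚ)`, `S` the span of the vectors `Rl q (e_m)`, `q ∈ Q`, `m ∈ G N` (`e_m` = indicator of `m`). If `A ∉ S` there is a
linear functional `φ` on `V`, `φ(A) ≠ 0`, `φ = 0` on `S` (`Submodule.exists_le_ker_of_notMem` or similar), given by
`φ(v) = Σ φ_k v_k`. `Σ_k φ_k Rl q e_m k = Σ_{q k = m} φ_k - [m ∈ q G] φ_m`, so `φ` satisfies the relations of `h`: contradiction. A
combination of `Rl q e_m` is `Σ_q Rl q (c q)`, `Rl q` is linear in `c`.
-/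

open RNK

namespace RN2

noncomputable section

variable {D : OD} {N : ℕ} [NeZero N]

/-- the relations as a linear map -/
private def spL (Q : Finset D.O) : (D.O → UNL.G N → ℚ) →ₗ[ℚ] (UNL.G N → ℚ) where
  toFun c k := ∑ q ∈ Q, Rl (toU D.a) (cod D q) (c q) k
  map_add' c d := by
    funext k
    simp only [Pi.add_apply]
    rw [← Finset.sum_add_distrib]
    refine Finset.sum_congr rfl fun q _ => ?_
    simp only [Rl, Pi.add_apply]
    split_ifs <;> ring
  map_smul' r c := by
    funext k
    simp only [Pi.smul_apply, RingHom.id_apply, smul_eq_mul]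
    rw [Finset.mul_sum]
    refine Finset.sum_congr rfl fun q _ => ?_
    simp only [Rl, Pi.smul_apply, smul_eq_mul]
    split_ifs <;> ring

theorem span_rel (Q : Finset D.O) {A : UNL.G N → ℚ}
    (h : ∀ φ : UNL.G N → ℚ, (∀ q ∈ Q, Dst q (fun k => (φ k : ℂ))) → ∑ k, A k * φ k = 0) :
    ∃ c : D.O → UNL.G N → ℚ, ∀ k, A k = ∑ q ∈ Q, Rl (toU D.a) (cod D q) (c q) k := by
  classical
  by_contra hcon
  have hA : A ∉ LinearMap.range (spL (N := N) Q) := by
    rintro ⟨c, hc⟩
    exact hcon ⟨c, fun k => (congrFun hc k).symm⟩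
  obtain ⟨f, hfA, hf⟩ := Submodule.exists_le_ker_of_notMem hA
  set φ : UNL.G N → ℚ := fun k => f (Pi.single k 1) with hφ
  have hfv : ∀ v : UNL.G N → ℚ, f v = ∑ k, v k * φ k := by
    intro v
    have hv : v = ∑ k, v k • (Pi.single k 1 : UNL.G N → ℚ) := by
      funext j
      simp [Finset.sum_apply, Pi.single_apply]
    conv_lhs => rw [hv]
    rw [map_sum]
    refine Finset.sum_congr rfl fun k _ => ?_
    rw [map_smul, smul_eq_mul]
  apply hfA
  rw [hfv]
  apply h
  intro q hq m hm
  have h1 : f (spL (N := N) Q (Pi.single q (Pi.single m 1))) = 0 := hf ⟨_, rfl⟩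
  have h2 : spL (N := N) Q (Pi.single q (Pi.single m 1)) = fun k =>
      Rl (toU D.a) (cod D q) (Pi.single m 1) k := by
    funext k
    show ∑ p ∈ Q, Rl (toU D.a) (cod D p) ((Pi.single q (Pi.single m 1) : D.O → UNL.G N → ℚ) p) k = _
    rw [Finset.sum_eq_single q]
    · simp
    · intro p _ hp
      rw [Pi.single_eq_of_ne hp]
      simp [Rl]
    · intro hq'
      exact absurd hq hq'
  rw [h2, hfv] at h1
  have h3 : ∑ k, Rl (toU D.a) (cod D q) (Pi.single m 1) k * φ k
      = (∑ k ∈ Finset.univ.filter (fun k : UNL.G N => ac q k = m), φ k) - φ m := by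
    have h4 : ∀ k : UNL.G N, Rl (toU D.a) (cod D q) (Pi.single m 1) k * φ k
        = (if ac q k = m then φ k else 0) - (if k = m then φ m else 0) := by
      intro k
      have e1 : (Pi.single m (1 : ℚ) : UNL.G N → ℚ) (UNL.sm (toU D.a) (cod D q) k)
          = if ac q k = m then 1 else 0 := by
        rw [Pi.single_apply]; rfl
      have e2 : (if ∃ j : UNL.G N, UNL.sm (toU D.a) (cod D q) j = k then
          (Pi.single m (1 : ℚ) : UNL.G N → ℚ) k else 0) = if k = m then 1 else 0 := by
        rw [Pi.single_apply]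
        by_cases hk : k = m
        · subst hk
          rw [if_pos (show ∃ j : UNL.G N, UNL.sm (toU D.a) (cod D q) j = k from hm)]
        · rw [if_neg hk]
          split_ifs <;> rfl
      have e3 : Rl (toU D.a) (cod D q) (Pi.single m 1) k
          = (if ac q k = m then 1 else 0) - (if k = m then 1 else 0) := by
        rw [← e1, ← e2]
        unfold Rl
        congr 1
        congr
      rw [e3, sub_mul]
      congr 1
      · split_ifs <;> simp
      · by_cases hk : k = m
        · subst hk; simp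
        · simp [hk]
    rw [Finset.sum_congr rfl fun k _ => h4 k, Finset.sum_sub_distrib, Finset.sum_filter]
    congr 1
    rw [Finset.sum_ite_eq' Finset.univ m]
    simp
  rw [h3] at h1
  have h5 : (∑ k ∈ Finset.univ.filter (fun k : UNL.G N => ac q k = m), φ k) = φ m := by linarith
  show ∑ k ∈ Finset.univ.filter (fun k : UNL.G N => ac q k = m), ((φ k : ℚ) : ℂ) = ((φ m : ℚ) : ℂ)
  have h6 : ((∑ k ∈ Finset.univ.filter (fun k : UNL.G N => ac q k = m), φ k : ℚ) : ℂ)
      = ((φ m : ℚ) : ℂ) := by rw [h5]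
  rw [← h6, Rat.cast_sum]

end

end RN2
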