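import Pool.Agent.RN2.Bs
import Pool.Agent.UNL.Gen
import Pool.Agent.UNL.AMain

/-!
# RN2.Sy: symmetrisation of a weight

`E(k,l) = W(k,l) + W(-k,l) + W(k,-l) + W(-k,-l)`, `A(k,l) = E(k,l) - E(l,k)`, and `syW W = A` off the axes,
`syW W 0 l = - Σ_{j≠0} A(j,l)`, `syW W k 0 = - Σ_{j≠0} A(k,j)`, `syW W 0 0 = 0`.
* symmetric properties, row sums: `A` is even in both variables and antisymmetric. The sum over `k` of `syW k 0` is
  `- Σ_{k,j≠0} A(k,j) = 0`.
* `sy_inv`: `k ↦ d k` is a bijection fixing `0` (`d` prime to `N`: `RNK/Wa`, `Wa_inv`).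
* `sy_closed`: `xi`, `Gen.Xi` only involve `k, l ≠ 0`. Changing `k` to `-k` or `l` to `-l` does not change the terms
  (`P` even, `tp (-k) = -tp k` mod `L`: `UNL.Gen.tp_neg`, so `Af k = Af (-k)`, `Yf (tp k) = Yf (tp (-k))`, the index sets
  are the same), so `bdry b E Φ = 4 bdry b W Φ`. Let `Φ' = Φ ∘ swap`, `swap f (u,v) = f (v,u)` (a homomorphism of
  `Additive (Gn b N → ℂˣ)`; generic points are stable under the swap). Then `bdry b Wᵀ Φ = bdry b W Φ'`, because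
  `F_h(v,u) = 1 / F_h(u,v)` and `(1 - 1/F) ∧ (1/F) = - (1 - F) ∧ F` up to `2`-torsion (`Φ` has values in `ℂ`; `-1` has
  order two), `C` is even, and `s, t` are exchanged. So `bdry b (syW W) Φ = 4 bdry b W Φ - 4 bdry b W Φ'`.
* `sy_reg`: in the same way `XReg(syW W)(u,v) = 4 XReg(W)(u,v) + 4 XReg(W)(v,u)` at generic points (almost
  everywhere): `BW (1/F) = - BW F` (`EE7`: see `BWa`), `wedge g h (u,v) = - wedge (g∘swap) (h∘swap) (v,u)`. The
  integral is invariant under the swap.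
-/

open RNK MeasureTheory

namespace RN2

noncomputable section

/-- the even antisymmetric part -/
def syA {Γ : Type*} [AddCommGroup Γ] (W : Γ → Γ → ℤ) (k l : Γ) : ℤ :=
  (W k l + W (-k) l + W k (-l) + W (-k) (-l)) - (W l k + W (-l) k + W l (-k) + W (-l) (-k))

open Classical in
/-- the symmetrised weight with row sums `0` -/
def syW {Γ : Type*} [AddCommGroup Γ] [Fintype Γ] (W : Γ → Γ → ℤ) (k l : Γ) : ℤ :=
  if k = 0 then (if l = 0 then 0 else -∑ j ∈ Finset.univ.erase 0, syA W j l)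
  else (if l = 0 then -∑ j ∈ Finset.univ.erase 0, syA W k j else syA W k l)

section

variable {Γ : Type*} [AddCommGroup Γ] [Fintype Γ] (W : Γ → Γ → ℤ)

omit [Fintype Γ] in
private theorem sy_A_neg1 (k l : Γ) : syA W (-k) l = syA W k l := by
  simp only [syA, neg_neg]; ring

omit [Fintype Γ] in
private theorem sy_A_neg2 (k l : Γ) : syA W k (-l) = syA W k l := by
  simp only [syA, neg_neg]; ring

omit [Fintype Γ] in
private theorem sy_A_anti (k l : Γ) : syA W l k = -syA W k l := by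
  simp only [syA]; ring

theorem sy_even (k l : Γ) : syW W (-k) l = syW W k l := by
  unfold syW
  by_cases hk : k = 0
  · subst hk; simp
  · have h : -k ≠ 0 := neg_ne_zero.2 hk
    rw [if_neg h, if_neg hk]
    simp only [sy_A_neg1]

theorem sy_anti (k l : Γ) : syW W l k = -syW W k l := by
  unfold syW
  by_cases hk : k = 0
  · by_cases hl : l = 0
    · rw [if_pos hl, if_pos hk, if_pos hk, if_pos hl, neg_zero]
    · rw [if_neg hl, if_pos hk, if_pos hk, if_neg hl, neg_neg, ← Finset.sum_neg_distrib]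
      exact Finset.sum_congr rfl fun j _ => by rw [sy_A_anti W l j]
  · by_cases hl : l = 0
    · rw [if_pos hl, if_neg hk, if_neg hk, if_pos hl, neg_neg, ← Finset.sum_neg_distrib]
      exact Finset.sum_congr rfl fun j _ => by rw [sy_A_anti W k j, neg_neg]
    · rw [if_neg hl, if_neg hk, if_neg hk, if_neg hl]
      exact sy_A_anti W k l

private theorem sy_ex {k : Γ} (k0 : k ≠ 0) (hk : syW W k 0 ≠ 0) :
    ∃ j : Γ, j ≠ 0 ∧ syA W k j ≠ 0 := by
  classical
  rw [syW, if_neg k0, if_pos rfl, neg_ne_zero] at hk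
  obtain ⟨j, hj, hj'⟩ := Finset.exists_ne_zero_of_sum_ne_zero hk
  exact ⟨j, Finset.ne_of_mem_erase hj, hj'⟩

private theorem sy_reidx {f g : Γ → Γ} (h1 : ∀ x, f (g x) = x) (h2 : ∀ x, g (f x) = x)
    (hf : f 0 = 0) (hg : g 0 = 0) (hW : ∀ x y, syA W (f x) (f y) = syA W x y) (k l : Γ) :
    syW W (f k) (f l) = syW W k l := by
  classical
  have h0 : ∀ x : Γ, f x = 0 ↔ x = 0 := by
    intro x
    constructor
    · intro hx
      rw [← h2 x, hx, hg]
    · rintro rfl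
      exact hf
  have hs : ∀ φ : Γ → ℤ, ∑ j ∈ Finset.univ.erase (0 : Γ), φ (f j) =
      ∑ j ∈ Finset.univ.erase (0 : Γ), φ j := by
    intro φ
    refine Finset.sum_nbij' f g ?_ ?_ ?_ ?_ ?_
    · intro x hx
      exact Finset.mem_erase.2 ⟨fun hc => Finset.ne_of_mem_erase hx ((h0 x).1 hc), Finset.mem_univ _⟩
    · intro x hx
      refine Finset.mem_erase.2 ⟨fun hc => Finset.ne_of_mem_erase hx ?_, Finset.mem_univ _⟩
      rw [← h1 x, hc, hf]
    · intro x _
      exact h2 x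
    · intro x _
      exact h1 x
    · intro x _
      rfl
  unfold syW
  by_cases hk : k = 0
  · by_cases hl : l = 0
    · rw [if_pos ((h0 k).2 hk), if_pos ((h0 l).2 hl), if_pos hk, if_pos hl]
    · rw [if_pos ((h0 k).2 hk), if_neg (fun hc => hl ((h0 l).1 hc)), if_pos hk, if_neg hl,
        ← hs (fun j => syA W j (f l))]
      simp only [hW]
  · by_cases hl : l = 0
    · rw [if_neg (fun hc => hk ((h0 k).1 hc)), if_pos ((h0 l).2 hl), if_neg hk, if_pos hl,
        ← hs (fun j => syA W (f k) j)]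
      simp only [hW]
    · rw [if_neg (fun hc => hk ((h0 k).1 hc)), if_neg (fun hc => hl ((h0 l).1 hc)), if_neg hk,
        if_neg hl]
      exact hW k l

theorem sy_row (l : Γ) : ∑ k, syW W k l = 0 := by
  classical
  rw [← Finset.add_sum_erase Finset.univ (fun k => syW W k l) (Finset.mem_univ (0 : Γ))]
  by_cases hl : l = 0
  · have h1 : ∀ k ∈ Finset.univ.erase (0 : Γ), syW W k l = -∑ j ∈ Finset.univ.erase 0, syA W k j := by
      intro k hk
      rw [syW, if_neg (Finset.ne_of_mem_erase hk), if_pos hl]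
    rw [Finset.sum_congr rfl h1]
    have h0 : syW W 0 l = 0 := by rw [syW, if_pos rfl, if_pos hl]
    have h2 : ∑ k ∈ Finset.univ.erase (0 : Γ), ∑ j ∈ Finset.univ.erase 0, syA W k j =
        -∑ k ∈ Finset.univ.erase (0 : Γ), ∑ j ∈ Finset.univ.erase 0, syA W k j := by
      conv_lhs => rw [Finset.sum_comm]
      rw [← Finset.sum_neg_distrib]
      refine Finset.sum_congr rfl fun k _ => ?_
      rw [← Finset.sum_neg_distrib]
      exact Finset.sum_congr rfl fun j _ => sy_A_anti W k j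
    rw [h0, Finset.sum_neg_distrib]
    omega
  · have h1 : ∀ k ∈ Finset.univ.erase (0 : Γ), syW W k l = syA W k l := by
      intro k hk
      rw [syW, if_neg (Finset.ne_of_mem_erase hk), if_neg hl]
    rw [Finset.sum_congr rfl h1]
    have h0 : syW W 0 l = -∑ j ∈ Finset.univ.erase 0, syA W j l := by
      rw [syW, if_pos rfl, if_neg hl]
    rw [h0]
    exact neg_add_cancel _

end

variable {b : UNL.Par} {N : ℕ} [NeZero N] {W : UNL.G N → UNL.G N → ℤ}

omit [NeZero N] in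
private theorem sy_A_supp
    (h : ∀ k l, k ≠ 0 → l ≠ 0 → W k l ≠ 0 → (N / 2) • k = 0 ∧ (N / 2) • l = 0)
    {k l : UNL.G N} (hk : k ≠ 0) (hl : l ≠ 0) (hA : syA W k l ≠ 0) : (N / 2) • k = 0 := by
  by_contra hc
  have nk : -k ≠ 0 := neg_ne_zero.2 hk
  have nl : -l ≠ 0 := neg_ne_zero.2 hl
  have hc' : ¬ (N / 2) • (-k) = 0 := by rwa [smul_neg, neg_eq_zero]
  have f1 : ∀ x, x ≠ 0 → W k x = 0 := fun x hx => by
    by_contra h1
    exact hc (h k x hk hx h1).1
  have f2 : ∀ x, x ≠ 0 → W x k = 0 := fun x hx => by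
    by_contra h1
    exact hc (h x k hx hk h1).2
  have f3 : ∀ x, x ≠ 0 → W (-k) x = 0 := fun x hx => by
    by_contra h1
    exact hc' (h (-k) x nk hx h1).1
  have f4 : ∀ x, x ≠ 0 → W x (-k) = 0 := fun x hx => by
    by_contra h1
    exact hc' (h x (-k) hx nk h1).2
  apply hA
  simp only [syA]
  rw [f1 l hl, f1 (-l) nl, f2 l hl, f2 (-l) nl, f3 l hl, f3 (-l) nl, f4 l hl, f4 (-l) nl]
  norm_num

theorem sy_supp (h : ∀ k l, k ≠ 0 → l ≠ 0 → W k l ≠ 0 → (N / 2) • k = 0 ∧ (N / 2) • l = 0)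
    (k l : UNL.G N) (hk : syW W k l ≠ 0) : (N / 2) • k = 0 := by
  by_cases k0 : k = 0
  · rw [k0, smul_zero]
  · by_cases l0 : l = 0
    · rw [l0] at hk
      obtain ⟨j, hj, hj'⟩ := sy_ex W k0 hk
      exact sy_A_supp h k0 hj hj'
    · rw [syW, if_neg k0, if_neg l0] at hk
      exact sy_A_supp h k0 l0 hk

/-! ### invariance -/

private def syMu (b : UNL.Par) (d e : ℤ × ℤ) : ℤ × ℤ :=
  (d.1 * e.1 - b.A * b.C * d.2 * e.2, d.1 * e.2 + d.2 * e.1 + b.B * d.2 * e.2)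

private theorem sy_de_mul (b : UNL.Par) (d e : ℤ × ℤ) :
    UNL.de b d * UNL.de b e = UNL.de b (syMu b d e) := by
  have h := UNL.alp_sq b
  unfold UNL.de syMu
  push_cast at h ⊢
  linear_combination ((d.2 : ℂ) * e.2) * h

private theorem sy_de_inj (b : UNL.Par) {d e : ℤ × ℤ} (h : UNL.de b d = UNL.de b e) : d = e := by
  have hs := UNL.alp_im_pos b
  unfold UNL.de at h
  have him := congrArg Complex.im h
  have hre := congrArg Complex.re h
  simp only [Complex.add_im, Complex.mul_im, Complex.intCast_im, Complex.intCast_re,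
    Complex.add_re, Complex.mul_re] at him hre
  have h2 : (d.2 : ℝ) = e.2 := by
    have h3 : ((d.2 : ℝ) - e.2) * (UNL.alp b).im = 0 := by linarith
    rcases mul_eq_zero.1 h3 with h0 | h0
    · linarith
    · exact absurd h0 hs.ne'
  have h1 : (d.1 : ℝ) = e.1 := by
    rw [h2] at hre
    linarith
  ext
  · exact_mod_cast h1
  · exact_mod_cast h2

omit [NeZero N] in
private theorem sy_sm_mul (b : UNL.Par) (d e : ℤ × ℤ) (k : UNL.G N) :
    UNL.sm b d (UNL.sm b e k) = UNL.sm b (syMu b d e) k := by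
  unfold UNL.sm syMu
  ext
  · push_cast
    ring
  · push_cast
    ring

omit [NeZero N] in
private theorem sy_sm_comm (b : UNL.Par) (d e : ℤ × ℤ) (k : UNL.G N) :
    UNL.sm b d (UNL.sm b e k) = UNL.sm b e (UNL.sm b d k) := by
  unfold UNL.sm
  ext
  · push_cast
    ring
  · push_cast
    ring

omit [NeZero N] in
private theorem sy_sm_zero (b : UNL.Par) (d : ℤ × ℤ) : UNL.sm b d (0 : UNL.G N) = 0 := by
  unfold UNL.sm
  ext <;> simp

omit [NeZero N] in
private theorem sy_sm_neg (b : UNL.Par) (d : ℤ × ℤ) (k : UNL.G N) :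
    UNL.sm b d (-k) = -UNL.sm b d k := by
  unfold UNL.sm
  ext
  · simp only [Prod.fst_neg, Prod.snd_neg]
    ring
  · simp only [Prod.fst_neg, Prod.snd_neg]
    ring

omit [NeZero N] in
/-- the inverse -/
private theorem sy_sm_inv {b : UNL.Par} {d : ℤ × ℤ}
    (hd : ∃ e z : ℤ × ℤ, UNL.de b d * UNL.de b e + N * UNL.de b z = 1) :
    ∃ e : ℤ × ℤ, (∀ k : UNL.G N, UNL.sm b d (UNL.sm b e k) = k) ∧
      ∀ k : UNL.G N, UNL.sm b e (UNL.sm b d k) = k := by
  obtain ⟨e, z, h⟩ := hd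
  have h1 : syMu b d e + ((N : ℤ) * z.1, (N : ℤ) * z.2) = (1, 0) := by
    apply sy_de_inj b
    have h2 : UNL.de b (syMu b d e + ((N : ℤ) * z.1, (N : ℤ) * z.2)) =
        UNL.de b (syMu b d e) + N * UNL.de b z := by
      unfold UNL.de
      simp only [Prod.fst_add, Prod.snd_add]
      push_cast
      ring
    rw [h2, ← sy_de_mul, h]
    unfold UNL.de
    simp
  have ha : ((syMu b d e).1 : ZMod N) = 1 := by
    have := congrArg (fun x : ℤ × ℤ => (x.1 : ZMod N)) h1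
    simpa using this
  have hb : ((syMu b d e).2 : ZMod N) = 0 := by
    have := congrArg (fun x : ℤ × ℤ => (x.2 : ZMod N)) h1
    simpa using this
  have key : ∀ k : UNL.G N, UNL.sm b d (UNL.sm b e k) = k := by
    intro k
    rw [sy_sm_mul]
    unfold UNL.sm
    rw [ha, hb]
    ext
    · simp
    · simp
  refine ⟨e, key, ?_⟩
  intro k
  rw [sy_sm_comm]
  exact key k

theorem sy_inv (hA : b.A = 1)
    (h : ∀ d : ℤ × ℤ, (∃ e z : ℤ × ℤ, UNL.de b d * UNL.de b e + N * UNL.de b z = 1) →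
      ∀ k l, W (UNL.sm b d k) (UNL.sm b d l) = W k l) :
    ∀ d : ℤ × ℤ, (∃ e z : ℤ × ℤ, UNL.de b d * UNL.de b e + N * UNL.de b z = 1) →
      ∀ k l, syW W (UNL.sm b d k) (UNL.sm b d l) = syW W k l := by
  intro d hd k l
  obtain ⟨e, h1, h2⟩ := sy_sm_inv (N := N) hd
  have hW := h d hd
  refine sy_reidx W h1 h2 (sy_sm_zero b d) (sy_sm_zero b e) ?_ k l
  intro x y
  simp only [syA, ← sy_sm_neg, hW]

/-! ### closedness -/

section Alt

variable {A : Type*} [AddCommGroup A] (Φ : A [⋀^Fin 4]→ₗ[ℤ] ℂ)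

private theorem sy_swap01 (x y z w : A) : Φ ![y, x, z, w] = -Φ ![x, y, z, w] := by
  rw [← Φ.map_swap ![x, y, z, w] (show (0 : Fin 4) ≠ 1 by decide)]
  congr 1
  funext i
  fin_cases i <;> rfl

private theorem sy_swap23 (x y z w : A) : Φ ![x, y, w, z] = -Φ ![x, y, z, w] := by
  rw [← Φ.map_swap ![x, y, z, w] (show (2 : Fin 4) ≠ 3 by decide)]
  congr 1
  funext i
  fin_cases i <;> rfl

private theorem sy_add0 (x x' y z w : A) :
    Φ ![x + x', y, z, w] = Φ ![x, y, z, w] + Φ ![x', y, z, w] :=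
  Φ.toMultilinearMap.cons_add (![y, z, w] : Fin 3 → A) x x'

/-- the first variable -/
private def syf0 (y z w : A) : A →+ ℂ :=
  AddMonoidHom.mk' (fun x => Φ ![x, y, z, w]) fun x x' => sy_add0 Φ x x' y z w

private theorem sy_f0 (x y z w : A) : syf0 Φ y z w x = Φ ![x, y, z, w] := rfl

private theorem sy_neg0 (x y z w : A) : Φ ![-x, y, z, w] = -Φ ![x, y, z, w] := by
  rw [← sy_f0, map_neg, sy_f0]

private theorem sy_neg1 (x y z w : A) : Φ ![x, -y, z, w] = -Φ ![x, y, z, w] := by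
  rw [sy_swap01, sy_neg0, sy_swap01, neg_neg, sy_swap01, neg_neg, sy_swap01]

private theorem sy_eq01 (x z w : A) : Φ ![x, x, z, w] = 0 := by
  have h := sy_swap01 Φ x x z w
  have h2 : 2 * Φ ![x, x, z, w] = 0 := by linear_combination h
  exact (mul_eq_zero.1 h2).resolve_left two_ne_zero

/-- the class of `1 - 1/F` is `m + q - p`, the class of `1/F` is `-p` -/
private theorem sy_alg {m p q : A} (hm : m + m = 0) (z w : A) :
    Φ ![m + q - p, -p, w, z] = Φ ![q, p, z, w] := by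
  have h0 : Φ ![m, p, w, z] = 0 := by
    have h1 : syf0 Φ p w z (m + m) = 0 := by rw [hm, map_zero]
    rw [map_add, sy_f0] at h1
    have h2 : 2 * Φ ![m, p, w, z] = 0 := by linear_combination h1
    exact (mul_eq_zero.1 h2).resolve_left two_ne_zero
  rw [sy_neg1, ← sy_f0, map_sub, map_add, sy_f0, sy_f0, sy_f0, h0, sy_eq01, sy_swap23]
  ring

end Alt

private theorem sy_P_neg0 (b : UNL.Par) (k : UNL.G N) :
    UNL.P b (UNL.tp b (-k)) = UNL.P b (UNL.tp b k) := by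
  obtain ⟨n, hn⟩ := UNL.Gen.tp_neg b k
  rw [hn, UNL.Gen.P_per b, UNL.Gen.P_neg]

private theorem sy_Af_neg (b : UNL.Par) (k : UNL.G N) (z : ℂ) :
    UNL.Af b (-k) z = UNL.Af b k z := by
  simp only [UNL.Af, sy_P_neg0]

private theorem sy_Yf_neg (b : UNL.Par) (k : UNL.G N) (y z : ℂ) :
    UNL.Yf b (UNL.tp b (-k)) y z = UNL.Yf b (UNL.tp b k) y z := by
  simp only [UNL.Yf, sy_P_neg0]

private theorem sy_Cf_neg (b : UNL.Par) (N : ℕ) [NeZero N] (z : ℂ) :
    UNL.Cf b N (-z) = UNL.Cf b N z := by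
  simp only [UNL.Cf, UNL.Gen.P_neg]

/-- the summand of `xi` -/
private def syX (b : UNL.Par) {N : ℕ} [NeZero N] {B : Type*} [AddCommGroup B]
    (T : (ℂ → ℂ → ℂ) → (ℂ → ℂ → ℂ) → (ℂ → ℂ → ℂ) → B) (k l : UNL.G N) : B :=
  (4 : ℤ) • (∑ h ∈ (Finset.univ : Finset (UNL.G N)).erase 0,
        T (fun u v => UNL.Ff b (UNL.tp b h) u v) (fun u _ => UNL.Af b k u)
          (fun _ v => UNL.Af b l v))
      + (∑ j ∈ (((Finset.univ : Finset (UNL.G N)).erase 0).erase k).erase (-k),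
        T (fun u _ => UNL.Yf b (UNL.tp b k) (UNL.tp b j) u) (fun u v => UNL.Cf b N (u - v))
          (fun _ v => UNL.Af b l v))
      + (∑ j ∈ (((Finset.univ : Finset (UNL.G N)).erase 0).erase l).erase (-l),
        T (fun _ v => UNL.Yf b (UNL.tp b l) (UNL.tp b j) v) (fun u v => UNL.Cf b N (u - v))
          (fun u _ => UNL.Af b k u))

private theorem sy_xi (b : UNL.Par) (W : UNL.G N → UNL.G N → ℤ) {B : Type*} [AddCommGroup B]
    (T : (ℂ → ℂ → ℂ) → (ℂ → ℂ → ℂ) → (ℂ → ℂ → ℂ) → B) :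
    UNL.xi b W T = ∑ k ∈ (Finset.univ : Finset (UNL.G N)).erase 0,
      ∑ l ∈ (Finset.univ : Finset (UNL.G N)).erase 0, W k l • syX b T k l := rfl

private theorem sy_erase (k : UNL.G N) :
    (((Finset.univ : Finset (UNL.G N)).erase 0).erase (-k)).erase (- -k) =
      (((Finset.univ : Finset (UNL.G N)).erase 0).erase k).erase (-k) := by
  rw [neg_neg, Finset.erase_right_comm]

private theorem sy_X1 (b : UNL.Par) {B : Type*} [AddCommGroup B]
    (T : (ℂ → ℂ → ℂ) → (ℂ → ℂ → ℂ) → (ℂ → ℂ → ℂ) → B) (k l : UNL.G N) :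
    syX b T (-k) l = syX b T k l := by
  simp only [syX, sy_Af_neg, sy_Yf_neg, sy_erase]

private theorem sy_X2 (b : UNL.Par) {B : Type*} [AddCommGroup B]
    (T : (ℂ → ℂ → ℂ) → (ℂ → ℂ → ℂ) → (ℂ → ℂ → ℂ) → B) (k l : UNL.G N) :
    syX b T k (-l) = syX b T k l := by
  simp only [syX, sy_Af_neg, sy_Yf_neg, sy_erase]

private theorem sy_sum_neg {B : Type*} [AddCommGroup B] (f : UNL.G N → B) :
    ∑ k ∈ (Finset.univ : Finset (UNL.G N)).erase 0, f (-k) =
      ∑ k ∈ (Finset.univ : Finset (UNL.G N)).erase 0, f k := by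
  refine Finset.sum_nbij' (fun k => -k) (fun k => -k) ?_ ?_ ?_ ?_ ?_
  · intro x hx
    exact Finset.mem_erase.2 ⟨neg_ne_zero.2 (Finset.ne_of_mem_erase hx), Finset.mem_univ _⟩
  · intro x hx
    exact Finset.mem_erase.2 ⟨neg_ne_zero.2 (Finset.ne_of_mem_erase hx), Finset.mem_univ _⟩
  · intro x _
    exact neg_neg x
  · intro x _
    exact neg_neg x
  · intro x _
    rfl

private theorem sy_sum (W : UNL.G N → UNL.G N → ℤ) {B : Type*} [AddCommGroup B]
    (X : UNL.G N → UNL.G N → B) (hX1 : ∀ k l, X (-k) l = X k l) (hX2 : ∀ k l, X k (-l) = X k l) :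
    ∑ k ∈ (Finset.univ : Finset (UNL.G N)).erase 0,
      ∑ l ∈ (Finset.univ : Finset (UNL.G N)).erase 0, syW W k l • X k l =
    (4 : ℤ) • (∑ k ∈ (Finset.univ : Finset (UNL.G N)).erase 0,
      ∑ l ∈ (Finset.univ : Finset (UNL.G N)).erase 0, W k l • X k l) -
    (4 : ℤ) • (∑ k ∈ (Finset.univ : Finset (UNL.G N)).erase 0,
      ∑ l ∈ (Finset.univ : Finset (UNL.G N)).erase 0, W k l • X l k) := by
  have n1 : ∀ V : UNL.G N → UNL.G N → ℤ, ∑ k ∈ (Finset.univ : Finset (UNL.G N)).erase 0,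
      ∑ l ∈ (Finset.univ : Finset (UNL.G N)).erase 0, V (-k) l • X k l =
      ∑ k ∈ (Finset.univ : Finset (UNL.G N)).erase 0,
      ∑ l ∈ (Finset.univ : Finset (UNL.G N)).erase 0, V k l • X k l := by
    intro V
    rw [← sy_sum_neg (fun k => ∑ l ∈ (Finset.univ : Finset (UNL.G N)).erase 0, V k l • X k l)]
    simp only [hX1]
  have n2 : ∀ V : UNL.G N → UNL.G N → ℤ, ∑ k ∈ (Finset.univ : Finset (UNL.G N)).erase 0,
      ∑ l ∈ (Finset.univ : Finset (UNL.G N)).erase 0, V k (-l) • X k l =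
      ∑ k ∈ (Finset.univ : Finset (UNL.G N)).erase 0,
      ∑ l ∈ (Finset.univ : Finset (UNL.G N)).erase 0, V k l • X k l := by
    intro V
    refine Finset.sum_congr rfl fun k _ => ?_
    rw [← sy_sum_neg (fun l => V k l • X k l)]
    simp only [hX2]
  have tr : ∑ k ∈ (Finset.univ : Finset (UNL.G N)).erase 0,
      ∑ l ∈ (Finset.univ : Finset (UNL.G N)).erase 0, W k l • X l k =
      ∑ k ∈ (Finset.univ : Finset (UNL.G N)).erase 0,
      ∑ l ∈ (Finset.univ : Finset (UNL.G N)).erase 0, W l k • X k l := Finset.sum_comm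
  have e : ∀ k ∈ (Finset.univ : Finset (UNL.G N)).erase 0,
      ∀ l ∈ (Finset.univ : Finset (UNL.G N)).erase 0, syW W k l • X k l =
      W k l • X k l + W (-k) l • X k l + W k (-l) • X k l + W (-k) (-l) • X k l -
      (W l k • X k l + W (-l) k • X k l + W l (-k) • X k l + W (-l) (-k) • X k l) := by
    intro k hk l hl
    rw [syW, if_neg (Finset.ne_of_mem_erase hk), if_neg (Finset.ne_of_mem_erase hl), syA]
    simp only [sub_smul, add_smul]
  rw [Finset.sum_congr rfl fun k hk => Finset.sum_congr rfl fun l hl => e k hk l hl]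
  simp only [Finset.sum_add_distrib, Finset.sum_sub_distrib]
  rw [n1 (fun k l => W k l), n2 (fun k l => W k l), n1 (fun k l => W k (-l)),
    n2 (fun k l => W k l), n2 (fun k l => W l k), n1 (fun k l => W l k),
    n1 (fun k l => W (-l) k), n2 (fun k l => W l k), tr]
  abel

/-- the swap on the generic points -/
private def sysw (b : UNL.Par) (N : ℕ) (q : UNL.Gn b N) : UNL.Gn b N :=
  ⟨(q.1.2, q.1.1), q.2.2.1, q.2.1, by rw [add_comm]; exact q.2.2.2.1, by
    have h := (UNL.Gen.ofl_neg b (u := (N : ℂ) * (q.1.1 - q.1.2))).2 q.2.2.2.2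
    have e : (N : ℂ) * (q.1.2 - q.1.1) = -((N : ℂ) * (q.1.1 - q.1.2)) := by ring
    show UNL.Ofl b ((N : ℂ) * (q.1.2 - q.1.1))
    rw [e]
    exact h⟩

/-- the swap on functions -/
private def syS (b : UNL.Par) (N : ℕ) :
    Additive (UNL.Gn b N → ℂˣ) →ₗ[ℤ] Additive (UNL.Gn b N → ℂˣ) :=
  (AddMonoidHom.mk' (fun f => Additive.ofMul (fun q => (Additive.toMul f) (sysw b N q)))
    fun _ _ => rfl).toIntLinearMap

omit [NeZero N] in
private theorem sy_cl (b : UNL.Par) (f : ℂ → ℂ → ℂ) :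
    syS b N (UNL.cl b N f) = UNL.cl b N (fun u v => f v u) := rfl

omit [NeZero N] in
private theorem sy_cl_tr (b : UNL.Par) (s t : UNL.G N) (f : ℂ → ℂ → ℂ) :
    syS b N (UNL.cl b N (UNL.tr b s t f)) = UNL.cl b N (UNL.tr b t s (fun u v => f v u)) := rfl

/-- the functional -/
private def syT (b : UNL.Par) {N : ℕ} (Φ : (Additive (UNL.Gn b N → ℂˣ)) [⋀^Fin 4]→ₗ[ℤ] ℂ)
    (s t : UNL.G N) (F g h : ℂ → ℂ → ℂ) : ℂ :=
  Φ ![UNL.cl b N (UNL.tr b s t (fun u v => 1 - F u v)), UNL.cl b N (UNL.tr b s t F),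
    UNL.cl b N (UNL.tr b s t g), UNL.cl b N (UNL.tr b s t h)]

omit [NeZero N] in
private theorem sy_T_swap (b : UNL.Par) (Φ : (Additive (UNL.Gn b N → ℂˣ)) [⋀^Fin 4]→ₗ[ℤ] ℂ)
    (s t : UNL.G N) (F g h : ℂ → ℂ → ℂ) :
    syT b (Φ.compLinearMap (syS b N)) s t F g h =
      syT b Φ t s (fun u v => F v u) (fun u v => g v u) (fun u v => h v u) := by
  unfold syT
  rw [AlternatingMap.compLinearMap_apply]
  congr 1
  funext i
  fin_cases i <;> rfl

private theorem sy_T_inv (b : UNL.Par) (Φ : (Additive (UNL.Gn b N → ℂˣ)) [⋀^Fin 4]→ₗ[ℤ] ℂ)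
    (s t : UNL.G N) {h : UNL.G N} (hh : h ≠ 0) (x y : ℂ → ℂ → ℂ) :
    syT b Φ s t (fun u v => UNL.Ff b (UNL.tp b h) v u) y x =
      syT b Φ s t (fun u v => UNL.Ff b (UNL.tp b h) u v) x y := by
  have gp : ∀ q : UNL.Gn b N, UNL.Gen.Gp b N (q.1.1 + UNL.tp b s) (q.1.2 + UNL.tp b t) :=
    fun q => UNL.Gen.Gp_add b q.2 s t
  have n0 : ∀ q : UNL.Gn b N,
      UNL.tr b s t (fun u v => UNL.Ff b (UNL.tp b h) u v) q.1.1 q.1.2 ≠ 0 := fun q =>
    UNL.Gen.F_ne b (gp q) hh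
  have n1 : ∀ q : UNL.Gn b N,
      UNL.tr b s t (fun u v => 1 - UNL.Ff b (UNL.tp b h) u v) q.1.1 q.1.2 ≠ 0 := fun q =>
    sub_ne_zero.2 (Ne.symm (UNL.Gen.F_ne_one b (gp q) hh))
  have iv : ∀ u v : ℂ, UNL.Ff b (UNL.tp b h) v u = (UNL.Ff b (UNL.tp b h) u v)⁻¹ := by
    intro u v
    simp only [UNL.Ff, inv_div]
  have m0 : ∀ q : UNL.Gn b N,
      UNL.tr b s t (fun u v => UNL.Ff b (UNL.tp b h) v u) q.1.1 q.1.2 ≠ 0 := fun q => by
    have := n0 q
    simp only [UNL.tr] at this ⊢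
    rw [iv]
    exact inv_ne_zero this
  have m1 : ∀ q : UNL.Gn b N,
      UNL.tr b s t (fun u v => 1 - UNL.Ff b (UNL.tp b h) v u) q.1.1 q.1.2 ≠ 0 := fun q => by
    have h1 := n0 q
    have h2 := n1 q
    simp only [UNL.tr] at h1 h2 ⊢
    rw [iv]
    intro hc
    apply h2
    have h3 : (UNL.Ff b (UNL.tp b h) (q.1.1 + UNL.tp b s) (q.1.2 + UNL.tp b t))⁻¹ = 1 := by
      linear_combination -hc
    rw [inv_eq_one] at h3
    rw [h3, sub_self]
  have ep : UNL.cl b N (UNL.tr b s t (fun u v => UNL.Ff b (UNL.tp b h) v u)) =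
      -UNL.cl b N (UNL.tr b s t (fun u v => UNL.Ff b (UNL.tp b h) u v)) := by
    rw [UNL.cl_val b N m0, UNL.cl_val b N n0, ← ofMul_inv]
    congr 1
    funext q
    ext
    simp only [Units.val_mk0, Pi.inv_apply, Units.val_inv_eq_inv_val, UNL.tr]
    exact iv _ _
  have eq : UNL.cl b N (UNL.tr b s t (fun u v => 1 - UNL.Ff b (UNL.tp b h) v u)) =
      Additive.ofMul (fun _ => (-1 : ℂˣ)) +
      UNL.cl b N (UNL.tr b s t (fun u v => 1 - UNL.Ff b (UNL.tp b h) u v)) -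
      UNL.cl b N (UNL.tr b s t (fun u v => UNL.Ff b (UNL.tp b h) u v)) := by
    rw [UNL.cl_val b N m1, UNL.cl_val b N n0, UNL.cl_val b N n1, ← ofMul_mul, ← ofMul_div]
    congr 1
    funext q
    ext
    have h1 := n0 q
    simp only [UNL.tr] at h1
    simp only [Units.val_mk0, Pi.div_apply, Pi.mul_apply, Units.val_div_eq_div_val,
      Units.val_mul, Units.val_neg, Units.val_one, UNL.tr]
    rw [iv]
    field_simp
    ring
  have mm : (Additive.ofMul (fun _ : UNL.Gn b N => (-1 : ℂˣ))) +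
      Additive.ofMul (fun _ : UNL.Gn b N => (-1 : ℂˣ)) = 0 := by
    rw [← ofMul_mul, ← ofMul_one]
    congr 1
    funext q
    simp
  unfold syT
  rw [eq, ep]
  exact sy_alg Φ mm _ _

private theorem sy_X_swap (b : UNL.Par) (Φ : (Additive (UNL.Gn b N → ℂˣ)) [⋀^Fin 4]→ₗ[ℤ] ℂ)
    (s t k l : UNL.G N) :
    syX b (syT b (Φ.compLinearMap (syS b N)) s t) k l = syX b (syT b Φ t s) l k := by
  simp only [syX, sy_T_swap]
  have hC : (fun u v : ℂ => UNL.Cf b N (v - u)) = fun u v => UNL.Cf b N (u - v) := by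
    funext u v
    rw [← sy_Cf_neg, neg_sub]
  rw [hC]
  have hF : ∀ h ∈ (Finset.univ : Finset (UNL.G N)).erase 0,
      syT b Φ t s (fun u v => UNL.Ff b (UNL.tp b h) v u) (fun _ v => UNL.Af b k v)
        (fun u _ => UNL.Af b l u) =
      syT b Φ t s (fun u v => UNL.Ff b (UNL.tp b h) u v) (fun u _ => UNL.Af b l u)
        (fun _ v => UNL.Af b k v) := fun h hh =>
    sy_T_inv b Φ t s (Finset.ne_of_mem_erase hh) _ _
  rw [Finset.sum_congr rfl hF, add_right_comm]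

theorem sy_closed (h : ∀ Φ : (Additive (UNL.Gn b N → ℂˣ)) [⋀^Fin 4]→ₗ[ℤ] ℂ, UNL.bdry b W Φ = 0)
    (Φ : (Additive (UNL.Gn b N → ℂˣ)) [⋀^Fin 4]→ₗ[ℤ] ℂ) : UNL.bdry b (syW W) Φ = 0 := by
  have hb : ∀ (V : UNL.G N → UNL.G N → ℤ) (Ψ : (Additive (UNL.Gn b N → ℂˣ)) [⋀^Fin 4]→ₗ[ℤ] ℂ),
      UNL.bdry b V Ψ = ∑ s : UNL.G N, ∑ t : UNL.G N,
        ∑ k ∈ (Finset.univ : Finset (UNL.G N)).erase 0,
        ∑ l ∈ (Finset.univ : Finset (UNL.G N)).erase 0, V k l • syX b (syT b Ψ s t) k l :=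
    fun _ _ => rfl
  have h1 := h Φ
  have h2 := h (Φ.compLinearMap (syS b N))
  rw [hb] at h1 h2
  rw [hb]
  rw [Finset.sum_congr rfl fun s _ => Finset.sum_congr rfl fun t _ =>
    sy_sum W (syX b (syT b Φ s t)) (sy_X1 b _) (sy_X2 b _)]
  simp only [Finset.sum_sub_distrib, ← Finset.smul_sum]
  rw [h1]
  have h3 : ∑ s : UNL.G N, ∑ t : UNL.G N,
        ∑ k ∈ (Finset.univ : Finset (UNL.G N)).erase 0,
        ∑ l ∈ (Finset.univ : Finset (UNL.G N)).erase 0, W k l • syX b (syT b Φ s t) l k = 0 := by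
    rw [← h2]
    conv_lhs => rw [Finset.sum_comm]
    refine Finset.sum_congr rfl fun s _ => Finset.sum_congr rfl fun t _ =>
      Finset.sum_congr rfl fun k _ => Finset.sum_congr rfl fun l _ => ?_
    rw [sy_X_swap]
  rw [h3]
  simp

end

end RN2
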