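import Pool.Agent.RN2.Kr
import Pool.Agent.RN2.Dc
import Pool.Agent.RN2.Sp
import Pool.Agent.RN2.De

/-!
# RN2.Wd: closed weights

Let `l ∈ G N`, `A = Al W l`: `A 0 = 0`, `Σ A = 0` (`wc_diag`, `wc_Al` in `RNK/Wc`, private). `K_of_closed`: `Σ_k A k gd b δ k = 0`
for all `δ`. For `x` prime to `N` (`Cp_iff`) apply it to `x l` and `δ = lg` (`gd_lg`): `Al W (x l) (x k) = Al W l k` (`hinv`), so
`Σ_k A k fg (x k) = 0`. Let `P` be a finite set of pairwise non associated primes such that every prime divisor of `N` is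
associated to one of them (`UniqueFactorizationMonoid`), `U` the set of all units (`finU`). If `φ : G N → ℚ` satisfies the
relations `Dst q` for `q ∈ P ∪ U` then it is unit invariant (`Dst u`: the fibre of `m` is one point) and satisfies `Dst q` for
all primes `q ∣ N` (`q = ε q₀`: the fibre of `m` under `q` is the fibre of `ε⁻¹ m` under `q₀`), so `Σ A φ = 0` (`dist_zero`).
`span_rel` gives `c`, `c_zero` gives `c q 0 = 0` for `q ∈ P`; for units `u` the value `c u 0` does not matter (`Rl u c k` for `k ≠ 0`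
involves only `u k ≠ 0`, `k`; at `k = 0` it is `0`), put it equal to `0`. So `cl` of `CW` holds (index `P ∪ U` by `Fin J`,
`c j l k`; `q ∣ N` gives `q'`).
-/

open RNK

namespace RN2

noncomputable section

variable {D : OD} {N : ℕ} [NeZero N]

/-! ### the total mass -/

private theorem wd_diag {Γ : Type*} [AddCommGroup Γ] [Fintype Γ] {W : Γ → Γ → ℤ}
    (hev : ∀ k l, W (-k) l = W k l) (hanti : ∀ k l, W l k = -W k l) (l : Γ) :
    ∑ k : Γ, W k (k + l) = 0 := by
  have ev2 : ∀ x y, W x (-y) = W x y := fun x y => by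
    rw [hanti (-y) x, hev, ← hanti y x]
  have h1 : ∑ k : Γ, W k (k + l) = -∑ k : Γ, W (k + l) k := by
    rw [← Finset.sum_neg_distrib]
    exact Finset.sum_congr rfl fun k _ => hanti (k + l) k
  have h2 : ∑ k : Γ, W (k + l) k = ∑ k : Γ, W k (k + l) := by
    rw [← Equiv.sum_comp ((Equiv.neg Γ).trans (Equiv.addRight (-l)))
      (fun k : Γ => W (k + l) k)]
    refine Finset.sum_congr rfl fun k _ => ?_
    have e1 : ((Equiv.neg Γ).trans (Equiv.addRight (-l))) k = -(k + l) := by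
      simp
      abel
    rw [e1, ev2]
    have e2 : -(k + l) + l = -k := by abel
    rw [e2, hev]
  rw [h2] at h1
  linarith

private theorem wd_Al {W : UNL.G N → UNL.G N → ℤ}
    (hev : ∀ k l, W (-k) l = W k l) (hanti : ∀ k l, W l k = -W k l)
    (hrow : ∀ l, ∑ k, W k l = 0) (l : UNL.G N) : ∑ k : UNL.G N, Al W l k = 0 := by
  simp only [Al, Finset.sum_sub_distrib]
  have h1 := hrow l
  have h2 := wd_diag hev hanti l
  have h3 : ∑ k : UNL.G N, (W k l : ℚ) = 0 := by exact_mod_cast h1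
  have h4 : ∑ k : UNL.G N, (W k (k + l) : ℚ) = 0 := by exact_mod_cast h2
  rw [h3, h4, sub_zero]

omit [NeZero N] in
private theorem wd_Al0 (W : UNL.G N → UNL.G N → ℤ) (l : UNL.G N) : Al W l 0 = 0 := by
  rw [Al, zero_add, sub_self]

/-! ### representatives of the prime divisors of `N` -/

private theorem wd_units : {x : D.O | IsUnit x}.Finite :=
  (nn_fin (D := D) 1).subset fun _ hx => (nn_eq_one.2 hx).le

private theorem wd_primes (N : ℕ) [NeZero N] : {q : D.O | Prime q ∧ q ∣ (N : D.O)}.Finite := by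
  refine (nn_fin (D := D) (nn D (N : D.O))).subset ?_
  rintro q ⟨_, r, hr⟩
  have hN : (N : D.O) ≠ 0 := by
    intro h
    have h1 := congrArg (fun y : D.O => (y : ℂ)) h
    simp only [Subring.coe_zero] at h1
    have h2 : ((N : D.O) : ℂ) = (N : ℂ) := by simp
    rw [h2] at h1
    exact NeZero.ne N (by exact_mod_cast h1)
  have h0 : 0 < nn D (N : D.O) := Nat.pos_of_ne_zero fun h => hN (nn_eq_zero.1 h)
  have h1 : nn D q ∣ nn D (N : D.O) := ⟨nn D r, by rw [← nn_mul, ← hr]⟩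
  exact Nat.le_of_dvd h0 h1

private def wd_rep (q : D.O) : D.O := Quotient.out (Associates.mk q)

private theorem wd_rep_mk (q : D.O) : Associates.mk (wd_rep q) = Associates.mk q :=
  Quotient.out_eq (Associates.mk q)

private theorem wd_rep_assoc (q : D.O) : Associated (wd_rep q) q :=
  Associates.mk_eq_mk_iff_associated.1 (wd_rep_mk q)

private theorem wd_P (D : OD) (N : ℕ) [NeZero N] : ∃ P : Finset D.O,
    (∀ q ∈ P, Prime q ∧ q ∣ (N : D.O)) ∧ (∀ q ∈ P, ∀ q' ∈ P, Associated q q' → q = q') ∧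
      ∀ q : D.O, Prime q → q ∣ (N : D.O) → ∃ q₀ ∈ P, Associated q₀ q := by
  classical
  refine ⟨(wd_primes (D := D) N).toFinset.image wd_rep, ?_, ?_, ?_⟩
  · intro q hq
    obtain ⟨r, hr, rfl⟩ := Finset.mem_image.1 hq
    rw [Set.Finite.mem_toFinset] at hr
    have h := wd_rep_assoc r
    exact ⟨h.symm.prime hr.1, h.dvd.trans hr.2⟩
  · intro q hq q' hq' h
    obtain ⟨r, hr, rfl⟩ := Finset.mem_image.1 hq
    obtain ⟨r', hr', rfl⟩ := Finset.mem_image.1 hq'
    have h1 : Associates.mk r = Associates.mk r' := by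
      rw [← wd_rep_mk r, ← wd_rep_mk r', Associates.mk_eq_mk_iff_associated]
      exact h
    unfold wd_rep
    rw [h1]
  · intro q hq hqN
    refine ⟨wd_rep q, Finset.mem_image.2 ⟨q, ?_, rfl⟩, wd_rep_assoc q⟩
    rw [Set.Finite.mem_toFinset]
    exact ⟨hq, hqN⟩

/-! ### units -/

private theorem wd_uinv (u : D.Oˣ) (k : UNL.G N) :
    ac ((u⁻¹ : D.Oˣ) : D.O) (ac (u : D.O) k) = k ∧
      ac (u : D.O) (ac ((u⁻¹ : D.Oˣ) : D.O) k) = k := by
  rw [← ac_mul, ← ac_mul, Units.inv_mul, Units.mul_inv, ac_one]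
  exact ⟨rfl, rfl⟩

open Classical in
private theorem wd_Dst_unit {φ : UNL.G N → ℂ} {u : D.Oˣ} (h : Dst (u : D.O) φ) (k : UNL.G N) :
    φ (ac (u : D.O) k) = φ k := by
  have h1 := h (ac (u : D.O) k) ⟨k, rfl⟩
  rw [← h1]
  have h2 : (Finset.univ.filter (fun k' : UNL.G N => ac (u : D.O) k' = ac (u : D.O) k)) = {k} := by
    ext k'
    rw [Finset.mem_filter, Finset.mem_singleton]
    constructor
    · rintro ⟨-, h3⟩
      rw [← (wd_uinv u k').1, h3, (wd_uinv u k).1]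
    · rintro rfl
      exact ⟨Finset.mem_univ _, rfl⟩
  rw [h2, Finset.sum_singleton]

private theorem wd_Dst_assoc {φ : UNL.G N → ℂ} {q₀ : D.O} {u : D.Oˣ} (h : Dst q₀ φ)
    (hu : ∀ k, φ (ac (u : D.O) k) = φ k) : Dst (q₀ * (u : D.O)) φ := by
  intro m hm
  obtain ⟨k0, hk0⟩ := hm
  have h1 : ∀ k, ac (q₀ * (u : D.O)) k = m ↔ ac q₀ k = ac ((u⁻¹ : D.Oˣ) : D.O) m := by
    intro k
    rw [mul_comm, ac_mul]
    constructor
    · rintro rfl
      rw [(wd_uinv u _).1]
    · intro h2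
      rw [h2, (wd_uinv u _).2]
  have h2 := h (ac ((u⁻¹ : D.Oˣ) : D.O) m) ⟨k0, (h1 k0).1 hk0⟩
  have h3 : φ (ac ((u⁻¹ : D.Oˣ) : D.O) m) = φ m := by
    rw [← hu, (wd_uinv u m).2]
  rw [h3] at h2
  rw [← h2]
  refine Finset.sum_congr ?_ fun _ _ => rfl
  ext k
  rw [Finset.mem_filter, Finset.mem_filter, h1]

/-! ### relations with `c (0) = 0` -/

/-- the value at `0` replaced by `0` -/
private def wd_z (c : UNL.G N → ℚ) (k : UNL.G N) : ℚ := if k = 0 then 0 else c k

omit [NeZero N] in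
private theorem wd_z0 (c : UNL.G N → ℚ) : wd_z c 0 = 0 := if_pos rfl

omit [NeZero N] in
private theorem wd_z_eq {c : UNL.G N → ℚ} (h : c 0 = 0) : wd_z c = c := by
  funext k
  unfold wd_z
  split_ifs with hk
  · rw [hk, h]
  · rfl

private theorem wd_Rl_unit (u : D.Oˣ) (c : UNL.G N → ℚ) (k : UNL.G N) :
    Rl (toU D.a) (cod D (u : D.O)) (wd_z c) k = Rl (toU D.a) (cod D (u : D.O)) c k := by
  have hex : ∃ m : UNL.G N, UNL.sm (toU D.a) (cod D (u : D.O)) m = k :=
    ⟨ac ((u⁻¹ : D.Oˣ) : D.O) k, (wd_uinv u k).2⟩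
  have e : UNL.sm (toU D.a) (cod D (u : D.O)) k = ac (u : D.O) k := rfl
  unfold Rl
  rw [if_pos hex, if_pos hex, e]
  by_cases hk : k = 0
  · rw [hk, ac_zero, sub_self, sub_self]
  · have hk' : ac (u : D.O) k ≠ 0 := by
      intro h
      apply hk
      rw [← (wd_uinv u k).1, h, ac_zero]
    unfold wd_z
    rw [if_neg hk, if_neg hk']

theorem CW_of_closed (hN : Even N) {W : UNL.G N → UNL.G N → ℤ}
    (hev : ∀ k l, W (-k) l = W k l) (hanti : ∀ k l, W l k = -W k l)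
    (hrow : ∀ l, ∑ k, W k l = 0) (hsupp : ∀ k l, W k l ≠ 0 → (N / 2) • k = 0)
    (hinv : ∀ d : ℤ × ℤ, (∃ e z : ℤ × ℤ, UNL.de (toU D.a) d * UNL.de (toU D.a) e +
      N * UNL.de (toU D.a) z = 1) →
      ∀ k l, W (UNL.sm (toU D.a) d k) (UNL.sm (toU D.a) d l) = W k l)
    (hcl : ∀ Φ : (Additive (UNL.Gn (toU D.a) N → ℂˣ)) [⋀^Fin 4]→ₗ[ℤ] ℂ,
      UNL.bdry (toU D.a) W Φ = 0) : CW (toU D.a) N W := by
  classical
  -- the weights `A_l`
  have hAs : ∀ l, ∑ k : UNL.G N, Al W l k = 0 := wd_Al hev hanti hrow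
  have hK : ∀ l (δ : Additive ℂˣ →+ ℂ),
      ∑ k : UNL.G N, ((Al W l k : ℚ) : ℂ) * gd (toU D.a) δ k = 0 := by
    intro l δ
    rw [← K_of_closed hN hev hanti hrow hsupp hcl δ l]
    refine Finset.sum_congr rfl fun k _ => ?_
    rw [Al]
    push_cast
    rfl
  have hF : ∀ l (x : D.O), Cp N x → ∑ k : UNL.G N, ((Al W l k : ℚ) : ℝ) * fg D (ac x k) = 0 := by
    intro l x hx
    obtain ⟨y, -, hy⟩ := Cp_inv (N := N) hx
    have h1 := hK (ac x l) lg
    simp only [gd_lg] at h1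
    have h2 : ∑ k : UNL.G N, ((Al W (ac x l) k : ℚ) : ℝ) * fg D k = 0 := by
      have h3 : ((∑ k : UNL.G N, ((Al W (ac x l) k : ℚ) : ℝ) * fg D k : ℝ) : ℂ) = 0 := by
        rw [← h1]
        push_cast
        rfl
      exact_mod_cast h3
    rw [← h2]
    refine Finset.sum_nbij' (fun k => ac x k) (fun k => ac y k) (fun _ _ => Finset.mem_univ _)
      (fun _ _ => Finset.mem_univ _) (fun k _ => (hy k).1) (fun k _ => (hy k).2) ?_
    intro k _
    have h4 := hinv (cod D x) (Cp_iff.1 hx)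
    have h5 : Al W (ac x l) (ac x k) = Al W l k := by
      rw [Al, Al, ← ac_addk]
      have h6 : W (ac x k) (ac x l) = W k l := h4 k l
      have h7 : W (ac x k) (ac x (k + l)) = W k (k + l) := h4 k (k + l)
      rw [h6, h7]
    rw [h5]
  -- the relations
  obtain ⟨P, hP, hne, hPa⟩ := wd_P D N
  set U : Finset D.O := (wd_units (D := D)).toFinset with hU
  have hUm : ∀ u, u ∈ U ↔ IsUnit u := fun u => by rw [hU, Set.Finite.mem_toFinset]; rfl
  have hsp : ∀ l, ∃ c : D.O → UNL.G N → ℚ, ∀ k,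
      Al W l k = ∑ q ∈ P ∪ U, Rl (toU D.a) (cod D q) (c q) k := by
    intro l
    refine span_rel (P ∪ U) fun φ hφ => ?_
    have hu : ∀ (u : D.Oˣ) (k : UNL.G N), ((φ (ac (u : D.O) k) : ℚ) : ℂ) = φ k := by
      intro u k
      exact wd_Dst_unit (φ := fun k => ((φ k : ℚ) : ℂ))
        (hφ u (Finset.mem_union_right _ ((hUm _).2 u.isUnit))) k
    have hd : ∀ q : D.O, Prime q → q ∣ (N : D.O) → Dst q (fun k : UNL.G N => ((φ k : ℚ) : ℂ)) := by
      intro q hq hqN
      obtain ⟨q₀, hq₀, u, rfl⟩ := hPa q hq hqN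
      exact wd_Dst_assoc (hφ q₀ (Finset.mem_union_left _ hq₀)) (hu u)
    have h1 := dist_zero (wd_Al0 W l) (hF l) hu hd
    exact_mod_cast h1
  choose c hc using hsp
  have hcz : ∀ l, ∀ q ∈ P, c l q 0 = 0 := fun l =>
    c_zero hP hne (fun u hu => (hUm u).1 hu) (hc l) (hAs l) (hK l)
  have hzz : ∀ l, ∀ q ∈ P ∪ U, ∀ k, Rl (toU D.a) (cod D q) (wd_z (c l q)) k =
      Rl (toU D.a) (cod D q) (c l q) k := by
    intro l q hq k
    rcases Finset.mem_union.1 hq with h | h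
    · rw [wd_z_eq (hcz l q h)]
    · obtain ⟨u, rfl⟩ := (hUm q).1 h
      exact wd_Rl_unit u _ k
  have hdiv : ∀ q ∈ P ∪ U, q ∣ (N : D.O) := by
    intro q hq
    rcases Finset.mem_union.1 hq with h | h
    · exact (hP q h).2
    · exact ((hUm q).1 h).dvd
  refine ⟨hev, hanti, hrow, hsupp, hinv, ?_⟩
  set e := (P ∪ U).equivFin with he
  have hq' : ∀ j : Fin (P ∪ U).card, ∃ r : D.O, (N : D.O) = ((e.symm j : D.O)) * r :=
    fun j => hdiv _ (e.symm j).2
  choose r hr using hq'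
  refine ⟨(P ∪ U).card, fun j => cod D (e.symm j : D.O), fun j => cod D (r j),
    fun j l => wd_z (c l (e.symm j : D.O)), ?_, fun j l => wd_z0 _, ?_⟩
  · intro j
    rw [de_toU, de_toU, xx_cod, xx_cod, ← Subring.coe_mul, ← hr]
    simp
  · intro l k
    have h1 : ∀ k, Al W l k = ∑ j, Rl (toU D.a) (cod D (e.symm j : D.O))
        (wd_z (c l (e.symm j : D.O))) k := by
      intro k
      rw [hc l k, ← Finset.sum_coe_sort (P ∪ U),
        ← Equiv.sum_comp e.symm (fun q : (P ∪ U : Finset D.O) =>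
          Rl (toU D.a) (cod D (q : D.O)) (c l (q : D.O)) k)]
      refine Finset.sum_congr rfl fun j _ => ?_
      exact (hzz l _ (e.symm j).2 k).symm
    rw [h1 k, h1 (-k), ← Finset.sum_add_distrib]

end

end RN2
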